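import Pool.Agent.MP_4f1c5b_al.H95.SpecB

/-!
Sequences of functions with pole divisors of bounded degree represent elements of the field.
-/

namespace Pool.Agent.MP_4f1c5b_al.H95

open Filter Set WithZero Polynomial Module
open Pool.Agent.MP_cce4c9_lc Pool.Agent.MP_cce4c9_lc.H87 Pool.Agent.MP_cce4c9_lc.H7
open scoped IntermediateField

namespace BddA

/-- A relation of bounded degree. -/
theorem rel {k K : Type} [Field k] [IsAlgClosed k] [Field K] [Algebra k K] (hK : IsFF k K)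
    {t w : K} (ht : Transcendental k t) {d n : ℕ} (hd : finrank k⟮t⟯ K = d) {D : Dv k K}
    (h0 : 0 ≤ D) (hn : D.degree ≤ n) (hw : w ∈ LL D) :
    ∃ c : Fin (2 * d + 2) × Fin (2 * n + 2) → k, (∃ p, c p ≠ 0) ∧
      ∑ r, (∑ s, algebraMap k K (c (r, s)) * t ^ (s : ℕ)) * w ^ (r : ℕ) = 0 := by
  let A : Dv k K := dv k t⁻¹ ⊔ 0
  have hA : 0 ≤ A := le_sup_right
  have hdA : A.degree = d := by
    rw [← hd]; exact H82.degree_pole deg hK (nonconst_of_transc ht)
  let E : Dv k K := ((2 * n + 1 : ℕ) : ℤ) • A + ((2 * d + 1 : ℕ) : ℤ) • D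
  have hE : 0 ≤ E := add_nonneg (smul_nonneg (by positivity) hA) (smul_nonneg (by positivity) h0)
  have := (ll k K hK).1 E
  have h2 : ∀ p : Fin (2 * d + 2) × Fin (2 * n + 2), t ^ (p.2 : ℕ) * w ^ (p.1 : ℕ) ∈ LL E :=
    fun p => H82.mul_mem_LL (H82.pow_mem_LL hA (H82.mem_pole deg hK t) (Nat.lt_succ_iff.1 p.2.2))
      (H82.pow_mem_LL h0 hw (Nat.lt_succ_iff.1 p.1.2))
  have h3 : ¬ LinearIndependent k fun p : Fin (2 * d + 2) × Fin (2 * n + 2) =>
      t ^ (p.2 : ℕ) * w ^ (p.1 : ℕ) := fun h => by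
    have h4 : LinearIndependent k fun p => (⟨_, h2 p⟩ : LL E) :=
      LinearIndependent.of_comp (LL E).subtype h
    have h5 := h4.fintype_card_le_finrank
    rw [Fintype.card_prod, Fintype.card_fin, Fintype.card_fin] at h5
    obtain ⟨m, hm⟩ := Int.eq_ofNat_of_zero_le (H82.degree_nonneg hE)
    have h6 := H52.finrank_LL_le ll hK m E hE hm
    have h7 : ((2 * d + 2) * (2 * n + 2) : ℕ) ≤ E.degree + 1 := by
      rw [hm]; exact_mod_cast h5.trans h6
    rw [map_add, map_zsmul, map_zsmul, hdA, smul_eq_mul, smul_eq_mul] at h7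
    push_cast at h7
    have h8 : (0 : ℤ) ≤ d := by positivity
    have h9 : (0 : ℤ) ≤ n := by positivity
    nlinarith
  obtain ⟨c, hc, hp⟩ := Fintype.not_linearIndependent_iff.1 h3
  refine ⟨c, hp, ?_⟩
  rw [← hc, Fintype.sum_prod_type]
  simp only [Finset.sum_mul, Algebra.smul_def, mul_assoc]

variable {u : UP} {F : Type} [Field F] [Algebra ℂ F] {t : F} (M : Mod u F t)

/-- A root of a nonzero polynomial. -/
theorem top (w : ∀ i, M.K i) (N : ℕ) : ∀ (P : Fin N → F) (P' : Fin N → ∀ i, M.K i),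
    (∀ r, (P r, P' r) ∈ M.Γ) → (∃ r, P r ≠ 0) →
    (∀ᶠ i in (uf : Filter ℕ), ∑ r, P' r i * w i ^ (r : ℕ) = 0) → ∃ f, (f, w) ∈ M.Γ := by
  induction N with
  | zero => exact fun _ _ _ ⟨r, _⟩ => r.elim0
  | succ N ih =>
    intro P P' h1 ⟨r, hr⟩ h3
    by_cases h : P (Fin.last N) = 0
    · refine ih (fun j => P j.castSucc) (fun j => P' j.castSucc) (fun j => h1 _) ?_ ?_
      · revert hr
        refine Fin.lastCases (fun hr => absurd h hr) (fun j hr => ⟨j, hr⟩) r
      · filter_upwards [h3, (M.zero _ _ (h1 _)).1 h] with i a b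
        rw [Fin.sum_univ_castSucc, b, zero_mul, add_zero] at a
        exact a
    · refine M.acl N (fun j => P j.castSucc * (P (Fin.last N))⁻¹)
        (fun j => P' j.castSucc * fun i => (P' (Fin.last N) i)⁻¹) w
        (fun j => M.Γ.mul_mem (h1 j.castSucc) (M.inv (h1 _))) ?_
      filter_upwards [h3, ev_not.2 fun e => h ((M.zero _ _ (h1 _)).2 e)] with i a b
      rw [Fin.sum_univ_castSucc] at a
      apply mul_right_cancel₀ b
      rw [zero_mul, ← a, add_mul, add_comm, Finset.sum_mul, mul_comm (w i ^ N)]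
      refine congrArg₂ _ (Finset.sum_congr rfl fun j _ => ?_) rfl
      rw [Pi.mul_apply, Fin.val_castSucc]
      field_simp

end BddA

open BddA in
theorem bdd : StmtBDD := by
  intro u F _ _ t M ht n w hw
  obtain ⟨c, hc⟩ := ev_choose (α := fun i => Fin (2 * M.m.natDegree + 2) × Fin (2 * n + 2) → kk i)
    (fun _ => ⟨0⟩) (P := fun i c => (∃ p, c p ≠ 0) ∧
      ∑ r, (∑ s, algebraMap (kk i) (M.K i) (c (r, s)) * M.t' i ^ (s : ℕ)) * w i ^ (r : ℕ) = 0) (by
    filter_upwards [hw, M.pres] with i ⟨D, a1, a2, a3⟩ b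
    exact rel (M.ff i) b.1 b.2.2.1 a1 a2 a3)
  obtain ⟨p, hp⟩ := ev_exists.1 (hc.mono fun i hi => hi.1)
  refine top M w _ (fun r => ∑ s, algebraMap ℂ F (u.π fun i => c i (r, s)) * t ^ (s : ℕ))
    (fun r i => ∑ s, algebraMap (kk i) (M.K i) (c i (r, s)) * M.t' i ^ (s : ℕ)) (fun r => ?_)
    ⟨p.1, fun h => ?_⟩ (hc.mono fun i hi => hi.2)
  · have := M.Γ.sum_mem (t := Finset.univ) fun (s : Fin (2 * n + 2)) _ =>
      M.Γ.mul_mem (M.const fun i => c i (r, s)) (M.Γ.pow_mem M.ht s)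
    convert this using 1
    refine Prod.ext ?_ (funext fun i => ?_)
    · simp only [Prod.fst_sum, Prod.fst_mul, Prod.pow_fst]
    · simp only [Prod.snd_sum, Prod.snd_mul, Prod.pow_snd, Finset.sum_apply, Pi.mul_apply,
        Pi.pow_apply]
  · have h1 := Fintype.linearIndependent_iff.1
      ((H52.li_pow ht).comp (fun s : Fin (2 * n + 2) => (s : ℕ)) Fin.val_injective)
      (fun s => u.π fun i => c i (p.1, s)) (by
        simpa only [Algebra.smul_def, Function.comp] using h) p.2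
    obtain ⟨i, a, b⟩ := (hp.and ((u.ker _).1 h1)).exists
    exact a b

end Pool.Agent.MP_4f1c5b_al.H95
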