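import Pool.Agent.MP_4f1c5b_al.H95.SpecA
import Pool.Agent.MP_4f1c5b_al.H1.Euler

/-! Euler characteristics satisfy the relations between the point counts at `q = 1`. -/

namespace Pool.Agent.MP_4f1c5b_al.H95

open Filter Set Polynomial AlgebraicGeometry CategoryTheory IsLocalRing NumberField
open Pool.Agent.MP_4f1c5b_al.H1

/-- Limits of point counts modulo primes. -/
def ELP {o : Type} [CommRing o] {r : ℕ} (V : Fin r → Over (Spec (CommRingCat.of o)))
    (c : Fin r → ℤ) : Prop :=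
  ∀ l N : ℕ, l.Prime → ∃ (O : Type) (_ : CommRing O) (_ : IsDomain O)
    (_ : IsDiscreteValuationRing O) (_ : CharZero O) (_ : Algebra o O)
    (_ : IsAdicComplete (maximalIdeal O) O) (_ : Finite (ResidueField O)),
      N ≤ ringChar (ResidueField O) ∧ (Nat.card (ResidueField O) : ℤ) ≡ 1 [ZMOD l] ∧
        ∀ i, (cnt (V i) (ResidueField O) : ℤ) ≡ c i [ZMOD l]

theorem eq_zero_of_primes {x : ℤ} (h : ∀ l : ℕ, l.Prime → (l : ℤ) ∣ x) : x = 0 := by
  obtain ⟨l, h1, h2⟩ := Nat.exists_infinite_primes (x.natAbs + 1)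
  refine Int.eq_zero_of_dvd_of_natAbs_lt_natAbs (h l h2) ?_
  rw [Int.natAbs_natCast]
  omega

theorem ELP.rel {o : Type} [CommRing o] {r : ℕ} {V : Fin r → Over (Spec (CommRingCat.of o))}
    {c : Fin r → ℤ} (hc : ELP V c) (α : Fin r → ℚ[X]) (hα : α ∈ Rel V) :
    ∑ i, (α i).eval 1 * (c i : ℚ) = 0 := by
  obtain ⟨N, hN⟩ := mem_rel.1 hα
  obtain ⟨L, β, hL, hβ⟩ := exists_int α
  have h5 : ∑ i, (β i).eval 1 * c i = 0 := eq_zero_of_primes fun l hl => by
    obtain ⟨O, _, _, _, _, _, _, _, hp, hq, hV⟩ := hc l N hl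
    have h1 := hN O hp
    have h2 : ∑ i, (β i).eval (Nat.card (ResidueField O) : ℤ) * (cnt (V i) (ResidueField O) : ℤ)
        = 0 := by
      apply Int.cast_injective (α := ℚ)
      push_cast
      simp only [hβ, mul_assoc, ← Finset.mul_sum]
      push_cast
      rw [h1, mul_zero]
    rw [← sub_zero (∑ i, _), ← h2, ← Finset.sum_sub_distrib]
    refine Finset.dvd_sum fun i _ => Int.ModEq.dvd (Int.ModEq.mul ?_ (hV i))
    exact (Int.modEq_iff_dvd.2 (hq.dvd.trans (sub_dvd_eval_sub _ _ _)))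
  have h6 : ((∑ i, (β i).eval 1 * c i : ℤ) : ℚ) = L * ∑ i, (α i).eval 1 * (c i : ℚ) := by
    push_cast
    simp only [hβ, mul_assoc, ← Finset.mul_sum]
    simp
  rw [h5, Int.cast_zero] at h6
  exact (mul_eq_zero.1 h6.symm).resolve_left (Int.cast_ne_zero.2 hL)

theorem IsEuler.toE {χ : ∀ n : ℕ, Set (Fin n → ℂ) → ℤ} (h : IsEuler χ) (E : Subfield ℂ) :
    IsEulerE E χ :=
  ⟨h.pt, fun n S T hS hT => h.add n S T hS.con hT.con, fun n B hB => h.line n B hB.con,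
    fun n S B d hS hB => h.cover n S B d hS.con hB.con⟩

theorem card_zero {o F K : Type} [CommRing o] [Field F] [Field K] [Algebra o F] {n : ℕ}
    (j : F →+* K) (lam : o →+* K) (s : K → K) (h1 : ∀ a, j (algebraMap o F a) = lam a)
    (h2 : ∀ x, s x = x ↔ x ∈ range j) (J : Finset (MvPolynomial (Fin n) o)) :
    {z : Fin n → F | ∀ p ∈ J, MvPolynomial.aeval z p = 0}.ncard =
      (Fx s 1 (⋂ p : J, {z | p.1.eval₂ lam z = 0})).ncard := by
  have h3 : ∀ (z : Fin n → F) p, j (MvPolynomial.aeval z p) = p.eval₂ lam (j ∘ z) := fun z p => by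
    rw [MvPolynomial.aeval_def, MvPolynomial.eval₂_comp_left,
      show j.comp (algebraMap o F) = lam from RingHom.ext h1]
  refine ncard_congr (fun z _ => j ∘ z) (fun z hz => ⟨mem_iInter.2 fun p => ?_,
    funext fun l => (h2 _).2 ⟨_, rfl⟩⟩) (fun z z' _ _ e => j.injective.comp_left e) fun y hy => ?_
  · rw [mem_ofPred_eq, ← h3, hz p.1 p.2, map_zero]
  · choose z hz using fun l => (h2 (y l)).1 (congrFun hy.2 l)
    obtain rfl : j ∘ z = y := funext hz
    exact ⟨z, fun p hp => j.injective (by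
      rw [h3, map_zero]; exact mem_iInter.1 hy.1 ⟨p, hp⟩), rfl⟩

theorem bridge (h1 : StmtSCH1) (h2 : StmtSCH2) (hW : StmtWITT) (hU : StmtUEX) (hC : StmtCTX)
    (hN : StmtUNI) (hE : ∀ (c : Ctx) (l : ℕ), l.Prime → EU c l) {k : Type} [Field k]
    [NumberField k] [Algebra (𝓞 k) ℂ] {r : ℕ} (V : Fin r → Over (Spec (CommRingCat.of (𝓞 k))))
    (χ : Fin r → ∀ n : ℕ, Set (Fin n → ℂ) → ℤ) (hχ : ∀ i, IsEuler (χ i))
    (C : ∀ i, Charts (V i)) : ELP V fun i => ∑ j, χ i ((C i).n j) ((C i).piece ℂ j) := by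
  intro l N hl
  have := Fact.mk hl
  obtain ⟨u, lam, hlam⟩ := hU k
  have : Countable (𝓞 k) := Finsupp.Countable.of_moduleFinite (R := ℤ)
  obtain ⟨c, rfl, hc⟩ := hC u _ (countable_range (algebraMap (𝓞 k) ℂ))
  have := c.cnt
  obtain ⟨χl, hχl, hcount⟩ := hE c l hl
  choose J hJ using fun i j => h1 _ (V i) (C i) j
  have e1 : ∀ i j, (C i).piece ℂ j = ⋂ p : J i j, {z | p.1.eval₂ (algebraMap (𝓞 k) ℂ) z = 0} :=
    fun i j => by
      rw [hJ]; ext z; simp [MvPolynomial.aeval_def]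
  have e2 : ∀ᶠ m in (uf : Filter ℕ), ∀ i j, ((Fx (c.σ m) 1
      (⋂ p : J i j, {z | p.1.eval₂ (lam m) z = 0})).ncard : ZMod l) =
        (χ i ((C i).n j) ((C i).piece ℂ j) : ℤ) :=
    eventually_all.2 fun i => eventually_all.2 fun j => by
      have h3 : ConE c.E ((C i).piece ℂ j) := by
        rw [e1]
        refine ConE.iInter fun p => ?_
        simpa only [MvPolynomial.eval_map] using ConE.zero (E := c.E)
          (p.1.map (algebraMap (𝓞 k) ℂ)) fun m => by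
            rw [MvPolynomial.coeff_map]; exact hc ⟨_, rfl⟩
      obtain ⟨z, hz⟩ := hN c.E c.u _ _ h3
      rw [hz ℤ _ ((hχ i).toE _), Int.cast_id, ← hz _ _ hχl]
      exact hcount _ _ _ (e1 i j ▸ UT.rep_iInter fun p => c.u.rep_zero lam _ hlam p.1)
  have e3 : ∀ᶠ m in (uf : Filter ℕ), ∀ a, c.σ m (lam m a) = lam m a := by
    obtain ⟨s, hs⟩ := Module.Finite.fg_top (R := ℤ) (M := 𝓞 k)
    filter_upwards [(eventually_all_finset s).2 fun a _ =>
      c.fix (fun m => lam m a) (by rw [hlam]; exact hc ⟨_, rfl⟩)] with m hm a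
    have ha : a ∈ Submodule.span ℤ (s : Set (𝓞 k)) := hs ▸ trivial
    induction ha using Submodule.span_induction with
    | mem a ha => exact fr_mul_fix (hm a ha) _
    | zero => simp
    | add a b _ _ ha hb => rw [map_add, map_add, ha, hb]
    | smul n a _ ha => rw [map_zsmul, map_zsmul, ha]
  obtain ⟨N₀, hN₀⟩ := hW k
  obtain ⟨m, ⟨⟨⟨e2, e3⟩, e4⟩, e5⟩, e6⟩ :=
    ((((e2.and e3).and (c.q_one l)).and (ev_pr N)).and (ev_pr N₀)).exists
  let F : Subfield (kk m) := (c.σ m).toRingHom.eqLocusField (RingHom.id _)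
  obtain ⟨f1, f2⟩ := fix_card m (c.e_pos m)
  have : Finite F := f1
  obtain ⟨O, _, _, _, _, _, _, e, he⟩ := hN₀ F ((lam m).codRestrict F e3)
    (by rwa [ringChar.eq F (pr m)])
  have : Finite (ResidueField O) := Finite.of_equiv _ e.symm.toEquiv
  let j := F.subtype.comp e.toRingHom
  have : CharP (ResidueField O) (pr m) := (j.charP_iff_charP _).2 inferInstance
  refine ⟨O, _, ‹_›, ‹_›, ‹_›, ‹_›, ‹_›, ‹_›, by rwa [ringChar.eq _ (pr m)], ?_, fun i => ?_⟩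
  · rw [← ZMod.intCast_eq_intCast_iff, Nat.card_congr e.toEquiv, Int.cast_natCast, Int.cast_one,
      ← e4, ← f2]
    rfl
  · rw [← ZMod.intCast_eq_intCast_iff, h2 _ _ (C i)]
    push_cast
    refine Finset.sum_congr rfl fun a _ => ?_
    rw [← e2, hJ, card_zero j (lam m) (c.σ m) (fun a => congrArg Subtype.val (he a)) fun x =>
      ⟨fun hx => ⟨e.symm ⟨x, hx⟩, congrArg Subtype.val (e.apply_symm_apply _)⟩,
        fun ⟨y, hy⟩ => hy ▸ (e y).2⟩]

theorem exists_chi (h0 : StmtCH) (h1 : StmtSCH1) (h2 : StmtSCH2) (hW : StmtWITT) (hU : StmtUEX)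
    (hC : StmtCTX) (hN : StmtUNI) (hX : StmtEXI) (hE : ∀ (c : Ctx) (l : ℕ), l.Prime → EU c l)
    {k : Type} [Field k] [NumberField k] [Algebra (𝓞 k) ℂ] {r : ℕ}
    (V : Fin r → Over (Spec (CommRingCat.of (𝓞 k))))
    (hV : ∀ i, LocallyOfFiniteType (V i).hom ∧ QuasiCompact (V i).hom) :
    ∃ c : Fin r → ℤ, (∀ i, IsChi (V i) (c i)) ∧ ELP V c := by
  obtain ⟨χ, hχ⟩ := hX (hU k).choose hE
  have C := fun i => (h0 _ (V i) (hV i).1 (hV i).2).some
  refine ⟨_, fun i => ⟨⟨χ, hχ⟩, ⟨C i⟩, fun χ' hχ' C' => ?_⟩,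
    bridge h1 h2 hW hU hC hN hE V (fun _ => χ) (fun _ => hχ) C⟩
  refine sub_eq_zero.1 (eq_zero_of_primes fun l hl => ?_)
  obtain ⟨O, _, _, _, _, _, _, _, -, -, h⟩ := bridge h1 h2 hW hU hC hN hE (fun _ : Fin 2 => V i)
    ![χ, χ'] (Fin.forall_fin_two.2 ⟨hχ, hχ'⟩) ![C i, C'] l 0 hl
  exact ((h 0).symm.trans (h 1)).dvd

end Pool.Agent.MP_4f1c5b_al.H95
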