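import Pool.Agent.MP_4f1c5b_al.H95.SpecB

/-! The twisted point count on a constructible curve. -/

namespace Pool.Agent.MP_4f1c5b_al.H95

open Filter Set
open Pool.Agent.MP_cce4c9_lc.H87 Pool.Agent.MP_cce4c9_lc.H7

namespace ClA

theorem isAlg_mono {E E' : Subfield ℂ} (h : E ≤ E') {c : ℂ} (hc : IsAlgebraic E c) :
    IsAlgebraic E' c := by
  obtain ⟨p, hp, h0⟩ := hc
  refine ⟨p.map (Subfield.inclusion h), (Polynomial.map_ne_zero_iff (RingHom.injective _)).2 hp, ?_⟩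
  rw [Polynomial.aeval_def, Polynomial.eval₂_map]
  exact h0

theorem psi_mul {F : Type} [Field F] [Algebra ℂ F] (l : ℕ) (t : F) (T : Set ℂ) (g h : SA ℂ F)
    (h1 : actV l h = LinearMap.id) (h2 : ∀ v ∈ bd t T, h • v = v) :
    psi l t T (g * h) = psi l t T g := by
  have h3 : actV l h⁻¹ = LinearMap.id := by
    rw [← actV_one l, ← inv_mul_cancel h, actV_mul, h1]; rfl
  have h4 : {v ∈ bd t T | (g * h) • v = v} = {v ∈ bd t T | g • v = v} :=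
    Set.ext fun v => and_congr_right fun hv => by rw [mul_smul, h2 v hv]
  rw [psi, psi, h4, mul_inv_rev, actV_mul, h3]
  rfl

open Classical in
/-- The contribution of one component. -/
noncomputable def ph {ι : Type} {b0 : ι} (A : Comp ι b0) (l : ℕ) (T : Set ℂ) (τ : Equiv.Perm ι)
    (γ : ℂ ≃+* ℂ) : ZMod l :=
  if h : ∃ g, Lf A.X γ τ g then psi l (A.X b0) T h.choose else 0

theorem ph_pos {ι : Type} {b0 : ι} {A : Comp ι b0} (l : ℕ) (T : Set ℂ) {τ : Equiv.Perm ι}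
    {γ : ℂ ≃+* ℂ} {g : SA ℂ A.F} (h : Lf A.X γ τ g) : ph A l T τ γ = psi l (A.X b0) T g := by
  have h1 : ∃ g, Lf A.X γ τ g := ⟨g, h⟩
  rw [ph, dif_pos h1, h1.choose_spec.uniq A.cv h]

theorem ph_neg {ι : Type} {b0 : ι} {A : Comp ι b0} (l : ℕ) (T : Set ℂ) {τ : Equiv.Perm ι}
    {γ : ℂ ≃+* ℂ} (h : ¬ ∃ g, Lf A.X γ τ g) : ph A l T τ γ = 0 := dif_neg h

theorem ph_mul {ι : Type} {b0 : ι} {A : Comp ι b0} (l : ℕ) (T : Set ℂ) (τ : Equiv.Perm ι)
    (γ : ℂ ≃+* ℂ) {δ : ℂ ≃+* ℂ} {h : SA ℂ A.F} (H : Lf A.X δ 1 h)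
    (h1 : actV l h = LinearMap.id) (h2 : ∀ v ∈ bd (A.X b0) T, h • v = v) :
    ph A l T τ (γ * δ) = ph A l T τ γ := by
  by_cases e : ∃ g, Lf A.X γ τ g
  · obtain ⟨g, hg⟩ := e
    rw [ph_pos l T hg, ph_pos l T (mul_one τ ▸ hg.mul H), psi_mul l _ T g h h1 h2]
  · rw [ph_neg l T e, ph_neg l T]
    rintro ⟨g, hg⟩
    exact e ⟨g * h⁻¹, by simpa using hg.mul H.inv⟩

theorem fx_card {K ι : Type} {n : ℕ} {s : K → K} {τ : Equiv.Perm ι} {W₀ : Set (ι → K)}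
    {W : Fin n → Set (ι → K)} (hf : ∀ V, (Fx s τ V).Finite) (h0 : ∀ j, Disjoint W₀ (W j))
    (h1 : ∀ j j', j ≠ j' → Disjoint (W j) (W j')) :
    (Fx s τ (W₀ ∪ ⋃ j, W j)).ncard = ∑ j, (Fx s τ (W j)).ncard + (Fx s τ W₀).ncard := by
  have e : Fx s τ (W₀ ∪ ⋃ j, W j) = (⋃ j, Fx s τ (W j)) ∪ Fx s τ W₀ := by
    ext x
    simp only [Fx, mem_union, mem_iUnion, mem_ofPred_eq, exists_and_right]
    tauto
  have d1 : Disjoint (⋃ j, Fx s τ (W j)) (Fx s τ W₀) :=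
    disjoint_iUnion_left.2 fun j => (h0 j).symm.mono (sep_subset _ _) (sep_subset _ _)
  have d2 : Pairwise (Function.onFun Disjoint fun j => Fx s τ (W j)) :=
    fun j j' h => (h1 j j' h).mono (sep_subset _ _) (sep_subset _ _)
  rw [e, ncard_union_eq d1 (finite_iUnion fun j => hf _) (hf _),
    ncard_iUnion_of_finite (fun j => hf _) d2, finsum_eq_sum_of_fintype]

end ClA

open ClA

theorem cl (hD : StmtDEC) (hP : StmtPTS) (hL : StmtLIFT) (hC : StmtCOUNT) (hM : StmtCOMP)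
    (hS : StmtPSI) (hO : StmtOPEN) (hA : StmtALG) (hK : StmtACL) : StmtCL := by
  intro ι _ b0 τ E _ C l _ u₀ hCE hτ hinv hfree hfin
  obtain ⟨n, A, T₁, hT₁, hcov, hdis, hperm⟩ := hD ι b0 C (hCE.mono le_top) hfin
  let Z : Fin n → Set (ι → ℂ) := fun j => Zs (A j).X
  have hZ : ∀ j, ConE ⊤ (Z j) := fun j => (hP ι _ (A j).X b0 (A j).cv).2.2.2
  have hCτ : ∀ γ ∈ Au E, ∀ z, z ∈ C ↔ γ ∘ z ∘ τ.symm ∈ C := fun γ hγ z => by
    rw [hCE.inv.iff hγ]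
    refine ⟨fun hz => ?_, fun hz => by simpa [Function.comp_def] using hinv _ hz⟩
    obtain ⟨k, hk⟩ := mem_powers_iff_mem_zpowers.2 (inv_mem (Subgroup.mem_zpowers τ))
    rw [show τ.symm = τ ^ k from hk.symm]
    clear hk
    induction k with
    | zero => exact hz
    | succ k ih => rw [pow_succ]; exact hinv _ ih
  -- the automorphisms that fix every component
  let H : Subgroup (ℂ ≃+* ℂ) :=
    { carrier := {δ | ∀ j z, z ∈ Z j ↔ δ ∘ z ∈ Z j}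
      one_mem' := fun _ _ => Iff.rfl
      mul_mem' := fun {a b} ha hb j z => (hb j z).trans (ha j _)
      inv_mem' := fun {a} ha j z => by
        rw [ha j (_ ∘ z), show a ∘ (a⁻¹ : ℂ ≃+* ℂ) ∘ z = z from
          funext fun l => a.apply_symm_apply _] }
  choose A₁ hA₁ hA₁' using fun j => (hZ j).exists_inv
  obtain ⟨B₁, hB₁, hB₁a, hB₁H⟩ := hO E H (⋃ j, A₁ j) (finite_iUnion hA₁)
    (fun θ hθ δ hδ j z => by
      obtain ⟨j', hj⟩ := hperm θ⁻¹ 1 rfl (fun z => (hCE.inv.iff (inv_mem hθ) z).symm) j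
      refine ((hj z).trans (hδ j' _)).trans (Iff.trans ?_ (hj _).symm)
      exact iff_of_eq (congrArg (· ∈ Z j') (funext fun l => (θ.symm_apply_apply _).symm)))
    fun θ _ hθ j z => ((hA₁' j).iff (Au_anti (subset_iUnion A₁ j) hθ) z).symm
  let E₂ := Subfield.closure (E ∪ B₁ : Set ℂ)
  have : Countable E₂ := cl_countable ((Set.countable_coe_iff.1 ‹Countable E›).union hB₁.countable)
  have hE₂ : ∀ δ, δ ∈ Au E₂ ↔ δ ∈ Au E ∧ δ ∈ Au B₁ := fun δ => by rw [Au_closure, Au_union]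
  have halg : ∀ c, IsAlgebraic E₂ c → IsAlgebraic E c := fun c hc => by
    obtain ⟨κ, -, h1, h2⟩ := hK E
    refine (h1 c).1 (h2 c (isAlg_mono (Subfield.closure_le.2 ?_) hc))
    rintro x (hx | hx)
    · exact (h1 x).2 (isAlgebraic_algebraMap (⟨x, hx⟩ : E))
    · exact (h1 x).2 (hB₁a x hx)
  have hH : ∀ δ ∈ Au E₂, δ ∈ H := fun δ hδ => hB₁H δ ((hE₂ δ).1 hδ).1 ((hE₂ δ).1 hδ).2
  have hlift : ∀ j, ∀ δ ∈ Au E₂, ∃ g, Lf (A j).X δ 1 g := fun j δ hδ =>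
    (hL ι _ (A j).X b0 (A j).cv).1 δ 1 (hH δ hδ j)
  -- the canonical set of bad values
  let T : Set ℂ := {c | ∃ z : ι → ℂ, z b0 = c ∧ ¬ ((z ∈ C ↔ ∃ j, z ∈ Z j) ∧
    ∀ j j', z ∈ Z j → z ∈ Z j' → j = j')} ∪ ⋃ j, {c | ¬ Gd (A j).X b0 c}
  have hT : T.Finite := by
    refine (hT₁.subset ?_).union (finite_iUnion fun j => (hP ι _ (A j).X b0 (A j).cv).1)
    rintro _ ⟨z, rfl, hz⟩
    by_contra h
    exact hz ⟨hcov z h, hdis z h⟩
  have hT1 : ∀ z : ι → ℂ, z b0 ∉ T → (z ∈ C ↔ ∃ j, z ∈ Z j) ∧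
      ∀ j j', z ∈ Z j → z ∈ Z j' → j = j' := fun z hz => by
    by_contra h
    exact hz (Or.inl ⟨z, rfl, h⟩)
  have hT2 : ∀ j, ∀ c ∉ T, Gd (A j).X b0 c := fun j c hc => by
    by_contra h
    exact hc (Or.inr (mem_iUnion.2 ⟨j, h⟩))
  have hTi : ∀ δ ∈ Au E₂, ∀ c ∈ T, δ c ∈ T := by
    rintro δ hδ c (⟨z, rfl, hz⟩ | hc)
    · refine Or.inl ⟨δ ∘ z, rfl, ?_⟩
      simpa only [← hH δ hδ _ z, hCE.inv.iff ((hE₂ δ).1 hδ).1] using hz
    · obtain ⟨j, hj⟩ := mem_iUnion.1 hc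
      obtain ⟨g, hg⟩ := hlift j δ hδ
      refine Or.inr (mem_iUnion.2 ⟨j, fun h => hj ?_⟩)
      have := hg.inv.gd (A j).cv h
      rwa [show (δ⁻¹ : ℂ ≃+* ℂ) (δ c) = c from δ.symm_apply_apply c] at this
  choose B₂ hB₂ hB₂a hB₂t using fun j =>
    hM ι _ (A j).X b0 l E₂ T (A j).cv hT (hlift j) hTi
  let C₀ : Set (ι → ℂ) := {x ∈ C | x b0 ∈ T}
  have hC₀ : C₀.Finite := (hT.biUnion fun t _ => hfin t).subset fun x hx =>
    mem_biUnion hx.2 ⟨hx.1, rfl⟩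
  let B₀ : Set ℂ := ⋃ x ∈ C₀, range x
  have hB₀ : B₀.Finite := hC₀.biUnion fun x _ => finite_range x
  have hB₀a : ∀ c ∈ B₀, IsAlgebraic E₂ c := hA E₂ B₀ hB₀ fun δ hδ c hc => by
    obtain ⟨x, hx, l, rfl⟩ := mem_iUnion₂.1 hc
    exact mem_biUnion (x := δ ∘ x) ⟨hCE.inv δ ((hE₂ δ).1 hδ).1 x hx.1, hTi δ hδ _ hx.2⟩ ⟨l, rfl⟩
  refine ⟨B₁ ∪ (B₀ ∪ ⋃ j, B₂ j), fun γ => ∑ j, ph (A j) l T τ γ + ((Fx γ τ C₀).ncard : ℕ),
    hB₁.union (hB₀.union (finite_iUnion hB₂)), ?_, fun γ hγ γ' hγ' e => ?_, ?_, ?_⟩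
  · rintro z (hz | hz | hz)
    · exact hB₁a z hz
    · exact halg z (hB₀a z hz)
    · obtain ⟨j, hj⟩ := mem_iUnion.1 hz
      exact halg z (hB₂a j z hj)
  · have h1 : γ⁻¹ * γ' ∈ Au (B₁ ∪ (B₀ ∪ ⋃ j, B₂ j)) := fun z hz => by
      show γ.symm (γ' z) = z
      rw [← e z hz, γ.symm_apply_apply]
    have h2 : γ⁻¹ * γ' ∈ Au E₂ :=
      (hE₂ _).2 ⟨mul_mem (inv_mem hγ) hγ', Au_anti subset_union_left h1⟩
    have h3 : Fx γ τ C₀ = Fx γ' τ C₀ := Set.ext fun x => and_congr_right fun hx => by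
      rw [show γ ∘ x = γ' ∘ x from funext fun l =>
        e _ (Or.inr (Or.inl (mem_biUnion hx ⟨l, rfl⟩)))]
    beta_reduce
    rw [h3]
    congr 1
    refine Finset.sum_congr rfl fun j _ => ?_
    obtain ⟨h, hh⟩ := hlift j _ h2
    obtain ⟨h4, h5⟩ := hB₂t j _ h2 (Au_anti (((subset_iUnion B₂ j).trans subset_union_right).trans
      subset_union_right) h1) h hh
    rw [← ph_mul l T τ γ hh h4 h5, mul_inv_cancel_left]
  · have h1 : Fx (1 : ℂ ≃+* ℂ) τ C₀ = ∅ :=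
      eq_empty_of_forall_notMem fun x hx => hfree x hx.1.1 hx.2.symm
    beta_reduce
    rw [h1, ncard_empty, Nat.cast_zero, add_zero]
    refine Finset.sum_eq_zero fun j _ => ?_
    by_cases e : ∃ g, Lf (A j).X 1 τ g
    · obtain ⟨g, hg⟩ := e
      rw [ph_pos l T hg]
      exact hS ι _ (A j).X b0 l T τ g u₀ (A j).cv hT (hT2 j) hτ hg fun z hz h =>
        hfree z ((hT1 z h).1.2 ⟨j, hz⟩)
    · exact ph_neg l T e
  · intro u e γ W hγ hind he hq hW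
    obtain ⟨W₀, hW₀⟩ := UT.int_finite (T := u.v ι) hC₀
    have hI : ∀ j, (u.v ι).Int {z ∈ Z j | z b0 ∉ T} := fun j => by
      have := ((hZ j).diff (ConE.biUnion hT fun c _ => ConE.eq_const b0 (c := c) trivial)).int u
      convert this using 1
      ext z
      simp
    choose V hV using hI
    have e1 : C = C₀ ∪ ⋃ j, {z ∈ Z j | z b0 ∉ T} := by
      ext z
      by_cases h : z b0 ∈ T
      · simp [C₀, h]
      · simp [C₀, h, (hT1 z h).1]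
    have h1 := (hW.eq_iff (hW₀.union (UT.rep_iUnion hV))).1 e1
    have h2 : ∀ᶠ i in (uf : Filter ℕ), ∀ j, Disjoint (W₀ i) (V j i) := eventually_all.2 fun j =>
      (hW₀.disjoint_iff (hV j)).1 (disjoint_left.2 fun z hz hz' => hz'.2 hz.2)
    have h3 : ∀ᶠ i in (uf : Filter ℕ), ∀ j j', j ≠ j' → Disjoint (V j i) (V j' i) :=
      eventually_all.2 fun j => eventually_all.2 fun j' => by
        by_cases h : j = j'
        · exact Eventually.of_forall fun _ h' => absurd h h'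
        · exact (((hV j).disjoint_iff (hV j')).1 (disjoint_left.2 fun z hz hz' =>
            h ((hT1 z hz.2).2 j j' hz.1 hz'.1))).mono fun _ hi _ => hi
    have h4 := (hind.fx hW₀ τ).ncard_eq (hC₀.subset (sep_subset _ _))
    have h5 : ∀ᶠ i in (uf : Filter ℕ), ∀ j,
        ((Fx (fr i (e i)) τ (V j i)).ncard : ZMod l) = ph (A j) l T τ γ :=
      eventually_all.2 fun j => by
        by_cases h : ∃ g, Lf (A j).X γ τ g
        · obtain ⟨g, hg⟩ := h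
          rw [ph_pos l T hg]
          exact hC ι _ (A j).X b0 l T u e γ τ g (V j) (A j).cv hT (hT2 j) hτ hg hind he hq (hV j)
        · rw [ph_neg l T h]
          refine ((hind.fx (hV j) τ).empty_iff.1 (eq_empty_of_forall_notMem fun z hz => h ?_)).mono
            fun i hi => by rw [hi, ncard_empty, Nat.cast_zero]
          obtain ⟨j', hj⟩ := hperm γ τ hτ (hCτ γ hγ) j
          have h6 : γ ∘ z ∘ τ.symm = z := funext fun l =>
            (congrFun hz.2 _).trans (congrArg z (τ.apply_symm_apply l))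
          obtain rfl := (hT1 z hz.1.2).2 j j' hz.1.1 (h6 ▸ (hj z).1 hz.1.1)
          exact (hL ι _ (A j).X b0 (A j).cv).1 γ τ hj
    filter_upwards [h1, h2, h3, h4, h5] with i h1 h2 h3 h4 h5
    rw [h1, fx_card (Fx_finite i (he i) τ) h2 h3, h4.2]
    push_cast
    simp only [h5]

end Pool.Agent.MP_4f1c5b_al.H95
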