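import Pool.Agent.MP_4f1c5b_al.H95.SpecB

/-!
Automorphisms of a curve act on its function field; those that fix finitely many algebraic
elements act trivially on the torsion classes and on the boundary.
-/

namespace Pool.Agent.MP_4f1c5b_al.H95

open Set
open Pool.Agent.MP_cce4c9_lc.H87 Pool.Agent.MP_cce4c9_lc.H7

namespace CompA

/-- An automorphism of a ring that preserves the kernel of a map onto generators of a field. -/
theorem ext_frac {R F : Type} [CommRing R] [Field F] (φ : R →+* F)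
    (hs : ∀ x : F, ∃ a b, x = φ a / φ b) (Φ : R ≃+* R) (h : ∀ p, φ (Φ p) = 0 ↔ φ p = 0) :
    ∃ g : F ≃+* F, ∀ p, g (φ p) = φ (Φ p) := by
  let : Algebra (R ⧸ RingHom.ker φ) F := (RingHom.kerLift φ).toAlgebra
  have hm : ∀ p, algebraMap (R ⧸ RingHom.ker φ) F (Ideal.Quotient.mk _ p) = φ p := fun _ => rfl
  have : FaithfulSMul (R ⧸ RingHom.ker φ) F :=
    (faithfulSMul_iff_algebraMap_injective _ _).2 (RingHom.kerLift_injective φ)
  have : IsFractionRing (R ⧸ RingHom.ker φ) F := IsFractionRing.of_field _ _ fun z => by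
    obtain ⟨a, b, hz⟩ := hs z
    exact ⟨Ideal.Quotient.mk _ a, Ideal.Quotient.mk _ b, hz⟩
  have hI : RingHom.ker φ = (RingHom.ker φ).map (Φ : R →+* R) := by
    ext p
    rw [Ideal.mem_map_iff_of_surjective (Φ : R →+* R) Φ.surjective]
    constructor
    · intro hp
      exact ⟨Φ.symm p, (h _).1 (by rw [Φ.apply_symm_apply]; exact hp), Φ.apply_symm_apply p⟩
    · rintro ⟨q, hq, rfl⟩
      exact (h q).2 hq
  refine ⟨IsFractionRing.ringEquivOfRingEquiv (Ideal.quotientEquiv _ _ Φ hI), fun p => ?_⟩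
  rw [← hm, IsFractionRing.ringEquivOfRingEquiv_algebraMap]
  rfl

variable {ι F : Type} [Field F] [Algebra ℂ F]

theorem null [Finite ι] (X : ι → F) (p : MvPolynomial ι ℂ) :
    MvPolynomial.aeval X p = 0 ↔ ∀ z ∈ Zs X, MvPolynomial.eval z p = 0 := by
  refine ⟨fun h z hz => hz p h, fun h => ?_⟩
  have h1 := MvPolynomial.vanishingIdeal_zeroLocus_eq_radical (K := ℂ)
    (RingHom.ker (MvPolynomial.aeval X : MvPolynomial ι ℂ →ₐ[ℂ] F))
  rw [(RingHom.ker_isPrime _).radical] at h1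
  rw [← RingHom.mem_ker, ← h1]
  exact fun z hz => h z hz

theorem eval_tw (γ : ℂ ≃+* ℂ) (τ : Equiv.Perm ι) (z : ι → ℂ) (p : MvPolynomial ι ℂ) :
    MvPolynomial.eval (γ ∘ z ∘ τ.symm) (MvPolynomial.rename τ (MvPolynomial.map γ p)) =
      γ (MvPolynomial.eval z p) := by
  induction p using MvPolynomial.induction_on with
  | C c => simp
  | add p q hp hq => simp only [map_add, hp, hq]
  | mul_X p l hp => simp [hp]

theorem stab {X : ι → F} {b0 : ι} {T : Set ℂ} {θ : ℂ ≃+* ℂ} {g : SA ℂ F} (h : Lf X θ 1 g)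
    (hT : ∀ c ∈ T, θ c ∈ T) {v : Place ℂ F} (hv : v ∈ bd (X b0) T) : g • v ∈ bd (X b0) T := by
  intro c hc
  obtain ⟨c, rfl⟩ := θ.surjective c
  rw [show (g • v).val (X b0 - algebraMap ℂ F (θ c)) = _ from h.val v b0 c]
  exact hv c fun h1 => hc (hT c h1)

/-- The automorphisms with a lift that acts trivially. -/
def HH (X : ι → F) (l : ℕ) (S : Set (Place ℂ F)) : Subgroup (ℂ ≃+* ℂ) where
  carrier := {δ | ∃ g, Lf X δ 1 g ∧ actV l g = LinearMap.id ∧ ∀ v ∈ S, g • v = v}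
  one_mem' := ⟨1, Lf.one, actV_one l, fun v _ => one_smul _ v⟩
  mul_mem' := by
    rintro a b ⟨g, h1, h2, h3⟩ ⟨g', h1', h2', h3'⟩
    refine ⟨g * g', by simpa using h1.mul h1', by rw [actV_mul, h2, h2']; rfl, fun v hv => ?_⟩
    rw [mul_smul, h3' v hv, h3 v hv]
  inv_mem' := by
    rintro a ⟨g, h1, h2, h3⟩
    refine ⟨g⁻¹, by simpa using h1.inv, ?_, fun v hv => inv_smul_eq_iff.2 (h3 v hv).symm⟩
    have := actV_mul l g⁻¹ g
    rw [inv_mul_cancel, actV_one, h2, LinearMap.comp_id] at this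
    exact this.symm

end CompA

theorem lift : StmtLIFT := by
  intro ι F _ _ _ X b0 hX
  refine ⟨fun γ τ H => ?_, fun f => ?_⟩
  · let Φ : MvPolynomial ι ℂ ≃+* MvPolynomial ι ℂ :=
      (MvPolynomial.mapEquiv ι γ).trans (MvPolynomial.renameEquiv ℂ τ).toRingEquiv
    have hΦ : ∀ p, Φ p = MvPolynomial.rename τ (MvPolynomial.map γ p) := fun _ => rfl
    obtain ⟨g, hg⟩ := CompA.ext_frac
      (MvPolynomial.aeval X : MvPolynomial ι ℂ →ₐ[ℂ] F).toRingHom
      (fun x => (IntermediateField.mem_adjoin_range_iff ℂ X x).1 (hX.1 ▸ trivial)) Φ fun p => by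
        show MvPolynomial.aeval X (Φ p) = 0 ↔ MvPolynomial.aeval X p = 0
        rw [CompA.null, CompA.null, hΦ]
        constructor
        · intro h z hz
          have := h _ ((H z).1 hz)
          rwa [CompA.eval_tw, map_eq_zero] at this
        · intro h w hw
          have e : w = γ ∘ (γ.symm ∘ w ∘ τ) ∘ τ.symm := by
            funext l
            simp
          rw [e] at hw ⊢
          rw [CompA.eval_tw, h _ ((H _).2 hw), map_zero]
    have h1 : ∀ c, g (algebraMap ℂ F c) = algebraMap ℂ F (γ c) := fun c => by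
      simpa [hΦ] using hg (MvPolynomial.C c)
    have h2 : ∀ l, g (X l) = X (τ l) := fun l => by
      simpa [hΦ] using hg (MvPolynomial.X l)
    refine ⟨⟨g, fun x => ⟨?_, ?_⟩⟩, h1, h2⟩
    · rintro ⟨a, ha⟩
      exact ⟨γ.symm a, g.injective (by rw [h1, γ.apply_symm_apply, ha])⟩
    · rintro ⟨a, rfl⟩
      exact ⟨γ a, (h1 a).symm⟩
  · have hx : f ∈ IntermediateField.adjoin ℂ (range X) := hX.1 ▸ trivial
    have two : ∀ x y z : F, (∀ g : F ≃+* F, g x = x → g y = y → g z = z) →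
        (∃ A : Set ℂ, A.Finite ∧ ∀ δ ∈ Au A, ∀ g, Lf X δ 1 g → g.1 x = x) →
        (∃ A : Set ℂ, A.Finite ∧ ∀ δ ∈ Au A, ∀ g, Lf X δ 1 g → g.1 y = y) →
        ∃ A : Set ℂ, A.Finite ∧ ∀ δ ∈ Au A, ∀ g, Lf X δ 1 g → g.1 z = z := by
      rintro x y z h ⟨A, h1, h2⟩ ⟨A', h1', h2'⟩
      exact ⟨A ∪ A', h1.union h1', fun δ hδ g hg =>
        h _ (h2 δ (Au_union.1 hδ).1 g hg) (h2' δ (Au_union.1 hδ).2 g hg)⟩
    induction hx using IntermediateField.adjoin_induction with
    | mem x hx =>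
      obtain ⟨l, rfl⟩ := hx
      exact ⟨∅, finite_empty, fun _ _ g hg => hg.2 l⟩
    | algebraMap c =>
      exact ⟨{c}, finite_singleton c, fun δ hδ g hg => by rw [hg.1, hδ c rfl]⟩
    | add x y _ _ hx hy => exact two x y _ (fun g h h' => by rw [map_add, h, h']) hx hy
    | inv x _ hx => exact two x x _ (fun g h _ => by rw [map_inv₀, h]) hx hx
    | mul x y _ _ hx hy => exact two x y _ (fun g h h' => by rw [map_mul, h, h']) hx hy

theorem comp (hO : StmtOPEN) (hV : StmtVFIN) (hP : StmtPTS) : StmtCOMP := by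
  classical
  intro ι F _ _ _ X b0 l _ E _ T hX hT hL hS
  have hl : l.Prime := Fact.out
  have : NeZero l := ⟨hl.ne_zero⟩
  have hfin : Finite (VV ℂ F l) := hV ℂ F l hX.ff (Nat.cast_ne_zero.2 hl.ne_zero)
  have hbd : (bd (X b0) T).Finite := ((hP ι F X b0 hX).2.2.1 T hT).1
  choose A hA1 hA2 using (lift ι F X b0 hX).2
  choose f hf using fun a : VV ℂ F l => mem_VV.1 a.2
  choose s hs1 hs2 using fun v : Place ℂ F =>
    v.exists_sep (hbd.toFinset.erase v) (Finset.notMem_erase _ _)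
  refine (hO E (CompA.HH X l (bd (X b0) T))
    ((⋃ a, A (f a)) ∪ ⋃ v ∈ bd (X b0) T, A (s v))
    ((finite_iUnion fun a => hA1 _).union (hbd.biUnion fun v _ => hA1 _)) ?_ ?_).imp ?_
  rotate_right
  · rintro B ⟨h1, h2, h3⟩
    refine ⟨h1, h2, fun δ hδ hB g hg => ?_⟩
    obtain ⟨g', e1, e2⟩ := h3 δ hδ hB
    rwa [Lf.uniq hX hg e1]
  · rintro θ hθ δ ⟨g, e1, e2, e3⟩
    obtain ⟨g', hg'⟩ := hL θ hθ
    have hi : Lf X θ⁻¹ 1 g'⁻¹ := by simpa using hg'.inv
    refine ⟨g' * g * g'⁻¹, by simpa using (hg'.mul e1).mul hi, ?_, fun v hv => ?_⟩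
    · rw [actV_mul, actV_mul, e2, LinearMap.comp_id, ← actV_mul, mul_inv_cancel, actV_one]
    · rw [mul_smul, mul_smul, e3 _ (CompA.stab hi (hS _ (inv_mem hθ)) hv), smul_inv_smul]
  · intro θ hθ hA
    obtain ⟨g, hg⟩ := hL θ hθ
    rw [Au_union] at hA
    refine ⟨g, hg, ?_, fun v hv => ?_⟩
    · ext a
      have e := hA2 (f a) θ (Au_anti (subset_iUnion (fun a => A (f a)) a) hA.1) g hg
      show actH l g a.1 = a.1
      rw [← (hf a).1]
      exact congrArg (Hl.mk l) (Units.ext e)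
    · have e := hA2 (s v) θ (Au_anti (subset_biUnion_of_mem (u := fun v => A (s v)) hv) hA.2) g hg
      by_contra hne
      have h4 := hs2 v (g • v) (Finset.mem_erase.2
        ⟨hne, hbd.mem_toFinset.2 (CompA.stab hg (hS θ hθ) hv)⟩)
      rw [← e, smul_val_apply, hs1] at h4
      exact lt_irrefl _ h4

end Pool.Agent.MP_4f1c5b_al.H95
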