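import Pool.Agent.MP_4f1c5b_al.H95.SpecB
import Pool.Agent.MP_cce4c9_lc.H7.All

/-!
The twisted point count on an irreducible curve.
-/

namespace Pool.Agent.MP_4f1c5b_al.H95

open Filter Set
open Pool.Agent.MP_cce4c9_lc.H87 Pool.Agent.MP_cce4c9_lc.H7

namespace CountA

variable {ι F : Type} [Field F] [Algebra ℂ F] {X : ι → F} {b0 : ι} {T : Set ℂ} {γ : ℂ ≃+* ℂ}
  {τ : Equiv.Perm ι} {g : SA ℂ F}

theorem mem_in {v : Place ℂ F} :
    v ∈ (bd (X b0) T)ᶜ ↔ ∃ c ∉ T, v.val (X b0 - algebraMap ℂ F c) < 1 := by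
  simp [bd]

theorem reg (hG : ∀ c ∉ T, Gd X b0 c) {v : Place ℂ F} (hv : v ∈ (bd (X b0) T)ᶜ) (l : ι) :
    v.val (X l) ≤ 1 := by
  obtain ⟨c, h1, h2⟩ := mem_in.1 hv
  exact (hG c h1).1 v h2 l

theorem bij (hX : Cv X b0) (hG : ∀ c ∉ T, Gd X b0 c) (hL : Lf X γ τ g)
    (hZ : ∀ z, z ∈ Zs X ↔ ∃ v : Place ℂ F, ∀ l, v.val (X l - algebraMap ℂ F (z l)) < 1) :
    BijOn (fun (v : Place ℂ F) l => v.ev (X l)) {v ∈ (bd (X b0) T)ᶜ | g • v = v}
      (Fx γ τ {z ∈ Zs X | z b0 ∉ T}) := by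
  refine ⟨fun v hv => ?_, fun v hv v' hv' e => ?_, fun z hz => ?_⟩
  · obtain ⟨c, h1, h2⟩ := mem_in.1 hv.1
    refine ⟨⟨(hZ _).2 ⟨v, fun l => ev_spec hX.ff v (reg hG hv.1 l)⟩, ?_⟩, funext fun l => ?_⟩
    · show v.ev (X b0) ∉ T
      rwa [v.ev_eq h2]
    · have := hL.ev hX v (reg hG hv.1 l)
      rw [hv.2] at this
      exact this.symm
  · obtain ⟨c, h1, h2⟩ := mem_in.1 hv.1
    obtain ⟨c', -, h3⟩ := mem_in.1 hv'.1
    obtain rfl : c = c' := (v.ev_eq h2).symm.trans ((congrFun e b0).trans (v'.ev_eq h3))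
    exact (hG c h1).2 v v' h2 h3 (congrFun e)
  · obtain ⟨v, hv⟩ := (hZ z).1 hz.1.1
    have h1 : ∀ l, (g • v).val (X l - algebraMap ℂ F (z l)) < 1 := fun l => by
      obtain ⟨l, rfl⟩ := τ.surjective l
      rw [← show γ (z l) = z (τ l) from congrFun hz.2 l, hL.val]
      exact hv l
    exact ⟨v, ⟨mem_in.2 ⟨_, hz.1.2, hv b0⟩, (hG _ hz.1.2).2 _ _ (h1 b0) (hv b0) fun l =>
      (Place.ev_eq _ (h1 l)).trans (v.ev_eq (hv l)).symm⟩, funext fun l => v.ev_eq (hv l)⟩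

theorem split {α : Type} {P : α → Prop} (h : {x | P x}.Finite) (V : Set α) :
    {x | P x}.ncard = {x ∈ Vᶜ | P x}.ncard + {x ∈ V | P x}.ncard := by
  rw [← ncard_union_eq (disjoint_left.2 fun _ a b => a.1 b.1) (h.subset fun _ a => a.2)
    (h.subset fun _ a => a.2)]
  congr 1
  ext x
  by_cases a : x ∈ V <;> simp [a]

end CountA

open CountA in
theorem count (hPK : StmtPK) (hPTS : StmtPTS) : StmtCOUNT := by
  intro ι F _ _ _ X b0 l _ T u e γ τ g W hX hT hG hτ hL hI he hq hW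
  obtain ⟨M, ⟨P⟩, hA, hTr⟩ := hPK u F (X b0) l hX.2.1 hX.2.2
  obtain ⟨g', hc, hg'⟩ := hA (fun i => fr i (e i)) γ g hI hL.1 (by rw [hL.2, hτ])
  choose X' hX' using fun j => M.tot (X j)
  obtain ⟨-, hZ, hb, -⟩ := hPTS ι F X b0 hX
  have hbd := (hb T hT).1
  obtain ⟨V, hV⟩ := UT.int_finite (T := P.T) hbd
  have hom : UT.Hom P.T (u.v ι) {v ∈ (bd (X b0) T)ᶜ | g • v = v} (fun v j => v.ev (X j))
      fun i v j => v.ev (X' j i) := fun a ha => funext fun j => P.ev (hX' j) a (reg hG ha.1 j)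
  filter_upwards [(P.fix hc hV.compl).bijOn (hI.fx hW τ) hom (bij hX hG hL hZ),
    (P.fix hc hV).ncard_eq (hbd.subset fun _ a => a.1), hTr g⁻¹ g'⁻¹ hc.inv, hg', hq]
    with i h1 h2 h3 h4 h5
  have hl : l ≠ pr i := fun a => by
    rw [← a, Nat.cast_pow, ZMod.natCast_self, zero_pow (he i).ne'] at h5
    exact zero_ne_one h5
  obtain ⟨h6, h7⟩ := (trace_formula (kk i) (M.K i) l (pr i) (M.ff i) hl).2 (e i) (g' i) (he i) h4
  rw [split h6 (V i), h2.2, h1.ncard_eq, h5, Nat.cast_add] at h7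
  rw [psi, ← h3, Pi.inv_apply]
  linear_combination h7

end Pool.Agent.MP_4f1c5b_al.H95
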