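import Pool.Agent.MP_4f1c5b_al.H95.SpecA

/-! Finite maps of constant degree. -/

namespace Pool.Agent.MP_4f1c5b_al.H95

open Filter Set

namespace CovA

variable {K : Type} {n d : ℕ}

/-- The coordinates of the `j`-th point of the fibre. -/
def cd (j : Fin d) : Fin (n + 1) → Fin n ⊕ Fin d := Fin.cons (Sum.inr j) Sum.inl

theorem comp_cd (w : Fin n ⊕ Fin d → K) (j : Fin d) :
    w ∘ cd j = Fin.cons (w (.inr j)) (w ∘ Sum.inl) := Fin.comp_cons _ _ _

/-- Enumerations of the fibres. -/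
def TT (d : ℕ) (S : Set (Fin (n + 1) → K)) (B : Set (Fin n → K)) : Set (Fin n ⊕ Fin d → K) :=
  {w | w ∘ Sum.inl ∈ B ∧ (∀ j j', j ≠ j' → w (.inr j) ≠ w (.inr j')) ∧ ∀ j, w ∘ cd j ∈ S}

/-- Permutations of the points of the fibre. -/
def GG (n d : ℕ) : Subgroup (Equiv.Perm (Fin n ⊕ Fin d)) where
  carrier := {g | ∀ j, g (.inl j) = .inl j}
  one_mem' _ := rfl
  mul_mem' {a b} ha hb j := by rw [Equiv.Perm.mul_apply, hb j, ha j]
  inv_mem' {a} ha j := by rw [Equiv.Perm.inv_eq_iff_eq, ha j]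

/-- Constant degree. -/
def Dg (d : ℕ) (S : Set (Fin (n + 1) → K)) (B : Set (Fin n → K)) : Prop :=
  (∀ x ∈ S, Fin.tail x ∈ B) ∧
    ∀ y ∈ B, {t : K | (Fin.cons t y : Fin (n + 1) → K) ∈ S}.encard = d

variable {S : Set (Fin (n + 1) → K)} {B : Set (Fin n → K)} {g : Equiv.Perm (Fin n ⊕ Fin d)}
  {w : Fin n ⊕ Fin d → K}

theorem gg_inr (hg : g ∈ GG n d) (j : Fin d) : ∃ j', g (.inr j) = .inr j' := by
  rcases e : g (.inr j) with a | a
  · exact absurd (g.injective (e.trans (hg a).symm)) (by simp)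
  · exact ⟨a, rfl⟩

theorem gg_inl (hg : g ∈ GG n d) (w : Fin n ⊕ Fin d → K) : (w ∘ g) ∘ Sum.inl = w ∘ Sum.inl :=
  funext fun j => congrArg w (hg j)

theorem inj (hw : w ∈ TT d S B) : Function.Injective fun j => w (.inr j) :=
  fun j j' e => by_contra fun h => hw.2.1 j j' h e

theorem enum (h : Dg d S B) (hw : w ∈ TT d S B) {t : K}
    (ht : (Fin.cons t (w ∘ Sum.inl) : Fin (n + 1) → K) ∈ S) : ∃ j, w (.inr j) = t := by
  have h1 := h.2 _ hw.1
  have h2 : range (fun j => w (.inr j)) ⊆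
      {t : K | (Fin.cons t (w ∘ Sum.inl) : Fin (n + 1) → K) ∈ S} := by
    rintro _ ⟨j, rfl⟩
    have := hw.2.2 j
    rw [comp_cd] at this
    exact this
  have h3 : (range fun j => w (.inr j)).encard = d := by
    rw [← image_univ, (inj hw).injOn.encard_image, encard_univ]
    simp
  have h4 := (finite_range _).eq_of_subset_of_encard_le h2 (h1.trans h3.symm).le
  exact (h4 ▸ ht : t ∈ range fun j => w (.inr j))

theorem tors (h : Dg d S B) : Tors Sum.inl (GG n d) (TT d S B) where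
  fix _ hg := hg
  inv g hg x hx := by
    refine ⟨gg_inl hg x ▸ hx.1, fun j j' e e' => e ?_, fun j => ?_⟩
    · obtain ⟨a, ha⟩ := gg_inr hg j
      obtain ⟨a', ha'⟩ := gg_inr hg j'
      rw [Function.comp_apply, Function.comp_apply, ha, ha'] at e'
      have := inj hx e'
      subst this
      exact Sum.inr_injective (g.injective (ha.trans ha'.symm))
    · obtain ⟨a, ha⟩ := gg_inr hg j
      rw [comp_cd, gg_inl hg, Function.comp_apply, ha, ← comp_cd]
      exact hx.2.2 a
  free g hg x hx e := by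
    ext1 a
    rcases a with a | a
    · exact hg a
    · obtain ⟨a', ha⟩ := gg_inr hg a
      have h1 := congrFun e (.inr a)
      rw [Function.comp_apply, ha] at h1
      rw [ha, inj hx h1]
      rfl
  tr x hx x' hx' e := by
    have h1 : ∀ j, ∃ j', x (.inr j') = x' (.inr j) := fun j =>
      enum h hx (by rw [e, ← comp_cd]; exact hx'.2.2 j)
    choose p hp using h1
    have h2 : Function.Injective p := fun a b hab =>
      inj hx' (show x' (.inr a) = x' (.inr b) by rw [← hp, ← hp, hab])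
    refine ⟨Equiv.sumCongr (Equiv.refl _)
      (Equiv.ofBijective p (Finite.injective_iff_bijective.1 h2)), fun _ => rfl, ?_⟩
    funext a
    rcases a with a | a
    · exact (congrFun e a).symm
    · exact (hp a).symm

theorem image (h : Dg d S B) : (· ∘ Sum.inl) '' TT d S B = B := by
  refine Subset.antisymm ?_ fun y hy => ?_
  · rintro _ ⟨w, hw, rfl⟩
    exact hw.1
  · have h1 := h.2 y hy
    have h2 := finite_of_encard_eq_coe h1
    have h3 : h2.toFinset.card = d := by
      have := h2.encard_eq_coe_toFinset_card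
      rw [h1] at this
      exact_mod_cast this.symm
    let e := h2.toFinset.equivFinOfCardEq h3
    refine ⟨Sum.elim y fun j => (e.symm j).1, ⟨hy, fun j j' a b => a ?_, fun j => ?_⟩, rfl⟩
    · exact e.symm.injective (Subtype.ext b)
    · rw [comp_cd]
      exact h2.mem_toFinset.1 (e.symm j).2

theorem fibre (h : Dg d S B) {s : K → K} (hg : g ∈ GG n d) (hw : w ∈ Fx s g (TT d S B)) :
    {x ∈ Fx s 1 S | Fin.tail x = w ∘ Sum.inl}.ncard = {j | g (.inr j) = .inr j}.ncard := by
  have h0 : ∀ a, s (w a) = w (g a) := congrFun hw.2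
  have h1 : Function.Injective fun j => w ∘ cd j := fun j j' e => inj hw.1 (congrFun e 0)
  rw [← ncard_image_of_injective _ h1]
  congr 1
  ext x
  constructor
  · rintro ⟨⟨a, b⟩, c⟩
    have e : x = Fin.cons (x 0) (w ∘ Sum.inl) := by rw [← c, Fin.cons_self_tail]
    obtain ⟨j, hj⟩ := enum h hw.1 (e ▸ a)
    refine ⟨j, ?_, by rw [e, ← hj, ← comp_cd]⟩
    obtain ⟨j', hj'⟩ := gg_inr hg j
    have h2 : s (x 0) = x 0 := congrFun b 0
    rw [← hj, h0, hj'] at h2
    rw [mem_ofPred_eq, hj', inj hw.1 h2]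
  · rintro ⟨j, hj, rfl⟩
    refine ⟨⟨hw.1.2.2 j, funext fun a => ?_⟩, rfl⟩
    refine Fin.cases ?_ (fun a => ?_) a
    · exact (h0 _).trans (congrArg w hj)
    · exact (h0 _).trans (congrArg w (hg a))

theorem total (h : Dg d S B) {s : K → K} (hS : (Fx s 1 S).Finite) (hB : (Fx s 1 B).Finite) {l : ℕ}
    (H : ∑ᶠ y ∈ Fx s 1 B, ((({x ∈ Fx s 1 S | Fin.tail x = y}.ncard : ℕ) : ZMod l) - d) = 0) :
    ((Fx s 1 S).ncard : ZMod l) = d * ((Fx s 1 B).ncard : ZMod l) := by
  classical
  have h1 : hS.toFinset.card =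
      ∑ y ∈ hB.toFinset, (hS.toFinset.filter fun x => Fin.tail x = y).card :=
    Finset.card_eq_sum_card_fiberwise fun x hx => by
      have hx' := hS.mem_toFinset.1 (Finset.mem_coe.1 hx)
      exact Finset.mem_coe.2 (hB.mem_toFinset.2
        ⟨h.1 x hx'.1, funext fun a => congrFun hx'.2 a.succ⟩)
  have h2 : ∀ y, {x ∈ Fx s 1 S | Fin.tail x = y}.ncard =
      (hS.toFinset.filter fun x => Fin.tail x = y).card := fun y => by
    rw [← ncard_coe_finset]
    congr 1
    ext x
    simp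
  rw [finsum_mem_eq_finite_toFinset_sum _ hB, Finset.sum_sub_distrib, Finset.sum_const,
    sub_eq_zero, nsmul_eq_mul] at H
  rw [ncard_eq_toFinset_card _ hS, ncard_eq_toFinset_card _ hB, h1, mul_comm, ← H, Nat.cast_sum]
  exact Finset.sum_congr rfl fun y _ => by rw [h2]

theorem con {E : Subfield ℂ} {S : Set (Fin (n + 1) → ℂ)} {B : Set (Fin n → ℂ)} (hS : ConE E S)
    (hB : ConE E B) : ConE E (TT d S B) := by
  have h1 : ConE E (⋂ j : Fin d, ⋂ j' : Fin d, ⋂ _ : j ≠ j',
      {w : Fin n ⊕ Fin d → ℂ | w (.inr j) = w (.inr j')}ᶜ) :=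
    ConE.iInter fun j => ConE.iInter fun j' => by
      by_cases e : j = j'
      · simpa [e] using ConE.univ
      · simpa [e] using (ConE.eq (E := E) (Sum.inr j : Fin n ⊕ Fin d) (.inr j')).compl
  have := (hB.comp Sum.inl).inter (h1.inter (ConE.iInter fun j : Fin d => hS.comp (cd j)))
  convert this using 1
  ext w
  simp [TT]

variable {u : UP} {S : Set (Fin (n + 1) → ℂ)} {B : Set (Fin n → ℂ)}
  {W : ∀ i, Set (Fin (n + 1) → kk i)} {V : ∀ i, Set (Fin n → kk i)}

theorem rep (hS : (u.v _).Rep S W) (hB : (u.v _).Rep B V) :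
    (u.v _).Rep (TT d S B) fun i => TT d (W i) (V i) := fun a => by
  simp only [TT, mem_ofPred_eq, eventually_and, eventually_all]
  exact and_congr (hB fun i => a i ∘ Sum.inl) (and_congr
    (forall_congr' fun j => forall_congr' fun j' => forall_congr' fun _ =>
      (not_congr (u.eq _ _)).trans ev_not.symm)
    (forall_congr' fun j => hS fun i => a i ∘ cd j))

theorem ev_dg (h : Dg d S B) (hS : (u.v _).Rep S W) (hB : (u.v _).Rep B V) :
    ∀ᶠ i in (uf : Filter ℕ), Dg d (W i) (V i) := by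
  refine (hS.mapsTo hB (u.hom_comp Fin.succ S) h.1).and (hB.forall
    (P := fun i y => {t | (Fin.cons t y : Fin (n + 1) → kk i) ∈ W i}.encard = d) fun a ha => ?_)
  have h1 : u.ut.Rep {t | (Fin.cons t ((u.v _).m a) : Fin (n + 1) → ℂ) ∈ S}
      fun i => {t | (Fin.cons t (a i) : Fin (n + 1) → kk i) ∈ W i} := fun t => by
    have e : (u.v (Fin (n + 1))).m (fun i => Fin.cons (t i) (a i)) =
        Fin.cons (u.ut.m t) ((u.v _).m a) :=
      funext fun j => Fin.cases rfl (fun _ => rfl) j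
    rw [mem_ofPred_eq, ← e]
    exact hS _
  exact (h1.encard_iff d).1 (h.2 _ ha)

end CovA

open CovA in
theorem cov : StmtCOV := by
  intro c l n hT S B d W V hS hB h1 h2 rS rB
  have hD : Dg d S B := ⟨h1, h2⟩
  have hE := ev_dg hD rS rB
  have key := hT (Fin n ⊕ Fin d) Sum.inl (GG n d) (TT d S B) (fun i => TT d (W i) (V i))
    (fun i y => (({x ∈ Fx (c.σ i) 1 (W i) | Fin.tail x = y}.ncard : ℕ) : ZMod l) - d)
    (fun g => (({j | g (.inr j) = .inr j}.ncard : ℕ) : ZMod l) - d) (con hS hB) (tors hD)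
    (rep rS rB) (by simp [ncard_univ])
    (hE.mono fun i hi g hg x hx => by rw [fibre hi hg hx])
  filter_upwards [hE, key] with i hi H
  rw [image hi] at H
  exact total hi (c.fx_finite i 1 _) (c.fx_finite i 1 _) H

end Pool.Agent.MP_4f1c5b_al.H95
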