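import Pool.Agent.MP_4f1c5b_al.H95.SpecB

/-! Decomposition of a constructible set with finite fibres into irreducible curves. -/

namespace Pool.Agent.MP_4f1c5b_al.H95

open Set Polynomial Cardinal
open scoped IntermediateField

namespace DecA

variable {ι : Type}

/-- The zero set of an ideal. -/
def Zl (P : Ideal (MvPolynomial ι ℂ)) : Set (ι → ℂ) := {z | ∀ p ∈ P, MvPolynomial.eval z p = 0}

/-- The ideal of a set. -/
noncomputable def VI (C : Set (ι → ℂ)) : Ideal (MvPolynomial ι ℂ) :=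
  ⨅ z : C, RingHom.ker (MvPolynomial.eval z.1)

theorem mem_VI {C : Set (ι → ℂ)} {p : MvPolynomial ι ℂ} :
    p ∈ VI C ↔ ∀ z ∈ C, MvPolynomial.eval z p = 0 := by
  simp [VI, RingHom.mem_ker]

theorem gen {C : Set (ι → ℂ)} (hC : ConE ⊤ C) {P : Ideal (MvPolynomial ι ℂ)} (hP : P.IsPrime) :
    ∃ g ∉ P, (∀ z ∈ Zl P, MvPolynomial.eval z g ≠ 0 → z ∈ C) ∨
      ∀ z ∈ Zl P, MvPolynomial.eval z g ≠ 0 → z ∉ C := by
  induction hC with
  | zero p _ =>
    by_cases h : p ∈ P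
    · exact ⟨1, (Ideal.ne_top_iff_one _).1 hP.ne_top, Or.inl fun z hz _ => hz p h⟩
    · exact ⟨p, h, Or.inr fun z _ h0 => h0⟩
  | compl _ ih =>
    obtain ⟨g, hg, h | h⟩ := ih
    · exact ⟨g, hg, Or.inr fun z hz h0 => not_not.2 (h z hz h0)⟩
    · exact ⟨g, hg, Or.inl h⟩
  | union _ _ ih ih' =>
    obtain ⟨g, hg, h | h⟩ := ih
    · exact ⟨g, hg, Or.inl fun z hz h0 => Or.inl (h z hz h0)⟩
    obtain ⟨g', hg', h' | h'⟩ := ih'
    · exact ⟨g', hg', Or.inl fun z hz h0 => Or.inr (h' z hz h0)⟩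
    refine ⟨g * g', fun e => (hP.mem_or_mem e).elim hg hg', Or.inr fun z hz h0 => ?_⟩
    rw [map_mul, mul_ne_zero_iff] at h0
    exact fun e => e.elim (h z hz h0.1) (h' z hz h0.2)

theorem cover {C : Set (ι → ℂ)} {z : ι → ℂ} (hz : z ∈ C) :
    ∃ P ∈ (VI C).minimalPrimes, z ∈ Zl P := by
  have := RingHom.ker_isPrime (MvPolynomial.eval z)
  obtain ⟨P, hP, h⟩ := Ideal.exists_minimalPrimes_le (I := VI C)
    (J := RingHom.ker (MvPolynomial.eval z)) fun p hp => mem_VI.1 hp z hz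
  exact ⟨P, hP, fun p hp => h hp⟩

theorem good [Finite ι] {C : Set (ι → ℂ)} (hC : ConE ⊤ C) {P : Ideal (MvPolynomial ι ℂ)}
    (hP : P ∈ (VI C).minimalPrimes) : ∃ g ∉ P, ∀ z ∈ Zl P, MvPolynomial.eval z g ≠ 0 →
      z ∈ C ∧ ∀ P' ∈ (VI C).minimalPrimes, z ∈ Zl P' → P' = P := by
  classical
  have hp : P.IsPrime := hP.1.1
  have hf := Ideal.finite_minimalPrimes_of_isNoetherianRing _ (VI C)
  obtain ⟨h, h1, h2⟩ : ∃ h ∈ (hf.toFinset.erase P).inf id, h ∉ P := by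
    refine SetLike.not_le_iff_exists.1 fun e => ?_
    obtain ⟨P', h1, h2⟩ := hp.inf_le'.1 e
    rw [Finset.mem_erase, hf.mem_toFinset] at h1
    exact h1.1 (le_antisymm h2 (hP.2 h1.2.1 h2))
  have h3 : ∀ P' ∈ (VI C).minimalPrimes, P' ≠ P → h ∈ P' := fun P' a b =>
    (Finset.inf_le (f := id) (Finset.mem_erase.2 ⟨b, hf.mem_toFinset.2 a⟩) :) h1
  obtain ⟨g, hg, H | H⟩ := gen hC hp
  · refine ⟨g * h, fun e => (hp.mem_or_mem e).elim hg h2, fun z hz h0 => ?_⟩
    rw [map_mul, mul_ne_zero_iff] at h0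
    exact ⟨H z hz h0.1, fun P' a b => by_contra fun e => h0.2 (b h (h3 P' a e))⟩
  · refine absurd (hP.1.2 (mem_VI.2 fun z hz => ?_)) fun e : g * h ∈ P =>
      (hp.mem_or_mem e).elim hg h2
    obtain ⟨P', a, b⟩ := cover hz
    rw [map_mul, mul_eq_zero]
    by_cases e : P' = P
    · exact Or.inl (by_contra fun h0 => H z (e ▸ b) h0 hz)
    · exact Or.inr (b h (h3 P' a e))

theorem exists_F [Finite ι] {P : Ideal (MvPolynomial ι ℂ)} (hP : P.IsPrime) :
    ∃ (F : Type) (_ : Field F) (_ : Algebra ℂ F) (x : ι → F),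
      IntermediateField.adjoin ℂ (range x) = ⊤ ∧ (∀ p, MvPolynomial.aeval x p = 0 ↔ p ∈ P) ∧
        #F ≤ 𝔠 := by
  let D := MvPolynomial ι ℂ ⧸ P
  let x : ι → FractionRing D := fun l =>
    algebraMap D _ (Ideal.Quotient.mk P (MvPolynomial.X l))
  have e : ∀ p, MvPolynomial.aeval x p = algebraMap D _ (Ideal.Quotient.mk P p) := fun p =>
    DFunLike.congr_fun (MvPolynomial.algHom_ext (f := MvPolynomial.aeval x)
      (g := (IsScalarTower.toAlgHom ℂ D (FractionRing D)).comp (Ideal.Quotient.mkₐ ℂ P))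
      fun l => MvPolynomial.aeval_X _ _) p
  refine ⟨FractionRing D, inferInstance, inferInstance, x, eq_top_iff.2 fun f _ => ?_,
    fun p => ?_, ?_⟩
  · obtain ⟨a, b, -, rfl⟩ := IsFractionRing.div_surjective D f
    have h : ∀ a : D, algebraMap D (FractionRing D) a ∈ IntermediateField.adjoin ℂ (range x) := by
      intro a
      obtain ⟨p, rfl⟩ := Ideal.Quotient.mk_surjective a
      rw [← e]
      refine IntermediateField.algebra_adjoin_le_adjoin ℂ _ ?_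
      rw [Algebra.adjoin_range_eq_range_aeval]
      exact ⟨p, rfl⟩
    exact div_mem (h a) (h b)
  · rw [e, map_eq_zero_iff _ (IsFractionRing.injective D _), Ideal.Quotient.eq_zero_iff_mem]
  · rw [mk_fractionRing]
    refine (mk_le_of_surjective Ideal.Quotient.mk_surjective).trans
      (MvPolynomial.cardinalMk_le_max.trans ?_)
    rw [mk_complex]
    exact sup_le (sup_le le_rfl (mk_le_aleph0.trans aleph0_le_continuum)) aleph0_le_continuum

theorem ext2 {R K : Type} [CommRing R] [Field K] [IsAlgClosed K] (hR : #R ≤ ℵ₀) (hK : #K = #ℂ)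
    (f : R →+* K) (g : R →+* ℂ) (hf : Function.Injective f) (hg : Function.Injective g) :
    ∃ J : K ≃+* ℂ, ∀ r, J (f r) = g r :=
  @ext_equiv R K ℂ _ _ _ f.toAlgebra g.toAlgebra _ _
    ((@faithfulSMul_iff_algebraMap_injective R K _ _ f.toAlgebra).2 hf)
    ((@faithfulSMul_iff_algebraMap_injective R ℂ _ _ g.toAlgebra).2 hg) hR
    (by rw [hK, mk_complex]; exact aleph0_lt_continuum) hK

variable {F : Type} [Field F] [Algebra ℂ F]

theorem inj (E : Subfield ℂ) {t s : F} (ht : Transcendental ℂ t) (hs : Transcendental ℂ⟮t⟯ s) :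
    Function.Injective (eval₂RingHom (eval₂RingHom ((algebraMap ℂ F).comp E.subtype) t) s) := by
  let ρ : E[X] →+* ℂ⟮t⟯ :=
    eval₂RingHom ((algebraMap ℂ ℂ⟮t⟯).comp E.subtype) (IntermediateField.AdjoinSimple.gen ℂ t)
  have e : (algebraMap ℂ⟮t⟯ F).comp ρ = eval₂RingHom ((algebraMap ℂ F).comp E.subtype) t := by
    ext <;> simp [ρ]
  have h1 : Function.Injective ρ := by
    refine (injective_iff_map_eq_zero _).2 fun a ha => ?_
    have h2 := DFunLike.congr_fun e a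
    rw [RingHom.comp_apply, ha, map_zero, coe_eval₂RingHom, ← eval₂_map, ← aeval_def] at h2
    exact (Polynomial.map_eq_zero_iff E.subtype.injective).1
      (transcendental_iff.1 ht _ h2.symm)
  refine (injective_iff_map_eq_zero _).2 fun p hp => ?_
  rw [← e, coe_eval₂RingHom, ← eval₂_map, ← aeval_def] at hp
  exact (Polynomial.map_eq_zero_iff h1).1 (transcendental_iff.1 hs _ hp)

theorem eval_J (x : ι → F) (J : F →+* ℂ) {p : MvPolynomial ι ℂ}
    (h : ∀ m, J (algebraMap ℂ F (p.coeff m)) = p.coeff m) :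
    MvPolynomial.eval (fun l => J (x l)) p = J (MvPolynomial.aeval x p) := by
  simp only [MvPolynomial.aeval_def, MvPolynomial.eval₂_eq, MvPolynomial.eval_eq, map_sum, map_mul,
    map_prod, map_pow, h]

/-- Finite fibres force algebraic dependence. -/
theorem alg [Finite ι] {P : Ideal (MvPolynomial ι ℂ)} {x : ι → F} (hF : #F ≤ 𝔠)
    (hx : ∀ p, MvPolynomial.aeval x p = 0 ↔ p ∈ P) {g : MvPolynomial ι ℂ} (hg : g ∉ P) {b0 : ι}
    (hfin : ∀ c, {z ∈ Zl P | MvPolynomial.eval z g ≠ 0 ∧ z b0 = c}.Finite)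
    (ht : Transcendental ℂ (x b0)) (l : ι) : IsAlgebraic ℂ⟮x b0⟯ (x l) := by
  by_contra hs
  obtain ⟨S, hS⟩ := IsNoetherian.noetherian P
  let A : Set ℂ := ⋃ p ∈ insert g (S : Set (MvPolynomial ι ℂ)), range fun m => p.coeff m
  have hA : A.Countable :=
    ((S.finite_toSet.insert g).countable).biUnion fun p _ => countable_range _
  let E := Subfield.closure A
  have hE : Countable E := cl_countable hA
  have hE' : ∀ p ∈ insert g (S : Set (MvPolynomial ι ℂ)), ∀ m, p.coeff m ∈ E := fun p hp m =>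
    Subfield.subset_closure (mem_biUnion hp ⟨m, rfl⟩)
  let K := AlgebraicClosure F
  let i := algebraMap F K
  have hK : #K = #ℂ := by
    refine le_antisymm ?_ (mk_le_of_injective (i.comp (algebraMap ℂ F)).injective)
    rw [mk_complex]
    exact (Algebra.IsAlgebraic.cardinalMk_le_max F K).trans (max_le hF aleph0_le_continuum)
  have pt : ∀ J : F →+* ℂ, (∀ c : E, J (algebraMap ℂ F c) = c) →
      (fun l => J (x l)) ∈ Zl P ∧ MvPolynomial.eval (fun l => J (x l)) g ≠ 0 := by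
    intro J hJ
    refine ⟨fun p hp => ?_, ?_⟩
    · have h1 : Submodule.span _ (S : Set (MvPolynomial ι ℂ)) ≤
          RingHom.ker (MvPolynomial.eval fun l => J (x l)) := Submodule.span_le.2 fun q hq => by
        rw [SetLike.mem_coe, RingHom.mem_ker,
          eval_J x J fun m => hJ ⟨_, hE' q (mem_insert_of_mem _ hq) m⟩,
          (hx q).2 (hS ▸ Submodule.subset_span hq), map_zero]
      exact h1 (hS ▸ hp)
    · rw [eval_J x J fun m => hJ ⟨_, hE' g (mem_insert _ _) m⟩, _root_.map_ne_zero]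
      exact fun e => hg ((hx g).1 e)
  obtain ⟨j, hj⟩ := ext2 mk_le_aleph0 hK (i.comp ((algebraMap ℂ F).comp E.subtype)) E.subtype
    (RingHom.injective _) (RingHom.injective _)
  let f : ℕ → E[X][X] →+* F := fun n =>
    eval₂RingHom (eval₂RingHom ((algebraMap ℂ F).comp E.subtype) (x b0)) (x l + n)
  have hf : ∀ n, Function.Injective (i.comp (f n)) := fun n =>
    i.injective.comp (inj E ht fun h => hs (by simpa using h.sub (isAlgebraic_natCast n)))
  have hc : #E[X][X] ≤ ℵ₀ := Polynomial.cardinalMk_le_max.trans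
    (max_le (Polynomial.cardinalMk_le_max.trans (max_le mk_le_aleph0 le_rfl)) le_rfl)
  choose J hJ using fun n => ext2 hc hK (i.comp (f n)) (j.toRingHom.comp (i.comp (f 0))) (hf n)
    (j.injective.comp (hf 0))
  have k1 : ∀ n : ℕ, J n (i (x l)) + n = j (i (x l)) := fun n => by simpa [f] using hJ n X
  have k2 : ∀ n : ℕ, J n (i (x b0)) = j (i (x b0)) := fun n => by simpa [f] using hJ n (C X)
  have k3 : ∀ (n : ℕ) (c : E), J n (i (algebraMap ℂ F c)) = c := fun n c => by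
    have h1 : J n (i (algebraMap ℂ F c)) = j (i (algebraMap ℂ F c)) := by
      simpa [f] using hJ n (C (C c))
    exact h1.trans (hj c)
  refine (hfin (j (i (x b0)))).not_infinite (infinite_of_injective_forall_mem
    (f := fun (n : ℕ) l' => J n (i (x l'))) (fun n m e => ?_) fun n => ?_)
  · have h1 : J n (i (x l)) = J m (i (x l)) := congrFun e l
    have h2 := (k1 n).trans (k1 m).symm
    rw [h1, add_right_inj] at h2
    exact Nat.cast_injective h2
  · obtain ⟨a, b⟩ := pt ((J n).toRingHom.comp i) (k3 n)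
    exact ⟨a, b, k2 n⟩

/-- A proper closed subset of the curve has finitely many values of the variable. -/
theorem fin_vals {P : Ideal (MvPolynomial ι ℂ)} (hP : P.IsPrime) {x : ι → F} {b0 : ι}
    (hx : ∀ p, MvPolynomial.aeval x p = 0 ↔ p ∈ P) (hd : FiniteDimensional ℂ⟮x b0⟯ F)
    {h : MvPolynomial ι ℂ} (hh : h ∉ P) :
    {c | ∃ z ∈ Zl P, MvPolynomial.eval z h = 0 ∧ z b0 = c}.Finite := by
  obtain ⟨p, p0, hp⟩ := IntermediateField.isAlgebraic_adjoin_iff.1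
    (IsAlgebraic.of_finite ℂ⟮x b0⟯ (MvPolynomial.aeval x h))
  let π : ℂ[X] →+* Algebra.adjoin ℂ {x b0} := (aeval (x b0) : ℂ[X] →ₐ[ℂ] F).toRingHom.codRestrict
    (Algebra.adjoin ℂ {x b0}) fun a => aeval_mem_adjoin_singleton ℂ _
  have hπ : Function.Surjective π := by
    rintro ⟨y, hy⟩
    rw [Algebra.adjoin_singleton_eq_range_aeval] at hy
    obtain ⟨a, rfl⟩ := hy
    exact ⟨a, rfl⟩
  obtain ⟨q, rfl⟩ := map_surjective π hπ p
  have q0 : q ≠ 0 := fun e => p0 (by rw [e, Polynomial.map_zero])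
  let ψ : ℂ[X] →+* MvPolynomial ι ℂ :=
    (aeval (MvPolynomial.X b0) : ℂ[X] →ₐ[ℂ] MvPolynomial ι ℂ).toRingHom
  have h1 : q.eval₂ ψ h ∈ P := by
    rw [← hx, ← hp, aeval_def, eval₂_map]
    refine (hom_eval₂ q ψ (MvPolynomial.aeval x : MvPolynomial ι ℂ →ₐ[ℂ] F).toRingHom h).trans ?_
    congr 1
    ext <;> simp [ψ, π]
  obtain ⟨r, e, hr⟩ := exists_eq_pow_rootMultiplicity_mul_and_not_dvd q q0 0
  rw [C_0, sub_zero] at e hr
  rw [e, eval₂_mul, eval₂_pow, eval₂_X] at h1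
  have h2 := (hP.mem_or_mem h1).resolve_left fun e => hh (hP.mem_of_pow_mem _ e)
  rw [X_dvd_iff] at hr
  refine (r.coeff 0).roots.finite_toSet.subset ?_
  rintro _ ⟨z, hz, h0, rfl⟩
  have h3 := hz _ h2
  rw [hom_eval₂, h0, eval₂_at_zero] at h3
  refine (mem_roots hr).2 (Eq.trans ?_ h3)
  refine (DFunLike.congr_fun (?_ : evalRingHom (z b0) = (MvPolynomial.eval z).comp ψ) _ :)
  ext <;> simp [ψ]

theorem per [Finite ι] {P : Ideal (MvPolynomial ι ℂ)} (hP : P.IsPrime) {g : MvPolynomial ι ℂ}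
    (hg : g ∉ P) {b0 : ι} (hfin : ∀ c, {z ∈ Zl P | MvPolynomial.eval z g ≠ 0 ∧ z b0 = c}.Finite)
    (hinf : {c | ∃ z ∈ Zl P, z b0 = c}.Infinite) : (∃ A : Comp ι b0, Zs A.X = Zl P) ∧
      {c | ∃ z ∈ Zl P, MvPolynomial.eval z g = 0 ∧ z b0 = c}.Finite := by
  obtain ⟨F, _, _, x, h1, hx, hF⟩ := exists_F hP
  have ht : Transcendental ℂ (x b0) := by
    refine transcendental_iff.2 fun a ha => by_contra fun a0 => hinf ?_
    refine a.roots.finite_toSet.subset ?_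
    rintro _ ⟨z, hz, rfl⟩
    have h2 : (aeval (MvPolynomial.X b0) a : MvPolynomial ι ℂ) ∈ P := by
      rw [← hx, ← aeval_algHom_apply, MvPolynomial.aeval_X, ha]
    have h3 : MvPolynomial.aeval z (aeval (MvPolynomial.X b0) a : MvPolynomial ι ℂ) = 0 := hz _ h2
    rw [← aeval_algHom_apply, MvPolynomial.aeval_X, coe_aeval_eq_eval] at h3
    exact (mem_roots a0).2 h3
  have hd : FiniteDimensional ℂ⟮x b0⟯ F := by
    have := IntermediateField.finiteDimensional_adjoin (K := ℂ⟮x b0⟯) (S := range x) (by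
      rintro _ ⟨l, rfl⟩
      exact (alg hF hx hg hfin ht l).isIntegral)
    rw [IntermediateField.adjoin_eq_top_of_adjoin_eq_top ℂ h1] at this
    exact IntermediateField.topEquiv.toLinearEquiv.finiteDimensional
  exact ⟨⟨⟨F, x, h1, ht, hd⟩, Set.ext fun z => forall_congr' fun p => by rw [hx]⟩,
    fin_vals hP hx hd hg⟩

theorem twist (γ : ℂ ≃+* ℂ) (τ : Equiv.Perm ι) {C : Set (ι → ℂ)}
    (h : ∀ z, z ∈ C ↔ γ ∘ z ∘ τ.symm ∈ C) {P : Ideal (MvPolynomial ι ℂ)}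
    (hP : P ∈ (VI C).minimalPrimes) :
    ∃ P' ∈ (VI C).minimalPrimes, ∀ z, z ∈ Zl P ↔ γ ∘ z ∘ τ.symm ∈ Zl P' := by
  let Φ : MvPolynomial ι ℂ ≃+* MvPolynomial ι ℂ :=
    (MvPolynomial.mapEquiv ι γ).trans (MvPolynomial.renameEquiv ℂ τ).toRingEquiv
  have e : ∀ (z : ι → ℂ) p, MvPolynomial.eval (γ ∘ z ∘ τ.symm) (Φ p) =
      γ (MvPolynomial.eval z p) := fun z p => by
    refine (DFunLike.congr_fun (?_ : (MvPolynomial.eval (γ ∘ z ∘ τ.symm)).comp Φ.toRingHom =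
      γ.toRingHom.comp (MvPolynomial.eval z)) p :)
    ext <;> simp [Φ]
  have hs : ∀ w : ι → ℂ, ∃ z, γ ∘ z ∘ τ.symm = w := fun w =>
    ⟨γ.symm ∘ w ∘ τ, funext fun l => by simp⟩
  have hI : (VI C).comap Φ.toRingHom = VI C := by
    ext p
    rw [Ideal.mem_comap, mem_VI, mem_VI]
    refine ⟨fun H z hz => γ.map_eq_zero_iff.1 ((e z p).symm.trans (H _ ((h z).1 hz))),
      fun H w hw => ?_⟩
    obtain ⟨z, rfl⟩ := hs w
    exact (e z p).trans (γ.map_eq_zero_iff.2 (H z ((h z).2 hw)))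
  rw [← hI, Ideal.comap_minimalPrimes_eq_of_surjective Φ.surjective] at hP
  obtain ⟨P', hP', rfl⟩ := hP
  refine ⟨P', hP', fun z => ⟨fun H q hq => ?_, fun H p hp =>
    γ.map_eq_zero_iff.1 ((e z p).symm.trans (H _ hp))⟩⟩
  obtain ⟨p, rfl⟩ := Φ.surjective q
  exact (e z p).trans (γ.map_eq_zero_iff.2 (H p hq))

end DecA

open DecA

theorem dec : StmtDEC := by
  intro ι _ b0 C hC hfin
  have hf := Ideal.finite_minimalPrimes_of_isNoetherianRing _ (VI C)
  let M := {P ∈ (VI C).minimalPrimes | {c | ∃ z ∈ Zl P, z b0 = c}.Infinite}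
  have : Finite M := (hf.subset (sep_subset _ _)).to_subtype
  obtain ⟨n, ⟨e⟩⟩ := Finite.exists_equiv_fin M
  choose g hg hg' using fun P : (VI C).minimalPrimes => good hC P.2
  have key : ∀ P : M, (∃ A : Comp ι b0, Zs A.X = Zl P.1) ∧
      {c | ∃ z ∈ Zl P.1, MvPolynomial.eval z (g ⟨P.1, P.2.1⟩) = 0 ∧ z b0 = c}.Finite := fun P =>
    per P.2.1.1.1 (hg ⟨P.1, P.2.1⟩) (fun c => (hfin c).subset fun z hz =>
      ⟨(hg' ⟨P.1, P.2.1⟩ z hz.1 hz.2.1).1, hz.2.2⟩) P.2.2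
  choose A hA using fun P => (key P).1
  let T : Set ℂ := (⋃ P ∈ (VI C).minimalPrimes \ M, {c | ∃ z ∈ Zl P, z b0 = c}) ∪
    ⋃ P : M, {c | ∃ z ∈ Zl P.1, MvPolynomial.eval z (g ⟨P.1, P.2.1⟩) = 0 ∧ z b0 = c}
  have hT : ∀ z : ι → ℂ, z b0 ∉ T → ∀ P : M, z ∈ Zl P.1 →
      z ∈ C ∧ ∀ P' ∈ (VI C).minimalPrimes, z ∈ Zl P' → P' = P := fun z hz P h =>
    hg' ⟨P.1, P.2.1⟩ z h fun h0 => hz (Or.inr (mem_iUnion.2 ⟨P, z, h, h0, rfl⟩))
  refine ⟨n, fun j => A (e.symm j), T, ((hf.subset sdiff_subset).biUnion fun P hP =>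
    not_infinite.1 fun h => hP.2 (And.intro hP.1 h)).union (finite_iUnion fun P => (key P).2),
    fun z hz => ⟨fun h => ?_, ?_⟩, fun z hz j j' h h' => ?_, fun γ τ hτ h j => ?_⟩
  · obtain ⟨P, hP, h1⟩ := cover h
    have h2 : P ∈ M := by_contra fun h2 => hz (Or.inl (mem_biUnion ⟨hP, h2⟩ ⟨z, h1, rfl⟩))
    exact ⟨e ⟨P, h2⟩, by rw [hA, e.symm_apply_apply]; exact h1⟩
  · rintro ⟨j, h⟩
    rw [hA] at h
    exact (hT z hz _ h).1
  · rw [hA] at h h'
    exact e.symm.injective (Subtype.ext ((hT z hz _ h').2 _ (e.symm j).2.1 h))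
  · obtain ⟨P', hP', h1⟩ := twist γ τ h (e.symm j).2.1
    have h2 : P' ∈ M := by
      refine ⟨hP', (((e.symm j).2.2).image γ.injective.injOn).mono ?_⟩
      rintro _ ⟨_, ⟨z, hz, rfl⟩, rfl⟩
      refine ⟨_, (h1 z).1 hz, ?_⟩
      show γ (z (τ.symm b0)) = γ (z b0)
      rw [τ.symm_apply_eq.2 hτ.symm]
    exact ⟨e ⟨P', h2⟩, fun z => by rw [hA, hA, e.symm_apply_apply]; exact h1 z⟩

end Pool.Agent.MP_4f1c5b_al.H95
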