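import Pool.Agent.MP_4f1c5b_al.H95.SpecA

/-!
The Euler characteristic modulo `l` and in the integers.
-/

namespace Pool.Agent.MP_4f1c5b_al.H95

open Filter Set

namespace EulA

theorem fx_line {K : Type} {n : ℕ} (s : K → K) (V : Set (Fin n → K)) :
    (Fx s 1 {x : Fin (n + 1) → K | Fin.tail x ∈ V}).ncard =
      {t | s t = t}.ncard * (Fx s 1 V).ncard := by
  rw [← ncard_prod, ← ncard_image_of_injective _
    (Fin.consEquiv fun _ : Fin (n + 1) => K).symm.injective]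
  congr 1
  ext ⟨t, y⟩
  rw [Equiv.image_symm_eq_preimage]
  simp [Fx, funext_iff, Fin.forall_fin_succ, Fin.consEquiv, and_left_comm]

theorem int_eq {a b : ℤ} (h : ∀ l : ℕ, l.Prime → (a : ZMod l) = b) : a = b := by
  obtain ⟨l, h1, h2⟩ := Nat.exists_infinite_primes ((b - a).natAbs + 1)
  have h3 := (ZMod.intCast_eq_intCast_iff_dvd_sub a b l).1 (h l h2)
  have h4 : b - a = 0 := Int.eq_zero_of_dvd_of_natAbs_lt_natAbs h3 (by simpa using h1)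
  omega

theorem anti {E E' : Subfield ℂ} (hE : E ≤ E') {R : Type} [CommRing R]
    {χ : ∀ n : ℕ, Set (Fin n → ℂ) → R} (h : IsEulerE E' χ) : IsEulerE E χ :=
  ⟨h.pt, fun n S T a b => h.add n S T (a.mono hE) (b.mono hE),
    fun n B a => h.line n B (a.mono hE), fun n S B d a b => h.cover n S B d (a.mono hE) (b.mono hE)⟩

end EulA

open EulA in
theorem eul : StmtEUL := by
  intro c l hl hcv
  haveI := Fact.mk hl
  have key : ∀ (n : ℕ) (S : Set (Fin n → ℂ)), ∃ z : ZMod l, ∀ W, (c.u.v _).Rep S W →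
      ∀ᶠ i in (uf : Filter ℕ), ((Fx (c.σ i) 1 (W i)).ncard : ZMod l) = z := by
    intro n S
    by_cases h : (c.u.v _).Int S
    · obtain ⟨W₀, h0⟩ := h
      obtain ⟨z, hz⟩ := ev_const fun i => ((Fx (c.σ i) 1 (W₀ i)).ncard : ZMod l)
      refine ⟨z, fun W hW => ?_⟩
      filter_upwards [hz, hW.uniq h0] with i h1 h2
      rw [h2, h1]
    · exact ⟨0, fun W hW => absurd hW.int h⟩
  choose χ hχ using key
  refine ⟨χ, ⟨?_, fun n S T hS hT hd => ?_, fun n B hB => ?_, fun n S B d hS hB h1 h2 => ?_⟩, hχ⟩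
  · obtain ⟨i, hi⟩ := (hχ 0 univ _ (c.u.v _).rep_univ).exists
    have : Fx (c.σ i) 1 (univ : Set (Fin 0 → kk i)) = {default} := by
      ext x
      simp [Fx, Subsingleton.elim x default, funext_iff]
    rw [← hi, this, ncard_singleton, Nat.cast_one]
  · obtain ⟨W, hW⟩ := hS.int c.u
    obtain ⟨V, hV⟩ := hT.int c.u
    obtain ⟨i, ⟨⟨a1, a2⟩, a3⟩, a4⟩ := ((((hχ n _ _ hW).and (hχ n _ _ hV)).and
      (hχ n _ _ (hW.union hV))).and ((hW.disjoint_iff hV).1 hd)).exists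
    have : Fx (c.σ i) 1 (W i ∪ V i) = Fx (c.σ i) 1 (W i) ∪ Fx (c.σ i) 1 (V i) := by
      ext x
      simp only [Fx, mem_union, mem_ofPred_eq, or_and_right]
    have a5 : Disjoint (Fx (c.σ i) 1 (W i)) (Fx (c.σ i) 1 (V i)) :=
      a4.mono (sep_subset _ _) (sep_subset _ _)
    rw [← a1, ← a2, ← a3, this, ncard_union_eq a5 (c.fx_finite i _ _) (c.fx_finite i _ _),
      Nat.cast_add]
  · obtain ⟨V, hV⟩ := hB.int c.u
    have hW : (c.u.v _).Rep {x : Fin (n + 1) → ℂ | Fin.tail x ∈ B}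
        fun i => {x | Fin.tail x ∈ V i} := UT.Rep.preimage (c.u.hom_comp Fin.succ univ) hV
    obtain ⟨i, ⟨a1, a2⟩, a3⟩ := (((hχ _ _ _ hW).and (hχ n _ _ hV)).and (c.q_one l)).exists
    have h4 : {t | c.σ i t = t}.ncard = pr i ^ c.e i := (fix_card i (c.e_pos i)).2
    rw [← a1, ← a2, fx_line, h4, Nat.cast_mul, a3, one_mul]
  · obtain ⟨W, hW⟩ := hS.int c.u
    obtain ⟨V, hV⟩ := hB.int c.u
    obtain ⟨i, ⟨a1, a2⟩, a3⟩ := (((hχ _ _ _ hW).and (hχ n _ _ hV)).and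
      (hcv n S B d W V hS hB h1 h2 hW hV)).exists
    rw [← a1, ← a2, a3]

open EulA in
theorem exi (h1 : StmtCTX) (h2 : StmtUNI) : StmtEXI := by
  intro u hE
  have key : ∀ (n : ℕ) (S : Set (Fin n → ℂ)), ∃ z : ℤ, Con S → ∃ A : Set ℂ, A.Countable ∧
      ∀ E : Subfield ℂ, A ⊆ E → ConE E S ∧ ∀ (R : Type) [CommRing R]
        (χ : ∀ n : ℕ, Set (Fin n → ℂ) → R), IsEulerE E χ → χ n S = z := by
    intro n S
    by_cases h : Con S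
    · obtain ⟨A, a1, a2⟩ := h.conE.exists_finite
      haveI := cl_countable a1.countable
      obtain ⟨z, hz⟩ := h2 (Subfield.closure A) u n S (a2 _ Subfield.subset_closure)
      exact ⟨z, fun _ => ⟨A, a1.countable, fun E hA => ⟨a2 E hA, fun R _ χ hχ =>
        hz R χ (anti (Subfield.closure_le.2 hA) hχ)⟩⟩⟩
    · exact ⟨0, fun a => absurd a h⟩
  choose χ hχ using key
  have three : ∀ (n₁ n₂ n₃ : ℕ) (S₁ : Set (Fin n₁ → ℂ)) (S₂ : Set (Fin n₂ → ℂ))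
      (S₃ : Set (Fin n₃ → ℂ)), Con S₁ → Con S₂ → Con S₃ → ∀ l : ℕ, l.Prime →
      ∃ (E : Subfield ℂ) (ψ : ∀ n : ℕ, Set (Fin n → ℂ) → ZMod l), IsEulerE E ψ ∧
        (ConE E S₁ ∧ ψ n₁ S₁ = χ n₁ S₁) ∧ (ConE E S₂ ∧ ψ n₂ S₂ = χ n₂ S₂) ∧
        ConE E S₃ ∧ ψ n₃ S₃ = χ n₃ S₃ := by
    intro n₁ n₂ n₃ S₁ S₂ S₃ a₁ a₂ a₃ l hl
    obtain ⟨A₁, b₁, c₁⟩ := hχ _ _ a₁
    obtain ⟨A₂, b₂, c₂⟩ := hχ _ _ a₂
    obtain ⟨A₃, b₃, c₃⟩ := hχ _ _ a₃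
    obtain ⟨c, -, hc⟩ := h1 u (A₁ ∪ A₂ ∪ A₃) ((b₁.union b₂).union b₃)
    obtain ⟨ψ, hψ, -⟩ := hE c l hl
    rw [union_subset_iff, union_subset_iff] at hc
    exact ⟨c.E, ψ, hψ, ⟨(c₁ _ hc.1.1).1, (c₁ _ hc.1.1).2 _ ψ hψ⟩,
      ⟨(c₂ _ hc.1.2).1, (c₂ _ hc.1.2).2 _ ψ hψ⟩, (c₃ _ hc.2).1, (c₃ _ hc.2).2 _ ψ hψ⟩
  refine ⟨χ, int_eq fun l hl => ?_, fun n S T hS hT hd => int_eq fun l hl => ?_,
    fun n B hB => int_eq fun l hl => ?_, fun n S B d hS hB a b => int_eq fun l hl => ?_⟩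
  · have h0 : Con (univ : Set (Fin 0 → ℂ)) := (ConE.univ (E := ⊤)).con
    obtain ⟨E, ψ, hψ, a, -⟩ := three _ _ _ _ _ _ h0 h0 h0 l hl
    rw [← a.2, hψ.pt, Int.cast_one]
  · obtain ⟨E, ψ, hψ, a, b, c⟩ := three _ _ _ _ _ _ hS hT (hS.union hT) l hl
    rw [Int.cast_add, ← a.2, ← b.2, ← c.2, hψ.add n S T a.1 b.1 hd]
  · have h0 : Con {x : Fin (n + 1) → ℂ | Fin.tail x ∈ B} := (hB.conE.comp Fin.succ).con
    obtain ⟨E, ψ, hψ, a, b, -⟩ := three _ _ _ _ _ _ hB h0 h0 l hl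
    rw [← a.2, ← b.2, hψ.line n B a.1]
  · obtain ⟨E, ψ, hψ, c, e, -⟩ := three _ _ _ _ _ _ hS hB hB l hl
    rw [Int.cast_mul, Int.cast_natCast, ← c.2, ← e.2, hψ.cover n S B d c.1 e.1 a b]

end Pool.Agent.MP_4f1c5b_al.H95
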