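import Pool.Agent.MP_4f1c5b_al.H95.SpecB

/-! The genus of the models is bounded. -/

namespace Pool.Agent.MP_4f1c5b_al.H95

open Filter Set WithZero Polynomial Module
open Pool.Agent.MP_cce4c9_lc.H87 Pool.Agent.MP_cce4c9_lc.H7
open scoped IntermediateField

namespace GbA

variable {k K : Type} [Field k] [Field K] [Algebra k K]

theorem root_le (v : Place k K) {p : K[X]} (hm : p.Monic) {M : ℤᵐ⁰} (h1 : 1 ≤ M)
    (hc : ∀ j, v.val (p.coeff j) ≤ M) {θ : K} (h0 : p.eval θ = 0) : v.val θ ≤ M := by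
  by_contra hn
  have h2 := not_le.1 hn
  have h3 : 0 < v.val θ := (zero_lt_one.trans_le h1).trans h2
  rw [eval_eq_sum_range, Finset.sum_range_succ, hm.coeff_natDegree, one_mul,
    add_eq_zero_iff_neg_eq] at h0
  have h4 := v.val.map_sum_lt (s := Finset.range p.natDegree) (f := fun j => p.coeff j * θ ^ j)
    (pow_pos h3 p.natDegree).ne' fun j hj => by
      rw [map_mul, map_pow]
      refine (mul_lt_mul_of_pos_right ((hc j).trans_lt h2) (pow_pos h3 j)).trans_le ?_
      rw [← pow_succ']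
      exact pow_le_pow_right₀ (h1.trans h2.le) (Finset.mem_range.1 hj)
  rw [← v.val.map_neg, h0, map_pow] at h4
  exact lt_irrefl _ h4

theorem coef_le (v : Place k K) {R : Type} [CommRing R] (f : R →+* k) (q : R[X]) {t : K}
    {M : ℤᵐ⁰} (h1 : 1 ≤ M) (ht : v.val t ≤ M) {N : ℕ} (hN : q.natDegree ≤ N) :
    v.val (q.eval₂ ((algebraMap k K).comp f) t) ≤ M ^ N := by
  rw [eval₂_eq_sum_range]
  refine v.val.map_sum_le fun j hj => ?_
  rw [map_mul, map_pow]
  refine (mul_le_of_le_one_left' (v.const_le _)).trans ((pow_le_pow_left' ht j).trans ?_)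
  exact pow_le_pow_right₀ h1 ((Nat.lt_succ_iff.1 (Finset.mem_range.1 hj)).trans hN)

theorem core [IsAlgClosed k] (hK : IsFF k K) {t θ : K} (ht : Transcendental k t)
    (hg : IntermediateField.adjoin k {t, θ} = ⊤) {N g : ℕ}
    (h : ∀ (v : Place k K) (M : ℤᵐ⁰), 1 ≤ M → v.val t ≤ M → v.val θ ≤ M ^ N)
    (hG : IsGenus k K g) : g ≤ finrank k⟮t⟯ K * N * finrank k⟮t⟯ K + 1 := by
  have := hK.fd' ht
  have hs := nonconst_of_transc ht
  have h0 : t ≠ 0 := fun e => hs ⟨0, by rw [e, map_zero]⟩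
  have e : (minpoly k⟮t⟯ θ).natDegree = finrank k⟮t⟯ K :=
    (Field.primitive_element_iff_minpoly_natDegree_eq _ _).1
      (IntermediateField.restrictScalars_eq_top_iff.1
        ((IntermediateField.adjoin_simple_adjoin_simple k t θ).trans hg))
  have li : LinearIndependent k⟮t⟯ fun i : Fin (finrank k⟮t⟯ K) => θ ^ (i : ℕ) :=
    e ▸ linearIndependent_pow θ
  have a := (ri k K hK).2 g hG t hs ((finrank k⟮t⟯ K * N) • (dv k t ⊔ 0 - dv k t)) _ li
    fun i v => by
      have b : (1 : ℤᵐ⁰) ≤ exp (max (v.ord t) 0 - v.ord t) := by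
        rw [← exp_zero, exp_le_exp]; omega
      have c := h v _ b ((v.val_le_exp (v.val_ne h0) _).2 (by omega))
      rw [map_pow, Finsupp.smul_apply, Finsupp.sub_apply, Finsupp.sup_apply, dv_ap hK, exp_nsmul,
        mul_comm, pow_mul]
      exact (pow_le_pow_left' c _).trans (pow_le_pow_right₀ (one_le_pow₀ b) i.2.le)
  rw [map_nsmul, map_sub, (deg k K hK).1 t hs, (deg k K hK).2, sub_zero, nsmul_eq_mul] at a
  have : (g : ℤ) ≤ (finrank k⟮t⟯ K * N * finrank k⟮t⟯ K + 1 : ℕ) := by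
    push_cast at a ⊢
    linarith [Int.natCast_nonneg (finrank k⟮t⟯ K)]
  exact_mod_cast this

end GbA

open GbA

theorem gb : StmtGB := by
  intro u F _ _ t M
  refine ⟨M.m.natDegree * (M.m.support.sup fun j => (M.m.coeff j).natDegree) * M.m.natDegree + 1,
    M.pres.mono fun i ⟨h1, h2, h3, h4⟩ g hg => h3 ▸ core (M.ff i) h1 h2 (fun v B a b => ?_) hg⟩
  rw [← eval_map] at h4
  refine root_le v (M.mon.map _) (one_le_pow₀ a) (fun j => ?_) h4
  rw [coeff_map]
  refine coef_le v _ _ a b ?_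
  by_cases hj : j ∈ M.m.support
  · exact Finset.le_sup (f := fun j => (M.m.coeff j).natDegree) hj
  · rw [notMem_support_iff.1 hj, natDegree_zero]
    exact Nat.zero_le _

end Pool.Agent.MP_4f1c5b_al.H95
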