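import Pool.Agent.MP_4f1c5b_al.H95.SpecA

/-!
Algebraic closures of countable subfields, existence of contexts, conjugacy of tuples with the
same ideal.
-/

namespace Pool.Agent.MP_4f1c5b_al.H95

open Filter Set Cardinal

namespace Gc1A

/-- Every element of the algebraic closure of a prime field is fixed by a power of the
Frobenius. -/
theorem exists_fix (i : ℕ) (y : kk i) : ∃ n, 0 < n ∧ fr i n y = y := by
  classical
  have hy : IsIntegral (ZMod (pr i)) y := Algebra.IsIntegral.isIntegral y
  let K := IntermediateField.adjoin (ZMod (pr i)) {y}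
  have h1 : FiniteDimensional (ZMod (pr i)) K := IntermediateField.adjoin.finiteDimensional hy
  have h2 : Finite K := Module.finite_of_finite (ZMod (pr i))
  let _ : Fintype K := Fintype.ofFinite K
  have h3 : Fintype.card K = pr i ^ Module.finrank (ZMod (pr i)) K := by
    rw [Module.card_eq_pow_finrank (K := ZMod (pr i)), ZMod.card]
  refine ⟨Module.finrank (ZMod (pr i)) K, Module.finrank_pos, ?_⟩
  have h4 := FiniteField.pow_card
    (⟨y, IntermediateField.mem_adjoin_simple_self (ZMod (pr i)) y⟩ : K)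
  rw [h3] at h4
  exact congrArg Subtype.val h4

theorem poly_countable (E : Type) [CommRing E] [Countable E] (ι : Type) [Finite ι] :
    Countable (MvPolynomial ι E) :=
  mk_le_aleph0_iff.1 (MvPolynomial.cardinalMk_le_max.trans
    (max_le (max_le mk_le_aleph0 mk_le_aleph0) le_rfl))

/-- Two homomorphisms with the same kernel differ by an automorphism. -/
theorem ext_ker {R : Type} [CommRing R] [Countable R] (f g : R →+* ℂ)
    (h : ∀ p, f p = 0 ↔ g p = 0) : ∃ θ : ℂ ≃+* ℂ, ∀ p, θ (f p) = g p := by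
  have : Countable (R ⧸ RingHom.ker f) := Ideal.Quotient.mk_surjective.countable
  have hf : ∀ p ∈ RingHom.ker f, f p = 0 := fun _ hp => hp
  have hg : ∀ p ∈ RingHom.ker f, g p = 0 := fun p hp => (h p).1 hp
  obtain ⟨θ, hθ⟩ := ext_aut (R := R ⧸ RingHom.ker f) (Ideal.Quotient.lift _ f hf)
    (Ideal.Quotient.lift _ g hg) (RingHom.lift_injective_of_ker_le_ideal _ hf le_rfl)
    (RingHom.lift_injective_of_ker_le_ideal _ hg fun p hp => (h p).2 hp)
  exact ⟨θ, fun p => hθ (Ideal.Quotient.mk _ p)⟩

end Gc1A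

theorem acl : StmtACL := fun E _ => by
  refine ⟨(algebraicClosure E ℂ).toSubfield, ?_, fun c => mem_algebraicClosure_iff, fun c hc => ?_⟩
  · have h : ((algebraicClosure E ℂ).toSubfield : Set ℂ) = {x : ℂ | IsAlgebraic E x} :=
      Set.ext fun c => mem_algebraicClosure_iff
    have h2 : ((algebraicClosure E ℂ).toSubfield : Set ℂ).Countable :=
      h ▸ Algebraic.countable E ℂ
    exact h2.to_subtype
  · have h' : IsAlgebraic (algebraicClosure E ℂ) c := hc
    exact mem_algebraicClosure_iff.2 (h'.restrictScalars E)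

theorem ctx : StmtCTX := fun u A hA => by
  have := cl_countable hA
  obtain ⟨κ, h1, h2, h3⟩ := acl (Subfield.closure A)
  obtain ⟨e, he⟩ := exists_surjective_nat κ
  choose x hx using fun j => u.surj (e j)
  choose n hn using Gc1A.exists_fix
  refine ⟨⟨u, fun i => ∏ j ∈ Finset.range (i + 1), n i (x j i), κ,
    fun i => Finset.prod_pos fun j _ => (hn i _).1, h1, h3, fun y hy => ?_⟩, rfl, fun c hc => ?_⟩
  · obtain ⟨j, hj⟩ := he ⟨_, hy⟩
    have h4 : u.π y = u.π (x j) := by rw [hx, hj]
    filter_upwards [(u.eq _ _).1 h4, ev_ge j] with i h5 h6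
    obtain ⟨m, hm⟩ := Finset.dvd_prod_of_mem (fun j => n i (x j i))
      (Finset.mem_range.2 (Nat.lt_succ_of_le h6))
    rw [hm, h5]
    exact fr_mul_fix (hn i _).2 m
  · exact (h2 c).2 (isAlgebraic_algebraMap
      (⟨c, Subfield.subset_closure hc⟩ : Subfield.closure A))

theorem typ : StmtTYP := fun E _ ι _ x y h => by
  have := Gc1A.poly_countable E ι
  obtain ⟨θ, hθ⟩ := Gc1A.ext_ker (R := MvPolynomial ι E) (MvPolynomial.aeval x).toRingHom
    (MvPolynomial.aeval y).toRingHom h
  have key : ∀ p : MvPolynomial ι E, θ (MvPolynomial.aeval x p) = MvPolynomial.aeval y p := hθ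
  refine ⟨θ, fun c hc => ?_, funext fun l => ?_⟩
  · have h1 := key (MvPolynomial.C ⟨c, hc⟩)
    rw [MvPolynomial.aeval_C, MvPolynomial.aeval_C] at h1
    exact h1
  · simpa using key (MvPolynomial.X l)

end Pool.Agent.MP_4f1c5b_al.H95
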