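import Pool.Agent.MP_4f1c5b_al.H95.SpecA

/-!
Constructible neighbourhoods of conjugacy classes; internal invariant sets are constructible.
-/

namespace Pool.Agent.MP_4f1c5b_al.H95

open Set

namespace Gc3A

/-- A point in every constructible set through `w` is conjugate to `w`. -/
theorem cj (h1 : StmtTYP) {E : Subfield ℂ} [Countable E] {ι : Type} [Finite ι] {w x : ι → ℂ}
    (h : ∀ T, ConE E T → w ∈ T → x ∈ T) : ∃ θ ∈ Au E, θ ∘ w = x :=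
  h1 E ι w x fun p => ⟨h _ (ConE.zero' p), fun H => by
    by_contra hn
    exact h _ (ConE.zero' p).compl hn H⟩

/-- Finite subcovers. -/
theorem sub {α : ℕ → Type} {β γ : Type} {T : UT α β} {S : Set β} (hS : T.Int S) {A : Set γ}
    (hA : A.Countable) {f : γ → Set β} (h : ∀ a ∈ A, T.Int (f a))
    (hc : ∀ x ∈ S, ∃ a ∈ A, x ∈ f a) : ∃ A' ⊆ A, A'.Finite ∧ ∀ x ∈ S, ∃ a ∈ A', x ∈ f a := by
  obtain ⟨B, b1, b2, b3⟩ := UT.sat hS (hA.image f) (by rintro _ ⟨a, ha, rfl⟩; exact h a ha)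
    fun x hx => by
      obtain ⟨a, ha, e⟩ := hc x hx
      exact ⟨_, ⟨a, ha, rfl⟩, e⟩
  obtain ⟨A', a1, a2, rfl⟩ := b2.exists_subset_finite_image_eq b1
  refine ⟨A', a1, a2, fun x hx => ?_⟩
  obtain ⟨_, ⟨a, ha, rfl⟩, e⟩ := b3 hx
  exact ⟨a, ha, e⟩

end Gc3A

open Gc3A

theorem nbh (h1 : StmtTYP) (h2 : StmtCNT) : StmtNBH := by
  intro u E _ ι _ w Bd hB hw
  obtain ⟨A, a1, a2, a3⟩ := sub hB (A := {T | ConE E T ∧ w ∈ T})
    ((h2 E ι).mono fun _ h => h.1) (f := fun T => Tᶜ) (fun T h => h.1.compl.int u) fun x hx => by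
      by_contra hn
      obtain ⟨θ, hθ, rfl⟩ := cj h1 (w := w) (x := x) fun T t1 t2 => by
        by_contra h
        exact hn ⟨T, ⟨t1, t2⟩, h⟩
      exact hw θ hθ hx
  refine ⟨⋂ T ∈ A, T, ConE.biInter a2 fun T h => (a1 h).1, mem_iInter₂.2 fun T h => (a1 h).2,
    disjoint_left.2 fun x hx hx' => ?_⟩
  obtain ⟨T, t1, t2⟩ := a3 x hx'
  exact t2 (mem_iInter₂.1 hx T t1)

theorem nbh2 (h1 : StmtTYP) (h2 : StmtCNT) : StmtNBH2 := by
  intro u E _ ι _ w Bd hB hw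
  obtain ⟨A, a1, a2, a3⟩ := sub hB (A := {T | ConE E T ∧ w ∈ T})
    ((h2 E ι).mono fun _ h => h.1)
    (f := fun T => ({p | p ∘ Sum.inl ∈ T} ∩ {p | p ∘ Sum.inr ∈ T})ᶜ)
    (fun T h => ((h.1.comp _).inter (h.1.comp _)).compl.int u) fun x hx => by
      by_contra hn
      have k : ∀ T, ConE E T → w ∈ T → x ∘ Sum.inl ∈ T ∧ x ∘ Sum.inr ∈ T := fun T t1 t2 => by
        by_contra h
        exact hn ⟨T, ⟨t1, t2⟩, h⟩
      obtain ⟨θ, hθ, e⟩ := cj h1 fun T t1 t2 => (k T t1 t2).1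
      obtain ⟨θ', hθ', e'⟩ := cj h1 fun T t1 t2 => (k T t1 t2).2
      refine hw θ hθ θ' hθ' ?_
      rwa [e, e', Sum.elim_comp_inl_inr]
  refine ⟨⋂ T ∈ A, T, ConE.biInter a2 fun T h => (a1 h).1, mem_iInter₂.2 fun T h => (a1 h).2,
    fun x hx x' hx' h => ?_⟩
  obtain ⟨T, t1, t2⟩ := a3 _ h
  exact t2 ⟨mem_iInter₂.1 hx T t1, mem_iInter₂.1 hx' T t1⟩

theorem good (h1 : StmtTYP) (h2 : StmtCNT) : StmtGOOD := by
  intro u E _ ι _ S hS hi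
  obtain ⟨A, a1, a2, a3⟩ := sub hS (A := {T | ConE E T ∧ T ⊆ S})
    ((h2 E ι).mono fun _ h => h.1) (f := fun T => T) (fun T h => h.1.int u) fun x hx => by
      obtain ⟨T, t1, t2, t3⟩ := nbh h1 h2 u E ι x Sᶜ hS.compl fun θ hθ h => h (hi θ hθ x hx)
      exact ⟨T, ⟨t1, disjoint_compl_right_iff_subset.1 t3⟩, t2⟩
  have : S = ⋃ T ∈ A, T :=
    Subset.antisymm (fun x hx => by simpa using a3 x hx) (iUnion₂_subset fun T h => (a1 h).2)
  rw [this]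
  exact ConE.biUnion a2 fun T h => (a1 h).1

end Pool.Agent.MP_4f1c5b_al.H95
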