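import Pool.Agent.MP_4f1c5b_al.H95.SpecA

/-! Gluing of local torsors, and the induction on the dimension of the base. -/

namespace Pool.Agent.MP_4f1c5b_al.H95

open Filter Set

namespace GlueA

/-- The sum vanishes on all constructible subsets of `B`. -/
def Nice (c : Ctx) {l d : ℕ} (f : ∀ i, (Fin d → kk i) → ZMod l) (B : Set (Fin d → ℂ)) : Prop :=
  ConE c.E B ∧ ∀ B' ⊆ B, ConE c.E B' → ∀ V, (c.u.v _).Rep B' V →
    ∀ᶠ i in (uf : Filter ℕ), ∑ᶠ y ∈ Fx (c.σ i) 1 (V i), f i y = 0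

variable {c : Ctx} {l d : ℕ} {f : ∀ i, (Fin d → kk i) → ZMod l}

theorem nice_empty : Nice c f ∅ := ⟨ConE.empty, fun B' hB _ V hV =>
  (hV.empty_iff.1 (subset_empty_iff.1 hB)).mono fun i hi => by simp [hi, Fx]⟩

theorem Nice.union {B₁ B₂ : Set (Fin d → ℂ)} (h₁ : Nice c f B₁) (h₂ : Nice c f B₂) :
    Nice c f (B₁ ∪ B₂) := by
  refine ⟨h₁.1.union h₂.1, fun B' hB hc V hV => ?_⟩
  obtain ⟨V₁, hV₁⟩ := h₁.1.int c.u
  filter_upwards [h₁.2 _ inter_subset_right (hc.inter h₁.1) _ (hV.inter hV₁),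
    h₂.2 _ (sdiff_subset_iff.2 hB) (hc.diff h₁.1) _ (hV.diff hV₁)] with i e1 e2
  have e : Fx (c.σ i) 1 (V i) = Fx (c.σ i) 1 (V i ∩ V₁ i) ∪ Fx (c.σ i) 1 (V i \ V₁ i) := by
    ext x
    simp only [Fx, mem_union, mem_ofPred_eq, mem_inter_iff, Set.mem_sdiff]
    tauto
  rw [e, finsum_mem_union (disjoint_left.2 fun x h1 h2 => h2.1.2 h1.1.2) (c.fx_finite i _ _)
    (c.fx_finite i _ _), e1, e2, add_zero]

theorem nice_sUnion {A : Set (Set (Fin d → ℂ))} (hA : A.Finite) (h : ∀ B ∈ A, Nice c f B) :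
    Nice c f (⋃₀ A) := by
  induction A, hA using Finite.induction_on with
  | empty => simpa using nice_empty
  | insert _ _ ih =>
    rw [sUnion_insert]
    exact (h _ (mem_insert _ _)).union (ih fun B hB => h B (mem_insert_of_mem _ hB))

end GlueA

open GlueA

theorem glue (h1 : StmtGOOD) (h2 : StmtCNT) : StmtGLUE := by
  intro c l d hT f hf
  have := c.cnt
  have h3 : ∀ y, ∃ B, Nice c f B ∧ y ∈ B := fun y => by
    obtain ⟨ι, _, b, G, T, Ψ, hc, ht, hy, hΨ, hV⟩ := hf y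
    obtain ⟨W, hW⟩ := hc.int c.u
    refine ⟨_, ⟨h1 c.u c.E _ _ (hW.image (c.u.hom_comp b T)).int ?_, fun B' hB hc' V hV' => ?_⟩, hy⟩
    · rintro θ hθ _ ⟨x, hx, rfl⟩
      exact ⟨θ ∘ x, hc.inv θ hθ x hx, rfl⟩
    · have h4 := hW.sep (c.u.hom_comp b T) hV'
      have h5 : Tors b G {x ∈ T | x ∘ b ∈ B'} :=
        ⟨ht.fix, fun g hg x hx => ⟨ht.inv g hg x hx.1, by
          rw [show (x ∘ g) ∘ b = x ∘ b from funext fun j => congrArg x (ht.fix g hg j)]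
          exact hx.2⟩, fun g hg x hx => ht.free g hg x hx.1,
          fun x hx x' hx' => ht.tr x hx.1 x' hx'.1⟩
      have h6 : (· ∘ b) '' {x ∈ T | x ∘ b ∈ B'} = B' :=
        Subset.antisymm (by rintro _ ⟨x, hx, rfl⟩; exact hx.2) fun z hz => by
          obtain ⟨x, hx, rfl⟩ := hB hz
          exact ⟨x, ⟨hx, hz⟩, rfl⟩
      filter_upwards [hT ι b G _ _ f Ψ (hc.inter (hc'.comp b)) h5 h4 hΨ
        ((hV W hW).mono fun i hi g hg x hx => hi g hg x ⟨hx.1.1, hx.2⟩),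
        ((h4.image (c.u.hom_comp b _)).eq_iff hV').1 h6] with i e1 e2
      rwa [e2] at e1
  obtain ⟨A, hA, h4, h5⟩ := UT.sat (c.u.v (Fin d)).rep_univ.int
    ((h2 c.E (Fin d)).mono fun B (hB : Nice c f B) => hB.1) (fun B hB => hB.1.int c.u)
    fun y _ => h3 y
  exact (nice_sUnion h4 hA).2 _ h5 ConE.univ _ (c.u.v _).rep_univ

theorem step (h1 : StmtLOC) (h2 : StmtGLUE) : StmtSTEP := by
  intro c l d hl hT ι _ b τ S W hb hS hi hfr hfin hW
  have := Fact.mk hl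
  filter_upwards [h2 c l d hT _ (h1 c l d ι b τ S W hb hS hi hfr hfin hW)] with i h
  have e : Fx (c.σ i) τ (W i) =
      ⋃ y ∈ Fx (c.σ i) 1 univ, Fx (c.σ i) τ {x ∈ W i | x ∘ b ∘ Fin.succ = y} := by
    ext x
    simp only [mem_iUnion]
    refine ⟨fun hx => ⟨x ∘ b ∘ Fin.succ, ⟨trivial, funext fun j => ?_⟩, ⟨hx.1, rfl⟩, hx.2⟩,
      fun ⟨_, _, hx⟩ => ⟨hx.1.1, hx.2⟩⟩
    exact (congrFun hx.2 _).trans (congrArg x (hb _))
  rw [← ZMod.natCast_eq_zero_iff, e, (c.fx_finite i 1 univ).ncard_biUnion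
    (fun y _ => c.fx_finite i _ _) fun y _ y' _ hy => disjoint_left.2
      fun x h1 h2 => hy (h1.1.2.symm.trans h2.1.2), ← h]
  exact (Nat.castAddMonoidHom (ZMod l)).map_finsum_mem _ (c.fx_finite i 1 univ)

theorem base (h : StmtALG) : StmtBASE := by
  intro c l ι _ b τ S W _ hS _ hfr hfin hW
  have := c.cnt
  have h1 : S.Finite := (hfin Fin.elim0).subset fun x hx => ⟨hx, Subsingleton.elim _ _⟩
  have h2 := h c.E (⋃ x ∈ S, range x) (h1.biUnion fun x _ => finite_range x) fun θ hθ z hz => by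
    obtain ⟨x, hx, j, rfl⟩ := mem_iUnion₂.1 hz
    exact mem_biUnion (x := θ ∘ x) (hS.inv θ hθ x hx) ⟨j, rfl⟩
  obtain ⟨γ, h3, h4⟩ := c.exists_σ
  refine ((h4.fx hW τ).empty_iff.1 (eq_empty_of_forall_notMem fun x hx => hfr x hx.1 ?_)).mono
    fun i hi => by simp [hi]
  exact hx.2.symm.trans (funext fun j => h3 _ (c.alg _ (h2 _ (mem_biUnion hx.1 ⟨j, rfl⟩))))

end Pool.Agent.MP_4f1c5b_al.H95
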