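import Pool.Agent.MP_4f1c5b_al.H95.SpecB

/-!
Irreducibility of a monic bivariate polynomial passes from the ultraproduct to almost all factors.
-/

namespace Pool.Agent.MP_4f1c5b_al.H95

open Filter Polynomial

namespace IrrA

theorem coeff_swap {R : Type} [CommRing R] (p : R[X][X]) (e j : ℕ) :
    ((Bivariate.swap p).coeff e).coeff j = (p.coeff j).coeff e := by
  induction p using Polynomial.induction_on' with
  | add p q hp hq => simp only [map_add, coeff_add, hp, hq]
  | monomial n f =>
    induction f using Polynomial.induction_on' with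
    | add f g hf hg => simp only [map_add, coeff_add, hf, hg]
    | monomial d r =>
      rw [Bivariate.swap_monomial_monomial, coeff_monomial, coeff_monomial]
      by_cases h1 : d = e
      · by_cases h2 : n = j
        · simp only [if_pos h1, if_pos h2, coeff_monomial]
        · simp only [if_pos h1, if_neg h2, coeff_monomial, coeff_zero]
      · by_cases h2 : n = j
        · simp only [if_neg h1, if_pos h2, coeff_monomial, coeff_zero]
        · simp only [if_neg h1, if_neg h2, coeff_zero]

/-- A bound for the degrees in the inner variable. -/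
theorem inner_iff {R : Type} [CommRing R] (p : R[X][X]) (N : ℕ) :
    (Bivariate.swap p).natDegree ≤ N ↔ ∀ j, (p.coeff j).natDegree ≤ N := by
  simp only [natDegree_le_iff_coeff_eq_zero]
  refine ⟨fun h j e he => ?_, fun h e he => ?_⟩
  · rw [← coeff_swap, h e he, coeff_zero]
  · ext j
    rw [coeff_swap, h j e he, coeff_zero]

/-- A reducible monic polynomial has monic factors of bounded degrees. -/
theorem fac {k : Type} [Field k] {M : k[X][X]} (hM : M.Monic) {n N : ℕ} (hn : M.natDegree ≤ n)
    (hN : ∀ j, (M.coeff j).natDegree ≤ N)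
    (h : ¬ Irreducible (M.map (algebraMap k[X] (RatFunc k)))) :
    M = 1 ∨ ∃ x : k[X][X] × k[X][X], x.1 * x.2 = M ∧
      (x.1.Monic ∧ x.1.natDegree ∈ Set.Icc 1 n ∧ ∀ j, (x.1.coeff j).natDegree ≤ N) ∧
      (x.2.Monic ∧ x.2.natDegree ∈ Set.Icc 1 n ∧ ∀ j, (x.2.coeff j).natDegree ≤ N) := by
  rw [← hM.irreducible_iff_irreducible_map_fraction_map, hM.irreducible_iff_natDegree] at h
  by_cases h1 : M = 1
  · exact Or.inl h1
  refine Or.inr ?_
  have h2 : ∃ a b : k[X][X], a.Monic ∧ b.Monic ∧ a * b = M ∧ a.natDegree ≠ 0 ∧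
      b.natDegree ≠ 0 := by
    by_contra hc
    refine h ⟨h1, fun a b ha hb e => ?_⟩
    by_contra h3
    exact hc ⟨a, b, ha, hb, e, fun h4 => h3 (Or.inl h4), fun h4 => h3 (Or.inr h4)⟩
  obtain ⟨a, b, ha, hb, e, h3, h4⟩ := h2
  have h5 : a.natDegree + b.natDegree = M.natDegree := by rw [← e, ha.natDegree_mul hb]
  have h6 : (Bivariate.swap a).natDegree + (Bivariate.swap b).natDegree =
      (Bivariate.swap M).natDegree := by
    rw [← e, map_mul, natDegree_mul]
    · exact fun h7 => ha.ne_zero ((map_eq_zero_iff _ Bivariate.swap.injective).1 h7)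
    · exact fun h7 => hb.ne_zero ((map_eq_zero_iff _ Bivariate.swap.injective).1 h7)
  have h7 := (inner_iff M N).2 hN
  have h8 : a.natDegree ∈ Set.Icc 1 n := ⟨by omega, by omega⟩
  have h9 : b.natDegree ∈ Set.Icc 1 n := ⟨by omega, by omega⟩
  exact ⟨(a, b), e, ⟨ha, h8, (inner_iff a N).1 (by omega)⟩,
    ⟨hb, h9, (inner_iff b N).1 (by omega)⟩⟩

/-- The polynomial over the product assembled from polynomials of bounded degrees. -/
noncomputable def asm (n N : ℕ) (a : ∀ i, (kk i)[X][X]) : (∀ i, kk i)[X][X] :=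
  ∑ j ∈ Finset.range (n + 1), monomial j
    (∑ e ∈ Finset.range (N + 1), monomial e fun i => ((a i).coeff j).coeff e)

theorem asm_map {n N : ℕ} (a : ∀ i, (kk i)[X][X]) (i : ℕ) (hn : (a i).natDegree ≤ n)
    (hN : ∀ j, ((a i).coeff j).natDegree ≤ N) :
    (asm n N a).map (mapRingHom (Pi.evalRingHom kk i)) = a i := by
  rw [asm, Polynomial.map_sum]
  refine Eq.trans (Finset.sum_congr rfl fun j _ => ?_)
    ((a i).as_sum_range' (n + 1) (Nat.lt_succ_of_le hn)).symm
  rw [map_monomial, coe_mapRingHom, Polynomial.map_sum]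
  refine congrArg _ (Eq.trans (Finset.sum_congr rfl fun e _ => ?_)
    (((a i).coeff j).as_sum_range' (N + 1) (Nat.lt_succ_of_le (hN j))).symm)
  rw [map_monomial, Pi.evalRingHom_apply]

/-- Polynomials that agree almost everywhere have the same class. -/
theorem map_eq (u : UP) {P Q : (∀ i, kk i)[X][X]}
    (h : ∀ᶠ i in (uf : Filter ℕ), P.map (mapRingHom (Pi.evalRingHom kk i)) =
      Q.map (mapRingHom (Pi.evalRingHom kk i))) :
    P.map (mapRingHom u.π) = Q.map (mapRingHom u.π) := by
  ext j e
  simp only [coeff_map, coe_mapRingHom]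
  refine (u.eq _ _).2 (h.mono fun i hi => ?_)
  have := congrArg (fun p : (kk i)[X][X] => (p.coeff j).coeff e) hi
  simpa only [coeff_map, coe_mapRingHom, Pi.evalRingHom_apply] using this

/-- A polynomial that is almost everywhere monic of positive bounded degree is not a unit. -/
theorem not_unit (u : UP) {P : (∀ i, kk i)[X][X]} {n : ℕ}
    (h : ∀ᶠ i in (uf : Filter ℕ), (P.map (mapRingHom (Pi.evalRingHom kk i))).Monic ∧
      (P.map (mapRingHom (Pi.evalRingHom kk i))).natDegree ∈ Set.Icc 1 n) :
    ¬ IsUnit ((P.map (mapRingHom u.π)).map (algebraMap ℂ[X] (RatFunc ℂ))) := by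
  obtain ⟨d, hd, h1⟩ := ev_const_mem (Set.finite_Icc 1 n) (h.mono fun _ hi => hi.2)
  have h2 : (P.map (mapRingHom u.π)).coeff d = 1 := by
    have h3 : (C (P.coeff d)).map (mapRingHom u.π) = (1 : (∀ i, kk i)[X][X]).map (mapRingHom u.π) :=
      map_eq u ((h.and h1).mono fun i hi => by
        have h4 := hi.1.1.coeff_natDegree
        rw [hi.2, coeff_map] at h4
        rw [map_C, h4, Polynomial.map_one, C_1])
    rw [map_C, Polynomial.map_one, ← C_1] at h3
    rw [coeff_map, C_injective h3]
  intro h3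
  have h4 := natDegree_eq_zero_of_isUnit h3
  have h5 : d ≤ ((P.map (mapRingHom u.π)).map (algebraMap ℂ[X] (RatFunc ℂ))).natDegree :=
    le_natDegree_of_ne_zero (by rw [coeff_map, h2, map_one]; exact one_ne_zero)
  have := hd.1
  omega

end IrrA

open IrrA in
theorem irr : StmtIRR := by
  intro u m hm hirr
  by_contra hn
  obtain ⟨N, hN⟩ : ∃ N, ∀ j, (m.coeff j).natDegree ≤ N := ⟨_, (inner_iff m _).1 le_rfl⟩
  have h1 := (ev_not.2 hn).mono fun i hi => fac (n := m.natDegree) (N := N) (hm.map _)
    natDegree_map_le (fun j => by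
      rw [coeff_map]; exact natDegree_map_le.trans (hN j)) hi
  rcases ev_or.1 h1 with h2 | h2
  · have h3 := map_eq u (P := m) (Q := 1) (h2.mono fun i hi => by rw [hi, Polynomial.map_one])
    rw [h3, Polynomial.map_one, Polynomial.map_one] at hirr
    exact not_irreducible_one hirr
  · obtain ⟨x, hx⟩ := ev_choose (α := fun i => (kk i)[X][X] × (kk i)[X][X])
      (fun _ => ⟨(0, 0)⟩) h2
    have ha := hx.mono fun i hi => asm_map (fun i => (x i).1) i hi.2.1.2.1.2 hi.2.1.2.2
    have hb := hx.mono fun i hi => asm_map (fun i => (x i).2) i hi.2.2.2.1.2 hi.2.2.2.2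
    have h3 := map_eq u (P := m) (Q := asm m.natDegree N (fun i => (x i).1) *
        asm m.natDegree N fun i => (x i).2) (by
      filter_upwards [hx, ha, hb] with i h4 h5 h6
      rw [Polynomial.map_mul, h5, h6, h4.1])
    rw [h3, Polynomial.map_mul, Polynomial.map_mul] at hirr
    rcases hirr.isUnit_or_isUnit rfl with h4 | h4
    · refine not_unit u (n := m.natDegree) ?_ h4
      filter_upwards [hx, ha] with i h5 h6
      rw [h6]
      exact ⟨h5.2.1.1, h5.2.1.2.1⟩
    · refine not_unit u (n := m.natDegree) ?_ h4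
      filter_upwards [hx, hb] with i h5 h6
      rw [h6]
      exact ⟨h5.2.2.1, h5.2.2.2.1⟩

end Pool.Agent.MP_4f1c5b_al.H95
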