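import Pool.Agent.MP_4f1c5b_al.H95.SpecA

/-!
Near every point of the base, the twisted point count of the fibre depends only on the Frobenius
class in a torsor.
-/

namespace Pool.Agent.MP_4f1c5b_al.H95

open Filter Set

namespace LocA

variable {d m : ℕ}

/-- The permutations of the coordinates of `w` induced by automorphisms that fix `A`. -/
def Gp (A : Set ℂ) (w : Fin d ⊕ Fin m → ℂ) : Subgroup (Equiv.Perm (Fin d ⊕ Fin m)) where
  carrier := {g | (∀ j, g (.inl j) = .inl j) ∧ ∃ γ ∈ Au A, γ ∘ w = w ∘ g}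
  one_mem' := ⟨fun _ => rfl, 1, one_mem _, rfl⟩
  mul_mem' := by
    rintro g g' ⟨h1, γ, h2, h3⟩ ⟨h1', γ', h2', h3'⟩
    refine ⟨fun j => by rw [Equiv.Perm.mul_apply, h1', h1], γ * γ', mul_mem h2 h2',
      funext fun k => ?_⟩
    exact (congrArg γ (congrFun h3' k)).trans (congrFun h3 (g' k))
  inv_mem' := by
    rintro g ⟨h1, γ, h2, h3⟩
    refine ⟨fun j => Equiv.Perm.inv_eq_iff_eq.2 (h1 j).symm, γ⁻¹, inv_mem h2, funext fun k => ?_⟩
    have := congrFun h3 (g⁻¹ k)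
    simp only [Function.comp, Equiv.Perm.coe_inv, Equiv.apply_symm_apply] at this
    exact γ.symm_apply_eq.2 this.symm

theorem exists_g {A : Set ℂ} {y : Fin d → ℂ} {z : Fin m → ℂ} (hz : Function.Injective z)
    {γ : ℂ ≃+* ℂ} (hγ : γ ∈ Au A) (hy : ∀ j, γ (y j) = y j) (h : ∀ k, γ (z k) ∈ range z) :
    ∃ g ∈ Gp A (Sum.elim y z), γ ∘ Sum.elim y z = Sum.elim y z ∘ g := by
  choose g hg using h
  have hi : Function.Injective g := fun k k' e =>
    hz (γ.injective (by rw [← hg, ← hg, e]))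
  have e : γ ∘ Sum.elim y z = Sum.elim y z ∘
      Equiv.sumCongr (Equiv.refl _) (Equiv.ofBijective g hi.bijective_of_finite) := by
    funext k
    rcases k with j | k
    · exact hy j
    · exact (hg k).symm
  exact ⟨_, ⟨fun _ => rfl, γ, hγ, e⟩, e⟩

theorem inr_of {g : Equiv.Perm (Fin d ⊕ Fin m)} (h : ∀ j, g (.inl j) = .inl j) (k : Fin m) :
    ∃ k', g (.inr k) = .inr k' := by
  rcases e : g (.inr k) with j | k'
  · exact absurd (g.injective (e.trans (h j).symm)) Sum.inr_ne_inl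
  · exact ⟨k', rfl⟩

end LocA

open LocA in
theorem loc (hC : StmtCL) (h1 : StmtNBH) (h2 : StmtNBH2) (h3 : StmtCONJ) : StmtLOC := by
  classical
  intro c l d _ ι _ b τ S W hb hS hτ hfree hfin hW y
  have := c.cnt
  let Ey := Subfield.closure ((c.E : Set ℂ) ∪ range y)
  have : Countable Ey := cl_countable ((countable_coe_iff.1 c.cnt).union (countable_range y))
  have hAu : ∀ θ, θ ∈ Au Ey ↔ θ ∈ Au c.E ∧ ∀ j, θ (y j) = y j := fun θ => by
    rw [Au_closure, Au_union, mem_Au (A := range y), forall_mem_range]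
  have hCy : ConE Ey {x ∈ S | x ∘ b ∘ Fin.succ = y} := by
    have := (hS.mono (E' := Ey) fun x hx => Subfield.subset_closure (Or.inl hx)).inter
      (ConE.iInter fun j => ConE.eq_const (E := Ey) (b j.succ)
        (Subfield.subset_closure (Or.inr ⟨j, rfl⟩)))
    convert this using 1
    ext x
    simp [funext_iff]
  obtain ⟨B, Ψ, hB, hBa, hΨ, hΨ1, H⟩ := hC ι (b 0) τ Ey _ l c.u hCy (hb 0)
    (fun x hx => ⟨hτ x hx.1, funext fun j => by
      rw [← hx.2]; exact congrArg x (hb _)⟩) (fun x hx => hfree x hx.1) fun t =>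
      (hfin (Fin.cons t y)).subset fun x hx => ⟨hx.1.1, funext fun j => by
        refine Fin.cases hx.2 (fun j => ?_) j
        exact congrFun hx.1.2 j⟩
  obtain ⟨B', hB', hBB, -, hinv⟩ := h3 Ey B hB hBa
  obtain ⟨m, z, hz, rfl⟩ := hB'.fin_param
  set w := Sum.elim y z with hw
  let G := Gp Ey w
  have hG : ∀ γ ∈ Au Ey, ∃ g ∈ G, γ ∘ w = w ∘ g := fun γ hγ =>
    exists_g hz hγ ((hAu γ).1 hγ).2 fun k => hinv γ hγ _ ⟨k, rfl⟩
  let Ψ' : Equiv.Perm (Fin d ⊕ Fin m) → ZMod l := fun g =>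
    if h : g ∈ G then Ψ h.2.choose else 0
  have hΨ' : ∀ g ∈ G, ∀ γ ∈ Au Ey, γ ∘ w = w ∘ g → Ψ' g = Ψ γ := fun g hg γ hγ e => by
    simp only [Ψ', dif_pos hg]
    refine hΨ _ hg.2.choose_spec.1 _ hγ fun x hx => ?_
    obtain ⟨k, rfl⟩ := hBB hx
    exact congrFun (hg.2.choose_spec.2.trans e.symm) (.inr k)
  let Wb : ∀ i, Set (Fin d ⊕ Fin m → kk i) := fun i => {x | ∃ g : G, c.σ i ∘ x = x ∘ g.1 ∧
    ((Fx (c.σ i) τ {x' ∈ W i | x' ∘ b ∘ Fin.succ = x ∘ Sum.inl}).ncard : ZMod l) ≠ Ψ' g}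
  obtain ⟨T1, hT1, hw1, hd1⟩ := h1 c.u c.E _ w _ ((c.u.v _).int_lim Wb) (by
    rintro θ hθ ⟨a, ha, ha'⟩
    obtain ⟨g, hg⟩ := ev_exists.1 ha'
    obtain ⟨γ, hγ, hi⟩ := c.exists_σ
    have e1 : γ ∘ θ ∘ w = (θ ∘ w) ∘ g.1 := by
      rw [← ha]
      exact (hi.hom univ a trivial).symm.trans
        (((c.u.v _).eq _ fun i => a i ∘ g.1).2 (hg.mono fun _ h => h.1))
    have e2 : (θ⁻¹ * γ * θ⁻¹⁻¹ : ℂ ≃+* ℂ) ∘ w = w ∘ g.1 := funext fun k => by
      rw [inv_inv]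
      exact θ.symm_apply_eq.2 (congrFun e1 k)
    have e3 : θ⁻¹ * γ * θ⁻¹⁻¹ ∈ Au Ey := (hAu _).2 ⟨mul_mem (mul_mem (inv_mem hθ) hγ)
      (inv_mem (inv_mem hθ)), fun j => (congrFun e2 (.inl j)).trans (congrArg w (g.2.1 j))⟩
    have e4 := H (c.u.tw θ⁻¹) c.e _ (fun i => {x' ∈ W i | x' ∘ b ∘ Fin.succ = a i ∘ Sum.inl}) e3
      (hi.tw θ⁻¹) c.e_pos (c.q_one l) fun a' => by
        simp only [mem_ofPred_eq, eventually_and, UP.tw_v, hS.inv.iff (inv_mem hθ), hW a']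
        refine and_congr_right fun _ => ?_
        rw [← (c.u.v (Fin d)).eq]
        have e5 : (c.u.v (Fin d)).m (fun i => a i ∘ Sum.inl) = θ ∘ y :=
          congrArg (· ∘ Sum.inl) ha
        rw [e5, funext_iff, funext_iff]
        exact forall_congr' fun j => θ.symm_apply_eq
    obtain ⟨i, h4, h5⟩ := (hg.and e4).exists
    exact h4.2 (h5.trans (hΨ' g g.2 _ e3 e2).symm))
  have hB2 : ConE c.E ((⋂ j : Fin d, {p : (Fin d ⊕ Fin m) ⊕ (Fin d ⊕ Fin m) → ℂ |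
      p (.inl (.inl j)) = p (.inr (.inl j))}) ∩
      ⋂ g : G, (⋂ k, {p | p (.inr k) = p (.inl (g.1 k))})ᶜ) :=
    (ConE.iInter fun j => ConE.eq _ _).inter
      (ConE.iInter fun g => (ConE.iInter fun k => ConE.eq _ _).compl)
  obtain ⟨T2, hT2, hw2, hd2⟩ := h2 c.u c.E _ w _ (hB2.int c.u) (by
    rintro θ hθ θ' hθ' ⟨h4, h5⟩
    obtain ⟨g, hg, e⟩ := hG (θ⁻¹ * θ') ((hAu _).2 ⟨mul_mem (inv_mem hθ) hθ', fun j =>
      θ.symm_apply_eq.2 (mem_iInter.1 h4 j).symm⟩)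
    exact mem_iInter.1 h5 ⟨g, hg⟩ (mem_iInter.2 fun k => θ.symm_apply_eq.1 (congrFun e k)))
  let T : Set (Fin d ⊕ Fin m → ℂ) :=
    {x | (∀ g ∈ G, x ∘ g ∈ T1 ∩ T2) ∧ Function.Injective (x ∘ Sum.inr)}
  have hT : ConE c.E T := by
    have := (ConE.iInter fun g : G => (hT1.inter hT2).comp g.1).inter
      (ConE.biInter (toFinite {k : Fin m × Fin m | k.1 ≠ k.2}) fun k _ =>
        (ConE.eq (E := c.E) (Sum.inr k.1 : Fin d ⊕ Fin m) (.inr k.2)).compl)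
    convert this using 1
    ext x
    simp only [T, mem_ofPred_eq, mem_inter_iff, mem_iInter, Subtype.forall, mem_compl_iff,
      Prod.forall]
    exact and_congr_right fun _ =>
      ⟨fun h k k' hk e => hk (h e), fun h k k' e => by_contra fun hk => h k k' hk e⟩
  refine ⟨_, inferInstance, Sum.inl, G, T, Ψ', hT, ⟨fun g hg => hg.1, fun g hg x hx =>
    ⟨fun g' hg' => hx.1 _ (mul_mem hg hg'), fun k k' e => ?_⟩, fun g hg x hx e => ?_,
    fun x hx x' hx' e => ?_⟩, ⟨w, ⟨fun g hg => ?_, hz⟩, rfl⟩,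
    (hΨ' 1 (one_mem _) 1 (one_mem _) rfl).trans hΨ1, fun V hV => ?_⟩
  · obtain ⟨j, hj⟩ := inr_of hg.1 k
    obtain ⟨j', hj'⟩ := inr_of hg.1 k'
    simp only [Function.comp, hj, hj'] at e
    rw [hx.2 e, ← hj'] at hj
    exact Sum.inr_injective (g.injective hj)
  · refine Equiv.ext fun k => ?_
    rcases k with j | k
    · exact hg.1 j
    · obtain ⟨j, hj⟩ := inr_of hg.1 k
      have := congrFun e (.inr k)
      rw [Function.comp_apply, hj] at this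
      rw [hj, hx.2 this]
      rfl
  · by_contra hn
    refine hd2 x (hx.1 1 (one_mem _)).2 x' (hx'.1 1 (one_mem _)).2
      ⟨mem_iInter.2 fun j => congrFun e j, mem_iInter.2 fun g hg => hn ⟨g, g.2, ?_⟩⟩
    exact funext fun k => mem_iInter.1 hg k
  · obtain ⟨γ, hγ, e⟩ := hg.2
    rw [← e]
    exact (hT1.inter hT2).inv γ ((hAu γ).1 hγ).1 w ⟨hw1, hw2⟩
  · refine (hV.forall (P := fun i x => x ∉ Wb i) fun a ha => ev_not.2 fun h =>
      disjoint_left.1 hd1 (ha.1 1 (one_mem _)).1 ⟨a, rfl, h⟩).mono fun i hi g hg x hx => ?_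
    by_contra hn
    exact hi x hx.1 ⟨⟨g, hg⟩, hx.2, hn⟩

end Pool.Agent.MP_4f1c5b_al.H95
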