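import Pool.Agent.MP_4f1c5b_al.H95.SpecA
import Pool.Agent.MP_cce4c9_lc.H32.Bcd

/-!
Normal subgroups that contain the stabilizer of a finite set.
-/

set_option autoImplicit false

namespace Pool.Agent.MP_4f1c5b_al.H95

open Cardinal
open scoped TensorProduct

namespace OpenA

theorem algClosed (κ : Subfield ℂ) (h : ∀ c, IsAlgebraic κ c → c ∈ κ) : IsAlgClosed κ := by
  refine IsAlgClosed.of_exists_root _ fun p hp hi => ?_
  obtain ⟨x, hx⟩ := IsAlgClosed.exists_aeval_eq_zero ℂ p (Polynomial.degree_pos_of_irreducible hi).ne'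
  refine ⟨⟨x, h x ⟨p, hp.ne_zero, hx⟩⟩, ?_⟩
  apply (algebraMap κ ℂ).injective
  rw [map_zero, ← Polynomial.aeval_algebraMap_apply_eq_algebraMap_eval]
  exact hx

theorem dom (κ : Subfield ℂ) [IsAlgClosed κ] : IsDomain (ℂ ⊗[κ] ℂ) := by
  obtain ⟨P, -⟩ := MP_cce4c9_lc.H32.chev κ ℂ ((algebraMap κ ℂ).prod (RingHom.id κ)).range
    (fun c => ⟨c, rfl⟩) (by
      rintro c ⟨a, ha⟩
      have h1 : algebraMap κ ℂ a = 0 := congrArg Prod.fst ha
      have h2 : a = c := congrArg Prod.snd ha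
      rw [← h2]
      exact (map_eq_zero _).1 h1)
  exact MP_cce4c9_lc.H32.Bcd.isDomain P

theorem card_tensor (κ : Subfield ℂ) : #(ℂ ⊗[κ] ℂ) ≤ #ℂ := by
  let b := Module.Basis.ofVectorSpace κ ℂ
  have : Nonempty (Module.Basis.ofVectorSpaceIndex κ ℂ) := b.index_nonempty
  rw [mk_congr (Algebra.TensorProduct.basis ℂ b).repr.toEquiv, mk_finsupp_of_infinite']
  exact max_le (mk_set_le _) le_rfl

/-- a domain of the size of the continuum embeds, compatibly with a countable subfield -/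
theorem embed {D : Type} [CommRing D] [IsDomain D] (f : ℂ →+* D) (hD : #D ≤ #ℂ) (R : Subfield ℂ)
    [Countable R] : ∃ j : D →+* ℂ, Function.Injective j ∧ ∀ r ∈ R, j (f r) = r := by
  let L := AlgebraicClosure (FractionRing D)
  let i : D →+* L := (algebraMap (FractionRing D) L).comp (algebraMap D (FractionRing D))
  have hi : Function.Injective i :=
    (algebraMap (FractionRing D) L).injective.comp (IsFractionRing.injective D _)
  have hc : ℵ₀ < #ℂ := by rw [mk_complex]; exact aleph0_lt_continuum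
  have hL : #L = #ℂ := by
    refine le_antisymm ?_ (mk_le_of_injective (i.comp f).injective)
    refine (Algebra.IsAlgebraic.cardinalMk_le_max (FractionRing D) L).trans (max_le ?_ hc.le)
    rw [mk_fractionRing]
    exact hD
  let g : R →+* L := (i.comp f).comp R.subtype
  obtain ⟨e, he⟩ := @ext_equiv R L ℂ _ _ _ g.toAlgebra _ _ _
    ((@faithfulSMul_iff_algebraMap_injective R L _ _ g.toAlgebra).2 g.injective) _ mk_le_aleph0
    (hL ▸ hc) hL
  exact ⟨e.toRingHom.comp i, e.injective.comp hi, fun r hr => he ⟨r, hr⟩⟩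

/-- an independent conjugate -/
theorem amal (κ : Subfield ℂ) [Countable κ] [IsAlgClosed κ] {ι : Type} [Finite ι] (z : ι → ℂ)
    (θ : ℂ ≃+* ℂ) (hθ : θ ∈ Au κ) : ∃ w : ι → ℂ,
    (∀ p : MvPolynomial ι κ, MvPolynomial.aeval z p = 0 ↔ MvPolynomial.aeval w p = 0) ∧
    ∀ p : MvPolynomial (ι ⊕ ι) κ, MvPolynomial.aeval (Sum.elim z w) p = 0 ↔
      MvPolynomial.aeval (Sum.elim (θ ∘ z) w) p = 0 := by
  have := dom κ
  have hκ : (κ : Set ℂ).Countable := Set.countable_coe_iff.1 ‹Countable κ›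
  have := cl_countable ((hκ.union (Set.countable_range z)).union (Set.countable_range (θ ∘ z)))
  obtain ⟨j, hj, hf⟩ := embed (Algebra.TensorProduct.includeLeftRingHom (R := κ) (A := ℂ) (B := ℂ))
    (card_tensor κ) (Subfield.closure ((κ : Set ℂ) ∪ Set.range z ∪ Set.range (θ ∘ z)))
  let J : ℂ ⊗[κ] ℂ →ₐ[κ] ℂ :=
    { j with commutes' := fun c => hf c (Subfield.subset_closure (Or.inl (Or.inl c.2))) }
  have hJ : Function.Injective J := hj
  have h1 : ∀ i, J (z i ⊗ₜ 1) = z i := fun i =>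
    hf _ (Subfield.subset_closure (Or.inl (Or.inr ⟨i, rfl⟩)))
  have h2 : ∀ i, J (θ (z i) ⊗ₜ 1) = θ (z i) := fun i =>
    hf _ (Subfield.subset_closure (Or.inr ⟨i, rfl⟩))
  let θ' : ℂ ≃ₐ[κ] ℂ := AlgEquiv.ofRingEquiv (f := θ) fun c => hθ c c.2
  let T : ℂ ⊗[κ] ℂ →ₐ[κ] ℂ ⊗[κ] ℂ := Algebra.TensorProduct.congr θ' (AlgEquiv.refl : ℂ ≃ₐ[κ] ℂ)
  have hT : Function.Injective T :=
    (Algebra.TensorProduct.congr θ' (AlgEquiv.refl : ℂ ≃ₐ[κ] ℂ)).injective
  have hT' : ∀ a b : ℂ, T (a ⊗ₜ b) = θ a ⊗ₜ b := fun _ _ => rfl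
  refine ⟨fun i => J (1 ⊗ₜ z i), fun p => ?_, fun p => ?_⟩
  · let F : ℂ →ₐ[κ] ℂ := J.comp Algebra.TensorProduct.includeRight
    have h3 := MvPolynomial.comp_aeval_apply z F p
    rw [show (fun i => J (1 ⊗ₜ z i)) = fun i => F (z i) from rfl, ← h3]
    exact (map_eq_zero_iff F F.toRingHom.injective).symm
  · let y : ι ⊕ ι → ℂ ⊗[κ] ℂ := Sum.elim (fun i => z i ⊗ₜ 1) fun i => 1 ⊗ₜ z i
    have h3 := MvPolynomial.comp_aeval_apply y J p
    have h4 := MvPolynomial.comp_aeval_apply y (J.comp T) p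
    have e3 : (fun i => J (y i)) = Sum.elim z fun i => J (1 ⊗ₜ z i) := by
      funext i
      rcases i with i | i
      · exact h1 i
      · rfl
    have e4 : (fun i => (J.comp T) (y i)) = Sum.elim (θ ∘ z) fun i => J (1 ⊗ₜ z i) := by
      funext i
      rcases i with i | i
      · exact h2 i
      · change J (T (1 ⊗ₜ z i)) = J (1 ⊗ₜ z i)
        rw [hT', map_one]
    rw [← e3, ← e4, ← h3, ← h4, map_eq_zero_iff J hJ, map_eq_zero_iff (J.comp T) (hJ.comp hT)]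

theorem aeval_map {κ : Subfield ℂ} {ι : Type} (θ : ℂ ≃+* ℂ) (φ : κ →+* κ)
    (h : ∀ c : κ, (φ c : ℂ) = θ c) (y : ι → ℂ) (p : MvPolynomial ι κ) :
    θ (MvPolynomial.aeval y p) = MvPolynomial.aeval (θ ∘ y) (MvPolynomial.map φ p) := by
  induction p using MvPolynomial.induction_on with
  | C c =>
    rw [MvPolynomial.map_C, MvPolynomial.aeval_C, MvPolynomial.aeval_C]
    exact (h c).symm
  | add p q hp hq => simp only [map_add, hp, hq]
  | mul_X p l hp => simp only [map_mul, hp, MvPolynomial.map_X, MvPolynomial.aeval_X, Function.comp]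

end OpenA

open OpenA in
theorem opn (h1 : StmtACL) (h2 : StmtTYP) : StmtOPEN := by
  classical
  intro E _ H A hA hn hH
  obtain ⟨κ, hc, hκ, hcl⟩ := h1 E
  have := algClosed κ hcl
  have : Finite A := hA
  let z : A → ℂ := Subtype.val
  have hE : Au (κ : Set ℂ) ≤ Au (E : Set ℂ) :=
    Au_anti fun c hc => (hκ c).2 (isAlgebraic_algebraMap (⟨c, hc⟩ : E))
  have hq : ∀ θ ∈ Au (E : Set ℂ), ∀ ρ ∈ Au (E : Set ℂ), ρ ∘ z = θ ∘ z → ρ ∈ H → θ ∈ H := by
    intro θ hθ ρ hρ e hρH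
    have h3 : ρ⁻¹ * θ ∈ H := hH _ (mul_mem (inv_mem hρ) hθ) fun c hc => by
      have h4 : ρ c = θ c := congrFun e ⟨c, hc⟩
      change ρ.symm (θ c) = c
      rw [← h4, ρ.symm_apply_apply]
    simpa using mul_mem hρH h3
  have hκH : ∀ θ ∈ Au (κ : Set ℂ), θ ∈ H := by
    intro θ hθ
    obtain ⟨w, a1, a2⟩ := amal κ z θ hθ
    obtain ⟨g, hg, eg⟩ := h2 κ A z w a1
    obtain ⟨ρ, hρ, eρ⟩ := h2 κ (A ⊕ A) _ _ a2
    refine hq θ (hE hθ) ρ (hE hρ) (funext fun i => congrFun eρ (Sum.inl i)) ?_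
    have h3 : g⁻¹ * ρ * g ∈ H := hH _ (hE (mul_mem (mul_mem (inv_mem hg) hρ) hg)) fun c hc => by
      have h4 : g c = w ⟨c, hc⟩ := congrFun eg ⟨c, hc⟩
      have h5 : ρ (w ⟨c, hc⟩) = w ⟨c, hc⟩ := congrFun eρ (Sum.inr ⟨c, hc⟩)
      change g.symm (ρ (g c)) = c
      rw [h4, h5, ← h4, g.symm_apply_apply]
    have h4 := hn g (hE hg) _ h3
    simpa [mul_assoc] using h4
  let I : Ideal (MvPolynomial A κ) := RingHom.ker (MvPolynomial.aeval z : MvPolynomial A κ →ₐ[κ] ℂ)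
  obtain ⟨s, hs⟩ : I.FG := IsNoetherian.noetherian I
  let B : Set ℂ := Subtype.val '' ((s.biUnion MvPolynomial.coeffs : Finset κ) : Set κ)
  have hr : ∀ θ ∈ Au (E : Set ℂ), ∃ φ : κ →+* κ, ∀ c : κ, (φ c : ℂ) = θ c := fun θ hθ =>
    ⟨(θ.toRingHom.comp κ.subtype).codRestrict κ fun c => (hκ _).2
      (((hκ c).1 c.2).algHom
        (AlgEquiv.ofRingEquiv (f := θ) fun c : E => hθ c c.2).toAlgHom),
      fun _ => rfl⟩
  have hI : ∀ θ ∈ Au B, ∀ φ : κ →+* κ, (∀ c : κ, (φ c : ℂ) = θ c) → ∀ p ∈ I,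
      MvPolynomial.map φ p ∈ I := by
    intro θ hθ φ hφ
    change I ≤ I.comap (MvPolynomial.map φ)
    conv_lhs => rw [← hs]
    refine Ideal.span_le.2 fun p hp => ?_
    have e : MvPolynomial.map φ p = p := by
      ext m
      rw [MvPolynomial.coeff_map, hφ]
      by_cases h0 : p.coeff m = 0
      · rw [h0]; exact map_zero θ
      · exact hθ _ ⟨_, Finset.mem_coe.2 (Finset.mem_biUnion.2
          ⟨p, hp, MvPolynomial.coeff_mem_coeffs m h0⟩), rfl⟩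
    change MvPolynomial.map φ p ∈ I
    rw [e, ← hs]
    exact Ideal.subset_span hp
  refine ⟨B, (Finset.finite_toSet _).image _, ?_, fun θ hθ hB => ?_⟩
  · rintro _ ⟨c, -, rfl⟩
    exact (hκ _).1 c.2
  obtain ⟨φ, hφ⟩ := hr θ hθ
  obtain ⟨ψ, hψ⟩ := hr θ⁻¹ (inv_mem hθ)
  have hz : (θ⁻¹ : ℂ ≃+* ℂ) ∘ θ ∘ z = z := funext fun i => θ.symm_apply_apply _
  obtain ⟨ρ, hρ, eρ⟩ := h2 κ A z (θ ∘ z) fun p => by
    have h3 := aeval_map θ⁻¹ ψ hψ (θ ∘ z) p
    rw [hz] at h3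
    rw [← map_eq_zero_iff (θ⁻¹ : ℂ ≃+* ℂ) (θ⁻¹ : ℂ ≃+* ℂ).injective
      (x := MvPolynomial.aeval (θ ∘ z) p), h3]
    refine ⟨hI _ (inv_mem hB) ψ hψ p, fun h => ?_⟩
    have h4 := hI _ hB φ hφ _ h
    have e : φ.comp ψ = RingHom.id κ := RingHom.ext fun c => Subtype.ext (by
      rw [RingHom.comp_apply, hφ, hψ]
      exact θ.apply_symm_apply _)
    rw [MvPolynomial.map_map, e, MvPolynomial.map_id] at h4
    exact h4
  exact hq θ hθ ρ (hE hρ) eρ (hκH ρ hρ)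

end Pool.Agent.MP_4f1c5b_al.H95
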