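import Pool.Agent.MP_4f1c5b_al.H95.SpecB

/-! The places of a function field over `ℂ` form the ultraproduct of the places of its models. -/

namespace Pool.Agent.MP_4f1c5b_al.H95

open Filter Set WithZero Finsupp
open Pool.Agent.MP_cce4c9_lc.H87 Pool.Agent.MP_cce4c9_lc.H7

namespace PlcA

section FF

variable {k K : Type} [Field k] [IsAlgClosed k] [Field K] [Algebra k K]

theorem exists_other (hK : IsFF k K) (v v' : Place k K) : ∃ Q : Place k K, Q ≠ v ∧ Q ≠ v' := by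
  classical
  have := (ll k K hK).2.2.2
  obtain ⟨Q, hQ⟩ := Infinite.exists_notMem_finset ({v, v'} : Finset (Place k K))
  simp only [Finset.mem_insert, Finset.mem_singleton, not_or] at hQ
  exact ⟨Q, hQ⟩

theorem exists_unif (hK : IsFF k K) {g g₀ : ℕ} (hg : IsGenus k K g) (hle : g ≤ g₀)
    {v Q : Place k K} (hQ : Q ≠ v) :
    ∃ y ∈ LL (single Q ((2 * g₀ + 2 : ℕ) : ℤ)), v.val y = exp (-1 : ℤ) := by
  classical
  obtain ⟨a, ha⟩ := v.exists_unif
  have h0 : (single Q ((2 * g₀ + 2 : ℕ) : ℤ) : Dv k K) v = 0 := single_eq_of_ne hQ.symm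
  obtain ⟨y, hy, h⟩ := (gen k K hK).2 g hg (single Q ((2 * g₀ + 2 : ℕ) : ℤ)) (single v 2)
    (single_nonneg.2 (by norm_num)) (by rw [degree_single, degree_single]; push_cast; omega) a
    fun z hz => by
      have : z = v := by
        by_contra hne
        exact hz (single_eq_of_ne hne)
      rw [this, h0, ha, exp_le_exp]; omega
  refine ⟨y, hy, ?_⟩
  have h1 := h v (by simp)
  rw [h0, single_eq_same] at h1
  have h2 : v.val (y - a) < v.val a := by
    refine h1.trans_lt ?_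
    rw [ha, exp_lt_exp]; omega
  rw [show y = a + (y - a) by ring, v.val.map_add_eq_of_lt_left h2, ha]

theorem exists_two (hK : IsFF k K) {g g₀ : ℕ} (hg : IsGenus k K g) (hle : g ≤ g₀)
    {v v' Q : Place k K} (hv : v ≠ v') (hQ : Q ≠ v) (hQ' : Q ≠ v') :
    ∃ y ∈ LL (single Q ((2 * g₀ + 2 : ℕ) : ℤ)), v.val y < 1 ∧ v'.val y = 1 := by
  classical
  obtain ⟨a, ha', ha⟩ := v'.exists_sep {v} (by simpa using hv.symm)
  have ha1 : v.val a < 1 := ha v (by simp)
  have h0 : (single Q ((2 * g₀ + 2 : ℕ) : ℤ) : Dv k K) v = 0 := single_eq_of_ne hQ.symm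
  have h0' : (single Q ((2 * g₀ + 2 : ℕ) : ℤ) : Dv k K) v' = 0 := single_eq_of_ne hQ'.symm
  have e : (single v 1 + single v' 1 : Dv k K) v = 1 := by
    rw [Finsupp.add_apply, single_eq_same, single_eq_of_ne hv, add_zero]
  have e' : (single v 1 + single v' 1 : Dv k K) v' = 1 := by
    rw [Finsupp.add_apply, single_eq_same, single_eq_of_ne hv.symm, zero_add]
  obtain ⟨y, hy, h⟩ := (gen k K hK).2 g hg (single Q ((2 * g₀ + 2 : ℕ) : ℤ))
    (single v 1 + single v' 1)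
    (add_nonneg (single_nonneg.2 (by norm_num)) (single_nonneg.2 (by norm_num)))
    (by rw [map_add, degree_single, degree_single, degree_single]; push_cast; omega) a
    fun z hz => by
      by_cases h1 : z = v
      · rw [h1, h0, exp_zero]; exact ha1.le
      · have h2 : z = v' := by
          by_contra hne
          exact hz (by rw [Finsupp.add_apply, single_eq_of_ne h1, single_eq_of_ne hne, add_zero])
        rw [h2, h0', exp_zero]; exact ha'.le
  have h1 := h v (by rw [e]; norm_num)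
  have h2 := h v' (by rw [e']; norm_num)
  rw [h0, e, zero_sub, ← lt_one_iff_le] at h1
  rw [h0', e', zero_sub, ← lt_one_iff_le] at h2
  refine ⟨y, hy, ?_, ?_⟩
  · rw [show y = a + (y - a) by ring]
    exact (v.val.map_add _ _).trans_lt (max_lt ha1 h1)
  · rw [show y = a + (y - a) by ring, v'.val.map_add_eq_of_lt_left (ha'.symm ▸ h2), ha']

end FF

variable {u : UP} {F : Type} [Field F] [Algebra ℂ F] {t : F} (M : Mod u F t)

theorem zpow_mem {f : F} {w : ∀ i, M.K i} (h : (f, w) ∈ M.Γ) (n : ℤ) :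
    (f ^ n, fun i => w i ^ n) ∈ M.Γ := by
  obtain ⟨m, rfl | rfl⟩ := n.eq_nat_or_neg
  · simp only [zpow_natCast]
    exact M.Γ.pow_mem h m
  · simp only [zpow_neg, zpow_natCast]
    exact M.inv (f := f ^ m) (w := fun i => w i ^ m) (M.Γ.pow_mem h m)

/-- Sequences with a pole of bounded order at one place. -/
theorem exists_rep (hB : M.Bdd) (n : ℕ) {P : ∀ i, M.K i → Prop}
    (h : ∀ᶠ i in (uf : Filter ℕ), ∃ y, (∃ Q, y ∈ LL (single Q (n : ℤ) : Dv (kk i) (M.K i))) ∧ P i y) :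
    ∃ f w, (f, w) ∈ M.Γ ∧ ∀ᶠ i in (uf : Filter ℕ), P i (w i) := by
  obtain ⟨w, hw⟩ := ev_choose (fun i => ⟨0⟩) h
  obtain ⟨f, hf⟩ := hB n w (hw.mono fun i ⟨⟨Q, hQ⟩, _⟩ =>
    ⟨_, single_nonneg.2 (Int.natCast_nonneg n), (degree_single _ _).le, hQ⟩)
  exact ⟨f, w, hf, hw.mono fun i hi => hi.2⟩

/-- The valuation ring attached to a sequence of places. -/
noncomputable def OO (v : ∀ i, Place (kk i) (M.K i)) : ValuationSubring F where
  carrier := {f | ∃ w, (f, w) ∈ M.Γ ∧ ∀ᶠ i in (uf : Filter ℕ), (v i).val (w i) ≤ 1}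
  mul_mem' := by
    rintro a b ⟨w, hw, h⟩ ⟨w', hw', h'⟩
    refine ⟨w * w', M.Γ.mul_mem hw hw', (h.and h').mono fun i hi => ?_⟩
    rw [Pi.mul_apply, map_mul]
    exact mul_le_one' hi.1 hi.2
  one_mem' := ⟨1, M.Γ.one_mem, Eventually.of_forall fun i => by simp⟩
  add_mem' := by
    rintro a b ⟨w, hw, h⟩ ⟨w', hw', h'⟩
    exact ⟨w + w', M.Γ.add_mem hw hw', (h.and h').mono fun i hi =>
      ((v i).val.map_add _ _).trans (max_le hi.1 hi.2)⟩
  zero_mem' := ⟨0, M.Γ.zero_mem, Eventually.of_forall fun i => by simp⟩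
  neg_mem' := by
    rintro a ⟨w, hw, h⟩
    exact ⟨-w, M.Γ.neg_mem hw, h.mono fun i hi => by simpa using hi⟩
  mem_or_inv_mem' := by
    intro f
    obtain ⟨w, hw⟩ := M.tot f
    by_cases h : ∀ᶠ i in (uf : Filter ℕ), (v i).val (w i) ≤ 1
    · exact Or.inl ⟨w, hw, h⟩
    · refine Or.inr ⟨_, M.inv hw, (ev_not.2 h).mono fun i hi => ?_⟩
      rw [map_inv₀]
      exact inv_le_one_of_one_le₀ (not_le.1 hi).le

theorem mem_OO (v : ∀ i, Place (kk i) (M.K i)) {f : F} {w : ∀ i, M.K i} (h : (f, w) ∈ M.Γ) :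
    f ∈ OO M v ↔ ∀ᶠ i in (uf : Filter ℕ), (v i).val (w i) ≤ 1 :=
  ⟨fun ⟨_, hw, h1⟩ => (((M.eq_iff hw h).1 rfl).and h1).mono fun _ hi => hi.1 ▸ hi.2,
    fun h1 => ⟨w, h, h1⟩⟩

theorem le_exp_iff (a : ℤᵐ⁰) (n : ℤ) : a * exp (-1 : ℤ) ^ n ≤ 1 ↔ a ≤ exp n := by
  by_cases h : a = 0
  · simp [h]
  · rw [← exp_log h, ← exp_zsmul, ← exp_add, ← exp_zero, exp_le_exp, exp_le_exp, smul_eq_mul]
    omega

theorem exists_place (hF : IsFF ℂ F) (hG : M.GB) (hB : M.Bdd) (v : ∀ i, Place (kk i) (M.K i)) :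
    ∃ x : Place ℂ F, ∀ f w, (f, w) ∈ M.Γ → ∀ n : ℤ,
      x.val f ≤ exp n ↔ ∀ᶠ i in (uf : Filter ℕ), (v i).val (w i) ≤ exp n := by
  obtain ⟨g₀, hg⟩ := hG
  obtain ⟨f₀, w₀, h₀, e₀⟩ := exists_rep M hB (2 * g₀ + 2)
    (P := fun i y => (v i).val y = exp (-1 : ℤ)) (hg.mono fun i hi => by
      obtain ⟨g, hg'⟩ := genus (M.ff i)
      obtain ⟨Q, hQ, -⟩ := exists_other (M.ff i) (v i) (v i)
      obtain ⟨y, hy, h⟩ := exists_unif (M.ff i) hg' (hi g hg') hQ
      exact ⟨y, ⟨Q, hy⟩, h⟩)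
  have hn : f₀⁻¹ ∉ OO M v := fun h => by
    obtain ⟨i, h1, h2⟩ := (((mem_OO M v (M.inv h₀)).1 h).and e₀).exists
    rw [map_inv₀, h2, ← exp_neg, ← exp_zero, exp_le_exp] at h1
    omega
  obtain ⟨x, hx⟩ := dvr ℂ F hF (OO M v)
    (fun c => by
      obtain ⟨a, rfl⟩ := u.surj c
      exact ⟨_, M.const a, Eventually.of_forall fun i => (v i).const_le _⟩)
    (fun h => hn (h ▸ ValuationSubring.mem_top _))
  have key : ∀ f w, (f, w) ∈ M.Γ →
      (x.val f ≤ 1 ↔ ∀ᶠ i in (uf : Filter ℕ), (v i).val (w i) ≤ 1) := fun f w h =>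
    (hx f).symm.trans (mem_OO M v h)
  have hf0 : f₀ ≠ 0 := fun h => hn (by rw [h, inv_zero]; exact zero_mem _)
  have hv0 := x.val_ne hf0
  have hval : x.val f₀ = exp (-1 : ℤ) := by
    refine le_antisymm ?_ ?_
    · rw [← lt_one_iff_le]
      have h1 := mt (hx _).2 hn
      rw [map_inv₀, not_le] at h1
      exact (one_lt_inv₀ (zero_lt_iff.2 hv0)).1 h1
    · obtain ⟨π, hπ⟩ := x.exists_unif
      obtain ⟨p, hp⟩ := M.tot π
      have h1 : ¬ x.val π⁻¹ ≤ 1 := by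
        rw [map_inv₀, hπ, ← exp_neg, ← exp_zero, exp_le_exp]; omega
      have h2 := ev_not.2 (mt (key _ _ (M.inv hp)).2 h1)
      have h3 : x.val (π * f₀⁻¹) ≤ 1 := by
        refine (key _ _ (M.Γ.mul_mem hp (M.inv h₀))).2 ((h2.and e₀).mono fun i hi => ?_)
        obtain ⟨h4, h5⟩ := hi
        rw [map_inv₀, not_le] at h4
        have h6 : (v i).val (p i) < 1 := by
          by_contra h7
          exact absurd h4 (not_lt.2 (inv_le_one_of_one_le₀ (not_lt.1 h7)))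
        show (v i).val (p i * (w₀ i)⁻¹) ≤ 1
        rw [map_mul, map_inv₀, h5, mul_inv_le_iff₀ (zero_lt_iff.2 exp_ne_zero), one_mul,
          ← lt_one_iff_le]
        exact h6
      rwa [map_mul, map_inv₀, hπ, mul_inv_le_iff₀ (zero_lt_iff.2 hv0), one_mul] at h3
  refine ⟨x, fun f w h n => ?_⟩
  have h1 := key (f * f₀ ^ n) (fun i => w i * w₀ i ^ n) (M.Γ.mul_mem h (zpow_mem M h₀ n))
  rw [map_mul, map_zpow₀, hval, le_exp_iff] at h1
  refine h1.trans (eventually_congr (e₀.mono fun i hi => ?_))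
  rw [map_mul, map_zpow₀, hi, le_exp_iff]

end PlcA

open PlcA in
theorem plc : StmtPLC := by
  intro u F _ _ t M hF hG hB
  choose m hm using exists_place M hF hG hB
  have ne : ∀ i, Nonempty (Place (kk i) (M.K i)) := fun i =>
    have := (ll _ _ (M.ff i)).2.2.2
    inferInstance
  refine ⟨⟨⟨m, fun x => ?_, fun v v' => ⟨fun e => ?_, fun e => ?_⟩, ne⟩,
    fun f w h v n => hm v f w h n⟩⟩
  · obtain ⟨g, hg⟩ := genus hF
    obtain ⟨z, hz, -⟩ := exists_other hF x x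
    obtain ⟨y, hy, h1⟩ := exists_unif hF hg le_rfl hz.symm
    obtain ⟨w, hw⟩ := M.tot y
    have h2 : ∀ᶠ i in (uf : Filter ℕ), ∃ v : Place (kk i) (M.K i), ¬ v.val (w i) ≤ 1 := by
      by_contra hn
      obtain ⟨c, hc⟩ := ev_choose (fun i => ⟨0⟩) (P := fun i c => algebraMap (kk i) (M.K i) c = w i)
        ((ev_not.2 hn).mono fun i hi => (degF (M.ff i) (w i)).2.2 fun v => by
          by_contra h
          exact hi ⟨v, h⟩)
      have h3 := (M.eq_iff (M.const c) hw).2 hc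
      by_cases h4 : u.π c = 0
      · rw [← h3, h4, map_zero, map_zero] at h1
        exact exp_ne_zero h1.symm
      · rw [← h3, z.triv _ h4, ← exp_zero, exp_inj] at h1
        omega
    obtain ⟨v, hv⟩ := ev_choose ne h2
    refine ⟨v, ?_⟩
    by_contra hne
    have h3 := hy (m v)
    rw [single_eq_of_ne hne] at h3
    exact ev_not.1 hv ((hm v y w hw 0).1 h3)
  · by_contra hn
    obtain ⟨g₀, hg⟩ := hG
    obtain ⟨f, w, h, h1⟩ := exists_rep M hB (2 * g₀ + 2)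
      (P := fun i y => (v i).val y < 1 ∧ (v' i).val y = 1) ((hg.and (ev_not.2 hn)).mono
        fun i hi => by
          obtain ⟨g, hg'⟩ := genus (M.ff i)
          obtain ⟨Q, hQ, hQ'⟩ := exists_other (M.ff i) (v i) (v' i)
          obtain ⟨y, hy, h⟩ := exists_two (M.ff i) hg' (hi.1 g hg') hi.2 hQ hQ'
          exact ⟨y, ⟨Q, hy⟩, h⟩)
    have h2 := (hm v f w h (-1)).2 (h1.mono fun i hi => (lt_one_iff_le _).1 hi.1)
    rw [e, hm v' f w h] at h2
    obtain ⟨i, h3, h4⟩ := (h2.and h1).exists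
    rw [← lt_one_iff_le, h4.2] at h3
    exact lt_irrefl _ h3
  · refine Place.eq_of_le _ _ fun f hf => ?_
    obtain ⟨w, hw⟩ := M.tot f
    exact (hm v' f w hw 0).2 ((((hm v f w hw 0).1 hf).and e).mono fun i hi => hi.2 ▸ hi.1)

end Pool.Agent.MP_4f1c5b_al.H95
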