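import Pool.Agent.MP_4f1c5b_al.H95.SpecB

/-!
Existence of models: a function field over `ℂ` embeds in an ultraproduct of function fields over
the fields `kk i` as a relatively algebraically closed subfield.
-/

namespace Pool.Agent.MP_4f1c5b_al.H95

open Filter Set WithZero Polynomial Module
open Pool.Agent.MP_cce4c9_lc.H87 Pool.Agent.MP_cce4c9_lc.H7
open scoped IntermediateField

namespace PreA

theorem map_zero_iff (u : UP) (p : (∀ i, kk i)[X]) :
    p.map u.π = 0 ↔ ∀ᶠ i in (uf : Filter ℕ), p.map (Pi.evalRingHom kk i) = 0 := by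
  constructor
  · intro h
    have h1 : ∀ᶠ i in (uf : Filter ℕ), ∀ n ∈ p.support, p.coeff n i = 0 :=
      (eventually_all_finset _).2 fun n _ => (u.ker _).1 (by rw [← coeff_map, h, coeff_zero])
    refine h1.mono fun i hi => Polynomial.ext fun n => ?_
    rw [coeff_map, coeff_zero]
    by_cases hn : n ∈ p.support
    · exact hi n hn
    · rw [notMem_support_iff.1 hn, map_zero]
  · intro h
    refine Polynomial.ext fun n => ?_
    rw [coeff_map, coeff_zero, u.ker]
    refine h.mono fun i hi => ?_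
    have := congrArg (coeff · n) hi
    simp only [coeff_map, coeff_zero] at this
    exact this

/-- Normal form of a finite extension of the rational function field. -/
theorem nf (u : UP) (L : Type) [Field L] [Algebra (RatFunc ℂ) L]
    [FiniteDimensional (RatFunc ℂ) L] : ∃ (θ : L) (m : (∀ i, kk i)[X][X]), m.Monic ∧
      minpoly (RatFunc ℂ) θ = (m.map (mapRingHom u.π)).map (algebraMap ℂ[X] (RatFunc ℂ)) ∧
      (RatFunc ℂ)⟮θ⟯ = ⊤ := by
  obtain ⟨α, hα⟩ := Field.exists_primitive_element (RatFunc ℂ) L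
  let : Algebra ℂ[X] L :=
    ((algebraMap (RatFunc ℂ) L).comp (algebraMap ℂ[X] (RatFunc ℂ))).toAlgebra
  have : IsScalarTower ℂ[X] (RatFunc ℂ) L := IsScalarTower.of_algebraMap_eq fun _ => rfl
  have h1 : IsAlgebraic ℂ[X] α :=
    (IsFractionRing.isAlgebraic_iff ℂ[X] (RatFunc ℂ) L).2 (Algebra.IsAlgebraic.isAlgebraic α)
  obtain ⟨y, hy, h2⟩ := h1.exists_integral_multiple
  have h3 : minpoly ℂ[X] (y • α) ∈ lifts (mapRingHom u.π) :=
    (mem_lifts _).2 (map_surjective _ (map_surjective _ u.surj) _)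
  obtain ⟨m, h4, -, h5⟩ := lifts_and_natDegree_eq_and_monic h3 (minpoly.monic h2)
  refine ⟨y • α, m, h5, by
    rw [h4, minpoly.isIntegrallyClosed_eq_field_fractions' (RatFunc ℂ) h2], ?_⟩
  rw [eq_top_iff, ← hα, IntermediateField.adjoin_simple_le_iff]
  have h6 : algebraMap ℂ[X] (RatFunc ℂ) y ≠ 0 :=
    (map_ne_zero_iff _ (IsFractionRing.injective _ _)).2 hy
  have h7 : α = (algebraMap ℂ[X] (RatFunc ℂ) y)⁻¹ • (y • α) := by
    rw [← algebraMap_smul (RatFunc ℂ) y α, smul_smul, inv_mul_cancel₀ h6, one_smul]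
  rw [h7]
  exact IntermediateField.smul_mem _ (by
    rw [← h7]; exact IntermediateField.mem_adjoin_simple_self _ _)

/-- A root field. -/
theorem exK (k : Type) [Field k] (p : (RatFunc k)[X]) :
    ∃ (K : Type) (_ : Field K) (_ : Algebra (RatFunc k) K) (_ : Algebra k K)
      (_ : IsScalarTower k (RatFunc k) K) (θ : K), FiniteDimensional (RatFunc k) K ∧
        (Irreducible p → aeval θ p = 0 ∧ finrank (RatFunc k) K = p.natDegree ∧
          (RatFunc k)⟮θ⟯ = ⊤) := by
  by_cases hp : Irreducible p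
  · have := Fact.mk hp
    refine ⟨AdjoinRoot p, inferInstance, inferInstance, inferInstance, inferInstance,
      AdjoinRoot.root p, (AdjoinRoot.powerBasis hp.ne_zero).finite, fun _ => ⟨?_, ?_, ?_⟩⟩
    · rw [AdjoinRoot.aeval_eq, AdjoinRoot.mk_self]
    · rw [(AdjoinRoot.powerBasis hp.ne_zero).finrank, AdjoinRoot.powerBasis_dim]
    · exact IntermediateField.adjoin_eq_top_of_algebra _ _ (AdjoinRoot.adjoinRoot_eq_top)
  · exact ⟨RatFunc k, inferInstance, inferInstance, inferInstance, inferInstance, 0,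
      inferInstance, fun h => absurd h hp⟩

/-- The ultraproduct of fields. -/
theorem exU (K : ℕ → Type) [∀ i, Field (K i)] :
    ∃ (U : Type) (_ : Field U) (mk : (∀ i, K i) →+* U), Function.Surjective mk ∧
      ∀ w, mk w = 0 ↔ ∀ᶠ i in (uf : Filter ℕ), w i = 0 := by
  let N : Ideal (∀ i, K i) :=
    { carrier := {w | ∀ᶠ i in (uf : Filter ℕ), w i = 0}
      add_mem' := fun {a b} ha hb => (Eventually.and ha hb).mono fun i hi => by
        rw [Pi.add_apply, hi.1, hi.2, add_zero]
      zero_mem' := Eventually.of_forall fun _ => rfl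
      smul_mem' := fun c a ha => Eventually.mono ha fun i hi => by
        rw [smul_eq_mul, Pi.mul_apply, hi, mul_zero] }
  have hN : ∀ w, w ∈ N ↔ ∀ᶠ i in (uf : Filter ℕ), w i = 0 := fun _ => Iff.rfl
  have : N.IsMaximal := by
    refine Ideal.isMaximal_iff.2 ⟨fun h => ?_, fun J x hJ hx hxJ => ?_⟩
    · obtain ⟨i, hi⟩ := ((hN _).1 h).exists
      exact one_ne_zero hi
    · have h1 : 1 - (fun i => (x i)⁻¹) * x ∈ N :=
        (hN _).2 ((ev_not.2 fun e => hx ((hN _).2 e)).mono fun i hi => by
          rw [Pi.sub_apply, Pi.mul_apply, inv_mul_cancel₀ hi, Pi.one_apply, sub_self])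
      have := J.add_mem (hJ h1) (J.mul_mem_left (fun i => (x i)⁻¹) hxJ)
      rwa [sub_add_cancel] at this
  exact ⟨(∀ i, K i) ⧸ N, Ideal.Quotient.field N, Ideal.Quotient.mk N,
    Ideal.Quotient.mk_surjective, fun w => Ideal.Quotient.eq_zero_iff_mem⟩

theorem adjoin_top {k K : Type} [Field k] [Field K] [Algebra k K] [Algebra (RatFunc k) K]
    [IsScalarTower k (RatFunc k) K] {θ : K} (h : (RatFunc k)⟮θ⟯ = ⊤) :
    IntermediateField.adjoin k {algebraMap (RatFunc k) K RatFunc.X, θ} = ⊤ := by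
  set E := IntermediateField.adjoin k {algebraMap (RatFunc k) K RatFunc.X, θ}
  have hp : ∀ p : k[X], algebraMap (RatFunc k) K (algebraMap k[X] (RatFunc k) p) ∈ E := fun p => by
    rw [rat_poly]
    exact (IntermediateField.algebra_adjoin_le_adjoin k _) (Algebra.adjoin_mono (by simp)
      (aeval_mem_adjoin_singleton k _))
  refine eq_top_iff.2 fun x _ => ?_
  have hx : x ∈ (RatFunc k)⟮θ⟯ := h ▸ trivial
  induction hx using IntermediateField.adjoin_induction with
  | mem x hx => exact IntermediateField.subset_adjoin _ _ (by simp [mem_singleton_iff.1 hx])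
  | algebraMap c =>
    rw [← RatFunc.num_div_denom c, map_div₀]
    exact div_mem (hp _) (hp _)
  | add x y _ _ hx hy => exact add_mem (hx trivial) (hy trivial)
  | inv x _ hx => exact inv_mem (hx trivial)
  | mul x y _ _ hx hy => exact mul_mem (hx trivial) (hy trivial)

section Up

variable (K : ℕ → Type) [∀ i, Field (K i)] [∀ i, Algebra (RatFunc (kk i)) (K i)]

/-- Evaluation of a sequence of polynomials at the variables. -/
noncomputable def ε : (∀ i, kk i)[X] →+* ∀ i, K i :=
  Pi.ringHom fun i => ((algebraMap (RatFunc (kk i)) (K i)).comp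
    (algebraMap (kk i)[X] (RatFunc (kk i)))).comp (mapRingHom (Pi.evalRingHom kk i))

theorem ε_apply (p : (∀ i, kk i)[X]) (i : ℕ) : ε K p i = algebraMap (RatFunc (kk i)) (K i)
    (algebraMap (kk i)[X] (RatFunc (kk i)) (p.map (Pi.evalRingHom kk i))) := rfl

variable {K} {U : Type} [Field U] (u : UP) (mk : (∀ i, K i) →+* U)
  (hmk : ∀ w, mk w = 0 ↔ ∀ᶠ i in (uf : Filter ℕ), w i = 0)

include hmk

theorem exφ : ∃ φ : RatFunc ℂ →+* U, ∀ p : (∀ i, kk i)[X],
    φ (algebraMap ℂ[X] (RatFunc ℂ) (p.map u.π)) = mk (ε K p) := by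
  have h0 : ∀ p : (∀ i, kk i)[X], mk (ε K p) = 0 ↔ p.map u.π = 0 := fun p => by
    rw [hmk, map_zero_iff]
    refine eventually_congr (Eventually.of_forall fun i => ?_)
    rw [ε_apply, map_eq_zero_iff _ (algebraMap (RatFunc (kk i)) (K i)).injective,
      map_eq_zero_iff _ (IsFractionRing.injective _ _)]
  have hs : Function.Surjective (mapRingHom u.π) := map_surjective _ u.surj
  let φ1 : ℂ[X] →+* U := (mapRingHom u.π).liftOfSurjective hs
    ⟨mk.comp (ε K), fun p hp => (h0 p).2 hp⟩
  have h1 : ∀ p, φ1 (p.map u.π) = mk (ε K p) := fun p =>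
    RingHom.liftOfSurjective_comp_apply _ hs _ p
  have h2 : Function.Injective φ1 := (injective_iff_map_eq_zero _).2 fun q hq => by
    obtain ⟨p, rfl⟩ := hs q
    exact (h0 p).1 ((h1 p).symm.trans hq)
  exact ⟨IsFractionRing.lift h2, fun p => by rw [IsFractionRing.lift_algebraMap, h1]⟩

variable [Algebra (RatFunc ℂ) U] (hφ : ∀ p : (∀ i, kk i)[X],
  algebraMap (RatFunc ℂ) U (algebraMap ℂ[X] (RatFunc ℂ) (p.map u.π)) = mk (ε K p))

include hφ

theorem root_iff (m : (∀ i, kk i)[X][X]) (w : ∀ i, K i) :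
    aeval (mk w) ((m.map (mapRingHom u.π)).map (algebraMap ℂ[X] (RatFunc ℂ))) = 0 ↔
      ∀ᶠ i in (uf : Filter ℕ), aeval (w i) ((m.map (mapRingHom (Pi.evalRingHom kk i))).map
        (algebraMap (kk i)[X] (RatFunc (kk i)))) = 0 := by
  have e : ((algebraMap (RatFunc ℂ) U).comp (algebraMap ℂ[X] (RatFunc ℂ))).comp
      (mapRingHom u.π) = mk.comp (ε K) := RingHom.ext hφ
  rw [aeval_def, eval₂_map, eval₂_map, e, ← hom_eval₂, hmk]
  refine eventually_congr (Eventually.of_forall fun i => ?_)
  rw [aeval_def, eval₂_map, eval₂_map]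
  have := hom_eval₂ m (ε K) (Pi.evalRingHom K i) w
  exact Eq.congr_left this

/-- Finite subextensions of the ultraproduct have bounded degree. -/
theorem finrank_le (h : StmtIRR) (hs : Function.Surjective mk)
    [∀ i, FiniteDimensional (RatFunc (kk i)) (K i)] {n : ℕ}
    (hn : ∀ᶠ i in (uf : Filter ℕ), finrank (RatFunc (kk i)) (K i) = n)
    (L : IntermediateField (RatFunc ℂ) U) [FiniteDimensional (RatFunc ℂ) L] :
    finrank (RatFunc ℂ) L ≤ n := by
  obtain ⟨θ, m, hm, h1, h2⟩ := nf u L
  have hi : IsIntegral (RatFunc ℂ) θ := Algebra.IsIntegral.isIntegral θ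
  obtain ⟨w, hw⟩ := hs θ
  have h3 := (root_iff u mk hmk hφ m w).1 (by
    rw [← h1, hw]
    exact (aeval_algHom_apply L.val θ _).trans (by rw [minpoly.aeval, map_zero]))
  obtain ⟨i, h4, h5, h6⟩ := (hn.and (h3.and (h u m hm (h1 ▸ minpoly.irreducible hi)))).exists
  have h7 := minpoly.eq_of_irreducible_of_monic h6 h5 ((hm.map _).map _)
  have h8 := minpoly.natDegree_le (A := RatFunc (kk i)) (w i)
  rw [← h7, (hm.map _).natDegree_map, hm.natDegree_map, h4] at h8
  rw [← IntermediateField.finrank_top', ← h2, IntermediateField.adjoin.finrank hi, h1,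
    (hm.map _).natDegree_map, hm.natDegree_map]
  exact h8

end Up

theorem main (h : StmtIRR) (u : UP) (F : Type) [Field F] [Algebra ℂ F] [Algebra (RatFunc ℂ) F]
    [IsScalarTower ℂ (RatFunc ℂ) F] [FiniteDimensional (RatFunc ℂ) F] :
    Nonempty (Mod u F (algebraMap (RatFunc ℂ) F RatFunc.X)) := by
  obtain ⟨θ, m, hm, h1, h2⟩ := nf u F
  have hi : IsIntegral (RatFunc ℂ) θ := Algebra.IsIntegral.isIntegral θ
  have hI := h u m hm (h1 ▸ minpoly.irreducible hi)
  choose K fK aK bK tK θ' hfd hK using fun i => exK (kk i)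
    ((m.map (mapRingHom (Pi.evalRingHom kk i))).map (algebraMap (kk i)[X] (RatFunc (kk i))))
  obtain ⟨U, fU, mk, hs, hmk⟩ := exU K
  obtain ⟨φ, hφ⟩ := exφ u mk hmk
  let : Algebra (RatFunc ℂ) U := φ.toAlgebra
  have hn : ∀ᶠ i in (uf : Filter ℕ), finrank (RatFunc (kk i)) (K i) = m.natDegree :=
    hI.mono fun i hi => by rw [(hK i hi).2.1, (hm.map _).natDegree_map, hm.natDegree_map]
  have h3 := (root_iff u mk hmk hφ m θ').2 (hI.mono fun i hi => (hK i hi).1)
  have h4 : Algebra.adjoin (RatFunc ℂ) {θ} = ⊤ := by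
    rw [← IntermediateField.adjoin_simple_toSubalgebra_of_isAlgebraic hi.isAlgebraic, h2]
    rfl
  obtain ⟨ρ, hρ⟩ : ∃ ρ : F →ₐ[RatFunc ℂ] U, ρ θ = mk θ' := by
    let pb := PowerBasis.ofAdjoinEqTop hi h4
    have hg : pb.gen = θ := PowerBasis.ofAdjoinEqTop_gen hi h4
    exact ⟨pb.lift (mk θ') (by rw [hg, h1, h3]),
      (congrArg _ hg.symm).trans (PowerBasis.lift_gen _ _ _)⟩
  have hF : finrank (RatFunc ℂ) F = m.natDegree := by
    rw [← IntermediateField.finrank_top', ← h2, IntermediateField.adjoin.finrank hi, h1,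
      (hm.map _).natDegree_map, hm.natDegree_map]
  have hp : ∀ p : (∀ i, kk i)[X], ρ (algebraMap (RatFunc ℂ) F
      (algebraMap ℂ[X] (RatFunc ℂ) (p.map u.π))) = mk (ε K p) := fun p =>
    (ρ.commutes _).trans (hφ p)
  refine ⟨{ K := K
            ff := fun i => IsFF.of_rat
            Γ := RingHom.eqLocus ((ρ : F →+* U).comp (RingHom.fst _ _)) (mk.comp (RingHom.snd _ _))
            tot := fun f => (hs (ρ f)).imp fun w hw => hw.symm
            zero := fun f w hw => ?_
            nul := fun w hw => (map_zero ρ).trans ((hmk w).2 hw).symm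
            const := fun c => ?_
            acl := fun n c c' w hc hw => ?_
            t' := fun i => algebraMap (RatFunc (kk i)) (K i) RatFunc.X
            θ := θ
            θ' := θ'
            m := m
            ht := ?_
            hθ := hρ
            mon := hm
            gen := adjoin_top h2
            pres := ?_ }⟩
  · have hw' : ρ f = mk w := hw
    rw [← hmk, ← hw', map_eq_zero]
  · have := hp (C c)
    rw [map_C, RatFunc.algebraMap_C, ← RatFunc.algebraMap_eq_C,
      ← IsScalarTower.algebraMap_apply] at this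
    refine this.trans (congrArg mk (funext fun i => ?_))
    rw [ε_apply, map_C, RatFunc.algebraMap_C, ← RatFunc.algebraMap_eq_C,
      ← IsScalarTower.algebraMap_apply]
    rfl
  · let : Algebra F U := (ρ : F →+* U).toAlgebra
    have : IsScalarTower (RatFunc ℂ) F U :=
      IsScalarTower.of_algebraMap_eq fun x => (ρ.commutes x).symm
    have h5 : IsIntegral F (mk w) := by
      refine ⟨X ^ n + ∑ j : Fin n, C (c j) * X ^ (j : ℕ),
        monic_X_pow_add (degree_sum_fin_lt c), ?_⟩
      have h6 := (hmk (w ^ n + ∑ j, c' j * w ^ (j : ℕ))).2 (hw.mono fun i hi => by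
        rw [← hi, Pi.add_apply, Finset.sum_apply]; rfl)
      rw [← h6, eval₂_add, eval₂_finset_sum, map_add, map_sum, eval₂_X_pow, map_pow]
      refine congrArg _ (Finset.sum_congr rfl fun j _ => ?_)
      rw [eval₂_mul, eval₂_C, eval₂_X_pow, map_mul, map_pow]
      exact congrArg (· * _) (hc j)
    have h6 : IsIntegral (RatFunc ℂ) (mk w) := isIntegral_trans _ h5
    have := IntermediateField.adjoin.finiteDimensional h6
    have e := AlgEquiv.ofInjectiveField ρ
    have : FiniteDimensional (RatFunc ℂ) ρ.fieldRange := e.toLinearEquiv.finiteDimensional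
    have h7 : finrank (RatFunc ℂ) ρ.fieldRange = m.natDegree :=
      e.toLinearEquiv.finrank_eq.symm.trans hF
    have h8 : ρ.fieldRange = ρ.fieldRange ⊔ (RatFunc ℂ)⟮mk w⟯ :=
      IntermediateField.eq_of_le_of_finrank_le le_sup_left
        (h7 ▸ finrank_le u mk hmk hφ h hs hn _)
    have h9 : mk w ∈ ρ.fieldRange := by
      rw [h8]
      exact (le_sup_right : _ ≤ ρ.fieldRange ⊔ _) (IntermediateField.mem_adjoin_simple_self _ _)
    exact h9
  · have := hp X
    rw [map_X, RatFunc.algebraMap_X] at this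
    refine this.trans (congrArg mk (funext fun i => ?_))
    rw [ε_apply, map_X, RatFunc.algebraMap_X]
    rfl
  · refine hI.mono fun i hi => ⟨rat_transc, adjoin_top (hK i hi).2.2, ?_, ?_⟩
    · rw [rat_finrank, (hK i hi).2.1, (hm.map _).natDegree_map, hm.natDegree_map]
    · have := (hK i hi).1
      rw [aeval_def, eval₂_map, eval₂_map] at this
      refine Eq.trans (congrArg (m.eval₂ · (θ' i)) (RingHom.ext fun p => ?_)) this
      rw [coe_eval₂RingHom, ← eval₂_map, ← aeval_def, ← rat_poly]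
      rfl

end PreA

theorem pre (h : StmtIRR) : StmtPRE := by
  intro u F _ _ t ht hfd
  let := ratAlg ht
  have := ratAlg_tower ht
  have := ratAlg_fd ht
  have hX : algebraMap (RatFunc ℂ) F RatFunc.X = t := RatFunc.algEquivOfTranscendental_X t ht
  have := PreA.main h u F
  rwa [hX] at this

end Pool.Agent.MP_4f1c5b_al.H95
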