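import Pool.Agent.MP_4f1c5b_al.H95.SpecB

/-! Points of an irreducible curve and places of its function field. -/

namespace Pool.Agent.MP_4f1c5b_al.H95

open Filter Set WithZero Polynomial Module
open Pool.Agent.MP_cce4c9_lc.H87 Pool.Agent.MP_cce4c9_lc.H7
open scoped IntermediateField

namespace PtsA

variable {ι F : Type} [Field F] [Algebra ℂ F] {X : ι → F} {b0 : ι}

theorem add_lt (v : Place ℂ F) {a b : F} {c d : ℂ} (ha : v.val (a - algebraMap ℂ F c) < 1)
    (hb : v.val (b - algebraMap ℂ F d) < 1) : v.val (a + b - algebraMap ℂ F (c + d)) < 1 := by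
  rw [map_add, show a + b - (algebraMap ℂ F c + algebraMap ℂ F d) =
    (a - algebraMap ℂ F c) + (b - algebraMap ℂ F d) by ring]
  exact (v.val.map_add _ _).trans_lt (max_lt ha hb)

theorem mul_lt (v : Place ℂ F) {a b : F} {c d : ℂ} (ha : v.val (a - algebraMap ℂ F c) < 1)
    (hb : v.val (b - algebraMap ℂ F d) < 1) : v.val (a * b - algebraMap ℂ F (c * d)) < 1 := by
  rw [map_mul, show a * b - algebraMap ℂ F c * algebraMap ℂ F d =
    (a - algebraMap ℂ F c) * b + algebraMap ℂ F c * (b - algebraMap ℂ F d) by ring]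
  refine (v.val.map_add _ _).trans_lt (max_lt ?_ ?_) <;> rw [map_mul]
  · exact (mul_le_of_le_one_right' (v.le_of_sub_lt hb)).trans_lt ha
  · exact (mul_le_of_le_one_left' (v.const_le _)).trans_lt hb

theorem aev (v : Place ℂ F) {z : ι → ℂ} (hz : ∀ l, v.val (X l - algebraMap ℂ F (z l)) < 1)
    (p : MvPolynomial ι ℂ) :
    v.val (MvPolynomial.aeval X p - algebraMap ℂ F (MvPolynomial.eval z p)) < 1 := by
  induction p using MvPolynomial.induction_on with
  | C a => simp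
  | add p q hp hq => rw [map_add, map_add (MvPolynomial.eval z)]; exact add_lt v hp hq
  | mul_X p l hp =>
    rw [map_mul, map_mul (MvPolynomial.eval z), MvPolynomial.aeval_X, MvPolynomial.eval_X]
    exact mul_lt v hp (hz l)

theorem fin_ne (hF : IsFF ℂ F) {h : F} (h0 : h ≠ 0) : {v : Place ℂ F | v.val h ≠ 1}.Finite :=
  (fins hF h).subset fun v hv e => hv ((v.val_one_iff (v.val_ne h0)).2 e)

theorem fin_ne' (hF : IsFF ℂ F) (h : F) : {v : Place ℂ F | h ≠ 0 ∧ v.val h ≠ 1}.Finite := by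
  by_cases h0 : h = 0
  · simp [h0]
  · exact (fin_ne hF h0).subset fun v hv => hv.2

theorem poles (hF : IsFF ℂ F) (h : F) : {v : Place ℂ F | ¬ v.val h ≤ 1}.Finite :=
  (fin_ne' hF h).subset fun v hv => ⟨fun e => hv (by simp [e]), fun e => hv e.le⟩

theorem sub_ne (h : Cv X b0) (c : ℂ) : X b0 - algebraMap ℂ F c ≠ 0 := fun e =>
  nonconst_of_transc h.2.1 ⟨c, (sub_eq_zero.1 e).symm⟩

theorem inv_not (P : KP ℂ F) {s : F} (hs : P.Rd s 0) (h0 : s ≠ 0) : s⁻¹ ∉ P.O := fun hi => by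
  obtain ⟨h1, h2⟩ := hs
  have h3 : (⟨s, h1⟩ * ⟨s⁻¹, hi⟩ : P.O) = 1 := Subtype.ext (mul_inv_cancel₀ h0)
  have := congrArg P.ρ h3
  rw [map_mul, h2, zero_mul, map_one] at this
  exact zero_ne_one this

theorem zs (h : Cv X b0) (z : ι → ℂ) :
    z ∈ Zs X ↔ ∃ v : Place ℂ F, ∀ l, v.val (X l - algebraMap ℂ F (z l)) < 1 := by
  refine ⟨fun hz => ?_, fun ⟨v, hv⟩ p hp => ?_⟩
  · obtain ⟨P, hP⟩ := chevH (MvPolynomial.aeval X) (MvPolynomial.aeval z) fun p hp => hz p hp
    have h1 : ∀ l, P.Rd (X l - algebraMap ℂ F (z l)) 0 := fun l => by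
      have := hP (MvPolynomial.X l - MvPolynomial.C (z l))
      rwa [map_sub, map_sub, MvPolynomial.aeval_X, MvPolynomial.aeval_X, MvPolynomial.aeval_C,
        MvPolynomial.aeval_C, Algebra.algebraMap_self_apply, sub_self] at this
    obtain ⟨v, hv⟩ := dvr ℂ F h.ff P.O P.mem fun e =>
      inv_not P (h1 b0) (sub_ne h _) (e ▸ ValuationSubring.mem_top _)
    refine ⟨v, fun l => ?_⟩
    by_cases h0 : X l - algebraMap ℂ F (z l) = 0
    · simp [h0]
    · by_contra h2
      refine inv_not P (h1 l) h0 ((hv _).2 ?_)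
      rw [map_inv₀]
      exact inv_le_one_of_one_le₀ (not_lt.1 h2)
  · have := aev v hv p
    rw [hp] at this
    exact v.const_eq this (by simp)

/-- Finitely many functions separate all places but one. -/
theorem sep (hF : IsFF ℂ F) : ∃ (v0 : Place ℂ F) (S : Finset F), ∀ v v' : Place ℂ F, v ≠ v0 →
    v' ≠ v0 → (∀ y ∈ S, ∃ c, v.val (y - algebraMap ℂ F c) < 1 ∧
      v'.val (y - algebraMap ℂ F c) < 1) → v = v' := by
  classical
  have := (ll ℂ F hF).2.2.2
  obtain ⟨v0⟩ : Nonempty (Place ℂ F) := inferInstance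
  obtain ⟨g, hg⟩ := genus hF
  obtain ⟨S, hS⟩ := (Submodule.fg_iff_finiteDimensional _).2
    (hg.fin (Finsupp.single v0 (2 * (g : ℤ) + 2)))
  refine ⟨v0, S, fun v v' h0 h0' H => ?_⟩
  by_contra hne
  have key : ∀ y ∈ Submodule.span ℂ (S : Set F), ∃ c, v.val (y - algebraMap ℂ F c) < 1 ∧
      v'.val (y - algebraMap ℂ F c) < 1 := fun y hy => by
    induction hy using Submodule.span_induction with
    | mem y hy => exact H y hy
    | zero => exact ⟨0, by simp, by simp⟩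
    | add x y _ _ hx hy =>
      obtain ⟨c, h1, h2⟩ := hx
      obtain ⟨d, h3, h4⟩ := hy
      exact ⟨c + d, add_lt v h1 h3, add_lt v' h2 h4⟩
    | smul a x _ hx =>
      obtain ⟨c, h1, h2⟩ := hx
      rw [Algebra.smul_def]
      exact ⟨a * c, mul_lt v (by simp) h1, mul_lt v' (by simp) h2⟩
  obtain ⟨y, hy, h1⟩ := jet hF hg
    (D := Finsupp.single v0 (2 * (g : ℤ) + 2) - Finsupp.single v' 1) (E := Finsupp.single v 1)
    (Finsupp.single_nonneg.2 zero_le_one)
    (fun w hw => by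
      obtain rfl : w = v := by
        by_contra e
        exact hw (Finsupp.single_eq_of_ne e)
      simp [Finsupp.single_eq_of_ne h0, Finsupp.single_eq_of_ne hne])
    (by simp only [map_sub, Finsupp.degree_single]; omega)
  have hlt : (exp (-1 : ℤ) : ℤᵐ⁰) < 1 := by rw [← exp_zero, exp_lt_exp]; omega
  have h2 : v.val (y - algebraMap ℂ F 1) < 1 := by
    have := h1 v (by simp)
    rw [Finsupp.single_eq_same] at this
    rw [map_one]
    exact this.trans_lt hlt
  have h3 : v'.val (y - algebraMap ℂ F 0) < 1 := by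
    have := hy v'
    rw [Finsupp.sub_apply, Finsupp.single_eq_same, Finsupp.single_eq_of_ne h0', zero_sub] at this
    rw [map_zero, sub_zero]
    exact this.trans_lt hlt
  obtain ⟨c, h4, h5⟩ := key y (hS ▸ fun w => (hy w).trans (by
    rw [exp_le_exp, Finsupp.sub_apply]
    have : (0 : ℤ) ≤ Finsupp.single v' (1 : ℤ) w := Finsupp.single_nonneg.2 zero_le_one w
    omega))
  exact one_ne_zero ((v.const_eq h2 h4).trans (v'.const_eq h5 h3))

theorem bad [Finite ι] (h : Cv X b0) : {c | ¬ Gd X b0 c}.Finite := by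
  obtain ⟨v0, S, hS⟩ := sep h.ff
  have hab : ∀ y : F, ∃ a b : MvPolynomial ι ℂ,
      y = MvPolynomial.aeval X a / MvPolynomial.aeval X b := fun y =>
    (IntermediateField.mem_adjoin_range_iff ℂ X y).1 (h.1 ▸ trivial)
  choose a b hab using hab
  have hB : (insert v0 ((⋃ l, {v : Place ℂ F | ¬ v.val (X l) ≤ 1}) ∪ ⋃ y ∈ S,
      {v : Place ℂ F | MvPolynomial.aeval X (b y) ≠ 0 ∧
        v.val (MvPolynomial.aeval X (b y)) ≠ 1})).Finite :=
    ((finite_iUnion fun l => poles h.ff _).union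
      (S.finite_toSet.biUnion fun y _ => fin_ne' h.ff _)).insert _
  refine (hB.image fun v => v.ev (X b0)).subset fun c hc => ?_
  by_contra hn
  have h1 : ∀ v : Place ℂ F, v.val (X b0 - algebraMap ℂ F c) < 1 → v ≠ v0 ∧
      (∀ l, v.val (X l) ≤ 1) ∧ ∀ y ∈ S, MvPolynomial.aeval X (b y) ≠ 0 →
        v.val (MvPolynomial.aeval X (b y)) = 1 := fun v hv => by
    have h2 := fun e => hn ⟨v, e, v.ev_eq hv⟩
    refine ⟨fun e => h2 (Or.inl e), fun l => ?_, fun y hy h0 => ?_⟩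
    · by_contra e
      exact h2 (Or.inr (Or.inl (mem_iUnion.2 ⟨l, e⟩)))
    · by_contra e
      exact h2 (Or.inr (Or.inr (mem_iUnion₂.2 ⟨y, hy, h0, e⟩)))
  refine hc ⟨fun v hv => (h1 v hv).2.1, fun v v' hv hv' e => ?_⟩
  refine hS v v' (h1 v hv).1 (h1 v' hv').1 fun y hy => ?_
  by_cases h0 : MvPolynomial.aeval X (b y) = 0
  · rw [hab y, h0, div_zero]
    exact ⟨0, by simp, by simp⟩
  have h3 : ∀ w : Place ℂ F, w.val (X b0 - algebraMap ℂ F c) < 1 →
      (∀ l, w.ev (X l) = v'.ev (X l)) → w.val (y - algebraMap ℂ F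
        (MvPolynomial.eval (fun l => v'.ev (X l)) (a y) /
          MvPolynomial.eval (fun l => v'.ev (X l)) (b y))) < 1 := fun w hw e => by
    have h4 := aev w (z := fun l => v'.ev (X l)) fun l => e l ▸ ev_spec h.ff w ((h1 w hw).2.1 l)
    have h5 := (h1 w hw).2.2 y hy h0
    have h6 := w.le_of_sub_lt (h4 (a y))
    rw [← w.ev_eq (h4 (a y)), ← w.ev_eq (h4 (b y)), ← ev_div h.ff w h6 h5, ← hab y]
    refine ev_spec h.ff w ?_
    rw [hab y, map_div₀, h5, div_one]
    exact h6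
  exact ⟨_, h3 v hv e, h3 v' hv' fun _ => rfl⟩

theorem bd_fin (h : Cv X b0) {T : Set ℂ} (hT : T.Finite) : (bd (X b0) T).Finite := by
  refine ((poles h.ff (X b0)).union (hT.biUnion fun c _ => fin_ne h.ff (sub_ne h c))).subset
    fun v hv => ?_
  by_cases h1 : v.val (X b0) ≤ 1
  · have h2 := ev_spec h.ff v h1
    exact Or.inr (mem_iUnion₂.2 ⟨_, by_contra fun e => hv _ e h2, h2.ne⟩)
  · exact Or.inl h1

theorem con [Finite ι] : ConE ⊤ (Zs X) := by
  obtain ⟨S, hS⟩ := (isNoetherianRing_iff_ideal_fg _).1 inferInstance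
    (RingHom.ker (MvPolynomial.aeval X : MvPolynomial ι ℂ →ₐ[ℂ] F))
  have : Zs X = ⋂ p ∈ (S : Set (MvPolynomial ι ℂ)), {z | MvPolynomial.eval z p = 0} := by
    ext z
    rw [mem_iInter₂]
    refine ⟨fun hz p hp => hz p ?_, fun hz p hp => ?_⟩
    · exact RingHom.mem_ker.1 (hS ▸ Ideal.subset_span hp)
    · have h1 : Ideal.span (S : Set (MvPolynomial ι ℂ)) ≤ RingHom.ker (MvPolynomial.eval z) :=
        Ideal.span_le.2 fun q hq => hz q hq
      exact h1 (hS ▸ RingHom.mem_ker.2 hp)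
  rw [this]
  exact ConE.biInter S.finite_toSet fun p _ => ConE.zero p fun _ => trivial

end PtsA

theorem pts : StmtPTS := fun ι F _ _ _ X b0 h => by
  refine ⟨PtsA.bad h, PtsA.zs h, fun T hT => ⟨PtsA.bd_fin h hT, ?_⟩, PtsA.con⟩
  have := (ll ℂ F h.ff).2.2.2
  obtain ⟨v, hv⟩ := (PtsA.bd_fin h (hT.union (PtsA.bad h))).exists_notMem
  simp only [bd, mem_ofPred_eq, not_forall, not_not, mem_union, not_or] at hv
  obtain ⟨c, ⟨h1, h2⟩, h3⟩ := hv
  exact ⟨fun l => v.ev (X l), (PtsA.zs h _).2 ⟨v, fun l => ev_spec h.ff v (h2.1 v h3 l)⟩,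
    fun e => h1 (v.ev_eq h3 ▸ e)⟩

end Pool.Agent.MP_4f1c5b_al.H95
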