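import Pool.Agent.MP_4f1c5b_al.H95.SpecA

/-!
The pieces of a system of charts are zero sets, uniformly in the field.
-/

namespace Pool.Agent.MP_4f1c5b_al.H95

open AlgebraicGeometry CategoryTheory MvPolynomial

namespace Sch1A

variable {X : Scheme.{0}} {U : X.Opens} (hU : IsAffineOpen U)

theorem key {R : CommRingCat.{0}} (x : Spec R ⟶ X) (h : ⊤ ≤ x ⁻¹ᵁ U) :
    Spec.map (x.appLE U ⊤ h ≫ (Scheme.ΓSpecIso R).hom) ≫ hU.fromSpec = x := by
  rw [Spec.map_comp, Category.assoc, hU.SpecMap_appLE_fromSpec x (isAffineOpen_top _) h,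
    IsAffineOpen.fromSpec_top, Scheme.isoSpec_Spec_inv, ← Category.assoc, ← Spec.map_comp,
    Iso.inv_hom_id, Spec.map_id, Category.id_comp]

theorem str {R : CommRingCat.{0}} (g : X ⟶ Spec R) :
    hU.fromSpec ≫ g = Spec.map ((Scheme.ΓSpecIso R).inv ≫ g.appLE ⊤ U le_top) := by
  rw [← (isAffineOpen_top _).SpecMap_appLE_fromSpec g hU le_top, IsAffineOpen.fromSpec_top,
    Scheme.isoSpec_Spec_inv, Spec.map_comp]

theorem top {R : CommRingCat.{0}} (φ : Γ(X, U) ⟶ R) : ⊤ ≤ (Spec.map φ ≫ hU.fromSpec) ⁻¹ᵁ U := by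
  rw [Scheme.Hom.comp_preimage, hU.fromSpec_preimage_self]
  exact le_rfl

variable {F : Type} [Field F] (φ : Γ(X, U) ⟶ CommRingCat.of F)

theorem mem (s : Γ(X, U)) (y : Spec (CommRingCat.of F)) :
    y ∈ (Spec.map φ ≫ hU.fromSpec) ⁻¹ᵁ X.basicOpen s ↔ φ.hom s ≠ 0 := by
  rw [Scheme.Hom.comp_preimage, hU.fromSpec_preimage_basicOpen]
  change φ.hom s ∉ PrimeSpectrum.asIdeal y ↔ _
  rw [Ideal.eq_bot_of_prime (PrimeSpectrum.asIdeal y), Ideal.mem_bot]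

theorem opn (W : X.Opens) :
    ⊤ ≤ (Spec.map φ ≫ hU.fromSpec) ⁻¹ᵁ W ↔ ∃ s, X.basicOpen s ≤ W ∧ φ.hom s ≠ 0 := by
  refine ⟨fun h => ?_, fun ⟨s, h1, h2⟩ y _ => h1 ((mem hU φ s y).2 h2)⟩
  let y : Spec (CommRingCat.of F) := IsLocalRing.closedPoint F
  obtain ⟨s, h1, h2⟩ := hU.exists_basicOpen_le
    (⟨(Spec.map φ ≫ hU.fromSpec) y, h trivial⟩ : W) (top hU φ trivial)
  exact ⟨s, h1, (mem hU φ s y).1 h2⟩

end Sch1A

open Sch1A

theorem sch1 : StmtSCH1 := by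
  intro o _ _ V C j
  have hU := C.aff j
  let a := (Scheme.ΓSpecIso (CommRingCat.of o)).inv ≫ V.hom.appLE ⊤ (C.U j) le_top
  let Φ := eval₂Hom a.hom (C.f j)
  have hΦ : Function.Surjective Φ := by
    rw [← RingHom.range_eq_top, eq_top_iff, ← C.gen j, Subring.closure_le]
    rintro _ (⟨c, rfl⟩ | ⟨l, rfl⟩)
    exacts [⟨MvPolynomial.C c, eval₂Hom_C _ _ _⟩, ⟨X l, eval₂Hom_X' _ _ _⟩]
  let G := {p | Φ p = 0 ∨ ∃ j' < j, V.left.basicOpen (Φ p) ≤ C.U j'}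
  obtain ⟨J, hJ⟩ := IsNoetherian.noetherian (Ideal.span G)
  refine ⟨J, fun F _ _ => Set.ext fun z => ?_⟩
  have e : (∀ p ∈ J, aeval z p = 0) ↔ ∀ p ∈ G, aeval z p = 0 :=
    (Submodule.span_le (p := RingHom.ker (aeval z))).symm.trans
      (hJ ▸ Submodule.span_le (p := RingHom.ker (aeval z)))
  refine Iff.trans ⟨?_, fun h => ?_⟩ e.symm
  · rintro ⟨x, h, h1, h2, h3⟩ p hp
    rw [← key hU x h] at h1 h2
    generalize x.appLE (C.U j) ⊤ h ≫ (Scheme.ΓSpecIso (CommRingCat.of F)).hom = φ at h1 h2 h3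
    rw [Category.assoc, str hU, ← Spec.map_comp, Spec.map_inj] at h1
    have : φ.hom.comp Φ = (aeval z : _ →ₐ[o] F) := ringHom_ext
      (fun c => (congrArg φ.hom (eval₂Hom_C _ _ c)).trans
        ((congrArg (fun f => f.hom c) h1).trans (aeval_C z c).symm))
      fun l => (congrArg φ.hom (eval₂Hom_X' _ _ l)).trans ((h3 l).trans (aeval_X z l).symm)
    refine (RingHom.congr_fun this p).symm.trans ?_
    rcases hp with hp | ⟨j', a, b⟩
    · exact (congrArg φ.hom hp).trans (map_zero _)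
    · exact by_contra fun c => h2 j' a ((opn hU φ _).2 ⟨_, b, c⟩)
  · let φ := CommRingCat.ofHom (Φ.liftOfSurjective hΦ
      ⟨(aeval z : _ →ₐ[o] F).toRingHom, fun p hp => h p (Or.inl hp)⟩)
    have hφ : ∀ p, φ.hom (Φ p) = aeval z p := Φ.liftOfSurjective_comp_apply hΦ _
    refine ⟨Spec.map φ ≫ hU.fromSpec, top hU φ, ?_, fun j' a b => ?_, fun l => ?_⟩
    · rw [Category.assoc, str hU, ← Spec.map_comp, Spec.map_inj]
      ext c
      exact (congrArg φ.hom (eval₂Hom_C _ (C.f j) c)).symm.trans ((hφ _).trans (aeval_C z c))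
    · obtain ⟨s, h1, h2⟩ := (opn hU φ _).1 b
      obtain ⟨p, rfl⟩ := hΦ s
      exact h2 ((hφ p).trans (h p (Or.inr ⟨j', a, h1⟩)))
    · rw [Spec.map_inj.1 ((cancel_mono hU.fromSpec).1 (key hU _ (top hU φ)))]
      exact (congrArg φ.hom (eval₂Hom_X' a.hom _ l)).symm.trans ((hφ _).trans (aeval_X z l))

end Pool.Agent.MP_4f1c5b_al.H95
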