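import Pool.Agent.MP_4f1c5b_al.H95.SpecA

/-!
Existence of charts, and counting points through the pieces.
-/

namespace Pool.Agent.MP_4f1c5b_al.H95

open AlgebraicGeometry CategoryTheory

namespace Sch2A

variable {o : Type} [CommRing o] {V : Over (Spec (CommRingCat.of o))} (C : Charts V)
  {F : Type} [Field F]

/-- A point in a chart is determined by its coordinates. -/
theorem point_ext (j : Fin C.m) (x y : Spec (CommRingCat.of F) ⟶ V.left)
    (hx : ⊤ ≤ x ⁻¹ᵁ C.U j) (hy : ⊤ ≤ y ⁻¹ᵁ C.U j) (h : x ≫ V.hom = y ≫ V.hom)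
    (e : ∀ l, (x.appLE (C.U j) ⊤ hx ≫ (Scheme.ΓSpecIso (CommRingCat.of F)).hom).hom (C.f j l) =
      (y.appLE (C.U j) ⊤ hy ≫ (Scheme.ΓSpecIso (CommRingCat.of F)).hom).hom (C.f j l)) :
    x = y := by
  have h1 : V.hom.appLE ⊤ (C.U j) le_top ≫ x.appLE (C.U j) ⊤ hx =
      V.hom.appLE ⊤ (C.U j) le_top ≫ y.appLE (C.U j) ⊤ hy := by
    rw [Scheme.Hom.appLE_comp_appLE, Scheme.Hom.appLE_comp_appLE]
    congr 1
  have h2 : x.appLE (C.U j) ⊤ hx = y.appLE (C.U j) ⊤ hy := by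
    rw [← cancel_mono (Scheme.ΓSpecIso (CommRingCat.of F)).hom]
    refine CommRingCat.hom_ext (RingHom.eq_of_eqOn_set_dense (C.gen j) ?_)
    rintro _ (⟨a, rfl⟩ | ⟨l, rfl⟩)
    · have := congrArg (fun g => ((Scheme.ΓSpecIso (CommRingCat.of o)).inv ≫ g ≫
        (Scheme.ΓSpecIso (CommRingCat.of F)).hom).hom a) h1
      simpa only [CommRingCat.hom_comp, RingHom.comp_apply] using this
    · exact e l
  have h3 := IsAffineOpen.SpecMap_appLE_fromSpec x (C.aff j) (isAffineOpen_top _) hx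
  have h4 := IsAffineOpen.SpecMap_appLE_fromSpec y (C.aff j) (isAffineOpen_top _) hy
  rw [h2, h4, IsAffineOpen.fromSpec_top] at h3
  exact ((cancel_epi _).1 h3).symm

/-- Every point lies in a first chart. -/
theorem exists_first (x : Spec (CommRingCat.of F) ⟶ V.left) :
    ∃ j, ⊤ ≤ x ⁻¹ᵁ C.U j ∧ ∀ j' < j, ¬ ⊤ ≤ x ⁻¹ᵁ C.U j' := by
  have h : ∃ j, ⊤ ≤ x ⁻¹ᵁ C.U j := by
    have h1 : x default ∈ ⨆ j, C.U j := by
      rw [C.cov]
      trivial
    obtain ⟨j, hj⟩ := TopologicalSpace.Opens.mem_iSup.1 h1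
    refine ⟨j, fun p _ => ?_⟩
    rw [Subsingleton.elim p default]
    exact hj
  obtain ⟨j, hj, hm⟩ := WellFounded.has_min (wellFounded_lt (α := Fin C.m))
    {j | ⊤ ≤ x ⁻¹ᵁ C.U j} h
  exact ⟨j, hj, fun j' h1 h2 => hm j' h2 h1⟩

theorem exists_gen {R S : Type} [CommRing R] [CommRing S] (φ : R →+* S) (h : φ.FiniteType) :
    ∃ (n : ℕ) (f : Fin n → S), Subring.closure (Set.range φ ∪ Set.range f) = ⊤ := by
  algebraize [φ]
  obtain ⟨s, hs⟩ := (inferInstance : Algebra.FiniteType R S).out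
  refine ⟨s.card, fun i => s.equivFin.symm i, ?_⟩
  have h1 : Set.range (fun i => (s.equivFin.symm i : S)) = s := by
    ext a
    constructor
    · rintro ⟨i, rfl⟩
      exact (s.equivFin.symm i).2
    · exact fun ha => ⟨s.equivFin ⟨a, ha⟩, by simp⟩
  rw [h1]
  have h2 := Algebra.adjoin_eq_ring_closure (R := R) (s : Set S)
  rw [hs] at h2
  exact h2.symm

end Sch2A

open Sch2A

theorem sch2 : StmtSCH2 := by
  intro o _ V C F _ _ _
  let P := {x : Spec (CommRingCat.of F) ⟶ V.left //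
    x ≫ V.hom = Spec.map (CommRingCat.ofHom (algebraMap o F))}
  let e : (Over.mk (Spec.map (CommRingCat.ofHom (algebraMap o F))) ⟶ V) ≃ P :=
    { toFun := fun g => ⟨g.left, Over.w g⟩
      invFun := fun x => Over.homMk x.1 x.2
      left_inv := fun g => by ext; rfl
      right_inv := fun x => rfl }
  choose idx h1 h2 using fun x : P => exists_first C x.1
  have h3 : ∀ j (x : {x : P // idx x = j}), ⊤ ≤ x.1.1 ⁻¹ᵁ C.U j := by
    rintro _ ⟨x, rfl⟩
    exact h1 x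
  have h4 : ∀ j (x : {x : P // idx x = j}), ∀ j' < j, ¬ ⊤ ≤ x.1.1 ⁻¹ᵁ C.U j' := by
    rintro _ ⟨x, rfl⟩
    exact h2 x
  let φ : ∀ j, {x : P // idx x = j} → C.piece F j := fun j x =>
    ⟨fun l => (x.1.1.appLE (C.U j) ⊤ (h3 j x) ≫
      (Scheme.ΓSpecIso (CommRingCat.of F)).hom).hom (C.f j l),
      x.1.1, h3 j x, x.1.2, h4 j x, fun _ => rfl⟩
  have hφ : ∀ j, Function.Bijective (φ j) := fun j => by
    refine ⟨fun x y h => Subtype.ext (Subtype.ext (point_ext C j _ _ _ _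
      (x.1.2.trans y.1.2.symm) (congrFun (congrArg Subtype.val h)))), ?_⟩
    rintro ⟨z, x, a1, a2, a3, a4⟩
    have a5 : idx ⟨x, a2⟩ = j := by
      rcases lt_trichotomy (idx ⟨x, a2⟩) j with h | h | h
      · exact absurd (h1 ⟨x, a2⟩) (a3 _ h)
      · exact h
      · exact absurd a1 (h2 ⟨x, a2⟩ _ h)
    exact ⟨⟨⟨x, a2⟩, a5⟩, Subtype.ext (funext a4)⟩
  have hf : ∀ j, Finite {x : P // idx x = j} := fun j => Finite.of_injective _ (hφ j).1
  rw [H1.cnt, Nat.card_congr e, ← Nat.card_congr (Equiv.sigmaFiberEquiv idx), Nat.card_sigma]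
  exact Finset.sum_congr rfl fun j _ => (Nat.card_eq_of_bijective _ (hφ j)).trans
    (Nat.card_coe_set_eq _)

theorem ch : StmtCH := by
  intro o _ V h1 h2
  have hc : CompactSpace V.left := QuasiCompact.compactSpace_of_compactSpace V.hom
  obtain ⟨s, hs, e⟩ := (isCompact_iff_finite_and_eq_biUnion_affineOpens (X := V.left)
    (U := ⊤)).1 isCompact_univ
  have := hs.fintype
  let a := (Fintype.equivFin s).symm
  have key : ∀ j, ∃ (n : ℕ) (f : Fin n → Γ(V.left, (a j).1.1)), Subring.closure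
      (Set.range ((Scheme.ΓSpecIso (CommRingCat.of o)).inv ≫
        V.hom.appLE ⊤ (a j).1.1 le_top).hom ∪ Set.range f) = ⊤ := fun j => by
    refine exists_gen _ ?_
    rw [CommRingCat.hom_comp]
    exact (V.hom.finiteType_appLE (isAffineOpen_top _) (a j).1.2 le_top).comp
      (RingHom.FiniteType.of_surjective _
        (ConcreteCategory.bijective_of_isIso (Scheme.ΓSpecIso (CommRingCat.of o)).inv).2)
  choose n f hf using key
  refine ⟨⟨_, fun j => (a j).1.1, fun j => (a j).1.2, ?_, n, f, hf⟩⟩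
  rw [eq_top_iff, e]
  exact iSup₂_le fun i hi => le_iSup_of_le (a.symm ⟨i, hi⟩) (by simp)

end Pool.Agent.MP_4f1c5b_al.H95
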