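import Pool.Agent.MP_4f1c5b_al.H95.SpecA

/-! Power sums separate orbits; fibres of twisted fixed points. -/

namespace Pool.Agent.MP_4f1c5b_al.H95

open Set

namespace SepA

theorem expand {ι U : Type} [Fintype ι] [DecidableEq ι] [Fintype U] {N : ℕ}
    (f : ι → Polynomial ℂ) (hf : ∀ l, (f l).natDegree < N) (z : U → ι → ℂ) :
    ∑ u, ∏ l, (f l).eval (z u l) =
      ∑ m : ι → Fin N, (∏ l, (f l).coeff (m l)) * ∑ u, ∏ l, z u l ^ (m l : ℕ) := by
  simp only [Polynomial.eval_eq_sum_range' (hf _), Finset.sum_range, Fintype.prod_sum,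
    Finset.prod_mul_distrib, Finset.mul_sum]
  exact Finset.sum_comm

theorem cancel {K ι : Type} {d : ℕ} {b : Fin d → ι} {G : Subgroup (Equiv.Perm ι)}
    {W : Set (ι → K)} (T : Tors b G W) {x : ι → K} (hx : x ∈ W) {u v : Equiv.Perm ι} (hu : u ∈ G)
    (hv : v ∈ G) (e : x ∘ u = x ∘ v) : u = v :=
  mul_inv_eq_one.1 (T.free _ (G.mul_mem hu (G.inv_mem hv)) x hx (funext fun l => by
    simpa using congrFun e (v⁻¹ l)))

end SepA

open SepA in
theorem sep : StmtSEP := by
  classical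
  intro ι _ P _
  refine ⟨2 * Fintype.card ι + 1, fun x y h => ?_⟩
  let T : Finset ℂ := Finset.univ.image x ∪ Finset.univ.image y
  have hT : T.card ≤ 2 * Fintype.card ι := (Finset.card_union_le _ _).trans (by
    rw [two_mul]; exact add_le_add Finset.card_image_le Finset.card_image_le)
  have hx : ∀ l, x l ∈ T := fun l => by simp [T]
  have hy : ∀ l, y l ∈ T := fun l => by simp [T]
  have hd : ∀ l, (Lagrange.basis T id (y l)).natDegree < 2 * Fintype.card ι + 1 := fun l => by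
    rw [Lagrange.natDegree_basis (injOn_id _) (hy l)]
    omega
  have key : ∀ z : ι → ℂ, (∀ l, z l ∈ T) →
      ∏ l, (Lagrange.basis T id (y l)).eval (z l) = if y = z then 1 else 0 := fun z hz => by
    split_ifs with e
    · subst e
      exact Finset.prod_eq_one fun l _ => Lagrange.eval_basis_self (injOn_id _) (hy l)
    · obtain ⟨l, hl⟩ := Function.ne_iff.1 e
      exact Finset.prod_eq_zero (Finset.mem_univ l)
        (Lagrange.eval_basis_of_ne (v := id) hl (hz l))
  have e := expand _ hd fun (u : P) l => x (u.1 l)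
  simp only [h] at e
  rw [← expand _ hd fun (u : P) l => y (u.1 l)] at e
  simp only [key _ fun _ => hx _, key _ fun _ => hy _, Finset.sum_boole, Nat.cast_inj] at e
  obtain ⟨u, hu⟩ := Finset.card_pos.1 (lt_of_lt_of_eq (Finset.card_pos.2
    ⟨(1 : P), by exact Finset.mem_filter.2 ⟨Finset.mem_univ _, rfl⟩⟩) e.symm)
  exact ⟨u.1, u.2, (Finset.mem_filter.1 hu).2⟩

open SepA in
theorem spb : StmtSPB := by
  classical
  intro K ι _ d b G W s T h hh hA
  obtain ⟨A, e⟩ := hA.exists_finset_coe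
  have mem : ∀ x, x ∈ A ↔ x ∈ W ∧ s ∘ x = x ∘ h := fun x => by rw [← Finset.mem_coe, e]; rfl
  rw [← e, ← Finset.coe_image, ncard_coe_finset, ncard_coe_finset,
    Finset.card_eq_sum_card_image (· ∘ b) A, mul_comm]
  refine Finset.sum_const_nat fun y hy => ?_
  obtain ⟨x, hx, rfl⟩ := Finset.mem_image.1 hy
  obtain ⟨x1, x2⟩ := (mem x).1 hx
  rw [← Nat.card_eq_finsetCard]
  refine (Nat.card_eq_of_bijective
    (fun u : (G ⊓ Subgroup.centralizer {h} : Subgroup (Equiv.Perm ι)) =>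
      (⟨x ∘ u.1, Finset.mem_filter.2 ⟨(mem _).2 ⟨T.inv _ u.2.1 x x1, ?_⟩, funext fun j =>
        congrArg x (T.fix _ u.2.1 j)⟩⟩ : {z // z ∈ A.filter fun z => z ∘ b = x ∘ b}))
    ⟨fun u v e => Subtype.ext (cancel T x1 u.2.1 v.2.1 (congrArg Subtype.val e)), fun z => ?_⟩).symm
  · rw [← Function.comp_assoc, x2, Function.comp_assoc, Function.comp_assoc, ← Equiv.Perm.coe_mul,
      ← Equiv.Perm.coe_mul, u.2.2 h rfl]
  · obtain ⟨z1, z2⟩ := Finset.mem_filter.1 z.2
    obtain ⟨z3, z4⟩ := (mem _).1 z1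
    obtain ⟨g, hg, e'⟩ := T.tr x x1 z.1 z3 z2.symm
    refine ⟨⟨g, hg, ?_⟩, Subtype.ext e'.symm⟩
    rintro _ rfl
    rw [e', ← Function.comp_assoc, x2, Function.comp_assoc, Function.comp_assoc,
      ← Equiv.Perm.coe_mul, ← Equiv.Perm.coe_mul] at z4
    exact cancel T x1 (G.mul_mem hh hg) (G.mul_mem hg hh) z4

end Pool.Agent.MP_4f1c5b_al.H95
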