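import Pool.Agent.MP_4f1c5b_al.H95.SpecA

/-! The quotient of a torsor by a subgroup that commutes with a given element. -/

namespace Pool.Agent.MP_4f1c5b_al.H95

open Filter Set

namespace SpcA

theorem ncard_fib {α β : Type} {Y : Set α} (hY : Y.Finite) (f : α → β) (n : ℕ)
    (h : ∀ x ∈ Y, {x' ∈ Y | f x' = f x}.ncard = n) : Y.ncard = n * (f '' Y).ncard := by
  classical
  lift Y to Finset α using hY
  rw [← Finset.coe_image, ncard_coe_finset, ncard_coe_finset, Finset.card_eq_sum_card_image f,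
    Finset.sum_congr rfl (g := fun _ => n), Finset.sum_const, smul_eq_mul, mul_comm]
  intro b hb
  obtain ⟨x, hx, rfl⟩ := Finset.mem_image.1 hb
  rw [← h x hx, ← ncard_coe_finset, Finset.coe_filter]
  rfl

variable {ι : Type} [Fintype ι] {d : ℕ} (b : Fin d → ι) (P : Subgroup (Equiv.Perm ι)) [Fintype P]
  (N : ℕ)

/-- The centralizer. -/
abbrev Z : Subgroup (Equiv.Perm ι) := Subgroup.centralizer (P : Set (Equiv.Perm ι))

/-- The new coordinates. -/
abbrev Ix (d : ℕ) (P : Subgroup (Equiv.Perm ι)) (N : ℕ) : Type := Fin d ⊕ (Z P × (ι → Fin N))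

/-- The invariants of `P`. -/
def code {K : Type} [CommRing K] (x : ι → K) : Ix d P N → K :=
  Sum.elim (fun j => x (b j)) fun a => ∑ u : P, ∏ l, x (a.1.1 (u.1 l)) ^ (a.2 l : ℕ)

/-- The permutation of the new coordinates. -/
def tau (d : ℕ) (h : Z P) : Equiv.Perm (Ix d P N) :=
  Equiv.sumCongr (Equiv.refl _) (Equiv.prodCongr (Equiv.mulLeft h) (Equiv.refl _))

variable {b P N} {K K' : Type} [CommRing K] [CommRing K']

theorem code_h {h : Z P} (hb : ∀ j, h.1 (b j) = b j) (x : ι → K) :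
    code b P N (x ∘ h.1) = code b P N x ∘ tau P N d h := by
  funext a
  rcases a with j | a
  · exact congrArg x (hb j)
  · rfl

theorem code_P {v : Equiv.Perm ι} (hv : v ∈ P) (hb : ∀ j, v (b j) = b j) (x : ι → K) :
    code b P N (x ∘ v) = code b P N x := by
  funext a
  rcases a with j | a
  · exact congrArg x (hb j)
  · refine Fintype.sum_equiv (Equiv.mulLeft (⟨v, hv⟩ : P)) _ _ fun u => ?_
    refine Finset.prod_congr rfl fun l _ => ?_
    have := DFunLike.congr_fun (Subgroup.mem_centralizer_iff.1 a.1.2 v hv) (u.1 l)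
    exact congrArg (fun t => x t ^ (a.2 l : ℕ)) this

theorem code_map {F : Type} [FunLike F K K'] [RingHomClass F K K'] (s : F) (x : ι → K) :
    code b P N (s ∘ x) = s ∘ code b P N x := by
  funext a
  rcases a with j | a
  · rfl
  · simp [code, map_sum, map_prod]

theorem code_hom (u : UP) (S : Set (ι → ℂ)) :
    UT.Hom (u.v ι) (u.v (Ix d P N)) S (code b P N) fun _ => code b P N := fun a _ => by
  have e : (fun i => code b P N (a i)) = fun i t => code b P N (fun l i => a i l) t i :=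
    funext fun i => code_map (Pi.evalRingHom kk i) fun l i => a i l
  rw [e]
  exact (code_map u.π fun l i => a i l).symm

theorem count {G : Subgroup (Equiv.Perm ι)} {W : Set (ι → K)} (s : K ≃+* K) (hT : Tors b G W)
    (hP : P ≤ G) {h : Z P} (hh : h.1 ∈ G) (hs : MapsTo (s ∘ ·) W W)
    (sep : ∀ x ∈ W, ∀ x' ∈ W, code b P N x = code b P N x' → ∃ u ∈ P, x' = x ∘ u)
    (fin : ∀ g, (Fx s g W).Finite) :
    ∑ u : P, (Fx s (h.1 * u.1) W).ncard
      = Nat.card P * (Fx s (tau P N d h) (code b P N '' W)).ncard := by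
  have cP : ∀ v ∈ P, ∀ x : ι → K, code b P N (x ∘ v) = code b P N x := fun v hv =>
    code_P hv (hT.fix v (hP hv))
  have inj : ∀ x ∈ W, ∀ g ∈ G, ∀ g' ∈ G, x ∘ g = x ∘ g' → g = g' := fun x hx g hg g' hg' e => by
    refine mul_inv_eq_one.1 (hT.free _ (G.mul_mem hg (G.inv_mem hg')) x hx (funext fun l => ?_))
    simpa using congrFun e (g'⁻¹ l)
  rw [← finsum_eq_sum_of_fintype, ← ncard_iUnion_of_finite (fun u : P => fin _) fun u u' hne =>
    disjoint_left.2 fun x hx hx' => hne (Subtype.ext (mul_left_cancel (inj x hx.1 _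
      (G.mul_mem hh (hP u.2)) _ (G.mul_mem hh (hP u'.2)) (hx.2.symm.trans hx'.2)))),
    ncard_fib (finite_iUnion fun u : P => fin _) (code b P N) (Nat.card P)]
  · congr 2
    ext y
    constructor
    · rintro ⟨x, hx, rfl⟩
      obtain ⟨u, hu⟩ := mem_iUnion.1 hx
      refine ⟨⟨x, hu.1, rfl⟩, ?_⟩
      rw [← code_map, hu.2, ← code_h (hT.fix _ hh)]
      exact cP u.1 u.2 (x ∘ h.1)
    · rintro ⟨⟨x, hx, rfl⟩, e⟩
      rw [← code_map, ← code_h (hT.fix _ hh)] at e
      obtain ⟨u, hu, e'⟩ := sep _ (hT.inv _ hh x hx) _ (hs hx) e.symm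
      exact ⟨x, mem_iUnion.2 ⟨⟨u, hu⟩, hx, e'⟩, rfl⟩
  · intro x hx
    obtain ⟨u, hu⟩ := mem_iUnion.1 hx
    rw [← ncard_range_of_injective (f := fun v : P => x ∘ v.1) fun v v' e =>
      Subtype.ext (inj x hu.1 _ (hP v.2) _ (hP v'.2) e)]
    congr 1
    ext x'
    constructor
    · rintro ⟨hx', e⟩
      obtain ⟨u', hu'⟩ := mem_iUnion.1 hx'
      obtain ⟨v, hv, rfl⟩ := sep x hu.1 x' hu'.1 e.symm
      exact ⟨⟨v, hv⟩, rfl⟩
    · rintro ⟨v, rfl⟩
      refine ⟨mem_iUnion.2 ⟨v⁻¹ * u * v, hT.inv _ (hP v.2) x hu.1, funext fun l => ?_⟩,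
        cP v.1 v.2 x⟩
      have e := DFunLike.congr_fun (Subgroup.mem_centralizer_iff.1 h.2 v.1 v.2)
        (v.1⁻¹ (u.1 (v.1 l)))
      refine (congrFun hu.2 (v.1 l)).trans (congrArg x ?_)
      simpa using e.symm

end SpcA

open SpcA in
theorem spc (h1 : StmtSEP) (h2 : StmtGOOD) : StmtSPC := by
  intro c l d hSS ι _ b G S W hS hT hW P _ hP h hh hn hc
  have := Fintype.ofFinite ι
  have := c.cnt
  obtain ⟨N, hN⟩ := h1 ι P
  let z : Z P := ⟨h, Subgroup.mem_centralizer_iff.2 hc⟩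
  have sep : ∀ x x' : ι → ℂ, code b P N x = code b P N x' → ∃ u ∈ P, x' = x ∘ u :=
    fun x x' e => hN x x' fun m => congrFun e (Sum.inr (1, m))
  have hom := code_hom (b := b) (P := P) (N := N) c.u S
  have rep := hW.image hom
  have key := hSS (Ix d P N) Sum.inl (tau P N d z) (code b P N '' S) _ (fun _ => rfl)
    (h2 c.u c.E _ _ rep.int (by
      rintro θ hθ _ ⟨x, hx, rfl⟩
      exact ⟨θ ∘ x, hS.inv θ hθ x hx, code_map θ x⟩))
    (by
      rintro _ ⟨x, hx, rfl⟩
      exact ⟨x ∘ h, hT.inv h hh x hx, code_h (h := z) (hT.fix h hh) x⟩)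
    (by
      rintro _ ⟨x, hx, rfl⟩ e
      rw [← code_h (h := z) (hT.fix h hh)] at e
      obtain ⟨u, hu, e'⟩ := sep _ _ e
      have := hT.free (h * u) (G.mul_mem hh (hP hu)) x hx e'.symm
      exact hn (eq_inv_of_mul_eq_one_left this ▸ P.inv_mem hu))
    (fun y => by
      refine Finite.subset (Finite.image (code b P N) (s := {x ∈ S | x ∘ b = y}) ?_) ?_
      · rcases ({x ∈ S | x ∘ b = y}).eq_empty_or_nonempty with e | ⟨x₀, h0⟩
        · rw [e]; exact finite_empty
        · refine (finite_range fun g : Equiv.Perm ι => x₀ ∘ g).subset fun x hx => ?_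
          obtain ⟨g, -, e⟩ := hT.tr x₀ h0.1 x hx.1 (h0.2.trans hx.2.symm)
          exact ⟨g, e.symm⟩
      · rintro _ ⟨⟨x, hx, rfl⟩, e⟩
        exact ⟨x, ⟨hx, e⟩, rfl⟩)
    rep
  have sep' := (hW.prod hW).forall
    (P := fun _ x => code b P N x.1 = code b P N x.2 → ∃ u ∈ P, x.2 = x.1 ∘ u) fun a ha => by
      by_cases e : ∀ᶠ i in (uf : Filter ℕ), code b P N (a i).1 = code b P N (a i).2
      · have e1 := ((c.u.v (Ix d P N)).eq _ _).2 e
        rw [hom _ ha.1, hom _ ha.2] at e1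
        obtain ⟨u, hu, e'⟩ := sep _ _ e1
        exact (((c.u.v ι).eq (fun i => (a i).2) fun i => (a i).1 ∘ u).1 e').mono
          fun _ hi _ => ⟨u, hu, hi⟩
      · exact (ev_not.2 e).mono fun _ hi h => absurd h hi
  filter_upwards [key, sep', hT.ev hW, c.σ_inv hS.inv hW] with i k1 k2 k3 k4
  rw [count (h := z) (c.σ i) k3 hP hh k4 (fun x hx x' hx' => k2 (x, x') ⟨hx, hx'⟩)
    fun g => c.fx_finite i g _, mul_comm]
  exact Nat.mul_dvd_mul_left _ k1

end Pool.Agent.MP_4f1c5b_al.H95
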