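import Pool.Agent.MP_4f1c5b_al.H95.SpecB
import Pool.Agent.MP_cce4c9_lc.H7.All

/-! The tame Lefschetz formula modulo `l`. -/

set_option autoImplicit false

namespace Pool.Agent.MP_4f1c5b_al.H95

open WithZero Finsupp Module
open Pool.Agent.MP_cce4c9_lc.H87 Pool.Agent.MP_cce4c9_lc.H7
open scoped IntermediateField

namespace T1A

open Pool.Agent.MP_cce4c9_lc.H83 hiding ord rp_pl pl_ev pl_ne_io

open Classical in
theorem ordG (k K Ω : Type) [Field k] [IsAlgClosed k] [Field K] [Algebra k K]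
    [Field Ω] [IsAlgClosed Ω] [Algebra k Ω] [Algebra K Ω] [IsScalarTower k K Ω]
    (B : BCK k K Ω) (l p q : ℕ) [Fact l.Prime] [Fact p.Prime] [CharP k p] (ζ : k)
    (e : VV k K l →ₗ[ZMod l] VV k K l →ₗ[ZMod l] ZMod l) (x₀ x₁ : Place k K) (σ : SA k K)
    (φ : K →ₐ[k] K) (C : Coc B ζ e x₀) (L : IntermediateField K Ω) (dn : Place k L → Place k K)
    (hK : IsFF k K) (hlp : l ≠ p) (hζ : IsPrimitiveRoot ζ l) (hq : 0 < q)
    (hid : φ ≠ AlgHom.id k K)
    (htm : ∀ (x : Place k K) (s : K), σ • x = x → x.ord s = 1 → x.ord (φ s - s) = 1)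
    (hx : x₀ ≠ x₁) (hφ : IsGF q σ φ) (hL : IsCov k l p L) (hdn : ∀ y, Over y (dn y) 1)
    (hξ1 : (B.pl ((eta k K Ω).comp φ)).val C.Φ = 1) (hξ2 : (B.io x₁).val C.Φ = 1)
    (j : ℕ) (H : L) (hj : ((p ^ j : ℕ) : ZMod l) = 1)
    (hH : (H : Ω) = ((B.pl ((eta k K Ω).comp φ)).ev C.Φ / (B.io x₁).ev C.Φ) ^ p ^ j)
    (y : Place k L) : ((y.ord H : ℤ) : ZMod l) = (if σ • dn y = dn y then 1 else 0) -
      (if σ • dn y = x₀ then (q : ZMod l) else 0) - (if dn y = x₁ then 1 else 0) := by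
  have hp : (p : ZMod l) ≠ 0 := fun h => hlp ((Nat.prime_dvd_prime_iff_eq Fact.out Fact.out).1
    ((ZMod.natCast_eq_zero_iff _ _).1 h))
  have := hL.fd
  have hy : y.Res := res (hK.of_finite L) y
  have : IsScalarTower k L Ω := IsScalarTower.of_algebraMap_eq fun c => by
    rw [IsScalarTower.algebraMap_apply k K Ω, IsScalarTower.algebraMap_apply k K L]
    rfl
  obtain ⟨P, hP⟩ := exists_P (Ω := Ω) chev y hy
  obtain ⟨t, ht0, ht1, ht⟩ := exists_t hy hP
  obtain ⟨R⟩ := red k K Ω B.toBCD P hK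
  set x := dn y with hxy
  have hyx : ∀ h : K, y.val (algebraMap K L h) = x.val h := fun h => by
    rw [(hdn y).2 h, pow_one]
  have hK1 : ∀ h : K, x.val h ≤ 1 → algebraMap K Ω h ∈ P.O := fun h hh =>
    (hP (algebraMap K L h) (by rwa [hyx])).1
  have hK2 : ∀ (h : K) (n : ℤ), n ≠ 0 → x.ord h = n →
      Lg t p l (P.O.valuation (algebraMap K Ω h)) n := fun h n hn hh => by
    have h0 : h ≠ 0 := by
      rintro rfl
      exact hn (by simpa using hh.symm)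
    have h1 := ht (algebraMap K L h) (by simpa using h0)
    rw [← IsScalarTower.algebraMap_apply, Place.ord, hyx, ← Place.ord, hh] at h1
    rw [h1]
    exact Lg.base n
  have hφo : ∀ h : K, x.ord (φ h) = q * (σ • x).ord h := fun h => by
    rw [hφ h, x.ord_pow]; rfl
  have ra : R.rp (B.pl (eta k K Ω)) = x := rp_pl B R _ _ hK1
  have rb : ∀ z, R.rp (B.io z) = z := fun z => rp_io B R z (res hK z)
  have rξ : R.rp (B.pl ((eta k K Ω).comp φ)) = σ • x := rp_pl B R _ _ fun h hh =>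
    hK1 (φ h) (by rw [hφ h, map_pow]; exact pow_le_one' hh q)
  obtain ⟨a, ha⟩ := R.norm C.Φ C.ne
  have ha0 : a ≠ 0 := by
    rintro rfl
    simp at ha
  let Φ : R.G := ⟨algebraMap Ω B.F a * C.Φ, (R.G.valuation_le_one_iff _).1 ha.le⟩
  have hΦ : R.red Φ ≠ 0 := fun h => absurd ((R.ker Φ).1 h) (not_lt.2 ha.ge)
  have hv : ∀ w : Place Ω B.F, w.val (Φ : B.F) = w.val C.Φ := fun w => by
    show w.val (algebraMap Ω B.F a * C.Φ) = _
    rw [map_mul, w.triv a ha0, one_mul]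
  have hdv : dv Ω (Φ : B.F) = dv Ω C.Φ := by
    ext w
    rw [dv_apply (fins B.ff _), dv_apply (fins B.ff _), Place.ord, hv, Place.ord]
  have hev : ∀ w : Place Ω B.F, w.val C.Φ = 1 → w.ev (Φ : B.F) = a * w.ev C.Φ := fun w hw => by
    show w.ev (algebraMap Ω B.F a * C.Φ) = _
    rw [(res B.ff w).ev_mul (w.const_le a) hw.le, w.ev_const]
  have hLt : ∀ b ∈ L, b ≠ 0 → ∃ n : ℤ, P.O.valuation b = t ^ n := fun b hb h0 =>
    ⟨_, ht ⟨b, hb⟩ fun h => h0 (congrArg Subtype.val h)⟩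
  have hio : ∀ (z : Place k K) (s : K), z.ord s = 1 → (B.io z).ev (algebraMap K B.F s) = 0 :=
    fun z s hs => Place.ev_of_lt _ (by
      have h0 : s ≠ 0 := by
        rintro rfl
        simp at hs
      rw [B.io_val, z.val_lt_one (z.val_ne h0)]; omega)
  have hne : B.pl (eta k K Ω) ≠ B.pl ((eta k K Ω).comp φ) := fun h => hid <| AlgHom.ext fun π =>
    (algebraMap K Ω).injective
      ((pl_ev B (eta k K Ω) π).symm.trans (by rw [h]; exact pl_ev B _ π)).symm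
  have k1 := key B disc C hK hζ hL hp R ht0 hLt Φ hΦ hdv ((hv _).trans hξ1) hne
    (pl_ne_io B _ _).symm (fun τ => act_pl B _ _ fun h => τ.commutes (φ h)) (ca := 1) (cb := q)
    (fun s hs h => by
      rw [ra, rξ] at h
      rw [rξ] at hs
      rw [← h] at hs
      have h3 := hK2 (φ s - s) 1 one_ne_zero (htm x s h.symm hs)
      rw [pl_ev, pl_ev]
      rwa [map_sub, Int.cast_one] at h3)
    (fun s hs h => by
      rw [rb, rξ] at h
      rw [rξ] at hs
      have h3 := hK2 (φ s) q (by omega) (by rw [hφo, hs, mul_one])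
      rw [pl_ev, hio _ _ (h ▸ hs), sub_zero]
      rwa [Int.cast_natCast] at h3)
  have k2 := key B disc C hK hζ hL hp R ht0 hLt Φ hΦ hdv ((hv _).trans hξ2) (pl_ne_io B _ _)
    (fun h => hx (B.io_inj h)) (fun τ => act_io B _ _) (ca := 1) (cb := 0)
    (fun s hs h => by
      rw [ra, rb] at h
      rw [rb] at hs
      have h3 := hK2 s 1 one_ne_zero (h ▸ hs)
      rw [pl_ev, hio _ _ hs, zero_sub, Valuation.map_neg]
      rwa [Int.cast_one] at h3)
    (fun s _ h => absurd (by simpa only [rb] using h) hx)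
  have e1 := (res B.ff _).ev_ne_zero hξ1
  have e2 := (res B.ff _).ev_ne_zero hξ2
  have hH0 : H ≠ 0 := fun h => by
    rw [h, eq_comm] at hH
    exact pow_ne_zero _ (div_ne_zero e1 e2) hH
  have k3 := (k1.mul ht0 (k2.zpow (-1))).zpow (p ^ j : ℕ)
  have e3 : P.O.valuation (algebraMap L Ω H) =
      (P.O.valuation ((B.pl ((eta k K Ω).comp φ)).ev (Φ : B.F)) *
        P.O.valuation ((B.io x₁).ev (Φ : B.F)) ^ (-1 : ℤ)) ^ ((p ^ j : ℕ) : ℤ) := by
    rw [hev _ hξ1, hev _ hξ2, zpow_neg_one, ← div_eq_mul_inv, ← map_div₀,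
      mul_div_mul_left _ _ ha0, zpow_natCast, ← map_pow, ← hH]
    rfl
  rw [← e3, ht H hH0, Int.cast_natCast, hj, one_mul, ra, rb, rb, rξ] at k3
  rw [(Lg.base _).uniq ht0 ht1 hp k3]
  simp only [ite_self, sub_zero, Int.cast_neg, Int.cast_one, neg_one_mul,
    eq_comm (a := x) (b := σ • x), eq_comm (a := x₀) (b := σ • x)]
  ring

theorem t0G (k K : Type) [Field k] [IsAlgClosed k] [Field K] [Algebra k K]
    (l p : ℕ) [Fact l.Prime] [Fact p.Prime] [CharP k p] (hK : IsFF k K) (hlp : l ≠ p)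
    (q : ℕ) (σ : SA k K) (φ : K →ₐ[k] K) (hq : 0 < q) (hid : φ ≠ AlgHom.id k K)
    (htm : ∀ (x : Place k K) (s : K), σ • x = x → x.ord s = 1 → x.ord (φ s - s) = 1)
    (hφ : IsGF q σ φ) : {x : Place k K | σ • x = x}.Finite ∧
      (({x : Place k K | σ • x = x}.ncard : ℕ) : ZMod l) = 1 + (q : ZMod l) -
        (q : ZMod l) * LinearMap.trace (ZMod l) (VV k K l) (actV l σ⁻¹) := by
  classical
  have hl : l.Prime := Fact.out
  have hp : p.Prime := Fact.out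
  have hlk : (l : k) ≠ 0 := fun h =>
    hlp ((Nat.prime_dvd_prime_iff_eq hp hl).1 ((CharP.cast_eq_zero_iff k p l).1 h)).symm
  have : NeZero (l : k) := ⟨hlk⟩
  obtain ⟨ζ, hζ⟩ := HasEnoughRootsOfUnity.exists_primitiveRoot k l
  have hζ1 := hζ.pow_eq_one
  let Ω := AlgebraicClosure K
  obtain ⟨B⟩ := bck k K Ω hK
  obtain ⟨e, he⟩ := (wp k K l hK).2 ζ hζ
  have := (ll k K hK).2.2.2
  obtain ⟨x₀, x₁, hx⟩ := exists_pair_ne (Place k K)
  obtain ⟨C₀⟩ := coc k K Ω B l x₀ hK hlk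
  have hkum := kum k K Ω B l ζ e x₀ C₀ hK hζ he
  obtain ⟨hsurj, hfin, hnd⟩ := perf k K Ω l ζ e C₀.c hK hζ he.1 hkum C₀.finr
  obtain ⟨C, hC0, hC1⟩ := adj k K Ω B l ζ e x₀ x₁ φ hK hx hid
    ⟨C₀, hkum, hsurj, hfin, hnd⟩
  obtain ⟨L, hL⟩ := cov k K Ω l p hK hlp hfin
  have := hL.fd
  have := hL.gal
  obtain ⟨dn, ed, hdn, hfib⟩ := ext k K L hK
  have hdn1 : ∀ y, Over y (dn y) 1 := fun y =>
    (gal k K L hK).2.1 hL.free y _ _ (hdn y) ▸ hdn y
  have hdns : Function.Surjective dn := fun x => by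
    obtain ⟨S, hS, hs⟩ := hfib x
    rcases S.eq_empty_or_nonempty with rfl | ⟨y, hy⟩
    · exact absurd hs.symm (by simpa using (finrank_pos (R := K) (M := L)).ne')
    · exact ⟨y, (hS y).1 hy⟩
  let A : VV k K l →ₗ[ZMod l] VV k K l := (q : ZMod l) • actV l σ⁻¹
  have hA : ∀ (f : Kˣ) (D : Dv k K) (u : VV k K l), Rep f D u →
      ∃ D', Rep (Units.map (φ : K →* K) f) D' (A u) := fun f D u hf => by
    have h1 := (hf.act hK σ⁻¹).pow hK q
    rw [← Nat.cast_smul_eq_nsmul (ZMod l)] at h1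
    have h2 : Units.map (φ : K →* K) f = Units.map (σ⁻¹).1.toRingHom.toMonoidHom f ^ q :=
      Units.ext (hφ f)
    exact ⟨_, h2 ▸ h1⟩
  obtain ⟨j, H, w, c', hj, hH, hc', hw, hω⟩ :=
    dat k K Ω B l p ζ e x₀ x₁ φ A C L hK hlp hζ hL hA hC0 hC1
  have hord := ordG k K Ω B l p q ζ e x₀ x₁ σ φ C L dn hK hlp hζ hq hid htm hx hφ hL hdn1 hC0 hC1
    j H hj hH
  have hH0 : H ≠ 0 := fun h0 => by
    rw [h0] at hH
    exact pow_ne_zero _ (div_ne_zero ((res B.ff _).ev_ne_zero hC0) ((res B.ff _).ev_ne_zero hC1))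
      hH.symm
  have hFix : {x : Place k K | σ • x = x}.Finite := by
    refine (((fins (hK.of_finite L) H).image dn).union
      (Set.toFinite {σ⁻¹ • x₀, x₁})).subset fun x hx1 => ?_
    obtain ⟨y, rfl⟩ := hdns x
    by_contra hn
    simp only [Set.mem_union, Set.mem_insert_iff, Set.mem_singleton_iff, not_or] at hn
    have h1 := hord y
    rw [if_pos (show σ • dn y = dn y from hx1), if_neg (fun h => hn.2.1 (by rw [← h, inv_smul_smul])),
      if_neg hn.2.2] at h1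
    refine hn.1 ⟨y, fun h0 => ?_, rfl⟩
    have h0' : y.ord H = 0 := h0
    simp [h0'] at h1
  refine ⟨hFix, ?_⟩
  let Bπ : Dv k K := ∑ x ∈ hFix.toFinset, single x 1 - single (σ⁻¹ • x₀) (q : ℤ) - single x₁ 1
  have hD : Dat ζ dn H w (fun γ δ => e (c' γ) (A (c' δ)) - e (c' δ) (A (c' γ)))
      (fun x => (Bπ x : ZMod l)) := by
    refine ⟨hH0, hw, hω, fun y => ?_⟩
    rw [hord y]
    simp only [Bπ, Finsupp.sub_apply, Finsupp.finsetSum_apply, single_apply, Finset.sum_ite_eq',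
      Set.Finite.mem_toFinset, Set.mem_ofPred_eq, inv_smul_eq_iff, eq_comm (a := x₀),
      eq_comm (a := x₁)]
    push_cast
    rfl
  obtain ⟨n, v, b, hvb, htr⟩ := exists_dual e he.1 C.nd A
  have hroot : ∀ u : VV k K l, ∃ (f : Kˣ) (D : Dv k K) (α : L), Rep f D u ∧
      α ^ l = algebraMap K L f ∧
      ∀ γ : L ≃ₐ[K] L, γ α = algebraMap k L (ζ ^ (e (c' γ) u).val) * α := fun u => by
    obtain ⟨f, D, hf⟩ := exists_rep hK u
    obtain ⟨r, hr⟩ := IsAlgClosed.exists_pow_nat_eq (algebraMap K Ω f) hl.pos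
    refine ⟨f, D, ⟨r, hL.mem f r f.ne_zero (hf.dvd hK) hr⟩, hf, Subtype.ext hr, fun γ => ?_⟩
    obtain ⟨τ, hτ⟩ := hL.lift γ
    apply Subtype.ext
    rw [← hτ, hc' τ γ hτ]
    exact C.kum τ f D u r hf hr
  choose f D α hf hα hγ using hroot
  choose H' w' B' hD' hB' using fun i => mab k K L l ζ e dn hK hζ he hdn1 _ _ _ _ (b i) (v i) _ _
    (fun γ => e (c' γ) (b i)) (fun γ => e (c' γ) (v i)) (hf _) (hf _) (hα _) (hα _) (hγ _) (hγ _)
  have h1 := hD.mul hζ1 (Dat.prod hζ1 Finset.univ hD')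
  have h2 := th k K L l ζ dn hK hζ hdn1 hdns hL.comm hL.pow _ _ (Bπ + ∑ i, B' i) (by
    convert h1 using 3 with γ δ x
    · rw [hvb, hvb]
      simp only [map_sum, map_smul, smul_eq_mul, Finset.sum_sub_distrib]
      ring
    · simp)
  rw [← smul_eq_mul, ← map_smul, htr, Set.ncard_eq_toFinset_card _ hFix]
  simp only [Bπ, map_add, map_sub, map_sum, degree_single, Finset.sum_const] at h2
  push_cast at h2
  simp only [hB', fun i => (he.1 (v i) (b i)).symm] at h2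
  rw [nsmul_eq_mul, mul_one, Int.cast_natCast] at h2
  linear_combination h2

end T1A

theorem t1 (h : StmtTAME) : StmtT1 := by
  intro k K _ _ _ _ l p _ _ _ hK hlp r g hc h1 hr hpr
  have hc' : ∀ c, (g⁻¹).1 (algebraMap k K c) = algebraMap k K c := fun c => by
    conv_lhs => rw [← hc c]
    exact g.1.symm_apply_apply _
  let φ : K →ₐ[k] K := { (g⁻¹).1.toRingHom with commutes' := hc' }
  have hid : φ ≠ AlgHom.id k K := fun e => h1 <| inv_eq_one.1 <| Subtype.ext <|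
    RingEquiv.ext fun a => DFunLike.congr_fun e a
  have hrk : (r : k) ≠ 0 := fun e => hpr ((CharP.cast_eq_zero_iff k p r).1 e)
  obtain ⟨e1, e2⟩ := T1A.t0G k K l p hK hlp 1 g φ one_pos hid
    (fun x s hx hs => h k K hK r g⁻¹ hc' (inv_ne_one.2 h1) (by rw [inv_pow, hr, inv_one]) hrk x s
      (inv_smul_eq_iff.2 hx.symm) hs) fun a => (pow_one _).symm
  refine ⟨e1, ?_⟩
  rw [e2, Nat.cast_one, one_mul, one_add_one_eq_two]

theorem vfin : StmtVFIN := by
  intro k K _ _ _ _ l _ hK hlk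
  have : NeZero (l : k) := ⟨hlk⟩
  obtain ⟨ζ, hζ⟩ := HasEnoughRootsOfUnity.exists_primitiveRoot k l
  let Ω := AlgebraicClosure K
  obtain ⟨B⟩ := bck k K Ω hK
  obtain ⟨e, he⟩ := (wp k K l hK).2 ζ hζ
  have := (ll k K hK).2.2.2
  obtain ⟨x₀, x₁, -⟩ := exists_pair_ne (Place k K)
  obtain ⟨C₀⟩ := coc k K Ω B l x₀ hK hlk
  obtain ⟨-, hfin, -⟩ :=
    perf k K Ω l ζ e C₀.c hK hζ he.1 (kum k K Ω B l ζ e x₀ C₀ hK hζ he) C₀.finr
  exact Module.finite_of_finite (ZMod l)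

end Pool.Agent.MP_4f1c5b_al.H95
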