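import Pool.Agent.MP_4f1c5b_al.H95.SpecB

/-!
The Lefschetz formula modulo `l` in characteristic zero, by transfer from large characteristic,
and its consequence for free automorphisms.
-/

namespace Pool.Agent.MP_4f1c5b_al.H95

open Filter Set WithZero Polynomial Module
open Pool.Agent.MP_cce4c9_lc.H87 Pool.Agent.MP_cce4c9_lc.H7
open scoped IntermediateField

namespace T10A

variable {k K : Type} [Field k] [Field K] [Algebra k K]

theorem fix_fin [IsAlgClosed k] (hK : IsFF k K) {g : SA k K}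
    (hc : ∀ c, g.1 (algebraMap k K c) = algebraMap k K c) (h1 : g ≠ 1) :
    {v : Place k K | g • v = v}.Finite := by
  obtain ⟨h, hh⟩ : ∃ h, g.1 h ≠ h := by
    by_contra hn
    exact h1 (Subtype.ext (RingEquiv.ext fun x => not_not.1 fun e => hn ⟨x, e⟩))
  refine ((fins hK h).union (fins hK (g.1 h - h))).subset fun v hv => ?_
  have hv' : g • v = v := hv
  by_cases h0 : v.ord h = 0
  · right
    have h2 : v.val h ≤ 1 := by
      by_cases e : h = 0
      · simp [e]
      · exact ((v.val_one_iff (v.val_ne e)).2 h0).le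
    have h3 := ev_spec hK v h2
    have h4 : v.val (g.1 h - algebraMap k K (v.ev h)) < 1 := by
      have := smul_val_apply g v (h - algebraMap k K (v.ev h))
      rw [hv', map_sub, hc] at this
      exact this.trans_lt h3
    have h5 : v.val (g.1 h - h) < 1 := by
      have := v.val.map_sub (g.1 h - algebraMap k K (v.ev h)) (h - algebraMap k K (v.ev h))
      rw [sub_sub_sub_cancel_right] at this
      exact this.trans_lt (max_lt h4 h3)
    exact ((v.val_lt_one (v.val_ne (sub_ne_zero.2 hh))).1 h5).ne'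
  · exact Or.inl h0

theorem eq_one {S : Set K} (hS : IntermediateField.adjoin k S = ⊤) {g : SA k K}
    (hc : ∀ c, g.1 (algebraMap k K c) = algebraMap k K c) (h : ∀ x ∈ S, g.1 x = x) : g = 1 := by
  refine Subtype.ext (RingEquiv.ext fun x => ?_)
  show g.1 x = x
  have hx : x ∈ IntermediateField.adjoin k S := hS ▸ trivial
  induction hx using IntermediateField.adjoin_induction with
  | mem x hx => exact h x hx
  | algebraMap c => exact hc c
  | add x y _ _ hx hy => rw [map_add, hx, hy]
  | inv x _ hx => rw [map_inv₀, hx]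
  | mul x y _ _ hx hy => rw [map_mul, hx, hy]

theorem pow_const {g : SA k K} (hc : ∀ c, g.1 (algebraMap k K c) = algebraMap k K c) (n : ℕ)
    (c : k) : (g ^ n).1 (algebraMap k K c) = algebraMap k K c := by
  induction n with
  | zero => rfl
  | succ n ih =>
    rw [pow_succ]
    exact (congrArg (g ^ n).1 (hc c)).trans ih

end T10A

open T10A

theorem t10 (hPK : StmtPK) (h1 : StmtT1) : StmtT10 := by
  intro F _ _ t l _ u ht hf r g hc hg hne hr hgr
  obtain ⟨M, ⟨P⟩, hA, hT⟩ := hPK u F t l ht hf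
  obtain ⟨g', H, hc'⟩ := hA (fun _ => 1) 1 g u.ind_one hc hg
  have hF : IsFF ℂ F := ⟨t, ht, hf⟩
  have e1 := (P.fix H P.T.rep_univ).ncard_eq ((fix_fin hF hc hne).subset fun v hv => hv.2)
  have hp := H.pow r
  rw [hgr] at hp
  have e2 := (M.eq_iff (hp _ _ M.ht) M.ht).1 rfl
  have e3 := (M.eq_iff (hp _ _ M.hθ) M.hθ).1 rfl
  have e4 : ∀ᶠ i in (uf : Filter ℕ), ¬ (g' i).1 (M.θ' i) = M.θ' i := ev_not.2 fun e => hne <|
    eq_one M.gen hc fun x hx => by
      rcases hx with rfl | rfl
      · exact hg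
      · exact (M.eq_iff (H _ _ M.hθ) M.hθ).2 e
  obtain ⟨i, a1, a2, a3, a4, a5, a6, a7, a8, a9⟩ := (e1.and (e2.and (e3.and (e4.and (hc'.and
    (M.pres.and ((ev_pr (r + 1)).and ((ev_pr (l + 1)).and (hT _ _ H.inv))))))))).exists
  have b1 : g' i ^ r = 1 := eq_one a6.2.1 (pow_const a5 r) fun x hx => by
    rcases hx with rfl | rfl
    · exact a2
    · exact a3
  have b2 : g' i ≠ 1 := fun e => a4 (by rw [e]; rfl)
  have b3 := (h1 (kk i) (M.K i) l (pr i) (M.ff i) (by omega) r (g' i) a5 b2 b1
    fun e => by have := Nat.le_of_dvd hr e; omega).2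
  simp only [mem_univ, true_and] at a1
  rw [← a1.2, b3, ← a9]
  rfl

theorem psi0 (h : StmtT10) (hP : StmtPTS) : StmtPSI := by
  intro ι F _ _ _ X b0 l _ T τ g u hX hT hG hτ hL hfree
  obtain ⟨-, p2, p3, -⟩ := hP ι F X b0 hX
  have hr : g ^ orderOf τ = 1 := by
    have := hL.pow (orderOf τ)
    rw [pow_orderOf_eq_one, one_pow] at this
    exact this.uniq hX Lf.one
  have hne : g ≠ 1 := by
    rintro rfl
    obtain ⟨z, hz, hz'⟩ := (p3 T hT).2
    refine hfree z hz hz' (funext fun j => ?_)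
    have := hz (MvPolynomial.X (τ j) - MvPolynomial.X j) (by
      rw [map_sub, MvPolynomial.aeval_X, MvPolynomial.aeval_X, ← hL.2 j]
      exact sub_self _)
    rw [map_sub, MvPolynomial.eval_X, MvPolynomial.eval_X] at this
    exact sub_eq_zero.1 this
  have hb : {v ∈ bd (X b0) T | g • v = v} = {v | g • v = v} := by
    refine Subset.antisymm (fun v hv => hv.2) fun v hv => ⟨fun c hc hv' => ?_, hv⟩
    have hv1 : g • v = v := hv
    have h2 := (hG c hc).1 v hv'
    refine hfree (fun j => v.ev (X j)) ((p2 _).2 ⟨v, fun j => ev_spec hX.ff v (h2 j)⟩)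
      (by rwa [v.ev_eq hv']) (funext fun j => ?_)
    have := hL.ev hX v (h2 j)
    rwa [hv1] at this
  rw [psi, hb, h F (X b0) l u hX.2.1 hX.2.2 (orderOf τ) g hL.1 ((hL.2 b0).trans (by rw [hτ])) hne
    (orderOf_pos τ) hr, sub_self]

end Pool.Agent.MP_4f1c5b_al.H95
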