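import Pool.Agent.MP_4f1c5b_al.H95.SpecB

/-!
A tame automorphism moves a uniformizer at a fixed place to first order.
-/

namespace Pool.Agent.MP_4f1c5b_al.H95

open Filter Set WithZero Polynomial Module
open Pool.Agent.MP_cce4c9_lc.H87 Pool.Agent.MP_cce4c9_lc.H7

namespace TameA

variable {k K : Type} [Field k] [Field K] [Algebra k K]

theorem le_of_lt_one {a : ℤᵐ⁰} (h : a < 1) : a ≤ exp (-1 : ℤ) := by
  by_cases h0 : a = 0
  · rw [h0]; exact zero_le
  · rw [← exp_log h0, ← exp_zero, exp_lt_exp] at h
    rw [← exp_log h0, exp_le_exp]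
    omega

theorem fix_all (x : Place k K) (hr : x.Res) (g : K ≃+* K)
    (hc : ∀ c, g (algebraMap k K c) = algebraMap k K c) (hv : ∀ h, x.val (g h) = x.val h)
    {s : K} (hs : x.val s = exp (-1 : ℤ)) (hg : g s = s) (h : K) : g h = h := by
  have hs0 : s ≠ 0 := by
    rintro rfl
    rw [map_zero] at hs
    exact exp_ne_zero hs.symm
  have key : ∀ N : ℕ, ∀ h, x.val h ≤ 1 → x.val (g h - h) ≤ exp (-N : ℤ) := by
    intro N
    induction N with
    | zero =>
      intro h hh
      simpa using x.val.map_sub_le ((hv h).le.trans hh) hh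
    | succ N ih =>
      intro h hh
      obtain ⟨c, hc'⟩ := hr h hh
      have h1 : x.val ((h - algebraMap k K c) / s) ≤ 1 := by
        rw [map_div₀, hs, div_le_one₀ exp_pos]
        exact le_of_lt_one hc'
      have e : g h - h = s * (g ((h - algebraMap k K c) / s) - (h - algebraMap k K c) / s) := by
        rw [map_div₀, map_sub, hc, hg]
        field_simp
        ring
      rw [e, map_mul, hs]
      refine (mul_le_mul_right (ih _ h1) _).trans (le_of_eq ?_)
      rw [← exp_add]
      congr 1
      push_cast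
      ring
  have reg : ∀ h, x.val h ≤ 1 → g h = h := by
    intro h hh
    by_contra hn
    have h0 := x.val_ne (sub_ne_zero.2 hn)
    have := (x.val_le_exp h0 _).1 (key ((x.ord (g h - h)).toNat + 1) h hh)
    omega
  rcases le_total (x.val h) 1 with hh | hh
  · exact reg h hh
  · have := reg h⁻¹ (by rw [map_inv₀]; exact inv_le_one_of_one_le₀ hh)
    rwa [map_inv₀, inv_inj] at this

end TameA

open TameA in
theorem tame : StmtTAME := by
  intro k K _ _ _ _ hK r g hc hg1 hr hr0 x s hx hs
  have hv : ∀ h, x.val (g.1 h) = x.val h := fun h => by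
    have := smul_val_apply g x h
    rwa [hx] at this
  have hs1 : x.val s = exp (-1 : ℤ) := by
    have h0 : x.val s ≠ 0 := fun h => by
      rw [x.ord_of_val_zero h] at hs
      exact zero_ne_one hs
    rw [x.val_eq h0, hs]
  by_contra hn
  have h1 : x.val (g.1 s - s) < exp (-1 : ℤ) :=
    lt_of_le_of_ne (x.val.map_sub_le ((hv s).trans hs1).le hs1.le) fun e => hn (x.ord_eq e)
  have h2 : ∀ j : ℕ, x.val ((g ^ j).1 s - s) < exp (-1 : ℤ) := by
    intro j
    induction j with
    | zero =>
      rw [pow_zero, show (1 : SA k K).1 s = s from rfl, sub_self, map_zero]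
      exact exp_pos
    | succ j ih =>
      have e : (g ^ (j + 1)).1 s - s = g.1 ((g ^ j).1 s - s) + (g.1 s - s) := by
        rw [pow_succ', map_sub, show (g * g ^ j).1 s = g.1 ((g ^ j).1 s) from rfl]
        ring
      rw [e]
      exact x.val.map_add_lt (by rwa [hv]) h1
  have h3 : x.val (∑ j ∈ Finset.range r, (g ^ j).1 s) = exp (-1 : ℤ) := by
    have e : ∑ j ∈ Finset.range r, (g ^ j).1 s =
        algebraMap k K r * s + ∑ j ∈ Finset.range r, ((g ^ j).1 s - s) := by
      rw [Finset.sum_sub_distrib, map_natCast]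
      simp
    have e1 : x.val (algebraMap k K r * s) = exp (-1 : ℤ) := by
      rw [map_mul, x.triv _ hr0, one_mul, hs1]
    rw [e, x.val.map_add_eq_of_lt_left, e1]
    rw [e1]
    exact x.val.map_sum_lt exp_ne_zero fun j _ => h2 j
  have h4 : g.1 (∑ j ∈ Finset.range r, (g ^ j).1 s) = ∑ j ∈ Finset.range r, (g ^ j).1 s := by
    have a := Finset.sum_range_succ (fun j => (g ^ j).1 s) r
    have b := Finset.sum_range_succ' (fun j => (g ^ j).1 s) r
    rw [a, hr, pow_zero, add_left_inj] at b
    rw [map_sum, b]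
    refine Finset.sum_congr rfl fun j _ => ?_
    rw [pow_succ']
    rfl
  exact hg1 (Subtype.ext (RingEquiv.ext (fix_all x (res hK x) g.1 hc hv h3 h4)))

end Pool.Agent.MP_4f1c5b_al.H95
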