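import Pool.Agent.MP_4f1c5b_al.H95.SpecA

/-! Orbit counting, and elements of order divisible by `l`. -/

namespace Pool.Agent.MP_4f1c5b_al.H95

open Filter Set

namespace TrickA

theorem perm {α : Type} [Finite α] (σ : Equiv.Perm α) (d : ℕ)
    (h : ∀ x, d ∣ Function.minimalPeriod σ x) : d ∣ Nat.card α := by
  classical
  have := Fintype.ofFinite α
  rw [Nat.card_congr (MulAction.selfEquivSigmaOrbits (Subgroup.zpowers σ) α), Nat.card_sigma]
  refine Finset.dvd_sum fun ω _ => ?_
  rw [Nat.card_eq_fintype_card, ← MulAction.minimalPeriod_eq_card]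
  exact h _

theorem arith {l m n P : ℕ} (h : l ^ m ∣ n) (H : ∀ j, P ∣ n * j → l ∣ j) :
    l ^ (m + 1) ∣ P := by
  obtain ⟨a, b, c, e, e'⟩ := Nat.exists_coprime P n
  generalize P.gcd n = g at e e'
  subst e e'
  have k : l ∣ a := H a ⟨b, by ring⟩
  rw [pow_succ']
  exact mul_dvd_mul k (((c.coprime_dvd_left k).pow_left m).dvd_of_dvd_mul_left h)

end TrickA

theorem trick : StmtTRICK := by
  intro Y X φ l m n hX _ hm hi hn H
  have := hX.to_subtype
  let σ := Equiv.ofBijective _ (Finite.injective_iff_bijective.1 (hm.restrict_inj.2 hi))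
  rw [← Nat.card_coe_set_eq]
  refine TrickA.perm σ _ fun x => TrickA.arith hn fun j hj => H x x.2 j ?_
  have e : (hm.restrict φ X X)^[n * j] x = x := Function.isPeriodicPt_iff_minimalPeriod_dvd.2 hj
  rw [hm.iterate_restrict] at e
  exact congrArg Subtype.val e

theorem spa (h : StmtTRICK) : StmtSPA := by
  intro c l d ι _ b G S W hl hS hT hR g hg ho m
  filter_upwards [hT.ev hR, c.φ_inv hS.inv hR, ev_ge (l ^ m)] with i t f e
  refine (pow_dvd_pow l m.le_succ).trans (h _ _ (fr i (c.a i) ∘ ·) l m i.factorial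
    (c.fx_finite i g _) hl (fun x hx => ⟨f hx.1, funext fun p => ?_⟩)
    (fun _ _ _ _ q => (fr i _).injective.comp_left q)
    (Nat.dvd_factorial (pow_pos hl.pos m) e) fun x hx j q => ?_)
  · exact (fr_comm i _ _ _).trans (congrArg _ (congrFun hx.2 p))
  · have k1 : ∀ n, (fr i (c.a i) ∘ ·)^[n] x = (fr i (c.a i))^[n] ∘ x := fun n => by
      induction n with
      | zero => rfl
      | succ n ih => rw [Function.iterate_succ_apply', ih, Function.iterate_succ']; rfl
    have k2 : ∀ n p, (c.σ i)^[n] (x p) = x ((g ^ n) p) := fun n => by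
      induction n with
      | zero => exact fun _ => rfl
      | succ n ih =>
        intro p
        rw [Function.iterate_succ_apply', ih, pow_succ']
        exact congrFun hx.2 _
    refine ho.trans (orderOf_dvd_of_pow_eq_one (t.free _ (G.pow_mem hg j) x hx.1 (funext fun p => ?_)))
    rw [k1] at q
    refine (k2 j p).symm.trans (Eq.trans ?_ (congrFun q p))
    rw [Function.comp_apply, fr_iter, ← mul_assoc]
    exact fr_iter _ _ _ _

end Pool.Agent.MP_4f1c5b_al.H95
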