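import Pool.Agent.MP_4f1c5b_al.H95.SpecA

/-! Torsors: the sum of a function of the Frobenius class. -/

namespace Pool.Agent.MP_4f1c5b_al.H95

open Filter Set

namespace TsA

variable {K ι R : Type} {d : ℕ} {b : Fin d → ι} {G : Subgroup (Equiv.Perm ι)} {W : Set (ι → K)}
  {s : K → K}

theorem comp_b (h : Tors b G W) {g : Equiv.Perm ι} (hg : g ∈ G) (x : ι → K) :
    (x ∘ g) ∘ b = x ∘ b := funext fun j => congrArg x (h.fix g hg j)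

theorem sub_of_meet (h : Tors b G W) {g g' : Equiv.Perm ι} (hg : g ∈ G) (hg' : g' ∈ G)
    (hm : ¬ Disjoint ((· ∘ b) '' Fx s g W) ((· ∘ b) '' Fx s g' W)) :
    (· ∘ b) '' Fx s g W ⊆ (· ∘ b) '' Fx s g' W := by
  obtain ⟨_, ⟨x, hx, rfl⟩, x', hx', e⟩ := not_disjoint_iff.1 hm
  obtain ⟨u, hu, rfl⟩ := h.tr x hx.1 x' hx'.1 e.symm
  have e1 : g * u * (u * g')⁻¹ = 1 := by
    refine h.free _ (G.mul_mem (G.mul_mem hg hu) (G.inv_mem (G.mul_mem hu hg'))) x hx.1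
      (funext fun l => ?_)
    have e2 := (congrFun hx.2 (u ((u * g')⁻¹ l))).symm.trans (congrFun hx'.2 ((u * g')⁻¹ l))
    exact e2.trans (congrArg x ((u * g').apply_symm_apply l))
  rintro _ ⟨z, hz, rfl⟩
  refine ⟨z ∘ u, ⟨h.inv u hu z hz.1, funext fun l => ?_⟩, comp_b h hu z⟩
  exact (congrFun hz.2 (u l)).trans (congrArg z (DFunLike.congr_fun (mul_inv_eq_one.1 e1) l))

theorem core [Finite ι] [CommRing R] (h : Tors b G W) (hs : MapsTo (s ∘ ·) W W)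
    (hY : (Fx s 1 ((· ∘ b) '' W)).Finite) {f : (Fin d → K) → R} {Ψ : Equiv.Perm ι → R}
    (hf : ∀ g ∈ G, ∀ x ∈ Fx s g W, f (x ∘ b) = Ψ g)
    (h0 : ∀ g ∈ G, (((· ∘ b) '' Fx s g W).ncard : R) * Ψ g = 0) :
    ∑ᶠ y ∈ Fx s 1 ((· ∘ b) '' W), f y = 0 := by
  have e : Fx s 1 ((· ∘ b) '' W) = ⋃₀ ((fun g => (· ∘ b) '' Fx s g W) '' G) := by
    refine Subset.antisymm ?_ ?_
    · rintro _ ⟨⟨x, hx, rfl⟩, h1⟩
      obtain ⟨g, hg, h2⟩ := h.tr x hx _ (hs hx) h1.symm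
      exact ⟨_, ⟨g, hg, rfl⟩, x, ⟨hx, h2⟩, rfl⟩
    · rintro _ ⟨_, ⟨g, hg, rfl⟩, x, hx, rfl⟩
      exact ⟨⟨x, hx.1, rfl⟩, (congrArg (· ∘ b) hx.2).trans (comp_b h hg x)⟩
  have hfin : ∀ Z ∈ (fun g => (· ∘ b) '' Fx s g W) '' G, Z.Finite := fun Z hZ =>
    hY.subset (e ▸ subset_sUnion_of_mem hZ)
  rw [e, finsum_mem_sUnion _ ((toFinite _).image _) hfin]
  · refine finsum_mem_eq_zero_of_forall_eq_zero ?_
    rintro _ ⟨g, hg, rfl⟩
    have hZ := hfin _ ⟨g, hg, rfl⟩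
    rw [finsum_mem_eq_finite_toFinset_sum _ hZ, Finset.sum_congr rfl (g := fun _ => Ψ g),
      Finset.sum_const, nsmul_eq_mul, ← ncard_eq_toFinset_card _ hZ, h0 g hg]
    intro y hy
    obtain ⟨x, hx, rfl⟩ := hZ.mem_toFinset.1 hy
    exact hf g hg x hx
  · rintro _ ⟨g, hg, rfl⟩ _ ⟨g', hg', rfl⟩ hne
    by_contra hm
    exact hne ((sub_of_meet h hg hg' hm).antisymm (sub_of_meet h hg' hg fun hd => hm hd.symm))

end TsA

theorem ts : StmtTS := by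
  intro c l d hP ι _ b G S W f Ψ hS hT hW h1 hf
  have h2 : ∀ᶠ i in (uf : Filter ℕ), ∀ g : G,
      (((· ∘ b) '' Fx (c.σ i) g.1 (W i)).ncard : ZMod l) * Ψ g.1 = 0 := by
    refine eventually_all.2 fun g => ?_
    by_cases e : g.1 = 1
    · exact Eventually.of_forall fun _ => by rw [e, h1, mul_zero]
    · exact (hP ι b G S W hS hT hW g.1 g.2 e).mono fun _ hi => by
        rw [(ZMod.natCast_eq_zero_iff _ _).2 hi, zero_mul]
  filter_upwards [hT.ev hW, c.σ_inv hS.inv hW, hf, h2] with i a1 a2 a3 a4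
  exact TsA.core a1 a2 (c.fx_finite i 1 _) a3 fun g hg => a4 ⟨g, hg⟩

end Pool.Agent.MP_4f1c5b_al.H95
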