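import Pool.Agent.MP_4f1c5b_al.H95.SpecA

/-!
Existence of the ultraproduct, compatibly with a ring of integers.
-/

namespace Pool.Agent.MP_4f1c5b_al.H95

open Filter Set NumberField Cardinal Polynomial

namespace UexA

theorem inj {k K : Type} [Field k] [NumberField k] [Field K] [CharZero K] (f : 𝓞 k →+* K) :
    Function.Injective f := by
  refine (injective_iff_map_eq_zero f).2 fun a ha => by_contra fun h => ?_
  obtain ⟨r, h1, c, h2⟩ := (Algebra.IsAlgebraic.isAlgebraic (R := ℤ) a).exists_nonzero_dvd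
    (mem_nonZeroDivisors_of_ne_zero h)
  have h3 := congrArg f h2
  rw [map_mul, ha, zero_mul, eq_intCast, map_intCast, Int.cast_eq_zero] at h3
  exact h1 h3

theorem lam (k : Type) [Field k] [NumberField k] (i : ℕ) : Nonempty (𝓞 k →+* kk i) := by
  have hp : (pr i).Prime := Fact.out
  have : (Ideal.span {(pr i : ℤ)}).IsMaximal :=
    PrincipalIdealRing.isMaximal_of_irreducible (Nat.prime_iff_prime_int.1 hp).irreducible
  obtain ⟨Q, hQ, h⟩ := Ideal.exists_ideal_over_maximal_of_isIntegral (S := 𝓞 k)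
    (Ideal.span {(pr i : ℤ)}) (by
      rw [(RingHom.injective_iff_ker_eq_bot (algebraMap ℤ (𝓞 k))).1 (RingHom.injective_int _)]
      exact bot_le)
  let := Ideal.Quotient.field Q
  have h1 : ((pr i : ℕ) : 𝓞 k ⧸ Q) = 0 := by
    rw [← map_natCast (Ideal.Quotient.mk Q), Ideal.Quotient.eq_zero_iff_mem,
      ← map_natCast (algebraMap ℤ (𝓞 k)), ← Ideal.mem_comap, h]
    exact Ideal.mem_span_singleton_self _
  have := (CharP.charP_iff_prime_eq_zero hp).2 h1
  let := ZMod.algebra (𝓞 k ⧸ Q) (pr i)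
  have : Algebra.IsAlgebraic (ZMod (pr i)) (𝓞 k ⧸ Q) := ⟨fun x => by
    obtain ⟨a, rfl⟩ := Ideal.Quotient.mk_surjective x
    exact ((Algebra.IsIntegral.isIntegral (R := ℤ) a).map
      (Ideal.Quotient.mk Q).toIntAlgHom).tower_top.isAlgebraic⟩
  exact ⟨(IsAlgClosed.lift (R := ZMod (pr i)) (S := 𝓞 k ⧸ Q) (M := kk i)).toRingHom.comp
    (Ideal.Quotient.mk Q)⟩

/-- Families that vanish almost everywhere. -/
def nul : Ideal (∀ i, kk i) where
  carrier := {x | ∀ᶠ i in (uf : Filter ℕ), x i = 0}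
  zero_mem' := Eventually.of_forall fun _ => rfl
  add_mem' := fun {x y} hx hy => by
    filter_upwards [hx, hy] with i h1 h2
    simp [h1, h2]
  smul_mem' := fun c x hx => by
    filter_upwards [hx] with i h1
    simp [h1]

instance nul_max : nul.IsMaximal := by
  refine Ideal.isMaximal_iff.2 ⟨fun h => ?_, fun J x hJ hx hxJ => ?_⟩
  · obtain ⟨i, hi⟩ := (show ∀ᶠ i in (uf : Filter ℕ), (1 : ∀ i, kk i) i = 0 from h).exists
    simp at hi
  · have h2 : 1 - x⁻¹ * x ∈ nul := by
      change ∀ᶠ i in (uf : Filter ℕ), (1 - x⁻¹ * x) i = 0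
      filter_upwards [ev_not.2 hx] with i hi
      simp [hi]
    simpa using J.add_mem (hJ h2) (J.mul_mem_left x⁻¹ hxJ)

/-- The ultraproduct field. -/
def Q : Type := (∀ i, kk i) ⧸ nul

noncomputable instance : Field Q := Ideal.Quotient.field nul

/-- The class of a family. -/
noncomputable def mk : (∀ i, kk i) →+* Q := Ideal.Quotient.mk nul

theorem mk_surj : Function.Surjective mk := Ideal.Quotient.mk_surjective

theorem mk_zero {x : ∀ i, kk i} : mk x = 0 ↔ ∀ᶠ i in (uf : Filter ℕ), x i = 0 :=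
  Ideal.Quotient.eq_zero_iff_mem

instance : CharZero Q := by
  refine charZero_of_inj_zero fun n h => by_contra fun hn => ?_
  rw [← map_natCast mk, mk_zero] at h
  obtain ⟨i, h1, h2⟩ := (h.and (ev_pr (n + 1))).exists
  have := Nat.le_of_dvd (Nat.pos_of_ne_zero hn) ((CharP.cast_eq_zero_iff (kk i) (pr i) n).1 h1)
  omega

instance : IsAlgClosed Q := by
  refine IsAlgClosed.of_exists_root Q fun p hp hi => ?_
  obtain ⟨q, rfl, h1, h2⟩ := lifts_and_natDegree_eq_and_monic
    ((mem_lifts p).2 (map_surjective mk mk_surj p)) hp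
  have h3 : ∀ i, ∃ x, (q.map (Pi.evalRingHom kk i)).IsRoot x := fun i =>
    IsAlgClosed.exists_root _ fun h => hi.natDegree_pos.ne' (by
      rw [← h1, ← h2.natDegree_map (Pi.evalRingHom kk i), natDegree_eq_of_degree_eq_some h]
      rfl)
  choose x hx using h3
  have h4 : q.eval x = 0 := funext fun i =>
    (eval₂_at_apply (Pi.evalRingHom kk i) x).symm.trans ((eval_map _ _).symm.trans (hx i))
  exact ⟨mk x, by rw [eval_map, eval₂_at_apply, h4, map_zero]⟩

theorem card : #Q = continuum := by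
  classical
  refine le_antisymm ((mk_le_of_surjective mk_surj).trans ?_) ?_
  · have h : ∀ i, Countable (kk i) := fun i => mk_le_aleph0_iff.1
      ((Algebra.IsAlgebraic.cardinalMk_le_max (ZMod (pr i)) (kk i)).trans
        (max_le mk_le_aleph0 le_rfl))
    choose f hf using fun i => exists_injective_nat (kk i)
    refine (mk_le_of_injective (f := fun (x : ∀ i, kk i) i => f i (x i))
      fun x y e => funext fun i => hf i (congrFun e i)).trans ?_
    simp
  · rw [← mk_set_nat]
    let g : ∀ i, Finset ℕ → kk i := fun i s => Infinite.natEmbedding _ (Encodable.encode s)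
    have hg : ∀ i, Function.Injective (g i) := fun i =>
      (Infinite.natEmbedding _).injective.comp Encodable.encode_injective
    refine mk_le_of_injective (f := fun s : Set ℕ =>
      mk fun i => g i ((Finset.range i).filter (· ∈ s))) fun s t e => Set.ext fun j => ?_
    rw [← sub_eq_zero, ← map_sub, mk_zero] at e
    obtain ⟨i, h1, h2⟩ := (e.and (ev_ge (j + 1))).exists
    simpa [Nat.lt_of_succ_le h2] using Finset.ext_iff.1 (hg i (sub_eq_zero.1 h1)) j

end UexA

open UexA in
theorem uex : StmtUEX := by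
  intro k _ _ _
  let l : ∀ i, 𝓞 k →+* kk i := fun i => (lam k i).some
  let := (mk.comp (Pi.ringHom l)).toAlgebra
  have := (faithfulSMul_iff_algebraMap_injective (𝓞 k) Q).2 (inj _)
  have := (faithfulSMul_iff_algebraMap_injective (𝓞 k) ℂ).2 (inj _)
  obtain ⟨e, he⟩ := ext_equiv (R := 𝓞 k) (K := Q) (L := ℂ)
    ((Algebra.IsAlgebraic.cardinalMk_le_max ℤ (𝓞 k)).trans (max_le mk_le_aleph0 le_rfl))
    (card ▸ aleph0_lt_continuum) (card.trans mk_complex.symm)
  exact ⟨⟨e.toRingHom.comp mk, e.surjective.comp mk_surj, fun a =>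
    e.map_eq_zero_iff.trans mk_zero⟩, l, he⟩

end Pool.Agent.MP_4f1c5b_al.H95
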