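import Pool.Agent.MP_4f1c5b_al.H95.SpecA

/-!
The Euler axioms determine the values.
-/

namespace Pool.Agent.MP_4f1c5b_al.H95

open Filter Set

namespace UniA

variable {E : Subfield ℂ} {n : ℕ}

/-- The value on `S` is determined. -/
def Val (E : Subfield ℂ) (n : ℕ) (S : Set (Fin n → ℂ)) : Prop :=
  ∃ z : ℤ, ∀ (R : Type) [CommRing R] (χ : ∀ n : ℕ, Set (Fin n → ℂ) → R),
    IsEulerE E χ → χ n S = z

theorem Val.empty : Val E n ∅ := ⟨0, fun R _ χ h => by
  have := h.add n ∅ ∅ ConE.empty ConE.empty disjoint_bot_left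
  rw [union_self] at this
  rw [Int.cast_zero]
  linear_combination -this⟩

theorem Val.union {S T : Set (Fin n → ℂ)} (h : Val E n S) (h' : Val E n T) (hS : ConE E S)
    (hT : ConE E T) (hd : Disjoint S T) : Val E n (S ∪ T) := by
  obtain ⟨z, hz⟩ := h
  obtain ⟨z', hz'⟩ := h'
  exact ⟨z + z', fun R _ χ H => by rw [H.add n S T hS hT hd, hz R χ H, hz' R χ H, Int.cast_add]⟩

theorem Val.left {S T : Set (Fin n → ℂ)} (h : Val E n (S ∪ T)) (h' : Val E n T) (hS : ConE E S)
    (hT : ConE E T) (hd : Disjoint S T) : Val E n S := by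
  obtain ⟨z, hz⟩ := h
  obtain ⟨z', hz'⟩ := h'
  exact ⟨z - z', fun R _ χ H => by
    rw [Int.cast_sub, ← hz R χ H, ← hz' R χ H, H.add n S T hS hT hd, add_sub_cancel_right]⟩

theorem Val.biUnion {S : ℕ → Set (Fin n → ℂ)} (h : ∀ d, Val E n (S d)) (hS : ∀ d, ConE E (S d))
    (hd : ∀ d d', d ≠ d' → Disjoint (S d) (S d')) (N : ℕ) : Val E n (⋃ d < N, S d) := by
  induction N with
  | zero => simpa using Val.empty
  | succ N ih =>
    rw [biUnion_lt_succ]
    exact ih.union (h N) (ConE.biUnion (finite_Iio N) fun d _ => hS d) (hS N)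
      (disjoint_iUnion₂_left.2 fun d hN => hd d N hN.ne)

/-- The fibre over `y`. -/
def fib {K : Type} (S : Set (Fin (n + 1) → K)) (y : Fin n → K) : Set K :=
  {t | (Fin.cons t y : Fin (n + 1) → K) ∈ S}

theorem bound {S : Set (Fin (n + 1) → ℂ)} (h : ConE E S) :
    ∃ N : ℕ, ∀ y, (fib S y).encard ≤ N ∨ (fib Sᶜ y).encard ≤ N := by
  classical
  induction h with
  | zero p _ =>
    refine ⟨(MvPolynomial.finSuccEquiv ℂ n p).natDegree, fun y => ?_⟩
    by_cases h0 : (MvPolynomial.finSuccEquiv ℂ n p).map (MvPolynomial.eval y) = 0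
    · refine Or.inr (le_trans (le_of_eq (encard_eq_zero.2
        (eq_empty_of_forall_notMem fun t ht => ?_))) zero_le)
      refine ht ?_
      rw [mem_ofPred_eq, MvPolynomial.eval_eq_eval_mv_eval', h0, Polynomial.eval_zero]
    · refine Or.inl ((encard_le_encard (t := (((MvPolynomial.finSuccEquiv ℂ n p).map
        (MvPolynomial.eval y)).roots.toFinset : Set ℂ)) fun t ht => ?_).trans ?_)
      · rw [Finset.mem_coe, Multiset.mem_toFinset, Polynomial.mem_roots h0, Polynomial.IsRoot,
          ← MvPolynomial.eval_eq_eval_mv_eval']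
        exact ht
      · rw [encard_coe_eq_coe_finsetCard, Nat.cast_le]
        exact (Multiset.toFinset_card_le _).trans
          ((Polynomial.card_roots' _).trans Polynomial.natDegree_map_le)
  | compl _ ih =>
    obtain ⟨N, hN⟩ := ih
    exact ⟨N, fun y => by rw [compl_compl]; exact (hN y).symm⟩
  | @union S T _ _ ih ih' =>
    obtain ⟨N, hN⟩ := ih
    obtain ⟨N', hN'⟩ := ih'
    refine ⟨N + N', fun y => ?_⟩
    rw [Nat.cast_add]
    rcases hN y with a | a
    · rcases hN' y with b | b
      · exact Or.inl ((encard_union_le (fib S y) (fib T y)).trans (add_le_add a b))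
      · exact Or.inr (le_trans (encard_le_encard (t := fib Tᶜ y) fun t ht h => ht (Or.inr h))
          (b.trans le_add_self))
    · exact Or.inr (le_trans (encard_le_encard (t := fib Sᶜ y) fun t ht h => ht (Or.inl h))
        (a.trans le_self_add))

/-- The points whose fibre has `d` elements. -/
def base {K : Type} (S : Set (Fin (n + 1) → K)) (d : ℕ) : Set (Fin n → K) :=
  {y | (fib S y).encard = d}

theorem con_base (h : StmtGOOD) [Countable E] (u : UP) {S : Set (Fin (n + 1) → ℂ)}
    (hS : ConE E S) (d : ℕ) : ConE E (base S d) := by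
  refine h u E _ _ ?_ fun θ hθ y hy => ?_
  · obtain ⟨W, hW⟩ := hS.int u
    refine ⟨fun i => base (W i) d, fun a => UT.Rep.encard_iff (T := u.ut) (fun t => ?_) d⟩
    have e : (Fin.cons (u.ut.m t) ((u.v _).m a) : Fin (n + 1) → ℂ)
        = (u.v _).m fun i => Fin.cons (t i) (a i) := funext fun l => by
      cases l using Fin.cases <;> rfl
    exact (congrArg (· ∈ S) e).to_iff.trans (hW _)
  · have e : fib S (θ ∘ y) = θ '' fib S y := by
      ext t
      obtain ⟨s, rfl⟩ := θ.surjective t
      rw [θ.injective.mem_set_image]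
      exact (congrArg (· ∈ S) (Fin.comp_cons θ s y).symm).to_iff.trans (hS.inv.iff hθ _)
    change (fib S (θ ∘ y)).encard = d
    rw [e, θ.injective.encard_image]
    exact hy

theorem con_tail {B : Set (Fin n → ℂ)} (h : ConE E B) :
    ConE E {x : Fin (n + 1) → ℂ | Fin.tail x ∈ B} := h.comp Fin.succ

theorem step (h : StmtGOOD) [Countable E] (u : UP) (ih : ∀ B, ConE E B → Val E n B)
    {S : Set (Fin (n + 1) → ℂ)} (hS : ConE E S) : Val E (n + 1) S := by
  have c1 : ∀ {S : Set (Fin (n + 1) → ℂ)}, ConE E S → ∀ d,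
      Val E (n + 1) (S ∩ {x | Fin.tail x ∈ base S d}) := fun {S} hS d => by
    obtain ⟨z, hz⟩ := ih _ (con_base h u hS d)
    refine ⟨d * z, fun R _ χ H => ?_⟩
    rw [H.cover n _ _ d (hS.inter (con_tail (con_base h u hS d))) (con_base h u hS d)
      (fun x hx => hx.2) fun y hy => ?_, hz R χ H, Int.cast_mul, Int.cast_natCast]
    refine (congrArg encard (Set.ext fun t => and_iff_left ?_)).trans hy
    exact hy
  have c2 : ∀ d, Val E (n + 1) (S ∩ {x | Fin.tail x ∈ base Sᶜ d}) := fun d => by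
    have b := con_base h u hS.compl d
    refine Val.left ?_ (c1 hS.compl d) (hS.inter (con_tail b)) (hS.compl.inter (con_tail b))
      (disjoint_compl_right.mono inter_subset_left inter_subset_left)
    rw [← union_inter_distrib_right, union_compl_self, univ_inter]
    obtain ⟨z, hz⟩ := ih _ b
    exact ⟨z, fun R _ χ H => (H.line n _ b).trans (hz R χ H)⟩
  have dj : ∀ (T : Set (Fin (n + 1) → ℂ)) (d d' : ℕ), d ≠ d' →
      Disjoint (S ∩ {x | Fin.tail x ∈ base T d}) (S ∩ {x | Fin.tail x ∈ base T d'}) :=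
    fun T d d' hd => disjoint_left.2 fun x a b =>
      hd (Nat.cast_injective (R := ℕ∞) (a.2.symm.trans b.2))
  obtain ⟨N, hN⟩ := bound hS
  have e : S = (⋃ d < N + 1, S ∩ {x | Fin.tail x ∈ base S d})
      ∪ ⋃ d < N + 1, S ∩ {x | Fin.tail x ∈ base Sᶜ d} := by
    refine Subset.antisymm (fun x hx => (hN (Fin.tail x)).imp (fun a => ?_) fun a => ?_)
      (union_subset (iUnion₂_subset fun _ _ => inter_subset_left)
        (iUnion₂_subset fun _ _ => inter_subset_left))
    all_goals
      obtain ⟨d, h1, h2⟩ := ENat.le_natCast_iff.1 a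
      exact mem_iUnion₂.2 ⟨d, Nat.lt_succ_of_le h2, hx, h1⟩
  have k1 := fun d => hS.inter (con_tail (con_base h u hS d))
  have k2 := fun d => hS.inter (con_tail (con_base h u hS.compl d))
  rw [e]
  refine (Val.biUnion (c1 hS) k1 (dj S) _).union (Val.biUnion c2 k2 (dj Sᶜ) _)
    (ConE.biUnion (finite_Iio _) fun d _ => k1 d) (ConE.biUnion (finite_Iio _) fun d _ => k2 d)
    (disjoint_iUnion₂_left.2 fun d _ => disjoint_iUnion₂_right.2 fun d' _ =>
      disjoint_left.2 fun x a b => ?_)
  exact infinite_univ (((finite_of_encard_eq_coe a.2).union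
    (finite_of_encard_eq_coe b.2)).subset fun t _ => em _)

end UniA

theorem uni (h : StmtGOOD) : StmtUNI := by
  intro E _ u n
  induction n with
  | zero =>
    intro S _
    rcases S.eq_empty_or_nonempty with rfl | ⟨x, hx⟩
    · exact UniA.Val.empty
    · obtain rfl : S = univ := eq_univ_of_forall fun y => Subsingleton.elim x y ▸ hx
      exact ⟨1, fun R _ χ H => by rw [H.pt, Int.cast_one]⟩
  | succ n ih => exact fun S hS => UniA.step h u ih hS

end Pool.Agent.MP_4f1c5b_al.H95
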