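import Pool.Agent.MP_4f1c5b_al.H95.SpecB

/-! Row Vvt: the torsion classes of a function field and of its models agree. -/

namespace Pool.Agent.MP_4f1c5b_al.H95

open Filter Set WithZero Module
open Pool.Agent.MP_cce4c9_lc.H87 Pool.Agent.MP_cce4c9_lc.H7

namespace VvtA

theorem small {k K : Type} [Field k] [IsAlgClosed k] [Field K] [Algebra k K] {l g : ℕ} [NeZero l]
    (hK : IsFF k K) (hg : IsGenus k K g) (Q : Place k K) (b : VV k K l) :
    ∃ w : Kˣ, b.1 = Hl.mk l w ∧ (∀ v : Place k K, (l : ℤ) ∣ v.ord (w : K)) ∧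
      (w : K) ∈ LL (Finsupp.single Q ((l * g : ℕ) : ℤ)) := by
  obtain ⟨f, D, hf⟩ := exists_rep hK b
  have h0 : D.degree = 0 := by
    have := (degF hK (f : K)).2.1
    rw [hf.2, map_zsmul, smul_eq_mul] at this
    exact (mul_eq_zero.1 this).resolve_left (by exact_mod_cast NeZero.ne l)
  have h1 := hg.ge (D + Finsupp.single Q (g : ℤ))
  rw [map_add, h0, Finsupp.degree_single] at h1
  have := hg.fin (D + Finsupp.single Q (g : ℤ))
  obtain ⟨⟨h, hh⟩, hn⟩ := Module.finrank_pos_iff_exists_ne_zero.1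
    (show 0 < finrank k (LL (D + Finsupp.single Q (g : ℤ))) by omega)
  have hn' : h ≠ 0 := fun e => hn (Subtype.ext e)
  have h2 := hf.mul_pow hK (Units.mk0 h hn')
  refine ⟨_, h2.1, h2.dvd hK, (mem_LL_iff hK (Units.ne_zero _)).2 ?_⟩
  have h3 := smul_nonneg (Int.natCast_nonneg l) ((mem_LL_iff hK hn').1 hh)
  rw [h2.2]
  refine h3.trans_eq ?_
  simp only [Units.val_mk0, smul_add, Finsupp.smul_single, smul_eq_mul, Nat.cast_mul]
  abel

variable {u : UP} {F : Type} [Field F] [Algebra ℂ F] {t : F} (M : Mod u F t) {l : ℕ}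

theorem unit (f : Fˣ) : ∃ w : ∀ i, (M.K i)ˣ, ((f : F), fun i => (w i : M.K i)) ∈ M.Γ := by
  obtain ⟨w, hw⟩ := M.tot (f : F)
  obtain ⟨z, hz⟩ := ev_choose (fun i => ⟨(1 : (M.K i)ˣ)⟩) (P := fun i z => w i = (z : M.K i))
    ((ev_not.2 fun e => f.ne_zero ((M.zero _ w hw).2 e)).mono fun i hi => ⟨Units.mk0 _ hi, rfl⟩)
  exact ⟨z, M.congr hw hz⟩

/-- The sequence `b` represents the class `a`. -/
def R (a : VV ℂ F l) (b : ∀ i, VV (kk i) (M.K i) l) : Prop :=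
  ∃ (f : Fˣ) (w : ∀ i, (M.K i)ˣ), ((f : F), fun i => (w i : M.K i)) ∈ M.Γ ∧ a.1 = Hl.mk l f ∧
    ∀ᶠ i in (uf : Filter ℕ), (b i).1 = Hl.mk l (w i)

variable {M} {a a' : VV ℂ F l} {b b' : ∀ i, VV (kk i) (M.K i) l}

theorem R.add (h : R M a b) (h' : R M a' b') : R M (a + a') fun i => b i + b' i := by
  obtain ⟨f, w, h1, h2, h3⟩ := h
  obtain ⟨f', w', h1', h2', h3'⟩ := h'
  refine ⟨f * f', fun i => w i * w' i, M.Γ.mul_mem h1 h1', by rw [Hl.mk_mul, ← h2, ← h2']; rfl, ?_⟩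
  filter_upwards [h3, h3'] with i e e'
  rw [Hl.mk_mul, ← e, ← e']; rfl

theorem R.neg (h : R M a b) : R M (-a) fun i => -b i := by
  obtain ⟨f, w, h1, h2, h3⟩ := h
  refine ⟨f⁻¹, fun i => (w i)⁻¹, by simpa only [Units.val_inv_eq_inv_val] using M.inv h1,
    by rw [Hl.mk_inv, ← h2]; rfl, ?_⟩
  filter_upwards [h3] with i e
  rw [Hl.mk_inv, ← e]; rfl

theorem R.act {g : SA ℂ F} {g' : ∀ i, SA (kk i) (M.K i)} (H : M.Compat g g') (h : R M a b) :
    R M (actV l g a) fun i => actV l (g' i) (b i) := by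
  obtain ⟨f, w, h1, h2, h3⟩ := h
  refine ⟨Units.map g.1.toRingHom.toMonoidHom f,
    fun i => Units.map (g' i).1.toRingHom.toMonoidHom (w i), H _ _ h1, ?_, ?_⟩
  · show actH l g a.1 = _
    rw [h2]; rfl
  · filter_upwards [h3] with i e
    show actH l (g' i) (b i).1 = _
    rw [e]; rfl

theorem R.zero [NeZero l] (h : R M a b) : a = 0 ↔ ∀ᶠ i in (uf : Filter ℕ), b i = 0 := by
  obtain ⟨f, w, h1, h2, h3⟩ := h
  constructor
  · rintro rfl
    obtain ⟨y, hy⟩ := (Hl.mk_eq_zero l f).1 h2.symm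
    obtain ⟨z, hz⟩ := unit M y
    filter_upwards [h3, (M.eq_iff (M.Γ.pow_mem hz l) h1).1 (congrArg Units.val hy)] with i e e'
    exact Subtype.ext (e.trans ((Hl.mk_eq_zero l _).2 ⟨z i, Units.ext e'⟩))
  · intro h0
    obtain ⟨z, hz⟩ := ev_choose (fun i => ⟨(1 : (M.K i)ˣ)⟩) (P := fun i z => z ^ l = w i)
      ((h0.and h3).mono fun i hi => (Hl.mk_eq_zero l _).1 (by rw [← hi.2, hi.1]; rfl))
    obtain ⟨y, hy⟩ := M.acl l (fun j => if (j : ℕ) = 0 then -(f : F) else 0)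
      (fun j => if (j : ℕ) = 0 then -fun i => (w i : M.K i) else 0) (fun i => (z i : M.K i))
      (fun j => by
        split_ifs
        exacts [M.Γ.neg_mem h1, M.Γ.zero_mem]) (hz.mono fun i hi => by
        rw [Finset.sum_eq_single ⟨0, Nat.pos_of_ne_zero (NeZero.ne l)⟩
          (fun j _ hj => by rw [if_neg fun e => hj (Fin.ext e), Pi.zero_apply, zero_mul])
          (by simp), ← Units.val_pow_eq_pow_val, hi]
        simp)
    have h4 : y ^ l = f := (M.eq_iff (M.Γ.pow_mem hy l) h1).2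
      (hz.mono fun i hi => congrArg Units.val hi)
    have h5 : y ≠ 0 := fun e => f.ne_zero (by rw [← h4, e, zero_pow (NeZero.ne l)])
    exact Subtype.ext (h2.trans ((Hl.mk_eq_zero l f).2 ⟨Units.mk0 y h5, Units.ext h4⟩))

theorem R.eq [NeZero l] (h : R M a b) (h' : R M a' b') :
    a = a' ↔ ∀ᶠ i in (uf : Filter ℕ), b i = b' i := by
  simpa only [add_neg_eq_zero] using (h.add h'.neg).zero

theorem tot [NeZero l] (P : PT M) (a : VV ℂ F l) : ∃ b, R M a b := by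
  obtain ⟨f, hf, hd⟩ := mem_VV.1 a.2
  obtain ⟨w, hw⟩ := unit M f
  have h1 : ∀ᶠ i in (uf : Filter ℕ), ∀ v : Place (kk i) (M.K i), (l : ℤ) ∣ v.ord (w i : M.K i) :=
    ev_forall P.T.ne fun v => (P.ord hw v).mono fun i hi => hi ▸ hd _
  obtain ⟨b, hb⟩ := ev_choose (fun i => ⟨(0 : VV (kk i) (M.K i) l)⟩)
    (P := fun i b => b.1 = Hl.mk l (w i))
    (h1.mono fun i hi => ⟨⟨_, mem_VV.2 ⟨w i, rfl, hi⟩⟩, rfl⟩)
  exact ⟨b, f, w, hw, hf.symm, hb⟩

theorem surj [NeZero l] (hG : M.GB) (hB : M.Bdd) (P : PT M) (b : ∀ i, VV (kk i) (M.K i) l) :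
    ∃ a, R M a b := by
  obtain ⟨g₀, h0⟩ := hG
  choose g hg using fun i => genus (M.ff i)
  choose w h1 h2 h3 using fun i => small (M.ff i) (hg i) (P.T.ne i).some (b i)
  obtain ⟨f, hf⟩ := hB (l * g₀) (fun i => (w i : M.K i)) (h0.mono fun i hi =>
    ⟨_, Finsupp.single_nonneg.2 (Int.natCast_nonneg _), by
      rw [Finsupp.degree_single]
      exact_mod_cast Nat.mul_le_mul_left l (hi _ (hg i)), h3 i⟩)
  have f0 : f ≠ 0 := fun e => ((M.zero _ _ hf).1 e).exists.elim fun i hi => (w i).ne_zero hi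
  refine ⟨⟨_, mem_VV.2 ⟨Units.mk0 f f0, rfl, fun v => ?_⟩⟩, Units.mk0 f f0, w, hf, rfl,
    Eventually.of_forall h1⟩
  obtain ⟨v, rfl⟩ := P.T.surj v
  obtain ⟨i, hi⟩ := (P.ord hf v).exists
  exact hi ▸ h2 i _

end VvtA

open VvtA

theorem vvt : StmtVVT := by
  intro u F _ _ t M l hl _ hG hB P _ g g' H
  have : NeZero l := ⟨hl.out.ne_zero⟩
  choose β hβ using tot (l := l) P
  have h1 : ∀ᶠ i in (uf : Filter ℕ), ∀ a a', β (a + a') i = β a i + β a' i :=
    eventually_all.2 fun a => eventually_all.2 fun a' =>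
      ((hβ (a + a')).eq ((hβ a).add (hβ a'))).1 rfl
  have h2 : ∀ᶠ i in (uf : Filter ℕ), ∀ a a', β a i = β a' i → a = a' :=
    eventually_all.2 fun a => eventually_all.2 fun a' => by
      by_cases e : a = a'
      · exact Eventually.of_forall fun _ _ => e
      · exact (ev_not.2 fun h => e (((hβ a).eq (hβ a')).2 h)).mono fun i hi h => absurd h hi
  have h3 : ∀ᶠ i in (uf : Filter ℕ), ∀ b, ∃ a, β a i = b :=
    ev_forall (fun i => ⟨0⟩) fun b => by
      obtain ⟨a, ha⟩ := surj hG hB P b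
      exact (((hβ a).eq ha).1 rfl).mono fun i hi => ⟨a, hi⟩
  have h4 : ∀ᶠ i in (uf : Filter ℕ), ∀ a, β (actV l g a) i = actV l (g' i) (β a i) :=
    eventually_all.2 fun a => ((hβ _).eq ((hβ a).act H)).1 rfl
  filter_upwards [h1, h2, h3, h4] with i k1 k2 k3 k4
  let e := LinearEquiv.ofBijective
    ((AddMonoidHom.mk' (fun a => β a i) k1).toZModLinearMap l) ⟨k2, k3⟩
  rw [← LinearMap.trace_conj' (actV l g) e]
  congr 1
  refine LinearMap.ext fun b => ?_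
  obtain ⟨a, rfl⟩ := e.surjective b
  rw [LinearEquiv.conj_apply_apply, e.symm_apply_apply]
  exact (k4 a).symm

end Pool.Agent.MP_4f1c5b_al.H95
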