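import Pool.Agent.MP_4f1c5b_al.H95.SpecA

/-! Complete discrete valuation rings over a ring of integers with a given residue field. -/

namespace Pool.Agent.MP_4f1c5b_al.H95

open IsLocalRing NumberField Polynomial

namespace WittA

theorem map_aeval {R S : Type} [CommRing R] [CommRing S] (f : R →+* S) (x : R) (q : ℤ[X]) :
    f (aeval x q) = aeval (f x) q :=
  (aeval_algHom_apply f.toIntAlgHom x q).symm

theorem int_map (O : Type) {K L : Type} [CommRing O] [CommRing K] [CommRing L] [Algebra O L]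
    (ψ : K →+* L) {z : K} (h : IsIntegral ℤ z) : IsIntegral O (ψ z) :=
  (map_isIntegral_int ψ h).tower_top

/-- A power basis with an integral generator. -/
theorem basis (k : Type) [Field k] [NumberField k] : ∃ B : PowerBasis ℚ k, IsIntegral ℤ B.gen := by
  let B := Field.powerBasisOfFiniteOfSeparable ℚ k
  have a : IsAlgebraic ℤ B.gen :=
    (IsFractionRing.isAlgebraic_iff ℤ ℚ k).2 B.isIntegral_gen.isAlgebraic
  obtain ⟨y, hy, hi⟩ := a.exists_integral_multiple
  refine ⟨PowerBasis.ofAdjoinEqTop (x := y • B.gen) hi.tower_top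
    (B.adjoin_eq_top_of_gen_mem_adjoin ?_), hi⟩
  have h := Subalgebra.smul_mem _ (Algebra.self_mem_adjoin_singleton ℚ (y • B.gen)) (y : ℚ)⁻¹
  rwa [← Int.cast_smul_eq_zsmul ℚ y B.gen, inv_smul_smul₀ (by exact_mod_cast hy),
    Int.cast_smul_eq_zsmul] at h

/-- The data attached to a number field. -/
theorem data (k : Type) [Field k] [NumberField k] : ∃ (θ : 𝓞 k) (g : ℤ[X]) (D D' : ℤ),
    g.Monic ∧ D ≠ 0 ∧ D' ≠ 0 ∧ aeval θ g = 0 ∧
    (∀ (L : Type) [Field L] [CharZero L] (α : L), aeval α g = 0 → ∃ ψ : k →+* L, ψ θ = α) ∧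
    aeval θ (derivative g) ∣ (D : 𝓞 k) ∧ ∀ z : 𝓞 k, ∃ q : ℤ[X], D' * z = aeval θ q := by
  obtain ⟨B, hB⟩ := basis k
  let θ : 𝓞 k := ⟨B.gen, hB⟩
  have co : ∀ q : ℤ[X], algebraMap (𝓞 k) k (aeval θ q) = aeval B.gen q := fun q => map_aeval _ _ q
  have mq := minpoly.isIntegrallyClosed_eq_field_fractions' ℚ hB
  have ne : aeval θ (derivative (minpoly ℤ B.gen)) ≠ 0 := by
    intro h
    have := (Algebra.IsSeparable.isSeparable ℚ B.gen).aeval_derivative_ne_zero
      (minpoly.aeval ℚ B.gen)
    rw [mq, derivative_map, aeval_map_algebraMap, ← co, h, map_zero] at this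
    exact this rfl
  obtain ⟨D, hD, dv⟩ := (RingOfIntegers.isIntegral _).isAlgebraic.exists_nonzero_dvd
    (mem_nonZeroDivisors_of_ne_zero ne)
  obtain ⟨D', hD'⟩ := IsIntegrallyClosed.isIntegral_iff.1 (Algebra.discr_isIntegral (R := ℤ) ℚ
    (b := B.basis) fun i => by rw [B.basis_eq_pow]; exact hB.pow _)
  refine ⟨θ, minpoly ℤ B.gen, D, D', minpoly.monic hB, hD, fun h => ?_, ?_, fun L _ _ α h => ?_,
    dv, fun z => ?_⟩
  · rw [h, map_zero] at hD'
    exact Algebra.discr_not_zero_of_basis ℚ B.basis hD'.symm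
  · apply RingOfIntegers.coe_injective
    rw [co, minpoly.aeval, map_zero]
  · have h' : aeval α (minpoly ℚ B.gen) = 0 := by rwa [mq, aeval_map_algebraMap]
    exact ⟨(B.lift α h').toRingHom, B.lift_gen α h'⟩
  · have := Algebra.discr_mul_isIntegral_mem_adjoin ℚ hB z.isIntegral_coe
    rw [Algebra.adjoin_singleton_eq_range_aeval, ← hD'] at this
    obtain ⟨q, hq⟩ := this
    refine ⟨q, RingOfIntegers.coe_injective ?_⟩
    rw [co, map_mul, map_intCast]
    refine Eq.trans ?_ hq.symm
    rw [algebraMap_smul, zsmul_eq_mul]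

/-- Witt vectors. -/
theorem wv (F : Type) [Field F] [Finite F] : ∃ (O : Type) (_ : CommRing O) (_ : IsDomain O)
    (_ : IsDiscreteValuationRing O) (_ : CharZero O) (_ : IsAdicComplete (maximalIdeal O) O)
    (π : O →+* F), Function.Surjective π ∧ RingHom.ker π = maximalIdeal O := by
  obtain ⟨p, hp⟩ := CharP.exists F
  have : Fact p.Prime := ⟨CharP.prime_ringChar F |> fun h => by rwa [ringChar.eq F p] at h⟩
  have ir := WittVector.irreducible p (k := F)
  have mx := ir.maximalIdeal_eq
  refine ⟨WittVector p F, inferInstance, inferInstance, inferInstance, ?_, ?_,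
    WittVector.constantCoeff, fun a => ⟨WittVector.teichmuller p a, rfl⟩, ?_⟩
  · obtain ⟨q, hq⟩ := CharP.exists (WittVector p F)
    rcases CharP.char_is_prime_or_zero (WittVector p F) q with h | rfl
    · have e := congrArg WittVector.constantCoeff (CharP.cast_eq_zero (WittVector p F) q)
      rw [map_natCast, map_zero, CharP.cast_eq_zero_iff F p,
        Nat.prime_dvd_prime_iff_eq Fact.out h] at e
      subst e
      exact absurd (CharP.cast_eq_zero _ p) ir.ne_zero
    · exact CharP.charP_to_charZero _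
  · rw [mx]
    infer_instance
  · rw [mx, WittVector.ker_constantCoeff]

theorem cast_ne {F : Type} [Field F] {D : ℤ} (hD : D ≠ 0) (h : D.natAbs < ringChar F) :
    (D : F) ≠ 0 := by
  rw [Ne, CharP.intCast_eq_zero_iff F (ringChar F), Int.natCast_dvd]
  exact Nat.not_dvd_of_pos_of_lt (Int.natAbs_pos.2 hD) h

end WittA

open WittA in
theorem witt : StmtWITT := by
  intro k _ _
  obtain ⟨θ, g, D, D', mo, hD, hD', rt, up, ⟨y, hy⟩, gen⟩ := data k
  refine ⟨D.natAbs + D'.natAbs + 1, fun F _ _ lam hN => ?_⟩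
  obtain ⟨O, _, _, _, _, _, π, su, ke⟩ := wv F
  have n1 : (D : F) ≠ 0 := cast_ne hD (by omega)
  have n2 : (D' : F) ≠ 0 := cast_ne hD' (by omega)
  obtain ⟨a₀, h₀⟩ := su (lam θ)
  have mm : ∀ x, x ∈ maximalIdeal O ↔ π x = 0 := fun x => by rw [← ke, RingHom.mem_ker]
  obtain ⟨α, r1, r2⟩ := HenselianRing.is_henselian (I := maximalIdeal O) (g.map (algebraMap ℤ O))
    (mo.map _) a₀ (by rw [mm, eval_map_algebraMap, map_aeval, h₀, ← map_aeval, rt, map_zero]) (by
      refine IsUnit.map _ (notMem_maximalIdeal.1 fun h => n1 ?_)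
      rw [mm, derivative_map, eval_map_algebraMap, map_aeval, h₀, ← map_aeval] at h
      rw [← map_intCast lam, hy, map_mul, h, zero_mul])
  rw [mm, map_sub, sub_eq_zero, h₀] at r2
  rw [IsRoot, eval_map_algebraMap] at r1
  have inj := IsFractionRing.injective O (FractionRing O)
  have : CharZero (FractionRing O) := charZero_of_injective_algebraMap inj
  obtain ⟨ψ, hψ⟩ := up (FractionRing O) (algebraMap O _ α) (by rw [← map_aeval, r1, map_zero])
  have ex : ∀ z : 𝓞 k, ∃ x : O, algebraMap O (FractionRing O) x = ψ (algebraMap (𝓞 k) k z) :=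
    fun z => IsIntegrallyClosed.isIntegral_iff.1 (int_map O ψ z.isIntegral_coe)
  choose φ₀ hφ using ex
  let φ : 𝓞 k →+* O :=
    { toFun := φ₀
      map_one' := inj (by simp only [hφ, map_one])
      map_mul' := fun a b => inj (by simp only [hφ, map_mul])
      map_zero' := inj (by simp only [hφ, map_zero])
      map_add' := fun a b => inj (by simp only [hφ, map_add]) }
  have ht : φ θ = α := inj ((hφ θ).trans hψ)
  refine ⟨O, inferInstance, inferInstance, inferInstance, inferInstance, φ.toAlgebra,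
    inferInstance, (Ideal.quotEquivOfEq ke.symm).trans (RingHom.quotientKerEquivOfSurjective su),
    fun a => ?_⟩
  change π (φ a) = lam a
  obtain ⟨q, hq⟩ := gen a
  have e1 := congrArg (π.comp φ) hq
  have e2 := congrArg lam hq
  rw [map_mul, map_intCast, map_aeval] at e1 e2
  rw [RingHom.comp_apply, RingHom.comp_apply, ht, r2, ← e2] at e1
  exact mul_left_cancel₀ n2 e1

end Pool.Agent.MP_4f1c5b_al.H95
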