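import Pool.Agent.MP_4f1c5b_al.H95.Aut
import Pool.Agent.MP_4f1c5b_al.H95.Bdd
import Pool.Agent.MP_4f1c5b_al.H95.Bridge
import Pool.Agent.MP_4f1c5b_al.H95.Cl
import Pool.Agent.MP_4f1c5b_al.H95.Comp
import Pool.Agent.MP_4f1c5b_al.H95.Count
import Pool.Agent.MP_4f1c5b_al.H95.Cov
import Pool.Agent.MP_4f1c5b_al.H95.Dec
import Pool.Agent.MP_4f1c5b_al.H95.Eul
import Pool.Agent.MP_4f1c5b_al.H95.Gb
import Pool.Agent.MP_4f1c5b_al.H95.Gc1
import Pool.Agent.MP_4f1c5b_al.H95.Gc2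
import Pool.Agent.MP_4f1c5b_al.H95.Gc3
import Pool.Agent.MP_4f1c5b_al.H95.Glue
import Pool.Agent.MP_4f1c5b_al.H95.Irr
import Pool.Agent.MP_4f1c5b_al.H95.Loc
import Pool.Agent.MP_4f1c5b_al.H95.Open
import Pool.Agent.MP_4f1c5b_al.H95.Plc
import Pool.Agent.MP_4f1c5b_al.H95.Pre
import Pool.Agent.MP_4f1c5b_al.H95.Pts
import Pool.Agent.MP_4f1c5b_al.H95.Sch1
import Pool.Agent.MP_4f1c5b_al.H95.Sch2
import Pool.Agent.MP_4f1c5b_al.H95.Sep
import Pool.Agent.MP_4f1c5b_al.H95.Sp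
import Pool.Agent.MP_4f1c5b_al.H95.Spc
import Pool.Agent.MP_4f1c5b_al.H95.T1
import Pool.Agent.MP_4f1c5b_al.H95.T10
import Pool.Agent.MP_4f1c5b_al.H95.Tame
import Pool.Agent.MP_4f1c5b_al.H95.Trick
import Pool.Agent.MP_4f1c5b_al.H95.Ts
import Pool.Agent.MP_4f1c5b_al.H95.Uex
import Pool.Agent.MP_4f1c5b_al.H95.Uni
import Pool.Agent.MP_4f1c5b_al.H95.Vvt
import Pool.Agent.MP_4f1c5b_al.H95.Witt

/-! Euler characteristics are limits of point counts modulo primes, without hypotheses. -/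

namespace Pool.Agent.MP_4f1c5b_al.H95

open AlgebraicGeometry CategoryTheory NumberField

theorem pk : StmtPK := fun u F _ _ t l _ ht hf => by
  obtain ⟨M⟩ := pre irr u F t ht hf
  have h0 : Pool.Agent.MP_cce4c9_lc.H87.IsFF ℂ F := ⟨t, ht, hf⟩
  have h1 := gb u F t M
  have h2 := bdd u F t M ht
  obtain ⟨P⟩ := plc u F t M h0 h1 h2
  exact ⟨M, ⟨P⟩, aut u F t M, vvt u F t M l h0 h1 h2 P
    (vfin ℂ F l h0 (Nat.cast_ne_zero.2 (Fact.out : l.Prime).ne_zero))⟩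

theorem clAll : StmtCL := cl dec pts lift (count pk pts) (comp (opn acl typ) vfin pts)
  (psi0 (t10 pk (t1 tame)) pts) (opn acl typ) (alg typ) acl

theorem tsAll (c : Ctx) (l : ℕ) (hl : l.Prime) (d : ℕ) : TS c l d := by
  have h := fun d H => ts c l d (sp (spa trick) spb (spc sep (good typ cnt)) c l d hl H)
  induction d with
  | zero => exact h 0 (base (alg typ) c l)
  | succ d ih =>
    exact h _ (step (loc clAll (nbh typ cnt) (nbh2 typ cnt) conj) (glue (good typ cnt) cnt)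
      c l d hl ih)

theorem euAll (c : Ctx) (l : ℕ) (hl : l.Prime) : EU c l :=
  eul c l hl fun n => cov c l n (tsAll c l hl n)

theorem chi {k : Type} [Field k] [NumberField k] [Algebra (𝓞 k) ℂ] {r : ℕ}
    (V : Fin r → Over (Spec (CommRingCat.of (𝓞 k))))
    (hV : ∀ i, LocallyOfFiniteType (V i).hom ∧ QuasiCompact (V i).hom) :
    ∃ c : Fin r → ℤ, (∀ i, IsChi (V i) (c i)) ∧ ELP V c :=
  exists_chi ch sch1 sch2 witt uex ctx (uni (good typ cnt)) (exi ctx (uni (good typ cnt)))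
    euAll V hV

end Pool.Agent.MP_4f1c5b_al.H95
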