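import Pool.Agent.MP_4f1c5b_al.H95.SpecB

/-!
Automorphisms that fix the variable extend to the models.
-/

namespace Pool.Agent.MP_4f1c5b_al.H95

open Filter Set Polynomial Module
open Pool.Agent.MP_cce4c9_lc.H87 Pool.Agent.MP_cce4c9_lc.H7
open scoped IntermediateField

namespace AutA

theorem hom_ev {R S T : Type} [CommRing R] [CommRing S] [CommRing T] (π : S →+* T) (α : R →+* S)
    (a b : S) (m : R[X][X]) : π (m.eval₂ (eval₂RingHom α a) b) =
      m.eval₂ (eval₂RingHom (π.comp α) (π a)) (π b) := by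
  rw [hom_eval₂]
  congr 1
  exact RingHom.ext fun p => hom_eval₂ p α π a

theorem ev_mem {R S : Type} [CommRing R] [CommRing S] (Γ : Subring S) (f : R →+* S) {x : S}
    (hf : ∀ c, f c ∈ Γ) (hx : x ∈ Γ) (p : R[X]) : p.eval₂ f x ∈ Γ := by
  rw [eval₂_eq_sum_range]
  exact sum_mem fun i _ => mul_mem (hf _) (pow_mem hx i)

theorem loc {R k K : Type} [CommRing R] [Field k] [Field K] [Algebra k K] (ρ : R →+* k)
    (s : k ≃+* k) {t θ y : K} {m : R[X][X]} (hm : m.Monic) (ht : Transcendental k t)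
    (hg : IntermediateField.adjoin k {t, θ} = ⊤) (hd : finrank k⟮t⟯ K = m.natDegree)
    (h1 : m.eval₂ (eval₂RingHom ((algebraMap k K).comp ρ) t) θ = 0)
    (h2 : m.eval₂ (eval₂RingHom (((algebraMap k K).comp (s : k →+* k)).comp ρ) t) y = 0) :
    ∃ φ : K →+* K, (∀ c, φ (algebraMap k K c) = algebraMap k K (s c)) ∧ φ t = t ∧ φ θ = y := by
  have inj : Function.Injective (eval₂RingHom ((algebraMap k K).comp (s : k →+* k)) t) := by
    rw [injective_iff_map_eq_zero]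
    intro p hp
    rw [coe_eval₂RingHom, ← eval₂_map, ← aeval_def] at hp
    exact (Polynomial.map_eq_zero_iff s.injective).1 (transcendental_iff.1 ht _ hp)
  let e := RatFunc.algEquivOfTranscendental t ht
  let τ := IntermediateField.AdjoinSimple.gen k t
  let φ₀ : k⟮t⟯ →+* K := (IsFractionRing.lift (K := RatFunc k) inj).comp e.symm.toRingEquiv.toRingHom
  have e0 : ∀ p : k[X], φ₀ (aeval τ p) = p.eval₂ ((algebraMap k K).comp (s : k →+* k)) t :=
    fun p => (congrArg (IsFractionRing.lift (K := RatFunc k) inj)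
      (RatFunc.algEquivOfTranscendental_symm_aeval t ht p)).trans
        (IsFractionRing.lift_algebraMap inj p)
  have e1 : ∀ c, φ₀ (algebraMap k k⟮t⟯ c) = algebraMap k K (s c) := fun c => by
    simpa using e0 (C c)
  have e2 : φ₀ τ = t := by simpa using e0 X
  let ν : R[X] →+* k⟮t⟯ := eval₂RingHom ((algebraMap k k⟮t⟯).comp ρ) τ
  have a1 : aeval θ (m.map ν) = 0 := by
    rw [aeval_def, eval₂_map, ← h1]
    congr 1
    exact RingHom.ext fun p => hom_eval₂ p _ (algebraMap k⟮t⟯ K) τ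
  have a2 : (m.map ν).eval₂ φ₀ y = 0 := by
    rw [eval₂_map, ← h2]
    congr 1
    refine RingHom.ext fun p => (hom_eval₂ p _ φ₀ τ).trans ?_
    rw [e2, coe_eval₂RingHom]
    congr 1
    exact RingHom.ext fun c => e1 _
  have hI : IsIntegral k⟮t⟯ θ := ⟨_, hm.map ν, a1⟩
  have hT : k⟮t⟯⟮θ⟯ = ⊤ := by
    rwa [← IntermediateField.adjoin_simple_adjoin_simple,
      IntermediateField.restrictScalars_eq_top_iff] at hg
  have a3 : m.map ν = minpoly k⟮t⟯ θ :=
    eq_of_monic_of_dvd_of_natDegree_le (minpoly.monic hI) (hm.map ν) (minpoly.dvd _ _ a1) (by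
      rw [hm.natDegree_map, ← hd, ← IntermediateField.adjoin.finrank hI, hT,
        IntermediateField.finrank_top'])
  have hs : Function.Surjective (aeval θ : k⟮t⟯[X] →ₐ[k⟮t⟯] K).toRingHom := by
    have := IntermediateField.adjoin_simple_toSubalgebra_of_isAlgebraic hI.isAlgebraic
    rw [hT, Algebra.adjoin_singleton_eq_range_aeval] at this
    exact fun x => (this ▸ trivial : x ∈ (aeval θ : k⟮t⟯[X] →ₐ[k⟮t⟯] K).range)
  obtain ⟨φ, hφ⟩ : ∃ φ : K →+* K, ∀ p : k⟮t⟯[X], φ (aeval θ p) = p.eval₂ φ₀ y :=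
    ⟨RingHom.liftOfSurjective _ hs ⟨eval₂RingHom φ₀ y, fun p hp => by
      obtain ⟨q, rfl⟩ := minpoly.dvd k⟮t⟯ θ hp
      rw [RingHom.mem_ker, map_mul, ← a3, coe_eval₂RingHom, a2, zero_mul]⟩,
      fun p => RingHom.liftOfSurjective_comp_apply _ hs _ p⟩
  have e3 : ∀ a, φ (algebraMap k⟮t⟯ K a) = φ₀ a := fun a => by simpa using hφ (C a)
  exact ⟨φ, fun c => (e3 (algebraMap k k⟮t⟯ c)).trans (e1 c), (e3 τ).trans e2, by simpa using hφ X⟩

theorem toSA {k K : Type} [Field k] [Field K] [Algebra k K] (s : k ≃+* k) {t θ : K}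
    (hg : IntermediateField.adjoin k {t, θ} = ⊤) (φ : K →+* K)
    (h1 : ∀ c, φ (algebraMap k K c) = algebraMap k K (s c)) (h2 : φ t = t) (h3 : ∃ z, φ z = θ) :
    ∃ g : SA k K, ∀ x, g.1 x = φ x := by
  have h4 : ∀ c, φ (algebraMap k K (s.symm c)) = algebraMap k K c := fun c => by
    rw [h1, s.apply_symm_apply]
  have hs : Function.Surjective φ := fun x => by
    have hx : x ∈ IntermediateField.adjoin k {t, θ} := hg ▸ trivial
    change x ∈ φ.fieldRange
    induction hx using IntermediateField.adjoin_induction with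
    | mem x hx =>
      rcases hx with rfl | rfl
      exacts [⟨_, h2⟩, h3]
    | algebraMap c => exact ⟨_, h4 c⟩
    | add x y _ _ hx hy => exact add_mem hx hy
    | inv x _ hx => exact inv_mem hx
    | mul x y _ _ hx hy => exact mul_mem hx hy
  refine ⟨⟨RingEquiv.ofBijective φ ⟨φ.injective, hs⟩, fun x => ⟨?_, ?_⟩⟩, fun _ => rfl⟩
  · rintro ⟨c, hc⟩
    exact ⟨s.symm c, φ.injective ((h4 c).trans hc)⟩
  · rintro ⟨c, rfl⟩
    exact ⟨s c, (h1 c).symm⟩

end AutA

open AutA in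
theorem aut : StmtAUT := by
  intro u F _ _ t M s γ g hs hc ht
  obtain ⟨y, hy⟩ := M.tot (g.1 M.θ)
  let α : (∀ i, kk i) →+* F × ∀ i, M.K i := ((algebraMap ℂ F).comp u.π).prod
    (RingHom.pi fun i => (algebraMap (kk i) (M.K i)).comp (Pi.evalRingHom kk i))
  let σ : (∀ i, kk i) →+* ∀ i, kk i := (RingEquiv.piCongrRight s).toRingHom
  let q : ∀ i, (F × ∀ i, M.K i) →+* M.K i := fun i => (Pi.evalRingHom M.K i).comp (RingHom.snd _ _)
  have hα : ∀ c, α c ∈ M.Γ := M.const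
  have m1 := ev_mem M.Γ (eval₂RingHom α _) (ev_mem M.Γ α hα M.ht) M.hθ M.m
  have m2 := ev_mem M.Γ (eval₂RingHom (α.comp σ) _) (ev_mem M.Γ _ (fun c => hα _) M.ht) hy M.m
  have z1 := (M.zero _ _ m1).2 (M.pres.mono fun i hi =>
    (hom_ev (q i) α _ _ M.m).trans hi.2.2.2)
  have z2 := (M.zero _ _ m2).1 (by
    have a1 := hom_ev (RingHom.fst _ _) α (t, M.t') (M.θ, M.θ') M.m
    have a2 := hom_ev (RingHom.fst _ _) (α.comp σ) (t, M.t') (g.1 M.θ, y) M.m
    have a3 := hom_ev (g.1 : F →+* F) ((RingHom.fst _ _).comp α) t M.θ M.m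
    have a4 : (g.1 : F →+* F).comp ((RingHom.fst _ _).comp α) =
        (RingHom.fst _ _).comp (α.comp σ) :=
      RingHom.ext fun c => (hc _).trans (congrArg _ (hs c).symm)
    rw [a4, show (g.1 : F →+* F) t = t from ht] at a3
    exact a2.trans (a3.symm.trans ((congrArg _ (a1.symm.trans z1)).trans (map_zero _))))
  obtain ⟨φ, hφ⟩ := ev_choose (α := fun i => M.K i →+* M.K i) (fun i => ⟨RingHom.id _⟩)
    ((M.pres.and z2).mono fun i hi => loc (Pi.evalRingHom kk i) (s i) M.mon hi.1.1 hi.1.2.1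
      hi.1.2.2.1 hi.1.2.2.2 ((hom_ev (q i) (α.comp σ) (t, M.t') (g.1 M.θ, y) M.m).symm.trans hi.2))
  have key : ∀ f, ∃ w, (f, w) ∈ M.Γ ∧ (g.1 f, fun i => φ i (w i)) ∈ M.Γ := fun f => by
    have hx : f ∈ IntermediateField.adjoin ℂ {t, M.θ} := M.gen ▸ trivial
    induction hx using IntermediateField.adjoin_induction with
    | mem x hx =>
      rcases hx with h | h
      · rw [h]
        exact ⟨_, M.ht, ht.symm ▸ M.congr M.ht (hφ.mono fun i hi => hi.2.1.symm)⟩
      · rw [h]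
        exact ⟨_, M.hθ, M.congr hy (hφ.mono fun i hi => hi.2.2.symm)⟩
    | algebraMap c =>
      obtain ⟨a, rfl⟩ := u.surj c
      refine ⟨_, M.const a, ?_⟩
      rw [hc, ← hs]
      exact M.congr (M.const _) (hφ.mono fun i hi => (hi.1 _).symm)
    | add x y _ _ hx hy =>
      obtain ⟨a, h1, h2⟩ := hx
      obtain ⟨b, h3, h4⟩ := hy
      exact ⟨a + b, M.Γ.add_mem h1 h3, (map_add g.1 x y).symm ▸ M.congr (M.Γ.add_mem h2 h4)
        (Eventually.of_forall fun i => (map_add (φ i) _ _).symm)⟩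
    | inv x _ hx =>
      obtain ⟨a, h1, h2⟩ := hx
      exact ⟨_, M.inv h1, (map_inv₀ g.1 x).symm ▸ M.congr (M.inv h2)
        (Eventually.of_forall fun i => (map_inv₀ (φ i) _).symm)⟩
    | mul x y _ _ hx hy =>
      obtain ⟨a, h1, h2⟩ := hx
      obtain ⟨b, h3, h4⟩ := hy
      exact ⟨a * b, M.Γ.mul_mem h1 h3, (map_mul g.1 x y).symm ▸ M.congr (M.Γ.mul_mem h2 h4)
        (Eventually.of_forall fun i => (map_mul (φ i) _ _).symm)⟩
  obtain ⟨z, -, hz⟩ := key (g.1.symm M.θ)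
  obtain ⟨g', hg'⟩ := ev_choose (α := fun i => SA (kk i) (M.K i)) (fun i => ⟨1⟩)
    ((M.pres.and (hφ.and ((M.eq_iff hz M.hθ).1 (g.1.apply_symm_apply _)))).mono fun i hi =>
      toSA (s i) hi.1.2.1 (φ i) hi.2.1.1 hi.2.1.2.1 ⟨_, hi.2.2⟩)
  refine ⟨g', fun f w hw => ?_, (hg'.and hφ).mono fun i hi c => (hi.1 _).trans (hi.2.1 c)⟩
  obtain ⟨w', h1, h2⟩ := key f
  exact M.congr h2 ((hg'.and ((M.eq_iff h1 hw).1 rfl)).mono fun i hi => by rw [hi.1, hi.2])

end Pool.Agent.MP_4f1c5b_al.H95
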