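import Pool.Agent.MP_4f1c5b_al.H1.Defs

/-!
The Euler characteristic of constructible sets, and of the complex points of a scheme.
-/

namespace Pool.Agent.MP_4f1c5b_al.H95

open AlgebraicGeometry CategoryTheory

/-- Constructible subsets of `ℂ ^ n`: Boolean combinations of zero sets of polynomials. -/
inductive Con {n : ℕ} : Set (Fin n → ℂ) → Prop
  | zero (p : MvPolynomial (Fin n) ℂ) : Con {x | MvPolynomial.eval x p = 0}
  | compl {S : Set (Fin n → ℂ)} : Con S → Con Sᶜ
  | union {S T : Set (Fin n → ℂ)} : Con S → Con T → Con (S ∪ T)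

/-- The properties that characterize the topological Euler characteristic of constructible sets:
a point has value `1`; additivity; a product with the affine line does not change the value;
a map all of whose fibres have `d` points multiplies the value by `d`. -/
structure IsEuler (χ : ∀ n : ℕ, Set (Fin n → ℂ) → ℤ) : Prop where
  pt : χ 0 Set.univ = 1
  add : ∀ (n : ℕ) (S T : Set (Fin n → ℂ)), Con S → Con T → Disjoint S T →
    χ n (S ∪ T) = χ n S + χ n T
  line : ∀ (n : ℕ) (B : Set (Fin n → ℂ)), Con B → χ (n + 1) {x | Fin.tail x ∈ B} = χ n B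
  cover : ∀ (n : ℕ) (S : Set (Fin (n + 1) → ℂ)) (B : Set (Fin n → ℂ)) (d : ℕ), Con S → Con B →
    (∀ x ∈ S, Fin.tail x ∈ B) →
    (∀ y ∈ B, {t : ℂ | (Fin.cons t y : Fin (n + 1) → ℂ) ∈ S}.encard = d) →
    χ (n + 1) S = d * χ n B

/-- A finite cover of a scheme over `o` by affine open sets, each with finitely many generators of
its coordinate ring over `o`. -/
structure Charts {o : Type} [CommRing o] (V : Over (Spec (CommRingCat.of o))) where
  /-- the number of charts -/
  m : ℕ
  /-- the open sets -/
  U : Fin m → V.left.Opens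
  aff : ∀ j, IsAffineOpen (U j)
  cov : ⨆ j, U j = ⊤
  /-- the number of coordinates -/
  n : Fin m → ℕ
  /-- the coordinates -/
  f : ∀ j, Fin (n j) → Γ(V.left, U j)
  gen : ∀ j, Subring.closure (Set.range ((Scheme.ΓSpecIso (CommRingCat.of o)).inv ≫
    V.hom.appLE ⊤ (U j) le_top).hom ∪ Set.range (f j)) = ⊤

/-- The coordinate vectors of the `F`-points that lie in the `j`-th chart and in no earlier one. -/
def Charts.piece {o : Type} [CommRing o] {V : Over (Spec (CommRingCat.of o))} (C : Charts V)
    (F : Type) [Field F] [Algebra o F] (j : Fin C.m) : Set (Fin (C.n j) → F) :=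
  {z | ∃ (x : Spec (CommRingCat.of F) ⟶ V.left) (h : ⊤ ≤ x ⁻¹ᵁ C.U j),
    x ≫ V.hom = Spec.map (CommRingCat.ofHom (algebraMap o F)) ∧
    (∀ j' < j, ¬ ⊤ ≤ x ⁻¹ᵁ C.U j') ∧
    ∀ l, (x.appLE (C.U j) ⊤ h ≫ (Scheme.ΓSpecIso (CommRingCat.of F)).hom).hom (C.f j l) = z l}

/-- `c` is the Euler characteristic of `V(ℂ)`: a function with the Euler properties and a system of
charts exist, and for every such function and every system of charts, the values on the pieces
add up to `c`. -/
def IsChi {o : Type} [CommRing o] [Algebra o ℂ] (V : Over (Spec (CommRingCat.of o))) (c : ℤ) :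
    Prop :=
  (∃ χ, IsEuler χ) ∧ Nonempty (Charts V) ∧
    ∀ χ, IsEuler χ → ∀ C : Charts V, ∑ j, χ (C.n j) (C.piece ℂ j) = c

end Pool.Agent.MP_4f1c5b_al.H95
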