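import Pool.Agent.MP_4f1c5b_al.H95.SpecA

/-!
Finite invariant sets, conjugates, and the number of constructible sets.
-/

namespace Pool.Agent.MP_4f1c5b_al.H95

open Set Cardinal

namespace Gc2A

instance cntP (E : Subfield ℂ) [Countable E] : Countable (Polynomial E) :=
  mk_le_aleph0_iff.1 (Polynomial.cardinalMk_le_max.trans (max_le mk_le_aleph0 le_rfl))

instance cntM (E : Subfield ℂ) [Countable E] (ι : Type) [Finite ι] :
    Countable (MvPolynomial ι E) :=
  mk_le_aleph0_iff.1 (MvPolynomial.cardinalMk_le_max.trans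
    (max_le (max_le mk_le_aleph0 mk_le_aleph0) le_rfl))

end Gc2A

open Gc2A

theorem alg (_h : StmtTYP) : StmtALG := by
  intro E _ A hA hi c hc
  by_contra hn
  have h1 : ∀ n : ℕ, c + n ∈ A := fun n => by
    have h2 : Transcendental E (c + n) := fun h =>
      hn (by simpa using h.sub (isAlgebraic_natCast (R := E) n))
    obtain ⟨θ, hθ⟩ := ext_aut (Polynomial.aeval (R := E) c).toRingHom
      (Polynomial.aeval (R := E) (c + n)).toRingHom (transcendental_iff_injective.1 hn)
      (transcendental_iff_injective.1 h2)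
    have h3 : θ c = c + n := by simpa using hθ Polynomial.X
    refine h3 ▸ hi θ (fun z hz => ?_) c hc
    show θ (algebraMap E ℂ ⟨z, hz⟩) = algebraMap E ℂ ⟨z, hz⟩
    simpa using hθ (Polynomial.C ⟨z, hz⟩)
  exact infinite_of_injective_forall_mem (f := fun n : ℕ => c + n)
    (fun a b h => by simpa using h) h1 hA

theorem conj : StmtCONJ := by
  intro E B hB ha
  refine ⟨⋃ c ∈ B, (minpoly E c).rootSet ℂ, hB.biUnion fun c _ => Polynomial.rootSet_finite _ _,
    fun c hc => mem_iUnion₂.2 ⟨c, hc, Polynomial.mem_rootSet.2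
      ⟨minpoly.ne_zero (ha c hc).isIntegral, minpoly.aeval _ _⟩⟩, fun z hz => ?_,
    fun θ hθ z hz => ?_⟩
  · obtain ⟨c, -, h⟩ := mem_iUnion₂.1 hz
    exact ⟨_, Polynomial.mem_rootSet.1 h⟩
  · obtain ⟨c, hc, h⟩ := mem_iUnion₂.1 hz
    obtain ⟨h1, h2⟩ := Polynomial.mem_rootSet.1 h
    let θ' : ℂ →ₐ[E] ℂ := { θ.toRingHom with commutes' := fun e => hθ e e.2 }
    refine mem_iUnion₂.2 ⟨c, hc, Polynomial.mem_rootSet.2 ⟨h1, ?_⟩⟩
    exact (Polynomial.aeval_algHom_apply θ' z _).trans (by rw [h2, map_zero])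

theorem cnt : StmtCNT := by
  intro E _ ι _
  refine (MeasureTheory.countable_generateSetAlgebra (countable_range
    fun p : MvPolynomial ι E => {x : ι → ℂ | MvPolynomial.aeval x p = 0})).mono fun S hS => ?_
  induction hS with
  | zero p hp =>
    obtain ⟨q, rfl⟩ : ∃ q : MvPolynomial ι E, q.map (algebraMap E ℂ) = p :=
      MvPolynomial.mem_range_map_iff_coeffs_subset.2 fun c hc => by
        obtain ⟨m, -, rfl⟩ := MvPolynomial.mem_coeffs_iff.1 hc
        exact ⟨⟨_, hp m⟩, rfl⟩
    exact .base _ ⟨q, by simp only [MvPolynomial.eval_map, MvPolynomial.aeval_def]⟩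
  | compl _ ih => exact .compl _ ih
  | union _ _ ih ih' => exact .union _ _ ih ih'

end Pool.Agent.MP_4f1c5b_al.H95
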