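import Pool.Agent.MP_4f1c5b_al.H95.KitU

/-!
The complex numbers as an ultraproduct of algebraic closures of finite fields; automorphisms,
constructible sets over a subfield, twisted fixed points.
-/

namespace Pool.Agent.MP_4f1c5b_al.H95

open Filter Set Cardinal

/-! ### Automorphisms of the complex numbers -/

theorem ext_equiv {R K L : Type} [CommRing R] [Field K] [Field L] [Algebra R K] [Algebra R L]
    [IsAlgClosed K] [IsAlgClosed L] [FaithfulSMul R K] [FaithfulSMul R L] (hR : #R ≤ ℵ₀)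
    (hK : ℵ₀ < #K) (hKL : #K = #L) :
    ∃ e : K ≃+* L, ∀ r, e (algebraMap R K r) = algebraMap R L r := by
  have := RingHom.domain_nontrivial (algebraMap R K)
  obtain ⟨s, hs⟩ := exists_isTranscendenceBasis R K
  obtain ⟨t, ht⟩ := exists_isTranscendenceBasis R L
  have h1 := IsAlgClosed.cardinal_eq_cardinal_transcendence_basis_of_aleph0_lt' _ hs hR hK
  have h2 := IsAlgClosed.cardinal_eq_cardinal_transcendence_basis_of_aleph0_lt' _ ht hR (hKL ▸ hK)
  obtain ⟨e⟩ := Cardinal.eq.1 (h1.symm.trans (hKL.trans h2))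
  have := IsAlgClosed.isAlgClosure_of_transcendence_basis _ hs
  have := IsAlgClosed.isAlgClosure_of_transcendence_basis _ ht
  let φ := hs.1.aevalEquiv.symm.trans ((MvPolynomial.renameEquiv R e).trans ht.1.aevalEquiv)
  refine ⟨IsAlgClosure.equivOfEquiv K L φ.toRingEquiv, fun r => ?_⟩
  exact (IsAlgClosure.equivOfEquiv_algebraMap K L φ.toRingEquiv (algebraMap R _ r)).trans
    (congrArg (algebraMap _ L) (φ.commutes r))

/-- Two embeddings of a countable ring differ by an automorphism. -/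
theorem ext_aut {R : Type} [CommRing R] [Countable R] (f g : R →+* ℂ) (hf : Function.Injective f)
    (hg : Function.Injective g) : ∃ θ : ℂ ≃+* ℂ, ∀ r, θ (f r) = g r :=
  @ext_equiv R ℂ ℂ _ _ _ f.toAlgebra g.toAlgebra _ _
    ((@faithfulSMul_iff_algebraMap_injective R ℂ _ _ f.toAlgebra).2 hf)
    ((@faithfulSMul_iff_algebraMap_injective R ℂ _ _ g.toAlgebra).2 hg) mk_le_aleph0
    (by rw [mk_complex]; exact aleph0_lt_continuum) rfl

theorem cl_countable {A : Set ℂ} (h : A.Countable) : Countable (Subfield.closure A) :=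
  mk_le_aleph0_iff.1 ((Subfield.cardinalMk_closure_le_max A).trans
    (max_le (le_aleph0_iff_set_countable.2 h) le_rfl))

/-- The automorphisms that fix a set pointwise. -/
def Au (A : Set ℂ) : Subgroup (ℂ ≃+* ℂ) where
  carrier := {θ | ∀ c ∈ A, θ c = c}
  one_mem' := fun _ _ => rfl
  mul_mem' := fun {a b} ha hb c hc => by
    show a (b c) = c
    rw [hb c hc, ha c hc]
  inv_mem' := fun {a} ha c hc => a.injective (by
    rw [ha c hc]; exact a.apply_symm_apply c)

theorem mem_Au {A : Set ℂ} {θ : ℂ ≃+* ℂ} : θ ∈ Au A ↔ ∀ c ∈ A, θ c = c := Iff.rfl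

theorem Au_anti {A B : Set ℂ} (h : A ⊆ B) : Au B ≤ Au A := fun _ hθ c hc => hθ c (h hc)

theorem Au_closure (A : Set ℂ) : Au (Subfield.closure A) = Au A :=
  le_antisymm (Au_anti Subfield.subset_closure) fun θ hθ _ hc =>
    RingHom.eqOn_field_closure (f := θ.toRingHom) (g := RingHom.id ℂ) hθ hc

theorem Au_union {A B : Set ℂ} {θ : ℂ ≃+* ℂ} : θ ∈ Au (A ∪ B) ↔ θ ∈ Au A ∧ θ ∈ Au B :=
  forall₂_or_left

/-- Invariance under the automorphisms that fix `A`. -/
def Inv (A : Set ℂ) {ι : Type} (S : Set (ι → ℂ)) : Prop := ∀ θ ∈ Au A, ∀ x ∈ S, θ ∘ x ∈ S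

theorem Inv.iff {A : Set ℂ} {ι : Type} {S : Set (ι → ℂ)} (h : Inv A S) {θ : ℂ ≃+* ℂ}
    (hθ : θ ∈ Au A) (x : ι → ℂ) : θ ∘ x ∈ S ↔ x ∈ S :=
  ⟨fun H => by
    have := h _ (inv_mem hθ) _ H
    rwa [show (θ⁻¹ : ℂ ≃+* ℂ) ∘ θ ∘ x = x from funext fun l => θ.symm_apply_apply _] at this,
  h θ hθ x⟩

/-! ### Constructible sets over a subfield -/

/-- Constructible sets defined over `E`. -/
inductive ConE (E : Subfield ℂ) {ι : Type} : Set (ι → ℂ) → Prop
  | zero (p : MvPolynomial ι ℂ) (hp : ∀ m, p.coeff m ∈ E) : ConE E {x | MvPolynomial.eval x p = 0}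
  | compl {S : Set (ι → ℂ)} : ConE E S → ConE E Sᶜ
  | union {S T : Set (ι → ℂ)} : ConE E S → ConE E T → ConE E (S ∪ T)

namespace ConE

variable {E E' : Subfield ℂ} {ι ι' : Type} {S T : Set (ι → ℂ)}

theorem mono (h : ConE E S) (hE : E ≤ E') : ConE E' S := by
  induction h with
  | zero p hp => exact zero p fun m => hE (hp m)
  | compl _ ih => exact ih.compl
  | union _ _ ih ih' => exact ih.union ih'

theorem zero' (p : MvPolynomial ι E) : ConE E {x : ι → ℂ | MvPolynomial.aeval x p = 0} := by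
  have := zero (E := E) (p.map (algebraMap E ℂ)) fun m => by
    rw [MvPolynomial.coeff_map]; exact (p.coeff m).2
  simpa only [MvPolynomial.eval_map, MvPolynomial.aeval_def] using this

theorem univ : ConE E (Set.univ : Set (ι → ℂ)) := by simpa using zero' (E := E) (ι := ι) 0

theorem empty : ConE E (∅ : Set (ι → ℂ)) := by simpa using (univ (E := E) (ι := ι)).compl

theorem inter (h : ConE E S) (h' : ConE E T) : ConE E (S ∩ T) := by
  simpa using (h.compl.union h'.compl).compl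

theorem diff (h : ConE E S) (h' : ConE E T) : ConE E (S \ T) := h.inter h'.compl

theorem biUnion {κ : Type} {A : Set κ} (hA : A.Finite) {S : κ → Set (ι → ℂ)}
    (h : ∀ j ∈ A, ConE E (S j)) : ConE E (⋃ j ∈ A, S j) := by
  induction A, hA using Finite.induction_on with
  | empty => simpa using empty
  | insert _ _ ih =>
    rw [biUnion_insert]
    exact (h _ (mem_insert _ _)).union (ih fun j hj => h j (mem_insert_of_mem _ hj))

theorem biInter {κ : Type} {A : Set κ} (hA : A.Finite) {S : κ → Set (ι → ℂ)}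
    (h : ∀ j ∈ A, ConE E (S j)) : ConE E (⋂ j ∈ A, S j) := by
  simpa using (biUnion hA fun j hj => (h j hj).compl).compl

theorem iUnion {κ : Type} [Finite κ] {S : κ → Set (ι → ℂ)} (h : ∀ j, ConE E (S j)) :
    ConE E (⋃ j, S j) := by simpa using biUnion finite_univ fun j _ => h j

theorem iInter {κ : Type} [Finite κ] {S : κ → Set (ι → ℂ)} (h : ∀ j, ConE E (S j)) :
    ConE E (⋂ j, S j) := by simpa using biInter finite_univ fun j _ => h j

theorem eq (l l' : ι) : ConE E {x : ι → ℂ | x l = x l'} := by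
  have := zero' (E := E) (MvPolynomial.X l - MvPolynomial.X l')
  simpa only [map_sub, MvPolynomial.aeval_X, sub_eq_zero] using this

theorem eq_const (l : ι) {c : ℂ} (hc : c ∈ E) : ConE E {x : ι → ℂ | x l = c} := by
  have := zero' (E := E) (MvPolynomial.X l - MvPolynomial.C ⟨c, hc⟩)
  simp only [map_sub, MvPolynomial.aeval_X, MvPolynomial.aeval_C, sub_eq_zero] at this
  exact this

/-- Preimages under coordinate maps. -/
theorem comp (h : ConE E S) (φ : ι → ι') : ConE E {x : ι' → ℂ | x ∘ φ ∈ S} := by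
  induction h with
  | zero p hp =>
    obtain ⟨q, rfl⟩ : ∃ q : MvPolynomial ι E, q.map (algebraMap E ℂ) = p :=
      MvPolynomial.mem_range_map_iff_coeffs_subset.2 fun c hc => by
        obtain ⟨m, -, rfl⟩ := MvPolynomial.mem_coeffs_iff.1 hc
        exact ⟨⟨_, hp m⟩, rfl⟩
    simpa only [MvPolynomial.eval_map, MvPolynomial.aeval_def, MvPolynomial.eval₂_rename,
      mem_ofPred_eq] using zero' (q.rename φ)
  | compl _ ih => exact ih.compl
  | union _ _ ih ih' => exact ih.union ih'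

theorem inv (h : ConE E S) : Inv E S := by
  intro θ hθ x
  refine (?_ : θ ∘ x ∈ S ↔ x ∈ S).2
  induction h with
  | zero p hp =>
    have : MvPolynomial.eval (θ ∘ x) p = θ (MvPolynomial.eval x p) := by
      simp only [MvPolynomial.eval_eq, map_sum, map_mul, map_prod, map_pow, hθ _ (hp _),
        Function.comp]
    simp only [mem_ofPred_eq, this, map_eq_zero]
  | compl _ ih => exact not_congr ih
  | union _ _ ih ih' => exact or_congr ih ih'

theorem exists_finite (h : ConE E S) :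
    ∃ A : Set ℂ, A.Finite ∧ ∀ E' : Subfield ℂ, A ⊆ E' → ConE E' S := by
  induction h with
  | zero p hp =>
    refine ⟨insert 0 p.coeffs, p.coeffs.finite_toSet.insert 0, fun E' hE =>
      zero p fun m => hE ?_⟩
    by_cases h0 : p.coeff m = 0
    · exact Or.inl h0
    · exact Or.inr (MvPolynomial.coeff_mem_coeffs m h0)
  | compl _ ih => exact ih.imp fun _ h => ⟨h.1, fun E' hE => (h.2 E' hE).compl⟩
  | union _ _ ih ih' =>
    obtain ⟨A, h1, h2⟩ := ih
    obtain ⟨A', h1', h2'⟩ := ih'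
    exact ⟨A ∪ A', h1.union h1', fun E' hE =>
      (h2 E' (subset_union_left.trans hE)).union (h2' E' (subset_union_right.trans hE))⟩

theorem exists_inv (h : ConE E S) : ∃ A : Set ℂ, A.Finite ∧ Inv A S := by
  obtain ⟨A, h1, h2⟩ := h.exists_finite
  exact ⟨A, h1, fun θ hθ => (h2 _ Subfield.subset_closure).inv θ (Au_closure A ▸ hθ)⟩

theorem con {n : ℕ} {S : Set (Fin n → ℂ)} (h : ConE E S) : Con S := by
  induction h with
  | zero p hp => exact Con.zero p
  | compl _ ih => exact ih.compl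
  | union _ _ ih ih' => exact ih.union ih'

end ConE

theorem Con.conE {n : ℕ} {S : Set (Fin n → ℂ)} (h : Con S) : ConE ⊤ S := by
  induction h with
  | zero p => exact ConE.zero p fun _ => trivial
  | compl _ ih => exact ih.compl
  | union _ _ ih ih' => exact ih.union ih'

/-- The Euler axioms for sets defined over `E`, with values in a ring. -/
structure IsEulerE (E : Subfield ℂ) {R : Type} [CommRing R]
    (χ : ∀ n : ℕ, Set (Fin n → ℂ) → R) : Prop where
  pt : χ 0 Set.univ = 1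
  add : ∀ (n : ℕ) (S T : Set (Fin n → ℂ)), ConE E S → ConE E T → Disjoint S T →
    χ n (S ∪ T) = χ n S + χ n T
  line : ∀ (n : ℕ) (B : Set (Fin n → ℂ)), ConE E B → χ (n + 1) {x | Fin.tail x ∈ B} = χ n B
  cover : ∀ (n : ℕ) (S : Set (Fin (n + 1) → ℂ)) (B : Set (Fin n → ℂ)) (d : ℕ), ConE E S →
    ConE E B → (∀ x ∈ S, Fin.tail x ∈ B) →
    (∀ y ∈ B, {t : ℂ | (Fin.cons t y : Fin (n + 1) → ℂ) ∈ S}.encard = d) →
    χ (n + 1) S = d * χ n B

/-! ### Algebraic closures of prime fields -/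

/-- The `i`-th prime. -/
noncomputable def pr (i : ℕ) : ℕ := Nat.nth Nat.Prime i

instance (i : ℕ) : Fact (pr i).Prime := ⟨Nat.prime_nth_prime i⟩

theorem ev_pr (n : ℕ) : ∀ᶠ i in (uf : Filter ℕ), n ≤ pr i :=
  (ev_ge n).mono fun _ hi => hi.trans (Nat.nth_strictMono Nat.infinite_setOfPred_prime).le_apply

/-- The algebraic closure of the `i`-th prime field. -/
abbrev kk (i : ℕ) : Type := AlgebraicClosure (ZMod (pr i))

/-- The `e`-th power of the Frobenius. -/
noncomputable def fr (i e : ℕ) : kk i ≃+* kk i := iterateFrobeniusEquiv (kk i) (pr i) e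

theorem fr_apply (i e : ℕ) (x : kk i) : fr i e x = x ^ pr i ^ e := rfl

theorem fr_iter (i e n : ℕ) (x : kk i) : (fr i e)^[n] x = fr i (e * n) x := by
  induction n with
  | zero => simp [fr_apply]
  | succ n ih => rw [Function.iterate_succ_apply', ih, fr_apply, fr_apply, fr_apply, ← pow_mul,
      ← pow_add, Nat.mul_succ]

theorem fr_comm (i e e' : ℕ) (x : kk i) : fr i e (fr i e' x) = fr i e' (fr i e x) := by
  simp only [fr_apply, ← pow_mul, mul_comm]

theorem fr_mul_fix {i e : ℕ} {x : kk i} (h : fr i e x = x) (n : ℕ) : fr i (e * n) x = x := by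
  rw [← fr_iter]; exact Function.iterate_fixed h n

theorem fix_card (i : ℕ) {e : ℕ} (he : 0 < e) :
    {x : kk i | fr i e x = x}.Finite ∧ {x : kk i | fr i e x = x}.ncard = pr i ^ e := by
  classical
  have hp : (pr i).Prime := Fact.out
  have h1 : 1 < pr i ^ e := Nat.one_lt_pow he.ne' hp.one_lt
  have h0 := FiniteField.X_pow_card_sub_X_ne_zero (kk i) h1
  have hs : {x : kk i | fr i e x = x} =
      (Polynomial.X ^ pr i ^ e - Polynomial.X : Polynomial (kk i)).roots.toFinset := by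
    ext x
    simp [Polynomial.mem_roots h0, fr_apply, sub_eq_zero]
  rw [hs, ncard_coe_finset, Multiset.toFinset_card_of_nodup (Polynomial.nodup_roots
    (galois_poly_separable (pr i) _ (dvd_pow_self _ he.ne'))), IsAlgClosed.card_roots_eq_natDegree,
    FiniteField.X_pow_card_sub_X_natDegree_eq _ h1]
  exact ⟨Finset.finite_toSet _, rfl⟩

/-! ### Twisted fixed points -/

/-- The points of `W` on which `s` acts as the permutation `τ` of the coordinates. -/
def Fx {K ι : Type} (s : K → K) (τ : Equiv.Perm ι) (W : Set (ι → K)) : Set (ι → K) :=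
  {x ∈ W | s ∘ x = x ∘ τ}

theorem Fx_finite {ι : Type} [Finite ι] (i : ℕ) {e : ℕ} (he : 0 < e) (τ : Equiv.Perm ι)
    (W : Set (ι → kk i)) : (Fx (fr i e) τ W).Finite := by
  refine (Finite.pi' fun _ : ι => (fix_card i (Nat.mul_pos he (orderOf_pos τ))).1).subset
    fun x hx l => ?_
  have h : ∀ n l, (fr i e)^[n] (x l) = x ((τ ^ n) l) := fun n => by
    induction n with
    | zero => exact fun _ => rfl
    | succ n ih =>
      intro l
      rw [Function.iterate_succ_apply', ih, pow_succ']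
      exact congrFun hx.2 _
  show fr i _ (x l) = x l
  rw [← fr_iter, h, pow_orderOf_eq_one]
  rfl

/-- `S` is a torsor under `G` over its image in the coordinates `b`. -/
structure Tors {K ι : Type} {d : ℕ} (b : Fin d → ι) (G : Subgroup (Equiv.Perm ι))
    (S : Set (ι → K)) : Prop where
  fix : ∀ g ∈ G, ∀ j, g (b j) = b j
  inv : ∀ g ∈ G, ∀ x ∈ S, x ∘ g ∈ S
  free : ∀ g ∈ G, ∀ x ∈ S, x ∘ g = x → g = 1
  tr : ∀ x ∈ S, ∀ x' ∈ S, x ∘ b = x' ∘ b → ∃ g ∈ G, x' = x ∘ g

/-! ### The ultraproduct -/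

/-- A presentation of `ℂ` as the ultraproduct of the fields `kk i`. -/
structure UP where
  /-- the class of a sequence -/
  π : (∀ i, kk i) →+* ℂ
  surj : Function.Surjective π
  ker : ∀ a, π a = 0 ↔ ∀ᶠ i in (uf : Filter ℕ), a i = 0

namespace UP

variable (u : UP)

theorem eq (a b : ∀ i, kk i) : u.π a = u.π b ↔ ∀ᶠ i in (uf : Filter ℕ), a i = b i := by
  rw [← sub_eq_zero, ← map_sub, u.ker]
  simp only [Pi.sub_apply, sub_eq_zero]

/-- The ultraproduct of the underlying sets. -/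
noncomputable def ut : UT kk ℂ := ⟨u.π, u.surj, u.eq, fun _ => ⟨0⟩⟩

/-- The ultraproduct of the affine spaces. -/
noncomputable def v (ι : Type) [Finite ι] : UT (fun i => ι → kk i) (ι → ℂ) := u.ut.pi ι

theorem v_m {ι : Type} [Finite ι] (a : ∀ i, ι → kk i) (l : ι) :
    (u.v ι).m a l = u.π fun i => a i l := rfl

/-- The twist by an automorphism. -/
noncomputable def tw (θ : ℂ ≃+* ℂ) : UP :=
  ⟨θ.toRingHom.comp u.π, θ.surjective.comp u.surj, fun a => by
    rw [← u.ker]; exact θ.map_eq_zero_iff⟩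

theorem tw_π (θ : ℂ ≃+* ℂ) (a : ∀ i, kk i) : (u.tw θ).π a = θ (u.π a) := rfl

theorem tw_v {ι : Type} [Finite ι] (θ : ℂ ≃+* ℂ) (a : ∀ i, ι → kk i) :
    ((u.tw θ).v ι).m a = θ ∘ (u.v ι).m a := rfl

/-- The automorphisms `s i` induce `γ`. -/
def Ind (s : ∀ i, kk i ≃+* kk i) (γ : ℂ ≃+* ℂ) : Prop :=
  ∀ a, u.π (fun i => s i (a i)) = γ (u.π a)

theorem exists_ind (s : ∀ i, kk i ≃+* kk i) : ∃ γ, u.Ind s γ := by
  let e := RingEquiv.piCongrRight s
  have h : ∀ a, u.π (e a) = 0 ↔ u.π a = 0 := fun a => by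
    rw [u.ker, u.ker]
    exact eventually_congr (Eventually.of_forall fun i => (s i).map_eq_zero_iff)
  let g := u.π.liftOfSurjective u.surj ⟨u.π.comp e.toRingHom, fun a ha => (h a).2 ha⟩
  have hg : ∀ a, g (u.π a) = u.π (e a) := fun a => RingHom.liftOfSurjective_comp_apply _ _ _ a
  refine ⟨RingEquiv.ofBijective g ⟨g.injective, fun c => ?_⟩, fun a => (hg a).symm⟩
  obtain ⟨a, rfl⟩ := u.surj c
  exact ⟨u.π (e.symm a), by rw [hg, e.apply_symm_apply]⟩

theorem Ind.tw {u : UP} {s : ∀ i, kk i ≃+* kk i} {γ : ℂ ≃+* ℂ} (h : u.Ind s γ) (θ : ℂ ≃+* ℂ) :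
    (u.tw θ).Ind s (θ * γ * θ⁻¹) := fun a => by
  rw [tw_π, tw_π, h a]
  exact congrArg (fun c => θ (γ c)) (θ.symm_apply_apply _).symm

theorem ind_one : u.Ind (fun _ => 1) 1 := fun _ => rfl

variable {ι ι' : Type} [Finite ι] [Finite ι']

theorem hom_comp (φ : ι' → ι) (S : Set (ι → ℂ)) :
    UT.Hom (u.v ι) (u.v ι') S (· ∘ φ) fun _ => (· ∘ φ) := fun _ _ => rfl

theorem hom_coord (l : ι) (S : Set (ι → ℂ)) :
    UT.Hom (u.v ι) u.ut S (· l) fun _ => (· l) := fun _ _ => rfl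

theorem Ind.hom {u : UP} {s : ∀ i, kk i ≃+* kk i} {γ : ℂ ≃+* ℂ} (h : u.Ind s γ)
    (S : Set (ι → ℂ)) : UT.Hom (u.v ι) (u.v ι) S (γ ∘ ·) fun i => (s i ∘ ·) :=
  fun a _ => funext fun l => h fun i => a i l

theorem Ind.fx {u : UP} {s : ∀ i, kk i ≃+* kk i} {γ : ℂ ≃+* ℂ} (h : u.Ind s γ)
    {S : Set (ι → ℂ)} {W : ∀ i, Set (ι → kk i)} (hS : (u.v ι).Rep S W) (τ : Equiv.Perm ι) :
    (u.v ι).Rep (Fx γ τ S) fun i => Fx (s i) τ (W i) :=
  hS.sep_eq (h.hom S) (u.hom_comp τ S)

/-- Evaluation of polynomials commutes with the ultraproduct. -/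
theorem π_eval {o : Type} [CommRing o] (lam : ∀ i, o →+* kk i) (f : o →+* ℂ)
    (h : ∀ c, u.π (fun i => lam i c) = f c) (p : MvPolynomial ι o) (a : ∀ i, ι → kk i) :
    u.π (fun i => p.eval₂ (lam i) (a i)) = p.eval₂ f ((u.v ι).m a) := by
  induction p using MvPolynomial.induction_on with
  | C c => simpa using h c
  | add p q hp hq =>
    simp only [MvPolynomial.eval₂_add, ← hp, ← hq, ← map_add]; rfl
  | mul_X p l hp =>
    simp only [MvPolynomial.eval₂_mul, MvPolynomial.eval₂_X, ← hp, v_m, ← map_mul]; rfl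

theorem rep_zero {o : Type} [CommRing o] (lam : ∀ i, o →+* kk i) (f : o →+* ℂ)
    (h : ∀ c, u.π (fun i => lam i c) = f c) (p : MvPolynomial ι o) :
    (u.v ι).Rep {x | p.eval₂ f x = 0} fun i => {x | p.eval₂ (lam i) x = 0} := fun a => by
  rw [mem_ofPred_eq, ← u.π_eval lam f h, u.ker]; rfl

end UP

/-- Constructible sets are internal. -/
theorem ConE.int {E : Subfield ℂ} {ι : Type} [Finite ι] {S : Set (ι → ℂ)} (h : ConE E S)
    (u : UP) : (u.v ι).Int S := by
  induction h with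
  | zero p _ =>
    obtain ⟨q, rfl⟩ := MvPolynomial.map_surjective u.π u.surj p
    simpa only [MvPolynomial.eval_map] using
      (u.rep_zero (fun i => Pi.evalRingHom kk i) u.π (fun _ => rfl) q).int
  | compl _ ih => exact ih.compl
  | union _ _ ih ih' => exact ih.union ih'

theorem Tors.ev {u : UP} {ι : Type} [Finite ι] {d : ℕ} {b : Fin d → ι}
    {G : Subgroup (Equiv.Perm ι)} {S : Set (ι → ℂ)} {W : ∀ i, Set (ι → kk i)} (h : Tors b G S)
    (hS : (u.v ι).Rep S W) : ∀ᶠ i in (uf : Filter ℕ), Tors b G (W i) := by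
  have h1 : ∀ᶠ i in (uf : Filter ℕ), ∀ g : G, MapsTo (· ∘ g.1) (W i) (W i) :=
    eventually_all.2 fun g => hS.mapsTo hS (u.hom_comp g.1 S) (h.inv g.1 g.2)
  have h2 : ∀ᶠ i in (uf : Filter ℕ), ∀ g : G, ∀ x ∈ W i, x ∘ g.1 = x → g.1 = 1 :=
    eventually_all.2 fun g => hS.forall (P := fun _ x => x ∘ g.1 = x → g.1 = 1) fun a ha => by
      by_cases e : ∀ᶠ i in (uf : Filter ℕ), a i ∘ g.1 = a i
      · exact Eventually.of_forall fun _ _ => h.free g.1 g.2 _ ha (((u.v ι).eq _ _).2 e)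
      · exact (ev_not.2 e).mono fun _ hi h => absurd h hi
  have h3 := (hS.prod hS).forall (P := fun _ x => x.1 ∘ b = x.2 ∘ b → ∃ g ∈ G, x.2 = x.1 ∘ g)
    fun a ha => by
      by_cases e : ∀ᶠ i in (uf : Filter ℕ), (a i).1 ∘ b = (a i).2 ∘ b
      · obtain ⟨g, hg, e'⟩ := h.tr _ ha.1 _ ha.2 (((u.v (Fin d)).eq _ _).2 e)
        exact (((u.v ι).eq (fun i => (a i).2) fun i => (a i).1 ∘ g).1 e').mono
          fun _ hi _ => ⟨g, hg, hi⟩
      · exact (ev_not.2 e).mono fun _ hi h => absurd h hi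
  filter_upwards [h1, h2, h3] with i h1 h2 h3
  exact ⟨h.fix, fun g hg x hx => h1 ⟨g, hg⟩ hx, fun g hg => h2 ⟨g, hg⟩,
    fun x hx x' hx' => h3 (x, x') ⟨hx, hx'⟩⟩

/-- An ultraproduct together with powers of the Frobenius that fix a countable algebraically
closed subfield. -/
structure Ctx where
  /-- the ultraproduct -/
  u : UP
  /-- the exponents -/
  a : ℕ → ℕ
  /-- the subfield -/
  E : Subfield ℂ
  pos : ∀ i, 0 < a i
  cnt : Countable E
  alg : ∀ c : ℂ, IsAlgebraic E c → c ∈ E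
  fix : ∀ x : ∀ i, kk i, u.π x ∈ E → ∀ᶠ i in (uf : Filter ℕ), fr i (a i) (x i) = x i

namespace Ctx

variable (c : Ctx)

/-- The exponents of the highly divisible powers. -/
def e (i : ℕ) : ℕ := c.a i * i.factorial

/-- The highly divisible powers of the Frobenius. -/
noncomputable def σ (i : ℕ) : kk i ≃+* kk i := fr i (c.e i)

theorem e_pos (i : ℕ) : 0 < c.e i := Nat.mul_pos (c.pos i) i.factorial_pos

theorem fx_finite {ι : Type} [Finite ι] (i : ℕ) (τ : Equiv.Perm ι) (W : Set (ι → kk i)) :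
    (Fx (c.σ i) τ W).Finite := Fx_finite i (c.e_pos i) τ W

theorem exists_φ : ∃ γ ∈ Au c.E, c.u.Ind (fun i => fr i (c.a i)) γ := by
  obtain ⟨γ, h⟩ := c.u.exists_ind fun i => fr i (c.a i)
  refine ⟨γ, fun z hz => ?_, h⟩
  obtain ⟨x, rfl⟩ := c.u.surj z
  rw [← h, c.u.eq]
  exact c.fix x hz

theorem exists_σ : ∃ γ ∈ Au c.E, c.u.Ind c.σ γ := by
  obtain ⟨γ, h⟩ := c.u.exists_ind c.σ
  refine ⟨γ, fun z hz => ?_, h⟩
  obtain ⟨x, rfl⟩ := c.u.surj z
  rw [← h, c.u.eq]
  exact (c.fix x hz).mono fun i hi => fr_mul_fix hi _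

theorem q_one (l : ℕ) [Fact l.Prime] :
    ∀ᶠ i in (uf : Filter ℕ), ((pr i ^ c.e i : ℕ) : ZMod l) = 1 := by
  filter_upwards [ev_pr (l + 1), ev_ge l] with i h1 h2
  have hl : l.Prime := Fact.out
  have h3 : ((pr i : ℕ) : ZMod l) ≠ 0 := fun h => by
    have := (Nat.prime_dvd_prime_iff_eq hl Fact.out).1 ((ZMod.natCast_eq_zero_iff _ _).1 h)
    omega
  obtain ⟨m, hm⟩ : l - 1 ∣ c.e i :=
    (Nat.dvd_factorial (by have := hl.two_le; omega) (by omega)).mul_left _
  rw [Nat.cast_pow, hm, pow_mul, ZMod.pow_card_sub_one_eq_one h3, one_pow]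

theorem φ_inv {ι : Type} [Finite ι] {S : Set (ι → ℂ)} {W : ∀ i, Set (ι → kk i)}
    (h : Inv c.E S) (hS : (c.u.v ι).Rep S W) :
    ∀ᶠ i in (uf : Filter ℕ), MapsTo (fr i (c.a i) ∘ ·) (W i) (W i) := by
  obtain ⟨γ, h1, h2⟩ := c.exists_φ
  exact hS.mapsTo hS (h2.hom S) (h γ h1)

theorem σ_inv {ι : Type} [Finite ι] {S : Set (ι → ℂ)} {W : ∀ i, Set (ι → kk i)}
    (h : Inv c.E S) (hS : (c.u.v ι).Rep S W) :
    ∀ᶠ i in (uf : Filter ℕ), MapsTo (c.σ i ∘ ·) (W i) (W i) := by
  obtain ⟨γ, h1, h2⟩ := c.exists_σ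
  exact hS.mapsTo hS (h2.hom S) (h γ h1)

end Ctx

end Pool.Agent.MP_4f1c5b_al.H95
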