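import Pool.Agent.MP_4f1c5b_al.H95.Defs

/-!
Ultraproducts of sets: internal sets, saturation, transfer of finite cardinalities.
-/

namespace Pool.Agent.MP_4f1c5b_al.H95

open Filter Set

/-- The ultrafilter. -/
noncomputable def uf : Ultrafilter ℕ := hyperfilter ℕ

theorem ev_of_atTop {P : ℕ → Prop} (h : ∀ᶠ i in atTop, P i) : ∀ᶠ i in (uf : Filter ℕ), P i :=
  h.filter_mono (Nat.cofinite_eq_atTop ▸ hyperfilter_le_cofinite)

theorem ev_ge (n : ℕ) : ∀ᶠ i in (uf : Filter ℕ), n ≤ i := ev_of_atTop (eventually_ge_atTop n)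

theorem ev_not {P : ℕ → Prop} : (∀ᶠ i in (uf : Filter ℕ), ¬ P i) ↔ ¬ ∀ᶠ i in (uf : Filter ℕ), P i :=
  Ultrafilter.eventually_not

theorem ev_or {P Q : ℕ → Prop} : (∀ᶠ i in (uf : Filter ℕ), P i ∨ Q i) ↔
    (∀ᶠ i in (uf : Filter ℕ), P i) ∨ ∀ᶠ i in (uf : Filter ℕ), Q i := Ultrafilter.eventually_or

theorem ev_exists {ι : Type} [Finite ι] {P : ι → ℕ → Prop} :
    (∀ᶠ i in (uf : Filter ℕ), ∃ j, P j i) ↔ ∃ j, ∀ᶠ i in (uf : Filter ℕ), P j i := by
  refine ⟨fun h => ?_, fun ⟨j, h⟩ => h.mono fun i hi => ⟨j, hi⟩⟩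
  by_contra hn
  have h1 : ∀ᶠ i in (uf : Filter ℕ), ∀ j, ¬ P j i :=
    eventually_all.2 fun j => ev_not.2 fun hj => hn ⟨j, hj⟩
  obtain ⟨i, ⟨j, h2⟩, h3⟩ := (h.and h1).exists
  exact h3 j h2

/-- A sequence with values in a finite type is almost everywhere constant. -/
theorem ev_const {ι : Type} [Finite ι] (f : ℕ → ι) : ∃ j, ∀ᶠ i in (uf : Filter ℕ), f i = j :=
  ev_exists.1 (Eventually.of_forall fun i => ⟨f i, rfl⟩)

/-- A sequence with values almost everywhere in a finite set is almost everywhere constant. -/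
theorem ev_const_mem {ι : Type} {A : Set ι} (hA : A.Finite) {f : ℕ → ι}
    (h : ∀ᶠ i in (uf : Filter ℕ), f i ∈ A) : ∃ j ∈ A, ∀ᶠ i in (uf : Filter ℕ), f i = j := by
  have := hA.to_subtype
  obtain ⟨j, hj⟩ := (ev_exists (P := fun (j : A) i => f i = j)).1 (h.mono fun i hi => ⟨⟨_, hi⟩, rfl⟩)
  exact ⟨j, j.2, hj⟩

/-- Choice of witnesses. -/
theorem ev_choose {α : ℕ → Type} (ne : ∀ i, Nonempty (α i)) {P : ∀ i, α i → Prop}
    (h : ∀ᶠ i in (uf : Filter ℕ), ∃ x, P i x) :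
    ∃ a : ∀ i, α i, ∀ᶠ i in (uf : Filter ℕ), P i (a i) := by
  classical
  refine ⟨fun i => if H : ∃ x, P i x then H.choose else (ne i).some, h.mono fun i hi => ?_⟩
  beta_reduce
  rw [dif_pos hi]
  exact hi.choose_spec

/-- The witness principle. -/
theorem ev_forall {α : ℕ → Type} (ne : ∀ i, Nonempty (α i)) {P : ∀ i, α i → Prop}
    (h : ∀ a : ∀ i, α i, ∀ᶠ i in (uf : Filter ℕ), P i (a i)) :
    ∀ᶠ i in (uf : Filter ℕ), ∀ x, P i x := by
  by_contra hn
  obtain ⟨a, ha⟩ := ev_choose ne (P := fun i x => ¬ P i x)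
    ((ev_not.2 hn).mono fun i hi => not_forall.1 hi)
  obtain ⟨i, h1, h2⟩ := (ha.and (h a)).exists
  exact h1 h2

/-- `β` is the ultraproduct of the `α i`. -/
structure UT (α : ℕ → Type) (β : Type) where
  /-- the class of a sequence -/
  m : (∀ i, α i) → β
  surj : Function.Surjective m
  eq : ∀ a b, m a = m b ↔ ∀ᶠ i in (uf : Filter ℕ), a i = b i
  ne : ∀ i, Nonempty (α i)

namespace UT

variable {α α' : ℕ → Type} {β β' : Type} (T : UT α β) (T' : UT α' β')

/-- The sets `W i` represent `S`. -/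
def Rep (S : Set β) (W : ∀ i, Set (α i)) : Prop :=
  ∀ a, T.m a ∈ S ↔ ∀ᶠ i in (uf : Filter ℕ), a i ∈ W i

/-- Internal sets. -/
def Int (S : Set β) : Prop := ∃ W, T.Rep S W

/-- The set represented by the `W i`. -/
def lim (W : ∀ i, Set (α i)) : Set β := {b | ∃ a, T.m a = b ∧ ∀ᶠ i in (uf : Filter ℕ), a i ∈ W i}

/-- Powers. -/
noncomputable def pi (ι : Type) [Finite ι] : UT (fun i => ι → α i) (ι → β) where
  m a l := T.m fun i => a i l
  surj b := by
    choose a ha using fun l => T.surj (b l)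
    exact ⟨fun i l => a l i, funext ha⟩
  eq a b := by
    simp only [funext_iff, T.eq, eventually_all]
  ne i := ⟨fun _ => (T.ne i).some⟩

/-- Products. -/
def prod : UT (fun i => α i × α' i) (β × β') where
  m a := (T.m fun i => (a i).1, T'.m fun i => (a i).2)
  surj b := by
    obtain ⟨a, ha⟩ := T.surj b.1
    obtain ⟨a', ha'⟩ := T'.surj b.2
    exact ⟨fun i => (a i, a' i), Prod.ext ha ha'⟩
  eq a b := by
    simp only [Prod.ext_iff, T.eq, T'.eq, eventually_and]
  ne i := ⟨((T.ne i).some, (T'.ne i).some)⟩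

theorem rep_lim (W : ∀ i, Set (α i)) : T.Rep (T.lim W) W := fun a =>
  ⟨fun ⟨_, h1, h2⟩ => (((T.eq _ _).1 h1).and h2).mono fun _ h => h.1 ▸ h.2, fun h => ⟨a, rfl, h⟩⟩

theorem int_lim (W : ∀ i, Set (α i)) : T.Int (T.lim W) := ⟨W, T.rep_lim W⟩

theorem rep_univ : T.Rep univ fun _ => univ := fun _ => by simp

theorem rep_empty : T.Rep ∅ fun _ => ∅ := fun _ =>
  ⟨False.elim, fun h => h.exists.elim fun _ h => h⟩

theorem rep_single (a : ∀ i, α i) : T.Rep {T.m a} fun i => {a i} := fun b => T.eq b a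

variable {T T'} {S S' : Set β} {W W' : ∀ i, Set (α i)}

theorem Rep.int (h : T.Rep S W) : T.Int S := ⟨W, h⟩

theorem Rep.compl (h : T.Rep S W) : T.Rep Sᶜ fun i => (W i)ᶜ := fun a =>
  (not_congr (h a)).trans ev_not.symm

theorem Rep.inter (h : T.Rep S W) (h' : T.Rep S' W') : T.Rep (S ∩ S') fun i => W i ∩ W' i :=
  fun a => (and_congr (h a) (h' a)).trans eventually_and.symm

theorem Rep.union (h : T.Rep S W) (h' : T.Rep S' W') : T.Rep (S ∪ S') fun i => W i ∪ W' i :=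
  fun a => (or_congr (h a) (h' a)).trans ev_or.symm

theorem Rep.diff (h : T.Rep S W) (h' : T.Rep S' W') : T.Rep (S \ S') fun i => W i \ W' i :=
  h.inter h'.compl

theorem rep_iUnion {ι : Type} [Finite ι] {S : ι → Set β} {W : ι → ∀ i, Set (α i)}
    (h : ∀ j, T.Rep (S j) (W j)) : T.Rep (⋃ j, S j) fun i => ⋃ j, W j i := fun a => by
  simp only [mem_iUnion, ev_exists, h _ a]

theorem rep_iInter {ι : Type} [Finite ι] {S : ι → Set β} {W : ι → ∀ i, Set (α i)}
    (h : ∀ j, T.Rep (S j) (W j)) : T.Rep (⋂ j, S j) fun i => ⋂ j, W j i := fun a => by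
  simp only [mem_iInter, eventually_all, h _ a]

theorem Rep.congr (h : T.Rep S W) (e : ∀ᶠ i in (uf : Filter ℕ), W i = W' i) : T.Rep S W' :=
  fun a => (h a).trans (eventually_congr (e.mono fun _ hi => by rw [hi]))

theorem Rep.sub_iff (h : T.Rep S W) (h' : T.Rep S' W') :
    S ⊆ S' ↔ ∀ᶠ i in (uf : Filter ℕ), W i ⊆ W' i := by
  refine ⟨fun H => ev_forall T.ne (P := fun i x => x ∈ W i → x ∈ W' i) fun a => ?_, fun H b hb => ?_⟩
  · by_cases h1 : T.m a ∈ S
    · exact ((h' a).1 (H h1)).mono fun _ hi _ => hi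
    · exact ((h.compl a).1 h1).mono fun _ hi h2 => absurd h2 hi
  · obtain ⟨a, rfl⟩ := T.surj b
    exact (h' a).2 ((((h a).1 hb).and H).mono fun _ hi => hi.2 hi.1)

theorem Rep.eq_iff (h : T.Rep S W) (h' : T.Rep S' W') :
    S = S' ↔ ∀ᶠ i in (uf : Filter ℕ), W i = W' i := by
  simp only [Subset.antisymm_iff, h.sub_iff h', h'.sub_iff h, eventually_and]

theorem Rep.uniq (h : T.Rep S W) (h' : T.Rep S W') : ∀ᶠ i in (uf : Filter ℕ), W i = W' i :=
  (h.eq_iff h').1 rfl

theorem Rep.empty_iff (h : T.Rep S W) : S = ∅ ↔ ∀ᶠ i in (uf : Filter ℕ), W i = ∅ :=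
  h.eq_iff T.rep_empty

theorem Rep.disjoint_iff (h : T.Rep S W) (h' : T.Rep S' W') :
    Disjoint S S' ↔ ∀ᶠ i in (uf : Filter ℕ), Disjoint (W i) (W' i) := by
  simp only [disjoint_iff_inter_eq_empty, (h.inter h').empty_iff]

theorem Rep.nonempty_iff (h : T.Rep S W) :
    S.Nonempty ↔ ∀ᶠ i in (uf : Filter ℕ), (W i).Nonempty := by
  simp only [nonempty_iff_ne_empty, Ne, h.empty_iff, ev_not]

/-- The witness principle inside a represented set. -/
theorem Rep.forall (h : T.Rep S W) {P : ∀ i, α i → Prop}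
    (H : ∀ a, T.m a ∈ S → ∀ᶠ i in (uf : Filter ℕ), P i (a i)) :
    ∀ᶠ i in (uf : Filter ℕ), ∀ x ∈ W i, P i x :=
  ev_forall T.ne (P := fun i x => x ∈ W i → P i x) fun a => by
    by_cases h1 : T.m a ∈ S
    · exact (H a h1).mono fun _ hi _ => hi
    · exact ((h.compl a).1 h1).mono fun _ hi h2 => absurd h2 hi

/-- The maps `g i` induce `f` on `S`. -/
def Hom (T : UT α β) (T' : UT α' β') (S : Set β) (f : β → β') (g : ∀ i, α i → α' i) : Prop :=
  ∀ a, T.m a ∈ S → T'.m (fun i => g i (a i)) = f (T.m a)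

variable {f : β → β'} {g : ∀ i, α i → α' i} {R : Set β'} {V : ∀ i, Set (α' i)}

theorem Hom.mono (hf : Hom T T' S f g) (h : S' ⊆ S) : Hom T T' S' f g := fun a ha => hf a (h ha)

theorem Rep.preimage (hf : Hom T T' univ f g) (h : T'.Rep R V) :
    T.Rep (f ⁻¹' R) fun i => g i ⁻¹' V i := fun a => by
  rw [mem_preimage, ← hf a trivial, h]; rfl

theorem Rep.sep (h : T.Rep S W) (hf : Hom T T' S f g) (h' : T'.Rep R V) :
    T.Rep {x ∈ S | f x ∈ R} fun i => {x ∈ W i | g i x ∈ V i} := fun a => by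
  simp only [mem_ofPred_eq, eventually_and, ← h a]
  exact and_congr_right fun ha => by rw [← hf a ha, h']

theorem Rep.sep_eq (h : T.Rep S W) {f' : β → β'} {g' : ∀ i, α i → α' i} (hf : Hom T T' S f g)
    (hf' : Hom T T' S f' g') :
    T.Rep {x ∈ S | f x = f' x} fun i => {x ∈ W i | g i x = g' i x} := fun a => by
  simp only [mem_ofPred_eq, eventually_and, ← h a]
  exact and_congr_right fun ha => by rw [← hf a ha, ← hf' a ha, T'.eq]

theorem Rep.image (h : T.Rep S W) (hf : Hom T T' S f g) :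
    T'.Rep (f '' S) fun i => g i '' W i := fun b => by
  constructor
  · rintro ⟨x, hx, e⟩
    obtain ⟨a, rfl⟩ := T.surj x
    rw [← hf a hx, T'.eq] at e
    exact (((h a).1 hx).and e).mono fun i hi => ⟨a i, hi⟩
  · intro H
    obtain ⟨a, ha⟩ := ev_choose T.ne (P := fun i x => x ∈ W i ∧ g i x = b i) H
    have h1 := (h a).2 (ha.mono fun _ hi => hi.1)
    exact ⟨T.m a, h1, by rw [← hf a h1, T'.eq]; exact ha.mono fun _ hi => hi.2⟩

theorem Rep.prod (h : T.Rep S W) (h' : T'.Rep R V) :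
    (T.prod T').Rep (S ×ˢ R) fun i => W i ×ˢ V i := fun _ =>
  (and_congr (h _) (h' _)).trans eventually_and.symm

theorem Rep.mapsTo (h : T.Rep S W) (h' : T'.Rep R V) (hf : Hom T T' S f g) (H : MapsTo f S R) :
    ∀ᶠ i in (uf : Filter ℕ), MapsTo (g i) (W i) (V i) :=
  h.forall (P := fun i x => g i x ∈ V i) fun a ha => (h' _).1 (by rw [hf a ha]; exact H ha)

theorem Rep.injOn (h : T.Rep S W) (hf : Hom T T' S f g) (H : InjOn f S) :
    ∀ᶠ i in (uf : Filter ℕ), InjOn (g i) (W i) := by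
  have := (h.prod h).forall (P := fun i x => g i x.1 = g i x.2 → x.1 = x.2) fun a ha => by
    by_cases h1 : ∀ᶠ i in (uf : Filter ℕ), g i (a i).1 = g i (a i).2
    · have h2 := (T'.eq _ _).2 h1
      rw [hf _ ha.1, hf _ ha.2] at h2
      exact ((T.eq _ _).1 (H ha.1 ha.2 h2)).mono fun _ hi _ => hi
    · exact (ev_not.2 h1).mono fun _ hi h2 => absurd h2 hi
  exact this.mono fun i hi x hx y hy => hi (x, y) ⟨hx, hy⟩

theorem Rep.bijOn (h : T.Rep S W) (h' : T'.Rep R V) (hf : Hom T T' S f g) (H : BijOn f S R) :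
    ∀ᶠ i in (uf : Filter ℕ), BijOn (g i) (W i) (V i) := by
  filter_upwards [h.injOn hf H.injOn, ((h.image hf).eq_iff h').1 H.image_eq] with i h1 h2
  exact h2 ▸ h1.bijOn_image

theorem Int.compl (h : T.Int S) : T.Int Sᶜ := h.elim fun _ h => h.compl.int

theorem Int.inter (h : T.Int S) (h' : T.Int S') : T.Int (S ∩ S') :=
  h.elim fun _ h => h'.elim fun _ h' => (h.inter h').int

theorem Int.union (h : T.Int S) (h' : T.Int S') : T.Int (S ∪ S') :=
  h.elim fun _ h => h'.elim fun _ h' => (h.union h').int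

theorem Int.diff (h : T.Int S) (h' : T.Int S') : T.Int (S \ S') := h.inter h'.compl

theorem int_iUnion {ι : Type} [Finite ι] {S : ι → Set β} (h : ∀ j, T.Int (S j)) :
    T.Int (⋃ j, S j) := by
  choose W hW using h
  exact (rep_iUnion hW).int

theorem int_iInter {ι : Type} [Finite ι] {S : ι → Set β} (h : ∀ j, T.Int (S j)) :
    T.Int (⋂ j, S j) := by
  choose W hW using h
  exact (rep_iInter hW).int

theorem int_finite (hS : S.Finite) : T.Int S := by
  have := hS.to_subtype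
  rw [← iUnion_of_singleton_coe S]
  refine int_iUnion fun b => ?_
  obtain ⟨a, ha⟩ := T.surj b
  exact ha ▸ (T.rep_single a).int

/-- A finite set is represented by sets of the same size. -/
theorem Rep.encard_eq (h : T.Rep S W) (hS : S.Finite) :
    ∀ᶠ i in (uf : Filter ℕ), (W i).encard = S.encard := by
  have := hS.to_subtype
  choose a ha using fun b : S => T.surj b
  have h1 : T.Rep S fun i => ⋃ b : S, {a b i} := by
    have := rep_iUnion (T := T) fun b : S => T.rep_single (a b)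
    simp only [ha] at this
    rwa [iUnion_of_singleton_coe] at this
  have h2 : ∀ᶠ i in (uf : Filter ℕ), ∀ b b' : S, a b i = a b' i → b = b' := by
    refine eventually_all.2 fun b => eventually_all.2 fun b' => ?_
    by_cases e : b = b'
    · exact Eventually.of_forall fun _ _ => e
    · refine (ev_not.2 fun H => e (Subtype.ext ?_)).mono fun _ hi h3 => absurd h3 hi
      rw [← ha, ← ha, T.eq]; exact H
  filter_upwards [h.uniq h1, h2] with i h3 h4
  rw [h3, iUnion_singleton_eq_range, ← image_univ, (Function.Injective.injOn h4).encard_image,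
    encard_univ]
  rfl

theorem Rep.ncard_eq (h : T.Rep S W) (hS : S.Finite) :
    ∀ᶠ i in (uf : Filter ℕ), (W i).Finite ∧ (W i).ncard = S.ncard :=
  (h.encard_eq hS).mono fun i hi =>
    ⟨finite_of_encard_eq_coe (hi.trans hS.cast_ncard_eq.symm), by rw [ncard_def, hi, ncard_def]⟩

theorem Rep.finite_of_le (h : T.Rep S W) {n : ℕ}
    (H : ∀ᶠ i in (uf : Filter ℕ), (W i).encard ≤ n) : S.Finite := by
  by_contra hn
  obtain ⟨A, hA, hc⟩ := Infinite.exists_subset_ncard_eq hn (n + 1)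
  obtain ⟨V, hV⟩ := int_finite (T := T) hc.1
  obtain ⟨i, ⟨h1, h2⟩, h3⟩ := (((hV.sub_iff h).1 hA).and (hV.encard_eq hc.1) |>.and H).exists
  have := (encard_le_encard h1).trans h3
  rw [h2, ← hc.1.cast_ncard_eq, hc.2, Nat.cast_le] at this
  omega

/-- Transfer of finite cardinalities. -/
theorem Rep.encard_iff (h : T.Rep S W) (n : ℕ) :
    S.encard = n ↔ ∀ᶠ i in (uf : Filter ℕ), (W i).encard = n := by
  refine ⟨fun H => H ▸ h.encard_eq (finite_of_encard_eq_coe H), fun H => ?_⟩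
  obtain ⟨i, h1, h2⟩ := ((h.encard_eq (h.finite_of_le (H.mono fun _ hi => hi.le))).and H).exists
  exact h1.symm.trans h2

/-- Saturation: a decreasing sequence of nonempty internal sets has a common point. -/
theorem sat_seq {S : ℕ → Set β} (h : ∀ n, T.Int (S n)) (hne : ∀ n, (⋂ j ≤ n, S j).Nonempty) :
    (⋂ n, S n).Nonempty := by
  classical
  choose W hW using h
  let P : ℕ → ℕ → Prop := fun i n => (⋂ j ≤ n, W j i).Nonempty
  have h1 : ∀ n, ∀ᶠ i in (uf : Filter ℕ), P i n := fun n => by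
    obtain ⟨b, hb⟩ := hne n
    obtain ⟨a, rfl⟩ := T.surj b
    have : ∀ᶠ i in (uf : Filter ℕ), ∀ j ∈ Iic n, a i ∈ W j i :=
      (eventually_all_finite (finite_Iic n)).2 fun j hj => (hW j a).1 (mem_iInter₂.1 hb j hj)
    exact this.mono fun i hi => ⟨a i, mem_iInter₂.2 hi⟩
  obtain ⟨a, ha⟩ := ev_choose T.ne (P := fun i x => x ∈ ⋂ j ≤ Nat.findGreatest (P i) i, W j i)
    ((h1 0).mono fun i hi => Nat.findGreatest_spec (P := P i) (Nat.zero_le i) hi)
  refine ⟨T.m a, mem_iInter.2 fun n => (hW n a).2 ?_⟩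
  filter_upwards [ha, h1 n, ev_ge n] with i h2 h3 h4
  exact mem_iInter₂.1 h2 n (Nat.le_findGreatest h4 h3)

/-- Saturation: a countable cover of an internal set by internal sets has a finite subcover. -/
theorem sat (hS : T.Int S) {A : Set (Set β)} (hA : A.Countable) (h : ∀ B ∈ A, T.Int B)
    (hc : S ⊆ ⋃₀ A) : ∃ A' ⊆ A, A'.Finite ∧ S ⊆ ⋃₀ A' := by
  rcases A.eq_empty_or_nonempty with rfl | hne
  · exact ⟨∅, Subset.rfl, finite_empty, hc⟩
  obtain ⟨B, rfl⟩ := hA.exists_eq_range hne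
  by_contra hn
  obtain ⟨x, hx⟩ := sat_seq (S := fun n => S \ B n) (fun n => hS.diff (h _ ⟨n, rfl⟩)) fun n => by
    by_contra h1
    refine hn ⟨B '' Iic n, image_subset_range _ _, (finite_Iic n).image _, fun x hx => ?_⟩
    by_contra h2
    exact h1 ⟨x, mem_iInter₂.2 fun j hj => ⟨hx, fun h3 => h2 ⟨_, ⟨j, hj, rfl⟩, h3⟩⟩⟩
  obtain ⟨_, ⟨n, rfl⟩, h2⟩ := hc (mem_iInter.1 hx 0).1
  exact (mem_iInter.1 hx n).2 h2

/-- A countable internal set is finite. -/
theorem Int.finite_of_countable (hS : T.Int S) (hc : S.Countable) : S.Finite := by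
  obtain ⟨A, hA, h1, h2⟩ := sat hS (hc.image fun x => ({x} : Set β))
    (by rintro _ ⟨x, -, rfl⟩; exact int_finite (finite_singleton x))
    fun x hx => ⟨_, ⟨x, hx, rfl⟩, rfl⟩
  refine (h1.sUnion fun B hB => ?_).subset h2
  obtain ⟨x, -, rfl⟩ := hA hB
  exact finite_singleton x

end UT

end Pool.Agent.MP_4f1c5b_al.H95
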