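import Pool.Agent.MP_4f1c5b_al.H95.SpecA

/-! The number of base points with a given nontrivial Frobenius class vanishes modulo `l`. -/

namespace Pool.Agent.MP_4f1c5b_al.H95

open Filter Set

namespace SpA

theorem dvd_of_mul {l n N : ℕ} (hl : l.Prime) (hn : n ≠ 0)
    (h : l ^ (n.factorization l + 1) ∣ n * N) : l ∣ N := by
  by_contra hc
  exact Nat.pow_succ_factorization_not_dvd hn hl
    ((((Nat.Prime.coprime_iff_not_dvd hl).2 hc).pow_left _).dvd_of_dvd_mul_right h)

theorem dvd_order {Γ : Type} [Group Γ] {l m : ℕ} (hl : l.Prime) {u : Γ} (h : orderOf u ∣ l ^ m)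
    (hu : u ≠ 1) : l ∣ orderOf u := by
  obtain ⟨k, -, e⟩ := (Nat.dvd_prime_pow hl).1 h
  rw [e]
  refine dvd_pow_self l fun k0 => hu ?_
  rw [k0, pow_zero] at e
  exact orderOf_eq_one_iff.1 e

theorem exists_sylow {Γ : Type} [Group Γ] [Finite Γ] {l : ℕ} (hl : l.Prime) (Z : Subgroup Γ) :
    ∃ P : Subgroup Γ, P ≤ Z ∧ Nat.card P = l ^ (Nat.card Z).factorization l := by
  have := Fact.mk hl
  obtain ⟨P⟩ : Nonempty (Sylow l Z) := inferInstance
  refine ⟨(P : Subgroup Z).map Z.subtype, Subgroup.map_subtype_le _, ?_⟩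
  rw [Subgroup.card_map_of_injective Z.subtype_injective, P.card_eq_multiplicity]

end SpA

open SpA in
theorem sp (h1 : StmtSPA) (h2 : StmtSPB) (h3 : StmtSPC) : StmtSP := by
  classical
  intro c l d hl hS ι _ b G S W hC hT hR h hh h0
  set Z : Subgroup (Equiv.Perm ι) := G ⊓ Subgroup.centralizer {h} with hZ
  have key : ∀ᶠ i in (uf : Filter ℕ),
      l ^ ((Nat.card Z).factorization l + 1) ∣ (Fx (c.σ i) h (W i)).ncard := by
    by_cases ho : l ∣ orderOf h
    · exact h1 c l d ι b G S W hl hC hT hR h hh ho _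
    obtain ⟨P, hP, hc⟩ := exists_sylow hl Z
    have := Fintype.ofFinite P
    have od : ∀ u ∈ P, orderOf u ∣ l ^ (Nat.card Z).factorization l := fun u hu =>
      hc ▸ Subgroup.orderOf_dvd_natCard P hu
    have cm : ∀ u ∈ P, u * h = h * u := fun u hu =>
      ((Subgroup.mem_centralizer_iff.1 (hP hu).2) h rfl).symm
    have PG : P ≤ G := hP.trans inf_le_left
    have e1 := h3 c l d hS ι b G S W hC hT hR P PG h hh
      (fun hp => ho (dvd_order hl (od h hp) h0)) cm
    have e2 : ∀ᶠ i in (uf : Filter ℕ), ∀ u : P, u ≠ 1 →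
        l ^ ((Nat.card Z).factorization l + 1) ∣ (Fx (c.σ i) (h * u.1) (W i)).ncard := by
      refine eventually_all.2 fun u => ?_
      by_cases hu : u = 1
      · exact Eventually.of_forall fun _ a => absurd hu a
      refine (h1 c l d ι b G S W hl hC hT hR (h * u.1) (G.mul_mem hh (PG u.2)) ?_ _).mono
        fun _ a _ => a
      have co : (orderOf h).Coprime (orderOf u.1) :=
        ((((Nat.Prime.coprime_iff_not_dvd hl).2 ho).pow_left _).symm).coprime_dvd_right (od _ u.2)
      rw [Commute.orderOf_mul_eq_mul_orderOf_of_coprime (cm _ u.2).symm co]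
      exact (dvd_order hl (od _ u.2) fun e => hu (Subtype.ext e)).mul_left _
    filter_upwards [e1, e2] with i a a'
    rw [hc, ← pow_succ', ← Finset.add_sum_erase _ _ (Finset.mem_univ (1 : P))] at a
    have := (Nat.dvd_add_left (Finset.dvd_sum fun u hu => a' u (Finset.ne_of_mem_erase hu))).1 a
    simpa using this
  filter_upwards [key, hT.ev hR] with i a t
  rw [h2 _ ι d b G (W i) _ t h hh (c.fx_finite i h (W i))] at a
  exact dvd_of_mul hl Nat.card_pos.ne' a

end Pool.Agent.MP_4f1c5b_al.H95
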