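import Pool.Agent.MP_4f1c5b_al.H95.KitF

/-!
Statements: schemes, types over a countable subfield, torsors, the induction on the dimension of
the base, and the Euler characteristic modulo `l`.
-/

namespace Pool.Agent.MP_4f1c5b_al.H95

open Filter Set AlgebraicGeometry CategoryTheory IsLocalRing NumberField

/-! ### Schemes, Witt vectors, existence of the ultraproduct -/

/-- The pieces are zero sets, uniformly in the field. -/
def StmtSCH1 : Prop := ∀ (o : Type) [CommRing o] [IsNoetherianRing o]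
  (V : Over (Spec (CommRingCat.of o))) (C : Charts V) (j : Fin C.m),
  ∃ J : Finset (MvPolynomial (Fin (C.n j)) o), ∀ (F : Type) [Field F] [Algebra o F],
    C.piece F j = {z | ∀ p ∈ J, MvPolynomial.aeval z p = 0}

/-- Counting points through the pieces. -/
def StmtSCH2 : Prop := ∀ (o : Type) [CommRing o] (V : Over (Spec (CommRingCat.of o)))
  (C : Charts V) (F : Type) [Field F] [Finite F] [Algebra o F],
  H1.cnt V F = ∑ j, (C.piece F j).ncard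

/-- Charts exist. -/
def StmtCH : Prop := ∀ (o : Type) [CommRing o] (V : Over (Spec (CommRingCat.of o))),
  LocallyOfFiniteType V.hom → QuasiCompact V.hom → Nonempty (Charts V)

/-- Complete discrete valuation rings with a given residue field. -/
def StmtWITT : Prop := ∀ (k : Type) [Field k] [NumberField k], ∃ N : ℕ,
  ∀ (F : Type) [Field F] [Finite F] (lam : 𝓞 k →+* F), N ≤ ringChar F →
    ∃ (O : Type) (_ : CommRing O) (_ : IsDomain O) (_ : IsDiscreteValuationRing O)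
      (_ : CharZero O) (_ : Algebra (𝓞 k) O) (_ : IsAdicComplete (maximalIdeal O) O)
      (e : ResidueField O ≃+* F), ∀ a, e (algebraMap (𝓞 k) (ResidueField O) a) = lam a

/-- The ultraproduct exists, compatibly with a ring of integers. -/
def StmtUEX : Prop := ∀ (k : Type) [Field k] [NumberField k] [Algebra (𝓞 k) ℂ],
  ∃ (u : UP) (lam : ∀ i, 𝓞 k →+* kk i), ∀ a, u.π (fun i => lam i a) = algebraMap (𝓞 k) ℂ a

/-- The algebraic closure of a countable subfield. -/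
def StmtACL : Prop := ∀ (E : Subfield ℂ) [Countable E], ∃ κ : Subfield ℂ, Countable κ ∧
  (∀ c, c ∈ κ ↔ IsAlgebraic E c) ∧ ∀ c, IsAlgebraic κ c → c ∈ κ

/-- Contexts exist. -/
def StmtCTX : Prop := ∀ (u : UP) (A : Set ℂ), A.Countable → ∃ c : Ctx, c.u = u ∧ A ⊆ c.E

/-! ### Types over a countable subfield -/

/-- Tuples with the same ideal are conjugate. -/
def StmtTYP : Prop := ∀ (E : Subfield ℂ) [Countable E] (ι : Type) [Finite ι] (x y : ι → ℂ),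
  (∀ p : MvPolynomial ι E, MvPolynomial.aeval x p = 0 ↔ MvPolynomial.aeval y p = 0) →
    ∃ θ ∈ Au E, θ ∘ x = y

/-- Finite invariant sets consist of algebraic elements. -/
def StmtALG : Prop := ∀ (E : Subfield ℂ) [Countable E] (A : Set ℂ), A.Finite →
  (∀ θ ∈ Au E, ∀ c ∈ A, θ c ∈ A) → ∀ c ∈ A, IsAlgebraic E c

/-- Finite sets of algebraic elements lie in finite invariant sets. -/
def StmtCONJ : Prop := ∀ (E : Subfield ℂ) (B : Set ℂ), B.Finite → (∀ c ∈ B, IsAlgebraic E c) →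
  ∃ B' : Set ℂ, B'.Finite ∧ B ⊆ B' ∧ (∀ c ∈ B', IsAlgebraic E c) ∧ ∀ θ ∈ Au E, ∀ c ∈ B', θ c ∈ B'

/-- There are countably many constructible sets over a countable field. -/
def StmtCNT : Prop := ∀ (E : Subfield ℂ) [Countable E] (ι : Type) [Finite ι],
  {S : Set (ι → ℂ) | ConE E S}.Countable

/-- An internal set that misses a conjugacy class misses a constructible neighbourhood. -/
def StmtNBH : Prop := ∀ (u : UP) (E : Subfield ℂ) [Countable E] (ι : Type) [Finite ι]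
  (w : ι → ℂ) (Bd : Set (ι → ℂ)), (u.v ι).Int Bd → (∀ θ ∈ Au E, θ ∘ w ∉ Bd) →
    ∃ T, ConE E T ∧ w ∈ T ∧ Disjoint T Bd

/-- The same for pairs. -/
def StmtNBH2 : Prop := ∀ (u : UP) (E : Subfield ℂ) [Countable E] (ι : Type) [Finite ι]
  (w : ι → ℂ) (Bd : Set (ι ⊕ ι → ℂ)), (u.v (ι ⊕ ι)).Int Bd →
    (∀ θ ∈ Au E, ∀ θ' ∈ Au E, Sum.elim (θ ∘ w) (θ' ∘ w) ∉ Bd) →
      ∃ T, ConE E T ∧ w ∈ T ∧ ∀ x ∈ T, ∀ x' ∈ T, Sum.elim x x' ∉ Bd

/-- Internal invariant sets are constructible. -/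
def StmtGOOD : Prop := ∀ (u : UP) (E : Subfield ℂ) [Countable E] (ι : Type) [Finite ι]
  (S : Set (ι → ℂ)), (u.v ι).Int S → Inv E S → ConE E S

/-- A normal subgroup that contains the stabilizer of a finite set contains the stabilizer of a
finite set of algebraic elements. -/
def StmtOPEN : Prop := ∀ (E : Subfield ℂ) [Countable E] (H : Subgroup (ℂ ≃+* ℂ)) (A : Set ℂ),
  A.Finite → (∀ θ ∈ Au E, ∀ h ∈ H, θ * h * θ⁻¹ ∈ H) → (∀ θ ∈ Au E, θ ∈ Au A → θ ∈ H) →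
    ∃ B : Set ℂ, B.Finite ∧ (∀ c ∈ B, IsAlgebraic E c) ∧ ∀ θ ∈ Au E, θ ∈ Au B → θ ∈ H

/-! ### Torsors -/

/-- Orbit counting. -/
def StmtTRICK : Prop := ∀ (Y : Type) (X : Set Y) (φ : Y → Y) (l m n : ℕ), X.Finite → l.Prime →
  MapsTo φ X X → InjOn φ X → l ^ m ∣ n → (∀ x ∈ X, ∀ j, φ^[n * j] x = x → l ∣ j) →
    l ^ (m + 1) ∣ X.ncard

/-- Power sums separate orbits. -/
def StmtSEP : Prop := ∀ (ι : Type) [Fintype ι] (P : Subgroup (Equiv.Perm ι)) [Fintype P],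
  ∃ N : ℕ, ∀ x y : ι → ℂ, (∀ m : ι → Fin N, ∑ u : P, ∏ l, x (u.1 l) ^ (m l : ℕ) =
    ∑ u : P, ∏ l, y (u.1 l) ^ (m l : ℕ)) → ∃ u ∈ P, y = x ∘ u

/-- Free permutations: the twisted point count vanishes modulo `l`. -/
def SS (c : Ctx) (l d : ℕ) : Prop := ∀ (ι : Type) [Finite ι] (b : Fin d → ι) (τ : Equiv.Perm ι)
  (S : Set (ι → ℂ)) (W : ∀ i, Set (ι → kk i)), (∀ j, τ (b j) = b j) → ConE c.E S →
    (∀ x ∈ S, x ∘ τ ∈ S) → (∀ x ∈ S, x ∘ τ ≠ x) → (∀ y, {x ∈ S | x ∘ b = y}.Finite) →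
      (c.u.v ι).Rep S W → ∀ᶠ i in (uf : Filter ℕ), l ∣ (Fx (c.σ i) τ (W i)).ncard

/-- Torsors: the number of base points with a given nontrivial Frobenius class vanishes modulo
`l`. -/
def SP (c : Ctx) (l d : ℕ) : Prop := ∀ (ι : Type) [Finite ι] (b : Fin d → ι)
  (G : Subgroup (Equiv.Perm ι)) (S : Set (ι → ℂ)) (W : ∀ i, Set (ι → kk i)), ConE c.E S →
    Tors b G S → (c.u.v ι).Rep S W → ∀ h ∈ G, h ≠ 1 →
      ∀ᶠ i in (uf : Filter ℕ), l ∣ ((· ∘ b) '' Fx (c.σ i) h (W i)).ncard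

/-- Torsors: the sum of a function of the Frobenius class that vanishes at the identity. -/
def TS (c : Ctx) (l d : ℕ) : Prop := ∀ (ι : Type) [Finite ι] (b : Fin d → ι)
  (G : Subgroup (Equiv.Perm ι)) (S : Set (ι → ℂ)) (W : ∀ i, Set (ι → kk i))
  (f : ∀ i, (Fin d → kk i) → ZMod l) (Ψ : Equiv.Perm ι → ZMod l), ConE c.E S → Tors b G S →
    (c.u.v ι).Rep S W → Ψ 1 = 0 →
    (∀ᶠ i in (uf : Filter ℕ), ∀ g ∈ G, ∀ x ∈ Fx (c.σ i) g (W i), f i (x ∘ b) = Ψ g) →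
      ∀ᶠ i in (uf : Filter ℕ), ∑ᶠ y ∈ Fx (c.σ i) 1 ((· ∘ b) '' W i), f i y = 0

/-- Elements of order divisible by `l`. -/
def StmtSPA : Prop := ∀ (c : Ctx) (l d : ℕ) (ι : Type) [Finite ι] (b : Fin d → ι)
  (G : Subgroup (Equiv.Perm ι)) (S : Set (ι → ℂ)) (W : ∀ i, Set (ι → kk i)), l.Prime →
    ConE c.E S → Tors b G S → (c.u.v ι).Rep S W → ∀ h ∈ G, l ∣ orderOf h → ∀ m : ℕ,
      ∀ᶠ i in (uf : Filter ℕ), l ^ m ∣ (Fx (c.σ i) h (W i)).ncard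

/-- The fibres of the twisted fixed points over the base. -/
def StmtSPB : Prop := ∀ (K ι : Type) [Finite ι] (d : ℕ) (b : Fin d → ι)
  (G : Subgroup (Equiv.Perm ι)) (W : Set (ι → K)) (s : K → K), Tors b G W → ∀ h ∈ G,
    (Fx s h W).Finite → (Fx s h W).ncard =
      Nat.card (G ⊓ Subgroup.centralizer {h} : Subgroup (Equiv.Perm ι)) *
        ((· ∘ b) '' Fx s h W).ncard

/-- The quotient by a subgroup that commutes with `h`. -/
def StmtSPC : Prop := ∀ (c : Ctx) (l d : ℕ), SS c l d → ∀ (ι : Type) [Finite ι] (b : Fin d → ι)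
  (G : Subgroup (Equiv.Perm ι)) (S : Set (ι → ℂ)) (W : ∀ i, Set (ι → kk i)), ConE c.E S →
    Tors b G S → (c.u.v ι).Rep S W → ∀ (P : Subgroup (Equiv.Perm ι)) [Fintype P], P ≤ G →
      ∀ h ∈ G, h ∉ P → (∀ u ∈ P, u * h = h * u) → ∀ᶠ i in (uf : Filter ℕ),
        l * Nat.card P ∣ ∑ u : P, (Fx (c.σ i) (h * u.1) (W i)).ncard

def StmtSP : Prop := ∀ (c : Ctx) (l d : ℕ), l.Prime → SS c l d → SP c l d

def StmtTS : Prop := ∀ (c : Ctx) (l d : ℕ), SP c l d → TS c l d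

/-! ### The induction on the dimension of the base -/

/-- Curves: the twisted point count modulo `l` depends only on the action on a finite set of
algebraic elements, and vanishes for the trivial action. -/
def StmtCL : Prop := ∀ (ι : Type) [Finite ι] (b0 : ι) (τ : Equiv.Perm ι) (E : Subfield ℂ)
  [Countable E] (C : Set (ι → ℂ)) (l : ℕ) [Fact l.Prime], UP → ConE E C → τ b0 = b0 →
    (∀ x ∈ C, x ∘ τ ∈ C) → (∀ x ∈ C, x ∘ τ ≠ x) → (∀ t, {x ∈ C | x b0 = t}.Finite) →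
    ∃ (B : Set ℂ) (Ψ : (ℂ ≃+* ℂ) → ZMod l), B.Finite ∧ (∀ z ∈ B, IsAlgebraic E z) ∧
      (∀ γ ∈ Au E, ∀ γ' ∈ Au E, (∀ z ∈ B, γ z = γ' z) → Ψ γ = Ψ γ') ∧ Ψ 1 = 0 ∧
      ∀ (u : UP) (e : ℕ → ℕ) (γ : ℂ ≃+* ℂ) (W : ∀ i, Set (ι → kk i)), γ ∈ Au E →
        u.Ind (fun i => fr i (e i)) γ → (∀ i, 0 < e i) →
        (∀ᶠ i in (uf : Filter ℕ), ((pr i ^ e i : ℕ) : ZMod l) = 1) → (u.v ι).Rep C W →
          ∀ᶠ i in (uf : Filter ℕ), ((Fx (fr i (e i)) τ (W i)).ncard : ZMod l) = Ψ γ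

/-- Near `y`, the function `f` depends only on the Frobenius class in a torsor, and vanishes on
the trivial class. -/
def Loc (c : Ctx) {l d : ℕ} (f : ∀ i, (Fin d → kk i) → ZMod l) (y : Fin d → ℂ) : Prop :=
  ∃ (ι : Type) (_ : Finite ι) (b : Fin d → ι) (G : Subgroup (Equiv.Perm ι)) (T : Set (ι → ℂ))
    (Ψ : Equiv.Perm ι → ZMod l), ConE c.E T ∧ Tors b G T ∧ y ∈ (· ∘ b) '' T ∧ Ψ 1 = 0 ∧
      ∀ V, (c.u.v ι).Rep T V →
        ∀ᶠ i in (uf : Filter ℕ), ∀ g ∈ G, ∀ x ∈ Fx (c.σ i) g (V i), f i (x ∘ b) = Ψ g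

def StmtLOC : Prop := ∀ (c : Ctx) (l d : ℕ) [Fact l.Prime] (ι : Type) [Finite ι]
  (b : Fin (d + 1) → ι) (τ : Equiv.Perm ι) (S : Set (ι → ℂ)) (W : ∀ i, Set (ι → kk i)),
  (∀ j, τ (b j) = b j) → ConE c.E S → (∀ x ∈ S, x ∘ τ ∈ S) → (∀ x ∈ S, x ∘ τ ≠ x) →
    (∀ y, {x ∈ S | x ∘ b = y}.Finite) → (c.u.v ι).Rep S W → ∀ y : Fin d → ℂ,
      Loc c (fun i y => ((Fx (c.σ i) τ {x ∈ W i | x ∘ b ∘ Fin.succ = y}).ncard : ZMod l)) y

def StmtGLUE : Prop := ∀ (c : Ctx) (l d : ℕ), TS c l d → ∀ f : ∀ i, (Fin d → kk i) → ZMod l,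
  (∀ y, Loc c f y) → ∀ᶠ i in (uf : Filter ℕ), ∑ᶠ y ∈ Fx (c.σ i) 1 univ, f i y = 0

def StmtSTEP : Prop := ∀ (c : Ctx) (l d : ℕ), l.Prime → TS c l d → SS c l (d + 1)

def StmtBASE : Prop := ∀ (c : Ctx) (l : ℕ), SS c l 0

/-! ### The Euler characteristic modulo `l` -/

/-- Finite maps of constant degree. -/
def CV (c : Ctx) (l n : ℕ) : Prop := ∀ (S : Set (Fin (n + 1) → ℂ)) (B : Set (Fin n → ℂ)) (d : ℕ)
  (W : ∀ i, Set (Fin (n + 1) → kk i)) (V : ∀ i, Set (Fin n → kk i)), ConE c.E S → ConE c.E B →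
    (∀ x ∈ S, Fin.tail x ∈ B) →
    (∀ y ∈ B, {t : ℂ | (Fin.cons t y : Fin (n + 1) → ℂ) ∈ S}.encard = d) →
    (c.u.v _).Rep S W → (c.u.v _).Rep B V → ∀ᶠ i in (uf : Filter ℕ),
      ((Fx (c.σ i) 1 (W i)).ncard : ZMod l) = d * ((Fx (c.σ i) 1 (V i)).ncard : ZMod l)

def StmtCOV : Prop := ∀ (c : Ctx) (l n : ℕ), TS c l n → CV c l n

/-- The limit of the point counts modulo `l` satisfies the Euler axioms. -/
def EU (c : Ctx) (l : ℕ) : Prop := ∃ χ : ∀ n : ℕ, Set (Fin n → ℂ) → ZMod l, IsEulerE c.E χ ∧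
  ∀ (n : ℕ) (S : Set (Fin n → ℂ)) (W : ∀ i, Set (Fin n → kk i)), (c.u.v _).Rep S W →
    ∀ᶠ i in (uf : Filter ℕ), ((Fx (c.σ i) 1 (W i)).ncard : ZMod l) = χ n S

def StmtEUL : Prop := ∀ (c : Ctx) (l : ℕ), l.Prime → (∀ n, CV c l n) → EU c l

/-- The Euler axioms determine the values. -/
def StmtUNI : Prop := ∀ (E : Subfield ℂ) [Countable E], UP → ∀ (n : ℕ) (S : Set (Fin n → ℂ)),
  ConE E S → ∃ z : ℤ, ∀ (R : Type) [CommRing R] (χ : ∀ n : ℕ, Set (Fin n → ℂ) → R),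
    IsEulerE E χ → χ n S = z

/-- A function with the Euler axioms exists. -/
def StmtEXI : Prop := UP → (∀ (c : Ctx) (l : ℕ), l.Prime → EU c l) → ∃ χ, IsEuler χ

end Pool.Agent.MP_4f1c5b_al.H95
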