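import Pool.Agent.MP_4f1c5b_al.H95.SpecA
import Pool.Agent.MP_cce4c9_lc.H7.AllA

/-!
Statements: function fields over `ℂ`, their models in large characteristic, and the twisted point
count on a curve.
-/

namespace Pool.Agent.MP_4f1c5b_al.H95

open Filter Set WithZero Polynomial Module
open Pool.Agent.MP_cce4c9_lc.H87 Pool.Agent.MP_cce4c9_lc.H7
open scoped IntermediateField

/-! ### The action on torsion classes -/

section Act

variable {k F : Type} [Field k] [CommRing F] [Algebra k F] (l : ℕ)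

theorem actV_one : actV l (1 : SA k F) = LinearMap.id := by
  ext a
  obtain ⟨f, hf⟩ := Hl.mk_surj l a.1
  show actH l 1 a.1 = a.1
  rw [← hf]; rfl

theorem actV_mul (g g' : SA k F) : actV l (g * g') = (actV l g).comp (actV l g') := by
  ext a
  obtain ⟨f, hf⟩ := Hl.mk_surj l a.1
  show actH l (g * g') a.1 = actH l g (actH l g' a.1)
  rw [← hf]; rfl

end Act

/-- A tame automorphism moves a uniformizer at a fixed place to first order. -/
def StmtTAME : Prop := ∀ (k K : Type) [Field k] [IsAlgClosed k] [Field K] [Algebra k K],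
  IsFF k K → ∀ (r : ℕ) (g : SA k K), (∀ c, g.1 (algebraMap k K c) = algebraMap k K c) → g ≠ 1 →
    g ^ r = 1 → (r : k) ≠ 0 → ∀ (x : Place k K) (s : K), g • x = x → x.ord s = 1 →
      x.ord (g.1 s - s) = 1

/-- The tame Lefschetz formula modulo `l`. -/
def StmtT1 : Prop := ∀ (k K : Type) [Field k] [IsAlgClosed k] [Field K] [Algebra k K]
  (l p : ℕ) [Fact l.Prime] [Fact p.Prime] [CharP k p], IsFF k K → l ≠ p →
    ∀ (r : ℕ) (g : SA k K), (∀ c, g.1 (algebraMap k K c) = algebraMap k K c) → g ≠ 1 →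
      g ^ r = 1 → ¬ p ∣ r → {x : Place k K | g • x = x}.Finite ∧
        (({x : Place k K | g • x = x}.ncard : ℕ) : ZMod l) =
          2 - LinearMap.trace (ZMod l) (VV k K l) (actV l g⁻¹)

/-- The torsion classes form a finite set in every characteristic prime to `l`. -/
def StmtVFIN : Prop := ∀ (k K : Type) [Field k] [IsAlgClosed k] [Field K] [Algebra k K]
  (l : ℕ) [Fact l.Prime], IsFF k K → (l : k) ≠ 0 → Finite (VV k K l)

/-- Irreducibility passes to almost all factors. -/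
def StmtIRR : Prop := ∀ (u : UP) (m : (∀ i, kk i)[X][X]), m.Monic →
  Irreducible ((m.map (mapRingHom u.π)).map (algebraMap ℂ[X] (RatFunc ℂ))) →
    ∀ᶠ i in (uf : Filter ℕ), Irreducible
      ((m.map (mapRingHom (Pi.evalRingHom kk i))).map (algebraMap (kk i)[X] (RatFunc (kk i))))

/-! ### Models -/

/-- Function fields over the fields `kk i` whose ultraproduct contains `F` as a relatively
algebraically closed subfield. A pair `(f, w)` lies in `Γ` if the sequence `w` represents `f`. -/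
structure Mod (u : UP) (F : Type) [Field F] [Algebra ℂ F] (t : F) where
  /-- the function fields -/
  K : ℕ → Type
  [fld : ∀ i, Field (K i)]
  [alg : ∀ i, Algebra (kk i) (K i)]
  ff : ∀ i, IsFF (kk i) (K i)
  /-- the graph -/
  Γ : Subring (F × ∀ i, K i)
  tot : ∀ f, ∃ w, (f, w) ∈ Γ
  zero : ∀ f w, (f, w) ∈ Γ → (f = 0 ↔ ∀ᶠ i in (uf : Filter ℕ), w i = 0)
  nul : ∀ w : ∀ i, K i, (∀ᶠ i in (uf : Filter ℕ), w i = 0) → (0, w) ∈ Γ
  const : ∀ c : ∀ i, kk i,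
    (algebraMap ℂ F (u.π c), fun i => algebraMap (kk i) (K i) (c i)) ∈ Γ
  acl : ∀ (n : ℕ) (c : Fin n → F) (c' : Fin n → ∀ i, K i) (w : ∀ i, K i),
    (∀ j, (c j, c' j) ∈ Γ) →
    (∀ᶠ i in (uf : Filter ℕ), w i ^ n + ∑ j, c' j i * w i ^ (j : ℕ) = 0) → ∃ f, (f, w) ∈ Γ
  /-- the variable -/
  t' : ∀ i, K i
  /-- a primitive element -/
  θ : F
  /-- its representative -/
  θ' : ∀ i, K i
  /-- the common minimal polynomial -/
  m : (∀ i, kk i)[X][X]
  ht : (t, t') ∈ Γ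
  hθ : (θ, θ') ∈ Γ
  mon : m.Monic
  gen : IntermediateField.adjoin ℂ {t, θ} = ⊤
  pres : ∀ᶠ i in (uf : Filter ℕ), Transcendental (kk i) (t' i) ∧
    IntermediateField.adjoin (kk i) {t' i, θ' i} = ⊤ ∧
    finrank (kk i)⟮t' i⟯ (K i) = m.natDegree ∧
    m.eval₂ (eval₂RingHom ((algebraMap (kk i) (K i)).comp (Pi.evalRingHom kk i)) (t' i)) (θ' i) = 0

attribute [instance] Mod.fld Mod.alg

namespace Mod

variable {u : UP} {F : Type} [Field F] [Algebra ℂ F] {t : F} (M : Mod u F t)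
  {f f' : F} {w w' : ∀ i, M.K i}

theorem congr (h : (f, w) ∈ M.Γ) (e : ∀ᶠ i in (uf : Filter ℕ), w i = w' i) : (f, w') ∈ M.Γ := by
  have := M.Γ.add_mem h (M.nul (w' - w) (e.mono fun i hi => by simp [hi]))
  simpa using this

theorem eq_iff (h : (f, w) ∈ M.Γ) (h' : (f', w') ∈ M.Γ) :
    f = f' ↔ ∀ᶠ i in (uf : Filter ℕ), w i = w' i := by
  simpa only [Pi.sub_apply, sub_eq_zero] using M.zero (f - f') (w - w') (M.Γ.sub_mem h h')

theorem inv (h : (f, w) ∈ M.Γ) : (f⁻¹, fun i => (w i)⁻¹) ∈ M.Γ := by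
  by_cases h0 : f = 0
  · rw [h0, inv_zero]
    exact M.nul _ (((M.zero f w h).1 h0).mono fun i hi => by rw [hi, inv_zero])
  · obtain ⟨y, hy⟩ := M.tot f⁻¹
    refine M.congr hy (((M.eq_iff (M.Γ.mul_mem h hy) M.Γ.one_mem).1 (mul_inv_cancel₀ h0)).mono
      fun i hi => eq_inv_of_mul_eq_one_right hi)

/-- The genus is bounded. -/
def GB : Prop := ∃ g₀ : ℕ, ∀ᶠ i in (uf : Filter ℕ), ∀ g, IsGenus (kk i) (M.K i) g → g ≤ g₀

/-- Sequences with pole divisors of bounded degree represent elements of `F`. -/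
def Bdd : Prop := ∀ (n : ℕ) (w : ∀ i, M.K i), (∀ᶠ i in (uf : Filter ℕ),
  ∃ D : Dv (kk i) (M.K i), 0 ≤ D ∧ D.degree ≤ n ∧ w i ∈ LL D) → ∃ f, (f, w) ∈ M.Γ

/-- The automorphisms `g' i` induce `g`. -/
def Compat (g : SA ℂ F) (g' : ∀ i, SA (kk i) (M.K i)) : Prop :=
  ∀ f w, (f, w) ∈ M.Γ → (g.1 f, fun i => (g' i).1 (w i)) ∈ M.Γ

variable {M} {g h : SA ℂ F} {g' h' : ∀ i, SA (kk i) (M.K i)}

theorem Compat.mul (H : M.Compat g g') (H' : M.Compat h h') : M.Compat (g * h) (g' * h') :=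
  fun f w hw => H _ _ (H' f w hw)

theorem Compat.pow (H : M.Compat g g') (n : ℕ) : M.Compat (g ^ n) (g' ^ n) := by
  induction n with
  | zero => exact fun _ _ hw => hw
  | succ n ih => rw [pow_succ, pow_succ]; exact ih.mul H

theorem Compat.inv (H : M.Compat g g') : M.Compat g⁻¹ g'⁻¹ := fun f w hw => by
  obtain ⟨y, hy⟩ := M.tot (g⁻¹.1 f)
  refine M.congr hy (((M.eq_iff (H _ _ hy) hw).1 (g.1.apply_symm_apply f)).mono fun i hi => ?_)
  rw [← hi]
  exact ((g' i).1.symm_apply_apply _).symm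

/-- Automorphisms that fix the variable extend to the models. -/
def Aut (M : Mod u F t) : Prop := ∀ (s : ∀ i, kk i ≃+* kk i) (γ : ℂ ≃+* ℂ) (g : SA ℂ F),
  u.Ind s γ → (∀ c, g.1 (algebraMap ℂ F c) = algebraMap ℂ F (γ c)) → g.1 t = t →
    ∃ g' : ∀ i, SA (kk i) (M.K i), M.Compat g g' ∧ ∀ᶠ i in (uf : Filter ℕ),
      ∀ c, (g' i).1 (algebraMap (kk i) (M.K i) c) = algebraMap (kk i) (M.K i) (s i c)

/-- The traces on the torsion classes agree. -/
def Tr (M : Mod u F t) (l : ℕ) : Prop := ∀ (g : SA ℂ F) (g' : ∀ i, SA (kk i) (M.K i)),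
  M.Compat g g' → ∀ᶠ i in (uf : Filter ℕ),
    LinearMap.trace (ZMod l) (VV (kk i) (M.K i) l) (actV l (g' i)) =
      LinearMap.trace (ZMod l) (VV ℂ F l) (actV l g)

end Mod

/-- The places of `F` form the ultraproduct of the places of the models. -/
structure PT {u : UP} {F : Type} [Field F] [Algebra ℂ F] {t : F} (M : Mod u F t) where
  /-- the ultraproduct structure -/
  T : UT (fun i => Place (kk i) (M.K i)) (Place ℂ F)
  val : ∀ f w, (f, w) ∈ M.Γ → ∀ v (n : ℤ),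
    (T.m v).val f ≤ exp n ↔ ∀ᶠ i in (uf : Filter ℕ), (v i).val (w i) ≤ exp n

theorem lt_one_iff_le (x : ℤᵐ⁰) : x < 1 ↔ x ≤ exp (-1 : ℤ) := by
  by_cases h : x = 0
  · simp [h]
  · rw [← exp_log h, ← exp_zero, exp_lt_exp, exp_le_exp]; omega

namespace PT

variable {u : UP} {F : Type} [Field F] [Algebra ℂ F] {t : F} {M : Mod u F t} (P : PT M)
  {f : F} {w : ∀ i, M.K i}

theorem le_one (h : (f, w) ∈ M.Γ) (v : ∀ i, Place (kk i) (M.K i)) :
    (P.T.m v).val f ≤ 1 ↔ ∀ᶠ i in (uf : Filter ℕ), (v i).val (w i) ≤ 1 := P.val f w h v 0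

theorem lt_one (h : (f, w) ∈ M.Γ) (v : ∀ i, Place (kk i) (M.K i)) :
    (P.T.m v).val f < 1 ↔ ∀ᶠ i in (uf : Filter ℕ), (v i).val (w i) < 1 := by
  simpa only [lt_one_iff_le] using P.val f w h v (-1)

theorem ord (h : (f, w) ∈ M.Γ) (v : ∀ i, Place (kk i) (M.K i)) :
    ∀ᶠ i in (uf : Filter ℕ), (v i).ord (w i) = (P.T.m v).ord f := by
  by_cases h0 : f = 0
  · exact ((M.zero f w h).1 h0).mono fun i hi => by rw [hi, h0]; simp
  · have h1 := (P.T.m v).val_ne h0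
    filter_upwards [ev_not.2 fun e => h0 ((M.zero f w h).2 e),
      (P.val f w h v (-(P.T.m v).ord f)).1 (((P.T.m v).val_le_exp h1 _).2 (by omega)),
      ev_not.2 fun e => absurd (((P.T.m v).val_le_exp h1 _).1
        ((P.val f w h v (-(P.T.m v).ord f - 1)).2 e)) (by omega)] with i h2 h3 h4
    rw [(v i).val_le_exp ((v i).val_ne h2)] at h3 h4
    omega

theorem sub_lt (h : (f, w) ∈ M.Γ) (v : ∀ i, Place (kk i) (M.K i)) (c : ∀ i, kk i) :
    (P.T.m v).val (f - algebraMap ℂ F (u.π c)) < 1 ↔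
      ∀ᶠ i in (uf : Filter ℕ), (v i).val (w i - algebraMap (kk i) (M.K i) (c i)) < 1 :=
  P.lt_one (M.Γ.sub_mem h (M.const c)) v

theorem ev (h : (f, w) ∈ M.Γ) (v : ∀ i, Place (kk i) (M.K i)) (h1 : (P.T.m v).val f ≤ 1) :
    u.π (fun i => (v i).ev (w i)) = (P.T.m v).ev f :=
  (Place.ev_eq _ ((P.sub_lt h v _).2 (((P.le_one h v).1 h1).mono
    fun i hi => ev_spec (M.ff i) _ hi))).symm

theorem smul {g : SA ℂ F} {g' : ∀ i, SA (kk i) (M.K i)} (H : M.Compat g g')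
    (v : ∀ i, Place (kk i) (M.K i)) : P.T.m (fun i => g' i • v i) = g • P.T.m v := by
  refine Place.eq_of_le _ _ fun x hx => ?_
  obtain ⟨y, rfl⟩ := g.1.surjective x
  obtain ⟨z, hz⟩ := M.tot y
  rw [P.le_one (H _ _ hz)] at hx
  rw [smul_val_apply, P.le_one hz]
  simpa only [smul_val_apply] using hx

theorem fix {g : SA ℂ F} {g' : ∀ i, SA (kk i) (M.K i)} (H : M.Compat g g') {S : Set (Place ℂ F)}
    {W : ∀ i, Set (Place (kk i) (M.K i))} (h : P.T.Rep S W) :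
    P.T.Rep {v ∈ S | g • v = v} fun i => {v ∈ W i | g' i • v = v} :=
  h.sep_eq (T' := P.T) (f := (g • ·)) (f' := id) (fun v _ => P.smul H v) fun _ _ => rfl

end PT

def StmtPRE : Prop := ∀ (u : UP) (F : Type) [Field F] [Algebra ℂ F] (t : F),
  Transcendental ℂ t → FiniteDimensional ℂ⟮t⟯ F → Nonempty (Mod u F t)

def StmtGB : Prop := ∀ (u : UP) (F : Type) [Field F] [Algebra ℂ F] (t : F) (M : Mod u F t), M.GB

def StmtBDD : Prop := ∀ (u : UP) (F : Type) [Field F] [Algebra ℂ F] (t : F) (M : Mod u F t),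
  Transcendental ℂ t → M.Bdd

def StmtPLC : Prop := ∀ (u : UP) (F : Type) [Field F] [Algebra ℂ F] (t : F) (M : Mod u F t),
  IsFF ℂ F → M.GB → M.Bdd → Nonempty (PT M)

def StmtAUT : Prop := ∀ (u : UP) (F : Type) [Field F] [Algebra ℂ F] (t : F) (M : Mod u F t), M.Aut

def StmtVVT : Prop := ∀ (u : UP) (F : Type) [Field F] [Algebra ℂ F] (t : F) (M : Mod u F t)
  (l : ℕ) [Fact l.Prime], IsFF ℂ F → M.GB → M.Bdd → PT M → Finite (VV ℂ F l) → M.Tr l

/-- The whole transfer package. -/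
def StmtPK : Prop := ∀ (u : UP) (F : Type) [Field F] [Algebra ℂ F] (t : F) (l : ℕ)
  [Fact l.Prime], Transcendental ℂ t → FiniteDimensional ℂ⟮t⟯ F →
    ∃ M : Mod u F t, Nonempty (PT M) ∧ M.Aut ∧ M.Tr l

/-- The Lefschetz formula modulo `l` in characteristic zero. -/
def StmtT10 : Prop := ∀ (F : Type) [Field F] [Algebra ℂ F] (t : F) (l : ℕ) [Fact l.Prime], UP →
  Transcendental ℂ t → FiniteDimensional ℂ⟮t⟯ F → ∀ (r : ℕ) (g : SA ℂ F),
    (∀ c, g.1 (algebraMap ℂ F c) = algebraMap ℂ F c) → g.1 t = t → g ≠ 1 → 0 < r → g ^ r = 1 →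
      (({v : Place ℂ F | g • v = v}.ncard : ℕ) : ZMod l) =
        2 - LinearMap.trace (ZMod l) (VV ℂ F l) (actV l g⁻¹)

/-! ### Irreducible curves -/

section Curve

variable {ι F : Type} [Field F] [Algebra ℂ F]

/-- The elements `X l` generate the function field `F`, and `X b0` is a variable. -/
def Cv (X : ι → F) (b0 : ι) : Prop := IntermediateField.adjoin ℂ (range X) = ⊤ ∧
  Transcendental ℂ (X b0) ∧ FiniteDimensional ℂ⟮X b0⟯ F

theorem Cv.ff {X : ι → F} {b0 : ι} (h : Cv X b0) : IsFF ℂ F := ⟨_, h.2⟩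

/-- The curve with generic point `X`. -/
def Zs (X : ι → F) : Set (ι → ℂ) :=
  {z | ∀ p : MvPolynomial ι ℂ, MvPolynomial.aeval X p = 0 → MvPolynomial.eval z p = 0}

/-- `g` acts on the constants as `γ` and on the coordinates as `τ`. -/
def Lf (X : ι → F) (γ : ℂ ≃+* ℂ) (τ : Equiv.Perm ι) (g : SA ℂ F) : Prop :=
  (∀ c, g.1 (algebraMap ℂ F c) = algebraMap ℂ F (γ c)) ∧ ∀ l, g.1 (X l) = X (τ l)

/-- Over `c` the coordinates are regular and separate the places. -/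
def Gd (X : ι → F) (b0 : ι) (c : ℂ) : Prop :=
  (∀ v : Place ℂ F, v.val (X b0 - algebraMap ℂ F c) < 1 → ∀ l, v.val (X l) ≤ 1) ∧
    ∀ v v' : Place ℂ F, v.val (X b0 - algebraMap ℂ F c) < 1 →
      v'.val (X b0 - algebraMap ℂ F c) < 1 → (∀ l, v.ev (X l) = v'.ev (X l)) → v = v'

/-- The places over `T` and over infinity. -/
def bd (t : F) (T : Set ℂ) : Set (Place ℂ F) := {v | ∀ c ∉ T, ¬ v.val (t - algebraMap ℂ F c) < 1}

/-- The expected value of the twisted point count. -/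
noncomputable def psi (l : ℕ) (t : F) (T : Set ℂ) (g : SA ℂ F) : ZMod l :=
  2 - LinearMap.trace (ZMod l) (VV ℂ F l) (actV l g⁻¹) - ({v ∈ bd t T | g • v = v}.ncard : ℕ)

variable {X : ι → F} {b0 : ι} {γ γ' : ℂ ≃+* ℂ} {τ τ' : Equiv.Perm ι} {g g' : SA ℂ F}

theorem Lf.one : Lf X 1 1 1 := ⟨fun _ => rfl, fun _ => rfl⟩

theorem Lf.mul (h : Lf X γ τ g) (h' : Lf X γ' τ' g') : Lf X (γ * γ') (τ * τ') (g * g') :=
  ⟨fun c => (congrArg g.1 (h'.1 c)).trans (h.1 _), fun l => (congrArg g.1 (h'.2 l)).trans (h.2 _)⟩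

theorem Lf.inv (h : Lf X γ τ g) : Lf X γ⁻¹ τ⁻¹ g⁻¹ :=
  ⟨fun c => g.1.injective ((g.1.apply_symm_apply _).trans
      ((h.1 _).trans (congrArg _ (γ.apply_symm_apply c))).symm),
    fun l => g.1.injective ((g.1.apply_symm_apply _).trans
      ((h.2 _).trans (congrArg _ (τ.apply_symm_apply l))).symm)⟩

theorem Lf.pow (h : Lf X γ τ g) (n : ℕ) : Lf X (γ ^ n) (τ ^ n) (g ^ n) := by
  induction n with
  | zero => exact Lf.one
  | succ n ih => simpa only [pow_succ] using ih.mul h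

theorem Lf.uniq (hX : Cv X b0) (h : Lf X γ τ g) (h' : Lf X γ τ g') : g = g' := by
  refine Subtype.ext (RingEquiv.ext fun x => ?_)
  have hx : x ∈ IntermediateField.adjoin ℂ (range X) := hX.1 ▸ trivial
  induction hx using IntermediateField.adjoin_induction with
  | mem x hx => obtain ⟨l, rfl⟩ := hx; rw [h.2, h'.2]
  | algebraMap c => rw [h.1, h'.1]
  | add x y _ _ hx hy => rw [map_add, map_add, hx, hy]
  | inv x _ hx => rw [map_inv₀, map_inv₀, hx]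
  | mul x y _ _ hx hy => rw [map_mul, map_mul, hx, hy]

theorem Lf.val (h : Lf X γ τ g) (v : Place ℂ F) (l : ι) (c : ℂ) :
    (g • v).val (X (τ l) - algebraMap ℂ F (γ c)) = v.val (X l - algebraMap ℂ F c) := by
  rw [← h.1, ← h.2, ← map_sub, smul_val_apply]

theorem Lf.ev (hX : Cv X b0) (h : Lf X γ τ g) (v : Place ℂ F) {l : ι} (h1 : v.val (X l) ≤ 1) :
    (g • v).ev (X (τ l)) = γ (v.ev (X l)) :=
  Place.ev_eq _ ((h.val v l _).trans_lt (ev_spec hX.ff v h1))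

theorem Lf.gd (hX : Cv X b0) (h : Lf X γ 1 g) {c : ℂ} (H : Gd X b0 c) : Gd X b0 (γ c) := by
  have h1 : ∀ v : Place ℂ F, (g • v).val (X b0 - algebraMap ℂ F (γ c)) =
      v.val (X b0 - algebraMap ℂ F c) := fun v => h.val v b0 c
  refine ⟨fun v hv l => ?_, fun v v' hv hv' e => ?_⟩
  · obtain ⟨v, rfl⟩ := MulAction.surjective g v
    rw [show X l = g.1 (X l) from (h.2 l).symm, smul_val_apply]
    exact H.1 v (h1 v ▸ hv) l
  · obtain ⟨v, rfl⟩ := MulAction.surjective g v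
    obtain ⟨v', rfl⟩ := MulAction.surjective g v'
    rw [h1] at hv hv'
    rw [H.2 v v' hv hv' fun l => γ.injective
      ((h.ev hX v (H.1 v hv l)).symm.trans ((e l).trans (h.ev hX v' (H.1 v' hv' l))))]

end Curve

/-- Points and places. -/
def StmtPTS : Prop := ∀ (ι F : Type) [Finite ι] [Field F] [Algebra ℂ F] (X : ι → F) (b0 : ι),
  Cv X b0 → {c | ¬ Gd X b0 c}.Finite ∧
    (∀ z, z ∈ Zs X ↔ ∃ v : Place ℂ F, ∀ l, v.val (X l - algebraMap ℂ F (z l)) < 1) ∧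
    (∀ T : Set ℂ, T.Finite → (bd (X b0) T).Finite ∧ ∃ z ∈ Zs X, z b0 ∉ T) ∧ ConE ⊤ (Zs X)

/-- Automorphisms of the curve act on the function field; every function is fixed by the
automorphisms that fix finitely many constants. -/
def StmtLIFT : Prop := ∀ (ι F : Type) [Finite ι] [Field F] [Algebra ℂ F] (X : ι → F) (b0 : ι),
  Cv X b0 → (∀ (γ : ℂ ≃+* ℂ) (τ : Equiv.Perm ι),
    (∀ z, z ∈ Zs X ↔ γ ∘ z ∘ τ.symm ∈ Zs X) → ∃ g, Lf X γ τ g) ∧
    ∀ f : F, ∃ A : Set ℂ, A.Finite ∧ ∀ δ ∈ Au A, ∀ g, Lf X δ 1 g → g.1 f = f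

/-- The twisted point count on an irreducible curve. -/
def StmtCOUNT : Prop := ∀ (ι F : Type) [Finite ι] [Field F] [Algebra ℂ F] (X : ι → F) (b0 : ι)
  (l : ℕ) [Fact l.Prime] (T : Set ℂ) (u : UP) (e : ℕ → ℕ) (γ : ℂ ≃+* ℂ) (τ : Equiv.Perm ι)
  (g : SA ℂ F) (W : ∀ i, Set (ι → kk i)), Cv X b0 → T.Finite → (∀ c ∉ T, Gd X b0 c) →
    τ b0 = b0 → Lf X γ τ g → u.Ind (fun i => fr i (e i)) γ → (∀ i, 0 < e i) →
    (∀ᶠ i in (uf : Filter ℕ), ((pr i ^ e i : ℕ) : ZMod l) = 1) →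
    (u.v ι).Rep {z ∈ Zs X | z b0 ∉ T} W →
      ∀ᶠ i in (uf : Filter ℕ), ((Fx (fr i (e i)) τ (W i)).ncard : ZMod l) = psi l (X b0) T g

/-- Automorphisms that fix finitely many algebraic elements act trivially on the torsion classes
and on the boundary. -/
def StmtCOMP : Prop := ∀ (ι F : Type) [Finite ι] [Field F] [Algebra ℂ F] (X : ι → F) (b0 : ι)
  (l : ℕ) [Fact l.Prime] (E : Subfield ℂ) [Countable E] (T : Set ℂ), Cv X b0 → T.Finite →
    (∀ δ ∈ Au E, ∃ g, Lf X δ 1 g) → (∀ δ ∈ Au E, ∀ c ∈ T, δ c ∈ T) →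
    ∃ B : Set ℂ, B.Finite ∧ (∀ c ∈ B, IsAlgebraic E c) ∧ ∀ δ ∈ Au E, δ ∈ Au B → ∀ g,
      Lf X δ 1 g → actV l g = LinearMap.id ∧ ∀ v ∈ bd (X b0) T, g • v = v

/-- A free automorphism has expected value zero. -/
def StmtPSI : Prop := ∀ (ι F : Type) [Finite ι] [Field F] [Algebra ℂ F] (X : ι → F) (b0 : ι)
  (l : ℕ) [Fact l.Prime] (T : Set ℂ) (τ : Equiv.Perm ι) (g : SA ℂ F), UP → Cv X b0 → T.Finite →
    (∀ c ∉ T, Gd X b0 c) → τ b0 = b0 → Lf X 1 τ g → (∀ z ∈ Zs X, z b0 ∉ T → z ∘ τ ≠ z) →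
      psi l (X b0) T g = 0

/-- An irreducible curve. -/
structure Comp (ι : Type) (b0 : ι) where
  /-- the function field -/
  F : Type
  [fld : Field F]
  [alg : Algebra ℂ F]
  /-- the coordinates -/
  X : ι → F
  cv : Cv X b0

attribute [instance] Comp.fld Comp.alg

/-- Decomposition of a constructible set with finite fibres into irreducible curves. -/
def StmtDEC : Prop := ∀ (ι : Type) [Finite ι] (b0 : ι) (C : Set (ι → ℂ)), ConE ⊤ C →
  (∀ t, {x ∈ C | x b0 = t}.Finite) → ∃ (n : ℕ) (A : Fin n → Comp ι b0) (T : Set ℂ), T.Finite ∧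
    (∀ z, z b0 ∉ T → (z ∈ C ↔ ∃ j, z ∈ Zs (A j).X)) ∧
    (∀ z, z b0 ∉ T → ∀ j j', z ∈ Zs (A j).X → z ∈ Zs (A j').X → j = j') ∧
    ∀ (γ : ℂ ≃+* ℂ) (τ : Equiv.Perm ι), τ b0 = b0 → (∀ z, z ∈ C ↔ γ ∘ z ∘ τ.symm ∈ C) →
      ∀ j, ∃ j', ∀ z, z ∈ Zs (A j).X ↔ γ ∘ z ∘ τ.symm ∈ Zs (A j').X

end Pool.Agent.MP_4f1c5b_al.H95
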